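import Pool.Agent.MP_92f1cb_al.H21T.Spec

set_option autoImplicit false

namespace Pool.Agent.MP_92f1cb_al.H21T

open Pool.Agent.MP_92f1cb_al.H14 Pool.Agent.MP_92f1cb_al.H14C Module

namespace AsmR

section gen

variable {k G B : Type} [Field k] [Ring G] [Algebra k G] {β : Basis B k G} {σ : G →ₐ[k] G}
  {δ : End k G}

theorem pair_cor (hd : DG σ δ) {N L : Submodule k G} (h : Pair σ δ N L) {e : G}
    (he : Cl σ δ L e) : Pair σ δ (cor e N) (cor e L) := by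
  have s1 : ∀ a, e * a = a → e * σ a = σ a := fun a ha => by
    rw [← he.fix, ← map_mul, ha]
  have s2 : ∀ a, a * e = a → σ a * e = σ a := fun a ha => by
    rw [← he.fix, ← map_mul, ha]
  have d1 : ∀ a, e * a = a → e * δ a = δ a := fun a ha => by
    have := hd.leib e a
    rw [ha, he.cl, zero_mul, zero_add] at this
    exact this.symm
  have d2 : ∀ a, a * e = a → δ a * e = δ a := fun a ha => by
    have := hd.leib a e
    rw [ha, he.cl, mul_zero, add_zero] at this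
    exact this.symm
  have m1 : ∀ a c : G, e * a = a → e * (a * c) = a * c := fun a c ha => by rw [← mul_assoc, ha]
  have m2 : ∀ a c : G, c * e = c → a * c * e = a * c := fun a c hc => by rw [mul_assoc, hc]
  exact ⟨fun a ha c hc => mem_cor.2 ⟨⟨h.LL a ha.1.1 c hc.1.1, m1 a c ha.1.2⟩, m2 a c hc.2⟩,
    fun a ha c hc => mem_cor.2 ⟨⟨h.LN a ha.1.1 c hc.1.1, m1 a c ha.1.2⟩, m2 a c hc.2⟩,
    fun a ha c hc => mem_cor.2 ⟨⟨h.NL a ha.1.1 c hc.1.1, m1 a c ha.1.2⟩, m2 a c hc.2⟩,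
    fun a ha => mem_cor.2 ⟨⟨h.σL a ha.1.1, s1 a ha.1.2⟩, s2 a ha.2⟩,
    fun a ha => mem_cor.2 ⟨⟨h.σN a ha.1.1, s1 a ha.1.2⟩, s2 a ha.2⟩,
    fun a ha => mem_cor.2 ⟨⟨h.δL a ha.1.1, d1 a ha.1.2⟩, d2 a ha.2⟩,
    fun a ha => mem_cor.2 ⟨⟨h.δN a ha.1.1, d1 a ha.1.2⟩, d2 a ha.2⟩⟩

theorem cl_add {L : Submodule k G} {x y : G} (hx : Cl σ δ L x) (hy : Cl σ δ L y)
    (h1 : x * y = 0) (h2 : y * x = 0) : Cl σ δ L (x + y) :=
  ⟨L.add_mem hx.mem hy.mem, by rw [add_mul, mul_add, mul_add, hx.idem, hy.idem, h1, h2]; simp,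
    by rw [map_add, hx.fix, hy.fix], by rw [map_add, hx.cl, hy.cl, add_zero]⟩

theorem XW_map {X : Type} [AddCommGroup X] [Module k X] {N L : Submodule k G}
    (f : WW k B →ₗ[k] X) (V : Submodule k X)
    (h : ∀ n ∈ N, ∀ l : List G, (∀ a ∈ l, a ∈ L) → f (ww β (n :: l)) ∈ V) {W : WW k B}
    (hW : W ∈ XW β N L) : f W ∈ V :=
  (Submodule.span_le (p := V.comap f)).2 (by rintro _ ⟨n, hn, l, hl, rfl⟩; exact h n hn l hl) hW

theorem mem_XW {N L : Submodule k G} {n : G} (hn : n ∈ N) {l : List G} (hl : ∀ a ∈ l, a ∈ L) :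
    ww β (n :: l) ∈ XW β N L := Submodule.subset_span ⟨n, hn, l, hl, rfl⟩

theorem XW_mono {N L N' L' : Submodule k G} (h1 : N ≤ N') (h2 : L ≤ L') :
    XW β N L ≤ XW β N' L' := fun _ hW =>
  XW_map LinearMap.id _ (fun _ hn _ hl => mem_XW (h1 hn) fun a ha => h2 (hl a ha)) hW

theorem XO_le {N L : Submodule k G} : XO β σ N L ≤ XW β N L :=
  Submodule.span_mono fun _ ⟨n, hn, l, hl, _, e⟩ => ⟨n, hn, l, hl, e⟩

theorem zc_mul (hd : DG σ δ) {L : Submodule k G} (h : ∀ a ∈ L, ∀ c ∈ L, a * c ∈ L) :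
    ∀ a ∈ zc σ δ L, ∀ c ∈ zc σ δ L, a * c ∈ zc σ δ L := fun a ha c hc => by
  rw [mem_zc] at ha hc ⊢
  exact ⟨⟨h a ha.1.1 c hc.1.1, by rw [map_mul, ha.1.2, hc.1.2]⟩, by
    rw [hd.leib, ha.2, hc.2, zero_mul, mul_zero, add_zero]⟩

end gen

section two

variable {k G B G' B' : Type} [Field k] [Ring G] [Algebra k G] [Ring G'] [Algebra k G']
  {β : Basis B k G} {β' : Basis B' k G'} {φ : G →ₗ[k] G'}

theorem wm_XW (h1 : SWM) {N L : Submodule k G} {N' L' : Submodule k G'}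
    (hN : ∀ a ∈ N, φ a ∈ N') (hL : ∀ a ∈ L, φ a ∈ L') {W : WW k B} (hW : W ∈ XW β N L) :
    wm β β' φ W ∈ XW β' N' L' :=
  XW_map (wm β β' φ) _ (fun n hn l hl => by
    rw [(h1 k G B G' B' β β' φ).1, List.map_cons]
    refine mem_XW (hN n hn) fun a ha => ?_
    obtain ⟨c, hc, rfl⟩ := List.mem_map.1 ha
    exact hL c (hl c hc)) hW

theorem wm_LL (h1 : SWM) {n : ℕ} {W : WW k B} (hW : W ∈ LL k 1 B n) :
    wm β β' φ W ∈ LL k 1 B' n :=
  mem_of_supported' h1 hW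
where
  mem_of_supported' (h1 : SWM) {n : ℕ} {W : WW k B} (hW : W ∈ LL k 1 B n) :
      wm β β' φ W ∈ LL k 1 B' n := by
    rw [← piL_of_mem hW]
    clear hW
    induction W using ww_ind β with
    | hb l =>
      rw [piL_ww]
      split_ifs with e
      · rw [(h1 k G B G' B' β β' φ).1, ← e, ← List.length_map (f := φ)]
        exact ww_mem_LL β' _
      · rw [map_zero]; exact Submodule.zero_mem _
    | h0 => rw [map_zero, map_zero]; exact Submodule.zero_mem _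
    | hadd x y hx hy => rw [map_add, map_add]; exact Submodule.add_mem _ hx hy
    | hsmul c x hx => rw [map_smul, map_smul]; exact Submodule.smul_mem _ _ hx

theorem wm_inj (h1 : SWM) (hφ : Function.Injective φ) {W : WW k B} (h : wm β β' φ W = 0) :
    W = 0 := by
  obtain ⟨g, hg⟩ := φ.exists_leftInverse_of_injective (LinearMap.ker_eq_bot.2 hφ)
  have e : wm β' β g (wm β β' φ W) = W :=
    ww_ext β (f := wm β' β g ∘ₗ wm β β' φ) (g := LinearMap.id) (fun l => by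
      rw [LinearMap.comp_apply, (h1 k G B G' B' β β' φ).1, (h1 k G' B' G B β' β g).1,
        List.map_map]
      have : (g ∘ φ : G → G) = id := funext fun a => LinearMap.congr_fun hg a
      rw [this, List.map_id]
      rfl) W
  rw [← e, h, map_zero]

theorem wm_surj (h1 : SWM) {N L : Submodule k G} {N' L' : Submodule k G'}
    (hN : ∀ a ∈ N', ∃ c ∈ N, φ c = a) (hL : ∀ a ∈ L', ∃ c ∈ L, φ c = a) {W : WW k B'}
    (hW : W ∈ XW β' N' L') : ∃ W₀ ∈ XW β N L, wm β β' φ W₀ = W := by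
  refine XW_map LinearMap.id ((XW β N L).map (wm β β' φ)) (fun n hn l hl => ?_) hW
  obtain ⟨c, hc, rfl⟩ := hN n hn
  obtain ⟨l₀, h0, rfl⟩ : ∃ l₀ : List G, (∀ a ∈ l₀, a ∈ L) ∧ l₀.map φ = l := by
    induction l with
    | nil => exact ⟨[], by simp, rfl⟩
    | cons a l ih =>
      obtain ⟨l₀, h0, rfl⟩ := ih fun x hx => hl x (List.mem_cons_of_mem _ hx)
      obtain ⟨x, hx, rfl⟩ := hL a (hl a List.mem_cons_self)
      exact ⟨x :: l₀, fun y hy => (List.mem_cons.1 hy).elim (fun e => e ▸ hx) (h0 y), rfl⟩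
  exact ⟨_, mem_XW hc h0, by rw [(h1 k G B G' B' β β' φ).1]; rfl⟩

end two

section mx

variable {k A G B : Type} [Field k] [Ring A] [Algebra k A] [Ring G] [Algebra k G] {b : Base k A}
  (m : Mx b G)

/-- The multiplication table of the idempotents. -/
structure Tab : Prop where
  EE : ∀ i j, i ≠ j → m.E i * m.E j = 0
  Ey : ∀ i j, m.E i * m.y j = 0
  yE : ∀ i j, m.y j * m.E i = 0
  yy : ∀ i j, i ≠ j → m.y i * m.y j = 0

theorem tab (g2 : SG2) : Tab m := by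
  have h := (g2 k A G b m).2.2.1.ortho
  exact ⟨fun i j hij => h (i := Sum.inl i) (j := Sum.inl j) (by simpa using hij),
    fun i j => h (i := Sum.inl i) (j := Sum.inr j) (by simp),
    fun i j => h (i := Sum.inr j) (j := Sum.inl i) (by simp),
    fun i j hij => h (i := Sum.inr i) (j := Sum.inr j) (by simpa using hij)⟩

theorem cl_e (g2 : SG2) : Cl m.σ m.δ (fx m.p) m.e := by
  have t := tab m g2
  have c := (g2 k A G b m).1
  refine cl_add (cl_add (c 0) (c 1) (t.EE _ _ (by decide)) (t.EE _ _ (by decide))) (c 2) ?_ ?_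
  · rw [add_mul, t.EE _ _ (by decide), t.EE _ _ (by decide), add_zero]
  · rw [mul_add, t.EE _ _ (by decide), t.EE _ _ (by decide), add_zero]

theorem cl_f (g2 : SG2) : Cl m.σ m.δ (fx m.p) m.f :=
  cl_add ((g2 k A G b m).2.1 0) ((g2 k A G b m).2.1 1) ((tab m g2).yy _ _ (by decide))
    ((tab m g2).yy _ _ (by decide))

theorem Ef (g2 : SG2) : m.E 0 * m.f = 0 := by
  rw [Mx.f, mul_add, (tab m g2).Ey, (tab m g2).Ey, add_zero]

theorem fE (g2 : SG2) : m.f * m.E 0 = 0 := by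
  rw [Mx.f, add_mul, (tab m g2).yE, (tab m g2).yE, add_zero]

theorem cl_e' (g2 : SG2) : Cl m.σ m.δ (fx m.p) m.e' :=
  cl_add ((g2 k A G b m).1 0) (cl_f m g2) (Ef m g2) (fE m g2)

theorem eE (g2 : SG2) (i : Fin 3) : m.e * m.E i = m.E i ∧ m.E i * m.e = m.E i := by
  have t := (tab m g2).EE
  have c := fun i => ((g2 k A G b m).1 i).idem
  fin_cases i <;> simp [Mx.e, add_mul, mul_add, t, c]

theorem fy (g2 : SG2) (j : Fin 2) : m.f * m.y j = m.y j ∧ m.y j * m.f = m.y j := by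
  have t := (tab m g2).yy
  have c := fun i => ((g2 k A G b m).2.1 i).idem
  fin_cases j <;> simp [Mx.f, add_mul, mul_add, t, c]

theorem e'y (g2 : SG2) (j : Fin 2) : m.e' * m.y j = m.y j ∧ m.y j * m.e' = m.y j := by
  rw [Mx.e', add_mul, mul_add, (tab m g2).Ey, (tab m g2).yE, zero_add, zero_add]
  exact fy m g2 j

theorem e'E (g2 : SG2) : m.e' * m.E 0 = m.E 0 ∧ m.E 0 * m.e' = m.E 0 := by
  rw [Mx.e', add_mul, mul_add, Ef m g2, fE m g2, ((g2 k A G b m).1 0).idem, add_zero]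
  exact ⟨rfl, rfl⟩

theorem e'f (g2 : SG2) : m.e' * m.f = m.f ∧ m.f * m.e' = m.f := by
  rw [Mx.e', add_mul, mul_add, Ef m g2, fE m g2, (cl_f m g2).idem, zero_add]
  exact ⟨rfl, rfl⟩

theorem mem_VA {x : G} (hx : Cl m.σ m.δ (fx m.p) x) (h : m.e' * x = x ∧ x * m.e' = x) :
    x ∈ m.VA := mem_zc.2 ⟨⟨mem_cor.2 ⟨⟨hx.mem, h.1⟩, h.2⟩, hx.fix⟩, hx.cl⟩

variable {β : Basis B k G} {N : Submodule k G}

theorem kex (k1 : SK1) (k2 : SK2) (k3 : SK3) (g2 : SG2) (hd : DG m.σ m.δ) (hc : Calc β m.σ m.δ)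
    (hp : Pair m.σ m.δ N (fx m.p)) (c : k) :
    Ex (DK β m.σ m.δ c) (KW β N (fx m.p) m.e 1) ∧
      Ex (DK β m.σ m.δ c) (KW β N (fx m.p) m.e' 1) := by
  obtain ⟨cE, cy, coi, -, -, un⟩ := g2 k A G b m
  have cl : ∀ i, Cl m.σ m.δ (fx m.p) (Sum.elim m.E m.y i) := by
    rintro (i | j)
    · exact cE i
    · exact cy j
  constructor
  · have h1 : ∀ i, Ex (DK β m.σ m.δ c) (KW β N (fx m.p) m.e (m.E i)) := fun i =>
      k1 k G B β _ _ N _ _ _ c hd hc (cE i) (eE m g2 i).1 (eE m g2 i).2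
    refine k3 k G B _ β _ _ N _ _ (Sum.elim m.E m.y) c hd hc hp cl coi.complete ?_
    rintro (i | j)
    · exact h1 i
    · exact (k2 k G B _ β _ _ N _ _ _ _ _ _ _ _ _ c hd hc hp (cl_e m g2) (cy j) (cE _) (cE 0)
        (un j) (h1 0)).1 (h1 _)
  · have h0 : Ex (DK β m.σ m.δ c) (KW β N (fx m.p) m.e' (m.E 0)) :=
      k1 k G B β _ _ N _ _ _ c hd hc (cE 0) (e'E m g2).1 (e'E m g2).2
    have h1 : ∀ j, Ex (DK β m.σ m.δ c) (KW β N (fx m.p) m.e' (m.y j)) := fun j =>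
      k1 k G B β _ _ N _ _ _ c hd hc (cy j) (e'y m g2 j).1 (e'y m g2 j).2
    refine k3 k G B _ β _ _ N _ _ (Sum.elim m.E m.y) c hd hc hp cl coi.complete ?_
    rintro (i | j)
    · induction i using Fin.cases with
      | zero => exact h0
      | succ j =>
        exact (k2 k G B _ β _ _ N _ _ _ _ _ _ _ _ _ c hd hc hp (cl_e' m g2) (cy j) (cE _) (cE 0)
          (un j) h0).2 (h1 j)
    · exact h1 j

end mx

end AsmR

open AsmR in
theorem assemble (wm' : SWM) (calc' : SCalc) (adp : SAdp) (q : SQ) (gen : SGen) (k1 : SK1)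
    (k2 : SK2) (k3 : SK3) (tot : STot) (pf' : SPf) (sub : SSub) (tr : STr2) (gr : SGr2)
    (gl : SGl2) (base : SBase) (sa : SA) (sas : SAs) (mx : SMx) (g1 : SG1) (g2 : SG2) (g3 : SG3)
    (g4 : SG4) (g5 : SG5) (g6 : SG6) (g7 : SG7) (k : Type) [Field k] (hk : NonRoot k) :
    ∃ (R : Type) (_ : Ring R) (_ : Algebra k R) (_ : FiniteDimensional k R)
      (𝒜 : ℕ → Submodule k R) (_ : GradedAlgebra 𝒜) (e : Fin 2 → R),
      DegreeZeroSplit 𝒜 e ∧ HHVanishesAbove k R 0 ∧ ¬ ∃ D, GlDimLE R D := by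
  classical
  obtain ⟨A, _, _, ⟨b⟩⟩ := base k hk
  obtain ⟨G, _, _, ⟨m⟩⟩ := mx k A b
  obtain ⟨hd, pL, pN, hN, hfin⟩ := g1 k A G b m
  obtain ⟨cE, cy, -, hE0, hy0, -⟩ := g2 k A G b m
  obtain ⟨hι, ισ, ιd, ιp, ιq, hpf⟩ := g3 k A G b m
  obtain ⟨t1, t2, t3, t4⟩ := g5 k A G b m
  obtain ⟨r1, r2, r3, r4⟩ := g6 k A G b m
  obtain ⟨reps, φe, ρe, proj⟩ := g7 k A G b m
  have pL' := pair_cor hd pL (cl_e' m g2)
  have mulA : ∀ a ∈ m.VA, ∀ c ∈ m.VA, a * c ∈ m.VA := zc_mul hd pL'.LL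
  have fA : m.f ∈ m.VA := mem_VA m (cl_f m g2) (e'f m g2)
  have ff := (cl_f m g2).idem
  have unitA : ∀ a ∈ m.VA, (m.E 0 + m.f) * a = a ∧ a * (m.E 0 + m.f) = a := fun a ha =>
    ⟨ha.1.1.1.2, ha.1.1.2⟩
  have mulB : ∀ a ∈ m.VB, ∀ c ∈ m.VB, a * c ∈ m.VB := fun a ha c hc =>
    mem_cor.2 ⟨⟨mulA a ha.1.1 c hc.1.1, by rw [← mul_assoc, (mem_cor.1 ha).1.2]⟩, by
      rw [mul_assoc, (mem_cor.1 hc).2]⟩
  obtain ⟨R, _, _, ι, hR⟩ := sub k G m.VB m.f (mem_cor.2 ⟨⟨fA, ff⟩, ff⟩) mulB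
    fun a ha => ⟨ha.1.2, ha.2⟩
  have BA : m.VB ≤ m.VA := fun a ha => ha.1.1
  have Ac : m.VA ≤ cor m.e' (fx m.p) := fun a ha => ha.1.1
  have Aσ : m.VA ≤ fx m.σ.toLinearMap := fun a ha => ha.1.2
  have cL : ∀ (x : G) (V : Submodule k G), cor x V ≤ V := fun x V a ha => ha.1.1
  have finR : FiniteDimensional k R := by
    have hm : ∀ r, ι r ∈ fx m.p := fun r =>
      cL _ _ (Ac (BA (hR.range ▸ LinearMap.mem_range_self ι r)))
    exact FiniteDimensional.of_injective (ι.codRestrict _ hm) fun x y h =>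
      hR.inj (congrArg Subtype.val h)
  obtain ⟨𝒜, inst, e, he⟩ := gr k G R ι m.VB m.y m.gr 6 hR r1 t3 r2
    (fun n n' x _ z _ => r3 n n' x z)
    (fun i => ⟨mem_cor.2 ⟨⟨mem_VA m (cy i) (e'y m g2 i), (fy m g2 i).1⟩, (fy m g2 i).2⟩, hy0 i,
      (cy i).idem, r4 i⟩) ((tab m g2).yy _ _ (by decide)) ((tab m g2).yy _ _ (by decide)) t4
  let α := Module.Free.chooseBasis k A
  have cA := calc' k A _ α b.σ b.d b.dg
  have bas : ∀ D, ∃ (B : Type) (β : Basis B k G), Adp β (LinearMap.mulLeft k m.e) ∧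
      Adp β (LinearMap.mulRight k m.e) ∧ Adp β (LinearMap.mulLeft k m.e') ∧
      Adp β (LinearMap.mulRight k m.e') ∧ Adp β m.σ.toLinearMap ∧ Adp β m.p ∧
      Adp β (m.q D) := fun D => by
    obtain ⟨B, β, h⟩ := adp k G _ _ (proj D _ rfl).1 (proj D _ rfl).2
    exact ⟨B, β, h 0, h 1, h 2, h 3, h 4, h 5, h 6⟩
  have ιL : ∀ a ∈ fx b.p, m.ι a ∈ fx m.p := fun a ha => by
    rw [mem_fx, ← ιp, mem_fx.1 ha]
  refine ⟨R, inferInstance, inferInstance, finR, 𝒜, inst, e, he, ?_, ?_⟩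
  · obtain ⟨B, β, a1, a2, a3, a4, a5, a6, -⟩ := bas 0
    have hc := calc' k G B β m.σ m.δ hd
    have cι := (wm' k A _ G B α β m.ι).2.2 b.σ b.d m.σ m.δ hι.mul ισ ιd
    refine tr k G B R β ι m.VB m.f hR fun n z hz hl hb => ?_
    have zA : z ∈ XW β m.VA m.VA := XW_mono BA BA hz
    have zc' := XW_mono Ac Ac zA
    have zL := XW_mono (cL _ _) (cL _ _) zc'
    have Dz : DD β m.σ m.δ z = 0 := (hc.DD_eq _ _ z zA).trans hb
    obtain ⟨u₁, hu₁, ha⟩ := gen k G B β m.σ m.δ m.p m.p m.e hd hc pL (cl_e m g2) a1 a2 a5 a6 a6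
      (fun c _ => (kex m k1 k2 k3 g2 hd hc pL c).1) z zL (by rw [Dz]; exact Submodule.zero_mem _)
    have back : ∀ a ∈ cor m.e (fx m.p), ∃ c ∈ fx b.p, m.ι c = a := fun a ha => by
      obtain ⟨c, rfl⟩ : a ∈ LinearMap.range m.ι := by
        rw [hι.range]
        exact mem_cor.2 ⟨⟨trivial, ha.1.2⟩, ha.2⟩
      exact ⟨c, hι.inj (by rw [LinearMap.id_apply, ιp]; exact ha.1.1), rfl⟩
    obtain ⟨a₀, h0, e0⟩ := wm_surj (β := α) wm' back back ha
    obtain ⟨u₀, hu₀, hw⟩ := sa k A _ b α cA a₀ h0 (wm_inj (β' := β) wm' hι.inj (by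
      rw [cι, e0, map_sub, Dz, hc.DD_DD, sub_zero]))
    obtain ⟨u', hu', e1⟩ := tot k G B β m.σ m.δ _ _ hd hc pL a5 n z _ (u₁ + wm α β m.ι u₀) hl
      (XW_mono Aσ Aσ zA) (wm_LL (β := α) (φ := m.ι) wm' hw)
      (Submodule.add_mem _ hu₁ (wm_XW wm' ιL ιL hu₀)) (by
        rw [map_sub, e0, cι, map_add]; abel)
    obtain ⟨v, -, hv⟩ := gen k G B β m.σ m.δ m.p m.p m.e' hd hc pL (cl_e' m g2) a3 a4 a5 a6 a6
      (fun c _ => (kex m k1 k2 k3 g2 hd hc pL c).2) u' hu' (e1 ▸ zc')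
    have e2 : DD β m.σ m.δ (u' - DD β m.σ m.δ v) = z := by rw [map_sub, hc.DD_DD, sub_zero, e1]
    obtain ⟨v', -, hv'⟩ := q k G B β m.σ m.δ _ _ hd hc pL' (g4 k A G b m) (g4 k A G b m) _ hv
      (e2 ▸ zA)
    have e3 : bH β (u' - DD β m.σ m.δ v - DD β m.σ m.δ v') = z := by
      rw [← hc.DD_eq _ _ _ hv', map_sub, hc.DD_DD, sub_zero, e2]
    let κ : G →ₗ[k] G := LinearMap.mulLeft k m.f ∘ₗ LinearMap.mulRight k m.f
    have κa : ∀ a, κ a = m.f * (a * m.f) := fun a => rfl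
    have κB : ∀ a ∈ m.VA, κ a ∈ m.VB := fun a ha =>
      mem_cor.2 ⟨⟨mulA _ fA _ (mulA a ha _ fA), by rw [κa, ← mul_assoc, ff]⟩, by
        rw [κa, mul_assoc, mul_assoc, ff]⟩
    have κm : ∀ a ∈ m.VA, ∀ c ∈ m.VA, a * c ∈ m.VA ∧ κ (a * c) = κ a * κ c := fun a ha c hc' => by
      refine ⟨mulA a ha c hc', ?_⟩
      have h1 : c * m.f = m.f * (c * m.f) := by
        have := congrArg (· * m.f) (unitA c hc').1
        simp only [add_mul, t1 c hc', zero_add] at this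
        rw [← mul_assoc, this]
      rw [κa, κa, κa, mul_assoc a c, h1]
      simp only [← mul_assoc, mul_assoc (m.f * a) m.f m.f, ff]
    refine ⟨_, wm_XW (β' := β) wm' κB κB hv', ?_⟩
    rw [← ((wm' k G B G B β β κ).2.1 m.VA κm _ hv').1, e3]
    have := XW_map (wm β β κ - LinearMap.id) ⊥ (fun n hn l hl => by
      have fix : ∀ a ∈ m.VB, κ a = a := fun a ha => by
        rw [κa, (mem_cor.1 ha).2, (mem_cor.1 ha).1.2]
      rw [Submodule.mem_bot, LinearMap.sub_apply, (wm' k G B G B β β κ).1, List.map_cons,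
        fix n hn, List.map_congr_left fun a ha => fix a (hl a ha), List.map_id']
      exact sub_self _) hz
    exact sub_eq_zero.1 ((Submodule.mem_bot k).1 this)
  · rintro ⟨D₀, hD⟩
    obtain ⟨B, β, -, -, a3, a4, a5, a6, a7⟩ := bas (D₀ + 2)
    have hc := calc' k G B β m.σ m.δ hd
    have cι := (wm' k A _ G B α β m.ι).2.2 b.σ b.d m.σ m.δ hι.mul ισ ιd
    have pN' := pair_cor hd (pN (D₀ + 2)) (cl_e' m g2)
    have ιN : ∀ a ∈ fx (b.q (D₀ + 2)), m.ι a ∈ fx (m.q (D₀ + 2)) := fun a ha => by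
      rw [mem_fx, ← ιq, mem_fx.1 ha]
    have P := fun N L => pf' k G B _ β m.σ m.δ m.φ m.ρ m.ν (D₀ + 2) N L
    obtain ⟨z₀, hz₀, e0⟩ := sas k A _ b α cA (D₀ + 2)
    have m0 : ww α (b.n (D₀ + 2) :: (List.range (D₀ + 2)).map b.μ) ∈
        XW α (fx (b.q (D₀ + 2))) (fx b.p) := mem_XW (b.n_mem _) fun a ha => by
      obtain ⟨i, -, rfl⟩ := List.mem_map.1 ha
      exact (b.μ_mem i).1
    have mζ := wm_XW (β' := β) wm' ιN ιL (Submodule.add_mem _ m0 (XO_le hz₀))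
    have Dζ := (cι _).symm.trans ((congrArg _ e0).trans (map_zero _))
    have mO : wm α β m.ι z₀ ∈ XO β m.σ (fx (m.q (D₀ + 2))) (fx m.p) := by
      refine (Submodule.span_le (p := Submodule.comap (wm α β m.ι)
        (XO β m.σ (fx (m.q (D₀ + 2))) (fx m.p)))).2 ?_ hz₀
      rintro _ ⟨n, hn, l, hl, ⟨a, ha, sa⟩, rfl⟩
      refine Submodule.subset_span ⟨m.ι n, ιN n hn, l.map m.ι, fun x hx => ?_,
        ⟨m.ι a, List.mem_map_of_mem ha, by rw [← ισ, sa, map_zero]⟩, (wm' k A _ G B α β m.ι).1 _⟩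
      obtain ⟨c, hc', rfl⟩ := List.mem_map.1 hx
      exact ιL c (hl c hc')
    have φN : ∀ n ∈ fx (m.q (D₀ + 2)), ∀ i, m.φ i n = 0 := fun n hn => (hN _ n hn).2.2
    obtain ⟨u, hu, hv⟩ := gen k G B β m.σ m.δ m.p (m.q (D₀ + 2)) m.e' hd hc (pN _) (cl_e' m g2)
      a3 a4 a5 a6 a7 (fun c _ => (kex m k1 k2 k3 g2 hd hc (pN _) c).2) _ mζ
      (by rw [Dζ]; exact Submodule.zero_mem _)
    obtain ⟨v, hv1, hv2⟩ := q k G B β m.σ m.δ _ _ hd hc pN'
      (fun w hw h => ⟨0, Submodule.zero_mem _, map_zero _, by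
        rw [map_zero, ← (hN _ w hw.1.1).1, h]⟩) (g4 k A G b m) _ hv
      (by rw [map_sub, Dζ, hc.DD_DD, sub_zero]; exact Submodule.zero_mem _)
    have z1 := gl k G B _ R β m.σ m.φ m.ρ m.ν _ m.VA (m.E 0) m.f ι D₀ (D₀ + 2) reps
      (fun n hn => φN n (cL _ _ (hn : n ∈ zc m.σ m.δ (cor m.e' (fx (m.q (D₀ + 2))))).1.1)) mulA
      (mem_VA m (cE 0) (e'E m g2)) fA (cE 0).idem (Ef m g2) (fE m g2) unitA t1 t2 hE0 φe ρe hR hD
      (by omega) _ hv2 (by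
        rw [← hc.DD_eq _ _ _ hv2, map_sub, map_sub, Dζ, hc.DD_DD, hc.DD_DD]; simp)
    rw [map_sub, map_sub, (P _ _).2.2 hd hc reps φN u hu,
      (P _ _).2.2 hd hc reps (fun n hn => φN n (cL _ _ hn)) v hv1, sub_zero, sub_zero, map_add,
      map_add, (P _ _).2.1 reps _ mO, add_zero, (wm' k A _ G B α β m.ι).1, (P ⊤ ⊤).1] at z1
    exact hpf _ z1

end Pool.Agent.MP_92f1cb_al.H21T
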