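import Pool.Agent.MP_92f1cb_al.H21T.Asm

set_option autoImplicit false

namespace Pool.Agent.MP_92f1cb_al.H21T

open Pool.Agent.MP_92f1cb_al.H14 Pool.Agent.MP_92f1cb_al.H14C Module

/-- Both corners compute the homology of the words. -/
def STw : Prop :=
  ∀ (k A G B : Type) [Field k] [Ring A] [Algebra k A] [Ring G] [Algebra k G] (b : Base k A)
    (m : Mx b G) (β : Basis B k G) (N : Submodule k G), DG m.σ m.δ → Calc β m.σ m.δ →
    Pair m.σ m.δ N (fx m.p) →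
    QEx (DD β m.σ m.δ) (XW β N (fx m.p)) (XW β (cor m.e N) (cor m.e (fx m.p))) ∧
    QEx (DD β m.σ m.δ) (XW β N (fx m.p)) (XW β (cor m.e' N) (cor m.e' (fx m.p)))

open AsmR in
theorem assemble2 (wm' : SWM) (calc' : SCalc) (adp : SAdp) (q : SQ) (tw : STw)
    (tot : STot) (pf' : SPf) (sub : SSub) (tr : STr2) (gr : SGr2)
    (gl : SGl2) (base : SBase) (sa : SA) (sas : SAs) (mx : SMx) (g1 : SG1) (g2 : SG2) (g3 : SG3)
    (g4 : SG4) (g5 : SG5) (g6 : SG6) (g7 : SG7) (k : Type) [Field k] (hk : NonRoot k) :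
    ∃ (R : Type) (_ : Ring R) (_ : Algebra k R) (_ : FiniteDimensional k R)
      (𝒜 : ℕ → Submodule k R) (_ : GradedAlgebra 𝒜) (e : Fin 2 → R),
      DegreeZeroSplit 𝒜 e ∧ HHVanishesAbove k R 0 ∧ ¬ ∃ D, GlDimLE R D := by
  classical
  obtain ⟨A, _, _, ⟨b⟩⟩ := base k hk
  obtain ⟨G, _, _, ⟨m⟩⟩ := mx k A b
  obtain ⟨hd, pL, pN, hN, hfin⟩ := g1 k A G b m
  obtain ⟨cE, cy, -, hE0, hy0, -⟩ := g2 k A G b m
  obtain ⟨hι, ισ, ιd, ιp, ιq, hpf⟩ := g3 k A G b m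
  obtain ⟨t1, t2, t3, t4⟩ := g5 k A G b m
  obtain ⟨r1, r2, r3, r4⟩ := g6 k A G b m
  obtain ⟨reps, φe, ρe, proj⟩ := g7 k A G b m
  have pL' := pair_cor hd pL (cl_e' m g2)
  have mulA : ∀ a ∈ m.VA, ∀ c ∈ m.VA, a * c ∈ m.VA := zc_mul hd pL'.LL
  have fA : m.f ∈ m.VA := mem_VA m (cl_f m g2) (e'f m g2)
  have ff := (cl_f m g2).idem
  have unitA : ∀ a ∈ m.VA, (m.E 0 + m.f) * a = a ∧ a * (m.E 0 + m.f) = a := fun a ha =>
    ⟨ha.1.1.1.2, ha.1.1.2⟩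
  have mulB : ∀ a ∈ m.VB, ∀ c ∈ m.VB, a * c ∈ m.VB := fun a ha c hc =>
    mem_cor.2 ⟨⟨mulA a ha.1.1 c hc.1.1, by rw [← mul_assoc, (mem_cor.1 ha).1.2]⟩, by
      rw [mul_assoc, (mem_cor.1 hc).2]⟩
  obtain ⟨R, _, _, ι, hR⟩ := sub k G m.VB m.f (mem_cor.2 ⟨⟨fA, ff⟩, ff⟩) mulB
    fun a ha => ⟨ha.1.2, ha.2⟩
  have BA : m.VB ≤ m.VA := fun a ha => ha.1.1
  have Ac : m.VA ≤ cor m.e' (fx m.p) := fun a ha => ha.1.1
  have Aσ : m.VA ≤ fx m.σ.toLinearMap := fun a ha => ha.1.2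
  have cL : ∀ (x : G) (V : Submodule k G), cor x V ≤ V := fun x V a ha => ha.1.1
  have finR : FiniteDimensional k R := by
    have hm : ∀ r, ι r ∈ fx m.p := fun r =>
      cL _ _ (Ac (BA (hR.range ▸ LinearMap.mem_range_self ι r)))
    exact FiniteDimensional.of_injective (ι.codRestrict _ hm) fun x y h =>
      hR.inj (congrArg Subtype.val h)
  obtain ⟨𝒜, inst, e, he⟩ := gr k G R ι m.VB m.y m.gr 6 hR r1 t3 r2
    (fun n n' x _ z _ => r3 n n' x z)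
    (fun i => ⟨mem_cor.2 ⟨⟨mem_VA m (cy i) (e'y m g2 i), (fy m g2 i).1⟩, (fy m g2 i).2⟩, hy0 i,
      (cy i).idem, r4 i⟩) ((tab m g2).yy _ _ (by decide)) ((tab m g2).yy _ _ (by decide)) t4
  let α := Module.Free.chooseBasis k A
  have cA := calc' k A _ α b.σ b.d b.dg
  have bas : ∀ D, ∃ (B : Type) (β : Basis B k G), Adp β (LinearMap.mulLeft k m.e) ∧
      Adp β (LinearMap.mulRight k m.e) ∧ Adp β (LinearMap.mulLeft k m.e') ∧
      Adp β (LinearMap.mulRight k m.e') ∧ Adp β m.σ.toLinearMap ∧ Adp β m.p ∧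
      Adp β (m.q D) := fun D => by
    obtain ⟨B, β, h⟩ := adp k G _ _ (proj D _ rfl).1 (proj D _ rfl).2
    exact ⟨B, β, h 0, h 1, h 2, h 3, h 4, h 5, h 6⟩
  have ιL : ∀ a ∈ fx b.p, m.ι a ∈ fx m.p := fun a ha => by
    rw [mem_fx, ← ιp, mem_fx.1 ha]
  refine ⟨R, inferInstance, inferInstance, finR, 𝒜, inst, e, he, ?_, ?_⟩
  · obtain ⟨B, β, -, -, -, -, a5, -, -⟩ := bas 0
    have hc := calc' k G B β m.σ m.δ hd
    have cι := (wm' k A _ G B α β m.ι).2.2 b.σ b.d m.σ m.δ hι.mul ισ ιd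
    refine tr k G B R β ι m.VB m.f hR fun n z hz hl hb => ?_
    have zA : z ∈ XW β m.VA m.VA := XW_mono BA BA hz
    have zc' := XW_mono Ac Ac zA
    have zL := XW_mono (cL _ _) (cL _ _) zc'
    have Dz : DD β m.σ m.δ z = 0 := (hc.DD_eq _ _ z zA).trans hb
    obtain ⟨u₁, hu₁, ha⟩ := (tw k A G B b m β _ hd hc pL).1 z zL
      (by rw [Dz]; exact Submodule.zero_mem _)
    have back : ∀ a ∈ cor m.e (fx m.p), ∃ c ∈ fx b.p, m.ι c = a := fun a ha => by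
      obtain ⟨c, rfl⟩ : a ∈ LinearMap.range m.ι := by
        rw [hι.range]
        exact mem_cor.2 ⟨⟨trivial, ha.1.2⟩, ha.2⟩
      exact ⟨c, hι.inj (by rw [LinearMap.id_apply, ιp]; exact ha.1.1), rfl⟩
    obtain ⟨a₀, h0, e0⟩ := wm_surj (β := α) wm' back back ha
    obtain ⟨u₀, hu₀, hw⟩ := sa k A _ b α cA a₀ h0 (wm_inj (β' := β) wm' hι.inj (by
      rw [cι, e0, map_sub, Dz, hc.DD_DD, sub_zero]))
    obtain ⟨u', hu', e1⟩ := tot k G B β m.σ m.δ _ _ hd hc pL a5 n z _ (u₁ + wm α β m.ι u₀) hl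
      (XW_mono Aσ Aσ zA) (wm_LL (β := α) (φ := m.ι) wm' hw)
      (Submodule.add_mem _ hu₁ (wm_XW wm' ιL ιL hu₀)) (by
        rw [map_sub, e0, cι, map_add]; abel)
    obtain ⟨v, -, hv⟩ := (tw k A G B b m β _ hd hc pL).2 u' hu' (e1 ▸ zc')
    have e2 : DD β m.σ m.δ (u' - DD β m.σ m.δ v) = z := by rw [map_sub, hc.DD_DD, sub_zero, e1]
    obtain ⟨v', -, hv'⟩ := q k G B β m.σ m.δ _ _ hd hc pL' (g4 k A G b m) (g4 k A G b m) _ hv
      (e2 ▸ zA)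
    have e3 : bH β (u' - DD β m.σ m.δ v - DD β m.σ m.δ v') = z := by
      rw [← hc.DD_eq _ _ _ hv', map_sub, hc.DD_DD, sub_zero, e2]
    let κ : G →ₗ[k] G := LinearMap.mulLeft k m.f ∘ₗ LinearMap.mulRight k m.f
    have κa : ∀ a, κ a = m.f * (a * m.f) := fun a => rfl
    have κB : ∀ a ∈ m.VA, κ a ∈ m.VB := fun a ha =>
      mem_cor.2 ⟨⟨mulA _ fA _ (mulA a ha _ fA), by rw [κa, ← mul_assoc, ff]⟩, by
        rw [κa, mul_assoc, mul_assoc, ff]⟩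
    have κm : ∀ a ∈ m.VA, ∀ c ∈ m.VA, a * c ∈ m.VA ∧ κ (a * c) = κ a * κ c := fun a ha c hc' => by
      refine ⟨mulA a ha c hc', ?_⟩
      have h1 : c * m.f = m.f * (c * m.f) := by
        have := congrArg (· * m.f) (unitA c hc').1
        simp only [add_mul, t1 c hc', zero_add] at this
        rw [← mul_assoc, this]
      rw [κa, κa, κa, mul_assoc a c, h1]
      simp only [← mul_assoc, mul_assoc (m.f * a) m.f m.f, ff]
    refine ⟨_, wm_XW (β' := β) wm' κB κB hv', ?_⟩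
    rw [← ((wm' k G B G B β β κ).2.1 m.VA κm _ hv').1, e3]
    have := XW_map (wm β β κ - LinearMap.id) ⊥ (fun n hn l hl => by
      have fix : ∀ a ∈ m.VB, κ a = a := fun a ha => by
        rw [κa, (mem_cor.1 ha).2, (mem_cor.1 ha).1.2]
      rw [Submodule.mem_bot, LinearMap.sub_apply, (wm' k G B G B β β κ).1, List.map_cons,
        fix n hn, List.map_congr_left fun a ha => fix a (hl a ha), List.map_id']
      exact sub_self _) hz
    exact sub_eq_zero.1 ((Submodule.mem_bot k).1 this)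
  · rintro ⟨D₀, hD⟩
    obtain ⟨B, β, -⟩ := bas (D₀ + 2)
    have hc := calc' k G B β m.σ m.δ hd
    have cι := (wm' k A _ G B α β m.ι).2.2 b.σ b.d m.σ m.δ hι.mul ισ ιd
    have pN' := pair_cor hd (pN (D₀ + 2)) (cl_e' m g2)
    have ιN : ∀ a ∈ fx (b.q (D₀ + 2)), m.ι a ∈ fx (m.q (D₀ + 2)) := fun a ha => by
      rw [mem_fx, ← ιq, mem_fx.1 ha]
    have P := fun N L => pf' k G B _ β m.σ m.δ m.φ m.ρ m.ν (D₀ + 2) N L
    obtain ⟨z₀, hz₀, e0⟩ := sas k A _ b α cA (D₀ + 2)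
    have m0 : ww α (b.n (D₀ + 2) :: (List.range (D₀ + 2)).map b.μ) ∈
        XW α (fx (b.q (D₀ + 2))) (fx b.p) := mem_XW (b.n_mem _) fun a ha => by
      obtain ⟨i, -, rfl⟩ := List.mem_map.1 ha
      exact (b.μ_mem i).1
    have mζ := wm_XW (β' := β) wm' ιN ιL (Submodule.add_mem _ m0 (XO_le hz₀))
    have Dζ := (cι _).symm.trans ((congrArg _ e0).trans (map_zero _))
    have mO : wm α β m.ι z₀ ∈ XO β m.σ (fx (m.q (D₀ + 2))) (fx m.p) := by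
      refine (Submodule.span_le (p := Submodule.comap (wm α β m.ι)
        (XO β m.σ (fx (m.q (D₀ + 2))) (fx m.p)))).2 ?_ hz₀
      rintro _ ⟨n, hn, l, hl, ⟨a, ha, sa⟩, rfl⟩
      refine Submodule.subset_span ⟨m.ι n, ιN n hn, l.map m.ι, fun x hx => ?_,
        ⟨m.ι a, List.mem_map_of_mem ha, by rw [← ισ, sa, map_zero]⟩, (wm' k A _ G B α β m.ι).1 _⟩
      obtain ⟨c, hc', rfl⟩ := List.mem_map.1 hx
      exact ιL c (hl c hc')
    have φN : ∀ n ∈ fx (m.q (D₀ + 2)), ∀ i, m.φ i n = 0 := fun n hn => (hN _ n hn).2.2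
    obtain ⟨u, hu, hv⟩ := (tw k A G B b m β _ hd hc (pN _)).2 _ mζ
      (by rw [Dζ]; exact Submodule.zero_mem _)
    obtain ⟨v, hv1, hv2⟩ := q k G B β m.σ m.δ _ _ hd hc pN'
      (fun w hw h => ⟨0, Submodule.zero_mem _, map_zero _, by
        rw [map_zero, ← (hN _ w hw.1.1).1, h]⟩) (g4 k A G b m) _ hv
      (by rw [map_sub, Dζ, hc.DD_DD, sub_zero]; exact Submodule.zero_mem _)
    have z1 := gl k G B _ R β m.σ m.φ m.ρ m.ν _ m.VA (m.E 0) m.f ι D₀ (D₀ + 2) reps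
      (fun n hn => φN n (cL _ _ (hn : n ∈ zc m.σ m.δ (cor m.e' (fx (m.q (D₀ + 2))))).1.1)) mulA
      (mem_VA m (cE 0) (e'E m g2)) fA (cE 0).idem (Ef m g2) (fE m g2) unitA t1 t2 hE0 φe ρe hR hD
      (by omega) _ hv2 (by
        rw [← hc.DD_eq _ _ _ hv2, map_sub, map_sub, Dζ, hc.DD_DD, hc.DD_DD]; simp)
    rw [map_sub, map_sub, (P _ _).2.2 hd hc reps φN u hu,
      (P _ _).2.2 hd hc reps (fun n hn => φN n (cL _ _ hn)) v hv1, sub_zero, sub_zero, map_add,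
      map_add, (P _ _).2.1 reps _ mO, add_zero, (wm' k A _ G B α β m.ι).1, (P ⊤ ⊤).1] at z1
    exact hpf _ z1

end Pool.Agent.MP_92f1cb_al.H21T
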