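import Pool.Agent.MP_92f1cb_al.H21T.Spec
import Pool.Agent.MP_92f1cb_al.H14S.Pts
import Pool.Agent.MP_92f1cb_al.H14S.Ops

set_option autoImplicit false

namespace Pool.Agent.MP_92f1cb_al.H21T

open Pool.Agent.MP_92f1cb_al.H14 Pool.Agent.MP_92f1cb_al.H14C Pool.Agent.MP_92f1cb_al.H14S
  Module MvPolynomial

namespace BaseR

variable {k A : Type} [Field k] [Ring A] [Algebra k A] (M : Model k A) (P : Pts k)

/-- The ideal of the pair of points that closes the chain. -/
noncomputable def JD (D : ℕ) : Ideal (R0 k) :=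
  RingHom.ker (aeval (Sum.elim (P.p (P.R + D)) (P.p P.R)) : R0 k →ₐ[k] k)

theorem mem_JD {D : ℕ} {g : R0 k} :
    g ∈ JD P D ↔ aeval (Sum.elim (P.p (P.R + D)) (P.p P.R)) g = 0 := Iff.rfl

theorem p_ne (n : ℕ) : P.p n ≠ 0 := fun e => one_ne_zero ((P.p2 n).symm.trans (congrFun e 2))

theorem not_le (D : ℕ) : ¬ P.I ≤ JD P D := fun h => by
  refine noCycle_nat P.noc D (fun i => P.p (P.R + i))
    (fun i => if i < D then P.p (P.R + i + 1) else P.p P.R) (fun i _ => p_ne P _)
    (fun i _ => ?_) (fun i hi g hg => ?_) (fun i hi => ⟨1, ?_⟩) ⟨1, ?_⟩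
  · split_ifs <;> exact p_ne P _
  · split_ifs with e
    · exact P.pI _ g hg
    · rw [show i = D by omega]
      exact h hg
  · rw [if_pos hi, one_smul, add_assoc]
  · rw [if_neg (lt_irrefl D), one_smul, add_zero]

theorem IJ_ne : P.I.comap (eS k) ≠ P.J.comap (eS k) := cm_inj fun e => P.nx (e ▸ P.Jx)

theorem DI_ne (D : ℕ) : (JD P D).comap (eS k) ≠ P.I.comap (eS k) :=
  cm_inj fun e => not_le P D e.ge

theorem DJ_ne (D : ℕ) : (JD P D).comap (eS k) ≠ P.J.comap (eS k) :=
  cm_inj fun e => not_le P D (P.IJ.trans e.ge)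

theorem IJ_le : P.I.comap (eS k) ≤ P.J.comap (eS k) := Ideal.comap_mono P.IJ

theorem xpow (i : ℕ) : xv k 2 ^ i - 1 ∈ P.J := by
  have := P.J.mem_of_dvd (sub_dvd_pow_sub_pow (xv k 2) 1 i) P.Jx
  rwa [one_pow] at this

theorem mem_pat {a : ℕ} (i j : Fin 3) {u : R0 k} (hu : u ∈ HS k a j) :
    xv k 2 ^ (i : ℕ) * u ∈ pat k (some (a, a)) i j := by
  have := IsWeightedHomogeneous.mul (FinR.mono_mem (k := k) i 0 2 2) hu
  rw [pow_zero, mul_one, Prod.mk_add_mk, zero_add, add_comm] at this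
  exact this

/-- One column of an element of the component `J`. -/
theorem column (j : Fin 3) {n : ℕ} (δ : Fin n → R0 k)
    (h : ∀ g, ∃ u ∈ HS k P.a j, ∃ c : Fin n → k, g - u - ∑ z, c z • δ z ∈ P.J) {w : A}
    (hw : w ∈ M.YR P.J none) (e : w * ep M j = w) :
    ∃ m ∈ M.YR P.I (some (P.a, P.a)), ∃ l : Fin n → A, (∀ z, M.σ (l z) = l z) ∧
      w = M.tr 1 (P.I.comap (eS k)) (P.J.comap (eS k)) m + ∑ z, l z *
        M.inM ((Matrix.single 0 j (C (δ z))).map (emb (P.J.comap (eS k)))) := by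
  obtain ⟨g, -, rfl⟩ := hw
  rw [mul_ep] at e
  have e' := M.inM_inj e
  choose u hu c hc using fun i => h (eS k (g i j))
  let f : Matrix (Fin 3) (Fin 3) (SS k) :=
    Matrix.of fun r s => if s = j then C (xv k 2 ^ (r : ℕ) * u r) else 0
  refine ⟨M.inM (f.map (emb _)), ⟨f, fun r s => ?_, rfl⟩, fun z => M.inL (cl fun i => c i z),
    fun z => M.σ_inL _, ?_⟩
  · by_cases hs : s = j
    · subst hs
      exact ⟨_, mem_pat r s (hu r), (if_pos rfl).symm⟩
    · rw [show f r s = 0 from if_neg hs]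
      exact zero_mem _
  · rw [M.tr_emb (one_le (IJ_le P)), one_smul]
    simp only [M.L_mul_M, lam_mul_emb]
    rw [← map_sum, ← map_add]
    congr 1
    refine Matrix.ext fun r s => ?_
    simp only [Matrix.add_apply, Matrix.sum_apply, Matrix.map_apply]
    by_cases hs : s = j
    · subst hs
      rw [← map_sum, ← map_add, emb_eq_iff, Ideal.mem_comap]
      have e1 : ∀ z, eS k (((cl fun i => c i z).1.map (zS k) *
          Matrix.single 0 s (C (δ z) : SS k) : Matrix (Fin 3) (Fin 3) (SS k)) r s) =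
          xv k 2 ^ (r : ℕ) * (c r z • δ z) := fun z => by
          rw [Matrix.mul_single_apply_same, map_mul, eS_C, Matrix.map_apply, ModR.eS_zS]
          simp [cl, smul_eq_C_mul]
          ring
      rw [map_sub, map_add, map_sum, show f r s = C (xv k 2 ^ (r : ℕ) * u r) from if_pos rfl, eS_C]
      simp only [e1]
      rw [← Finset.mul_sum]
      have := P.J.sub_mem (hc r) (P.J.mul_mem_right (u r + ∑ z, c r z • δ z) (xpow P r))
      convert this using 1
      ring
    · have e2 : emb (P.J.comap (eS k)) (g r s) = 0 := by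
        have := congrFun (congrFun e' r) s
        rw [Matrix.mul_single_apply_of_ne _ _ _ _ _ hs] at this
        exact this.symm
      rw [e2, show f r s = 0 from if_neg hs, map_zero, zero_add]
      exact (Finset.sum_eq_zero fun z _ => by
        rw [Matrix.mul_single_apply_of_ne _ _ _ _ _ hs, map_zero]).symm

theorem hs_of {a : ℕ} {j : Fin 3} {f : SS k} (h : f ∈ patS k (some (a, a)) 0 j) :
    ∃ g ∈ HS k a j, f = C g := by
  obtain ⟨g, hg, rfl⟩ := h
  exact ⟨g, hg, rfl⟩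

theorem inj0 {m : A} (hm : m ∈ M.YR P.I (some (P.a, P.a))) (e : ep M 0 * m = m)
    (hd : M.tr 1 (P.I.comap (eS k)) (P.J.comap (eS k)) m = 0) : m = 0 := by
  obtain ⟨f, hf, rfl⟩ := hm
  rw [M.tr_emb (one_le (IJ_le P)), one_smul, ModR.map_emb_zero] at hd
  rw [ep_mul] at e
  refine (ModR.map_emb_zero M).2 fun i j => ?_
  by_cases hi : i = 0
  · subst hi
    obtain ⟨g, hg, e1⟩ := hs_of (hf 0 j)
    have := hd 0 j
    rw [e1] at this ⊢
    exact ModR.cm.2 (P.inj j g hg (ModR.cm.1 this))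
  · have := congrFun (congrFun (M.inM_inj e) i) j
    rw [Matrix.single_mul_apply_of_ne _ _ _ _ _ hi] at this
    exact emb_eq_zero.1 this.symm

theorem indep (j : Fin 2) {m : A} (hm : m ∈ M.YR P.I (some (P.a, P.a))) (c : Fin (P.Z j) → k)
    (hd : M.tr 1 (P.I.comap (eS k)) (P.J.comap (eS k)) m = ∑ z, c z •
      M.inM ((Matrix.single 0 j.succ (C (P.δ j z))).map (emb (P.J.comap (eS k))))) :
    ∀ z, c z = 0 := by
  obtain ⟨f, hf, rfl⟩ := hm
  rw [M.tr_emb (one_le (IJ_le P)), one_smul] at hd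
  simp only [← map_smul, ← map_sum] at hd
  have h1 := congrFun (congrFun (M.inM_inj hd) 0) j.succ
  obtain ⟨g, hg, e1⟩ := hs_of (hf 0 j.succ)
  simp only [Matrix.sum_apply, Matrix.smul_apply, Matrix.map_apply, Matrix.single_apply_same,
    e1] at h1
  have h2 : ∀ z, c z • emb (P.J.comap (eS k)) (C (P.δ j z) : SS k) =
      emb (P.J.comap (eS k)) (c z • C (P.δ j z)) := fun z =>
    (LinearMap.map_smul_of_tower _ _ _).symm
  simp only [h2] at h1
  rw [← map_sum, emb_eq_iff, Ideal.mem_comap] at h1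
  simp only [map_sub, map_sum, map_smul, eS_C] at h1
  exact P.indep j g hg c h1

theorem fin1 : FiniteDimensional k (M.YR P.J none) := by
  have : FiniteDimensional k (HS k P.a 0) := FinR.fin_bw _
  have := FinR.fin_Y M (P.J.comap (eS k)) (fun _ _ => (HS k P.a 0).map (cS k).toLinearMap)
    fun _ _ => Module.Finite.map _ _
  refine Submodule.finiteDimensional_of_le (S₂ := M.YY (P.J.comap (eS k))
    fun _ _ => (HS k P.a 0).map (cS k).toLinearMap) ?_
  rintro _ ⟨f, -, rfl⟩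
  refine ModR.mem M fun i j => ?_
  obtain ⟨h, h1, h2⟩ := P.surj (eS k (f i j))
  exact ⟨C h, ⟨h, h1, rfl⟩, by rwa [Ideal.mem_comap, map_sub, eS_C]⟩

end BaseR

open BaseR in
theorem sBase : SBase := by
  intro k _ hk
  obtain ⟨P⟩ := pts k hk
  obtain ⟨A, _, _, ⟨M⟩⟩ := model k
  refine ⟨A, inferInstance, inferInstance, ?_⟩
  set I' := P.I.comap (eS k) with hI'
  set J' := P.J.comap (eS k) with hJ'
  obtain ⟨π, π1, π2, π3⟩ := exists_pi I' (patS k (some (P.a, P.a)))
  have nIJ : I' ≠ J' := IJ_ne P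
  have lIJ : I' ≤ J' := IJ_le P
  let K : ℕ → Ideal (SS k) := fun D => (JD P D).comap (eS k)
  have nI : ∀ D, K D ≠ I' := DI_ne P
  have nJ : ∀ D, K D ≠ J' := DJ_ne P
  have πne : ∀ {L : Ideal (SS k)}, L ≠ I' → ∀ i j u, π i j u L = 0 := fun h i j u => by
    obtain ⟨f, -, e⟩ := π1 i j u
    rw [e, emb_ne h]
  have idem : ∀ (L : Ideal (SS k)) a, En M (tU L L) (En M (tU L L) a) = En M (tU L L) a :=
    fun L => En_En M fun i j u => by
      obtain ⟨f, e⟩ := tr_ex (le_refl L) u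
      change trU 1 L L (trU 1 L L u) = trU 1 L L u
      rw [e, tr_self le_rfl]
  have orth : ∀ {L L' N : Ideal (SS k)}, L ≤ L' → L ≠ N → ∀ a,
      En M (tU L L') (En M (tU N N) a) = 0 := fun h h' =>
    En_En0 M fun i j u => tr_zero h (tr_ne le_rfl h' u)
  have Jd : ∀ a, En M (tU J' J') (En M (tU I' J') a) = En M (tU I' J') a :=
    En_En M fun i j u => by
      obtain ⟨f, e⟩ := tr_ex lIJ u
      change trU 1 J' J' (trU 1 I' J' u) = trU 1 I' J' u
      rw [e, tr_self le_rfl]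
  have ππ : ∀ a, En M π (En M π a) = En M π a := En_En M fun i j u => by
    obtain ⟨f, hf, e⟩ := π1 i j u
    rw [e, π2 i j f hf]
  have tπ : ∀ {L : Ideal (SS k)}, L ≠ I' → ∀ a, En M (tU L L) (En M π a) = 0 := fun h =>
    En_En0 M fun i j u => tr_zero le_rfl (πne h i j u)
  have πt : ∀ {L : Ideal (SS k)}, L ≠ I' → ∀ a, En M π (En M (tU L L) a) = 0 := fun h =>
    En_En0 M fun i j u => π3 i j _ (tr_ne le_rfl h.symm u)
  have Jπ := tπ nIJ.symm
  have πJ := πt nIJ.symm
  have ττ := M.split.idem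
  let p : End k A := M.σ.toLinearMap + En M (tU J' J') + En M π
  have hp : ∀ a, p a = M.σ a + En M (tU J' J') a + En M π a := fun _ => rfl
  have m0 : ∀ {a}, a ∈ M.YR P.I (some (P.a, P.a)) ↔ En M π a = a := mem_pi M π1 π2
  have m1 : ∀ {a}, a ∈ M.YR P.J none ↔ En M (tU J' J') a = a := mem_none M
  have s0 : ∀ {a}, sg M J' a = 0 ↔ a ∈ M.YR P.J none := by
    intro a
    rw [sg_apply, sub_eq_zero, m1, eq_comm]
  have y0 : ∀ {a}, (p a = a ∧ M.σ a = 0 ∧ sg M J' a = a) ↔ a ∈ M.YR P.I (some (P.a, P.a)) := by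
    intro a
    rw [m0, sg_apply, sub_eq_self, hp]
    refine ⟨fun ⟨h1, h2, h3⟩ => by rwa [h2, h3, add_zero, zero_add] at h1, fun h => ?_⟩
    have h2 : M.σ a = 0 := by rw [← h, σ_En]
    have h3 : En M (tU J' J') a = 0 := by rw [← h, Jπ]
    exact ⟨by rw [h2, h3, h, add_zero, zero_add], h2, h3⟩
  set Y := M.YR P.I (some (P.a, P.a)) ⊔ M.YR P.J none with hY
  have bR : ∀ L d, Bim M.σ (M.YR L d) := (mod k A M).2.1
  have bY : Bim M.σ Y := bim_sup (bR _ _) (bR _ _)
  have yy : ∀ {a}, p a = a ↔ a - M.σ a ∈ Y := by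
    intro a
    constructor
    · intro h
      have e : a - M.σ a = En M π a + En M (tU J' J') a := by
        rw [sub_eq_iff_eq_add]
        conv_lhs => rw [← h, hp]
        abel
      rw [e]
      exact Submodule.add_mem_sup (m0.2 (ππ a)) (m1.2 (idem _ a))
    · intro h
      obtain ⟨u, hu, w, hw, e⟩ := Submodule.mem_sup.1 h
      have e' : a = M.σ a + u + w := by rw [add_assoc, e, add_sub_cancel]
      rw [e', ← m0.1 hu, ← m1.1 hw]
      simp only [hp, map_add, ττ, σ_En, En_σ, idem, ππ, Jπ, πJ, add_zero, zero_add]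
      abel
  have eY : fx p ⊓ LinearMap.ker M.σ.toLinearMap = Y := Submodule.ext fun a => by
    constructor
    · rintro ⟨h1, h2⟩
      have := yy.1 h1
      rwa [show M.σ a = 0 from h2, sub_zero] at this
    · intro h
      have h2 := (bY a h).1
      exact ⟨yy.2 (by rwa [h2, sub_zero]), h2⟩
  have e0 : fx p ⊓ LinearMap.ker M.σ.toLinearMap ⊓ fx (sg M J').toLinearMap =
      M.YR P.I (some (P.a, P.a)) := Submodule.ext fun a =>
    ⟨fun h => y0.1 ⟨h.1.1, h.1.2, h.2⟩, fun h => ⟨⟨(y0.2 h).1, (y0.2 h).2.1⟩, (y0.2 h).2.2⟩⟩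
  have e1 : LinearMap.ker (sg M J').toLinearMap = M.YR P.J none := Submodule.ext fun a => s0
  have eD : ∀ D, fx (En M (tU (K D) (K D))) = M.YR (JD P D) none := fun D =>
    Submodule.ext fun a => (mem_none M).symm
  have aJ : IsAff M P.I (M.YR P.J none) := ⟨P.J, 2, 2, P.IJ, P.Jx, P.Jy, rfl⟩
  have tε : ∀ i, M.σ (ep M i) = ep M i := (tri_ep M).fix
  have φτ : ∀ x a, ph M x (M.σ a) = ph M x a := fun x a => by
    simp only [ph, AlgHom.comp_apply, M.σ_apply, M.prL_inL]
  have φσ : ∀ x a, ph M x (sg M J' a) = ph M x a := fun x a => by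
    rw [← φτ, sg_apply, map_sub, σ_En, sub_zero, φτ]
  have mμ := single_mem M P.I (some (P.a, P.a)) 0 (FinR.mono_mem (k := k) P.a (P.a + 2) 2 2)
  refine ⟨{
    τ := M.σ
    σ := sg M J'
    d := En M (tU I' J')
    p := p
    q := fun D => En M (tU (K D) (K D))
    ε := ep M
    Z := P.Z
    dl := fun j z => M.inM ((Matrix.single 0 j.succ (C (P.δ j z))).map (emb J'))
    φ := fun m => ph M (P.p (P.R + m))
    ρ := fun m => rh M P.I (P.p (P.R + m)) (P.p (P.R + m + 1)) (P.pI _)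
    ν := fun D => rh M (JD P D) (P.p (P.R + D)) (P.p P.R) fun _ h => h
    μ := fun _ => M.inM ((Matrix.single 0 0 (C (xv k 2 ^ P.a * yv k 2 ^ (P.a + 2)))).map (emb I'))
    n := fun D => M.inM ((Matrix.single 0 0 (C 1)).map (emb (K D)))
    split := M.split
    tri := tri_ep M
    dg := ⟨⟨fun a => by simp only [sg_apply, map_sub, idem, sub_self, sub_zero],
        fun a c ha hc => M.split.sq a c (bR _ _ a (s0.1 ha)).1 (bR _ _ c (s0.1 hc)).1⟩,
      leib M I' J', fun a => by rw [sg_apply, Jd, sub_self],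
      fun a => by rw [sg_apply, map_sub, orth lIJ nIJ, sub_zero]⟩
    στ := fun a => by rw [sg_apply, En_σ, sub_zero]
    τσ := fun a => by rw [sg_apply, map_sub, σ_En, sub_zero]
    dτ := En_σ M _
    pp := fun a => by
      simp only [hp, map_add, ττ, σ_En, En_σ, idem, ππ, Jπ, πJ, add_zero, zero_add]
    pτ := fun a => by simp only [hp, ττ, En_σ, add_zero]
    τp := fun a => by simp only [hp, map_add, ττ, σ_En, add_zero]
    pσ := fun a => by
      simp only [hp, sg_apply, map_add, map_sub, σ_En, En_σ, idem, Jπ, πJ, add_zero, sub_zero,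
        sub_self]
    pO := fun a ha => by
      rw [← m1.1 (s0.1 ha)]
      simp only [hp, σ_En, idem, πJ, add_zero, zero_add]
    pε := fun i a => by
      simp only [hp, map_mul, tε, (En_ep M _ i a).1, (En_ep M _ i a).2, mul_add, add_mul,
        and_self]
    pmul := fun a c ha hc => yy.2 ((FinR.mem_sub bY).1
      ((FinR.sub bY).mul_mem ((FinR.mem_sub bY).2 (yy.1 ha)) ((FinR.mem_sub bY).2 (yy.1 hc))))
    qq := fun D => idem _
    qp := fun D a => by
      simp only [hp, map_add, σ_En, En_σ, orth le_rfl (nJ D), orth le_rfl (nJ D).symm, tπ (nI D),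
        πt (nI D), add_zero, and_self]
    qτ := fun D a => ⟨σ_En M _ a, En_σ M _ a⟩
    qσ := fun D a => by
      simp only [sg_apply, map_sub, orth le_rfl (nJ D), orth le_rfl (nJ D).symm, sub_zero,
        and_self]
    dq := fun D => orth lIJ (nI D).symm
    qmul := fun D a c => by
      have h1 := leib M (K D) (K D) (M.σ a) c
      have h2 := leib M (K D) (K D) c (M.σ a)
      simp only [tr_eq, En_σ, zero_mul, mul_zero, zero_add, add_zero] at h1 h2
      exact ⟨h1, h2⟩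
    fin := by
      have := FinR.fin_L (k := k)
      have := fin1 M P
      have : FiniteDimensional k (M.YR P.I (some (P.a, P.a))) := FinR.fin_Y M _ _ fun i j =>
        have : FiniteDimensional k (pat k (some (P.a, P.a)) i j) := FinR.fin_bw _
        Module.Finite.map _ _
      refine Submodule.finiteDimensional_of_le (S₂ := LinearMap.range M.inL.toLinearMap ⊔
        (M.YR P.I (some (P.a, P.a)) ⊔ M.YR P.J none)) fun a ha => ?_
      rw [← add_sub_cancel (M.σ a) a]
      exact Submodule.add_mem_sup ⟨_, rfl⟩ (yy.1 ha)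
    dl_mem := fun j z => ⟨s0.2 (single_mem M P.J none _ trivial), by
      rw [ep_mul, mul_ep, Matrix.single_mul_mul_single, one_mul, mul_one, Matrix.map_apply,
        Matrix.single_apply_same, Matrix.map_single]⟩
    inj0 := fun m h1 h2 h3 h4 h5 => inj0 M P (y0.1 ⟨h1, h2, h3⟩) h4 h5
    indep := fun j m c h1 h2 h3 h4 => indep M P j (y0.1 ⟨h1, h2, h3⟩) c h4
    col0 := fun w h1 h2 => by
      obtain ⟨m, hm, l, -, e⟩ := column M P 0 (n := 0) Fin.elim0 (fun g => by
        obtain ⟨u, hu, h⟩ := P.surj g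
        exact ⟨u, hu, Fin.elim0, by rwa [Fin.sum_univ_zero, sub_zero]⟩) (s0.1 h1) h2
      rw [Fin.sum_univ_zero, add_zero] at e
      exact ⟨m, (y0.2 hm).1, (y0.2 hm).2.1, (y0.2 hm).2.2, e.symm⟩
    colj := fun j w h1 h2 => by
      obtain ⟨m, hm, l, hl, e⟩ := column M P j.succ (P.δ j) (P.span j) (s0.1 h1) h2
      exact ⟨m, l, (y0.2 hm).1, (y0.2 hm).2.1, (y0.2 hm).2.2, hl, e⟩
    reps := ⟨fun n => φσ _, fun n => rh_sg M _ _ _ _ nIJ, fun n => rh_sg M _ _ _ _ (nJ n),
      fun n => rh_mul M _ _ _ _, fun n => rh_mul M _ _ _ _⟩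
    φτ := fun m => φτ _
    φε := fun m i => by
      simp only [ph, AlgHom.comp_apply, ep, M.prL_inL]
      change (Matrix.single i i (1 : KX k)).map _ = _
      rw [Matrix.map_single, map_one]
    ρτ := fun m => rh_σ M _ _ _ _
    ντ := fun m => rh_σ M _ _ _ _
    μ_mem := fun m => y0.2 mμ
    n_mem := fun D => (mem_none M).1 (single_mem M (JD P D) none 0 trivial)
    ρμ := fun m => ⟨1, one_ne_zero, by
      rw [one_smul]
      exact rh_single M _ _ _ _ _ (by simp [xv, yv, P.p2])⟩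
    νn := fun D => rh_single M _ _ _ _ _ (map_one _)
    exM := fun B β m => ?_
    exN := fun B β Ys h1 h2 => ?_ }⟩
  · rw [eY]
    refine ex_mixed P.noc bY (fun Ys hYs h => ?_) _ fun Z hZ => Or.inl (List.eq_of_mem_replicate hZ)
    refine (ses k A B β M.σ M.split 1 (M.tr 1 J' J') _ _ _ Ys (bR _ _) bY (bR _ _) hYs bmap_one
      (M.bmap_tr _ _ _) ⟨fun x hx => Submodule.mem_sup_left hx, fun x _ => m1.2 (idem _ x),
        fun x _ h => h, fun x hx => ⟨x, Submodule.mem_sup_right hx, m1.1 hx⟩, fun x hx => ?_⟩).mid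
      (P.gen A B β M Ys hYs h) (h _ aJ)
    constructor
    · intro h0
      rw [← eY] at hx
      exact ⟨x, y0.1 ⟨hx.1, hx.2, by rw [sg_apply, ← tr_eq, h0, sub_zero]⟩, rfl⟩
    · rintro ⟨y, hy, rfl⟩
      rw [End.one_apply, tr_eq, ← m0.1 hy, Jπ]
  · rw [e0, e1] at h1
    rw [e1] at h2
    obtain ⟨L₁, L₂, e⟩ := List.append_of_mem h2
    have h3 : ∀ Z ∈ Ys, Z = M.YR P.I (some (P.a, P.a)) ∨ IsAff M P.I Z := fun Z hZ =>
      (h1 Z hZ).imp id fun h => by rw [h]; exact aJ
    rw [eD]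
    generalize Ys.length = D
    subst e
    exact ex_head P.noc (bR _ _) (P.gen A B β M) P.p (p_ne P) P.pI P.R
      ⟨2, 2, (mem_JD P).2 (by simp [xv, P.p2]), (mem_JD P).2 (by simp [yv, P.p2])⟩
      (fun l => (mem_JD P).2 (by simp [yv])) ⟨2, 2, P.Jx, P.Jy⟩ P.early L₁ L₂
      (fun Z hZ => h3 Z (by simp [hZ])) fun Z hZ => h3 Z (by simp [hZ])

end Pool.Agent.MP_92f1cb_al.H21T
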