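import Pool.Agent.MP_92f1cb_al.H21T.Spec

set_option autoImplicit false

namespace Pool.Agent.MP_92f1cb_al.H21T

open Pool.Agent.MP_92f1cb_al.H14 Pool.Agent.MP_92f1cb_al.H14C Module

namespace Calcx

variable {k G B : Type} [Field k] [Ring G] [Algebra k G] (β : Basis B k G) {σ : G →ₐ[k] G}
  {δ : End k G}

theorem eps_apply (a : G) : eps σ a = σ a - (a - σ a) := rfl

theorem eps_L {a : G} (h : σ a = a) : eps σ a = a := by rw [eps_apply, h, sub_self, sub_zero]

theorem eps_M {a : G} (h : σ a = 0) : eps σ a = -a := by rw [eps_apply, h, sub_zero, zero_sub]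

theorem hom_ind (hσ : Split σ) {P : G → Prop} (hL : ∀ a, σ a = a → P a)
    (hM : ∀ a, σ a = 0 → P a) (hadd : ∀ a c, P a → P c → P (a + c)) (a : G) : P a := by
  have := hadd _ _ (hL _ (hσ.idem a)) (hM _ (hσ.sub a))
  rwa [add_sub_cancel] at this

theorem σ_eps (hσ : Split σ) (a : G) : σ (eps σ a) = σ a := by
  rw [eps_apply, map_sub, hσ.sub, hσ.idem, sub_zero]

theorem eps_eps (hσ : Split σ) (a : G) : eps σ (eps σ a) = a := by
  rw [eps_apply (eps σ a), σ_eps hσ, eps_apply]; abel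

theorem eps_mul (hσ : Split σ) (a c : G) : eps σ (a * c) = eps σ a * eps σ c := by
  have h := hσ.sq _ _ (hσ.sub a) (hσ.sub c)
  rw [eps_apply, eps_apply, eps_apply, map_mul]
  linear_combination (norm := noncomm_ring) (exp := 1) -h - h

theorem M_eps (hσ : Split σ) {a : G} (ha : σ a = 0) (c : G) : a * eps σ c = a * c := by
  have h := hσ.sq _ _ ha (hσ.sub c)
  rw [eps_apply]
  linear_combination (norm := noncomm_ring) (exp := 1) -h - h

theorem eps_M' (hσ : Split σ) {a : G} (ha : σ a = 0) (c : G) : eps σ c * a = c * a := by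
  have h := hσ.sq _ _ (hσ.sub c) ha
  rw [eps_apply]
  linear_combination (norm := noncomm_ring) (exp := 1) -h - h

theorem δ_M (h : DG σ δ) {a : G} (ha : σ a = 0) : δ a = 0 := by rw [← h.δσ, ha, map_zero]

theorem δ_eps (h : DG σ δ) (a : G) : δ (eps σ a) = δ a := by
  rw [← h.δσ, σ_eps h.split, h.δσ]

theorem δ_mul (h : DG σ δ) (a c : G) : δ (a * c) = δ a * c + eps σ a * δ c := by
  rw [eps_M' h.split (h.σδ c), h.leib]

theorem wm_ee (φ : End k G) (c : ZMod 1) (w : List B) :
    wm β β φ (ee (c, w)) = ww β (w.map fun x => φ (β x)) := by simp [wm, ee]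

theorem E_nil (φ : End k G) : wm β β φ (ww β []) = ww β [] := wm_ee β φ 0 []

theorem E_cons (φ : End k G) (a : G) (W : WW k B) :
    wm β β φ (cons β a W) = cons β (φ a) (wm β β φ W) := by
  induction a using basis_ind' β with
  | hb x =>
    induction W using ee_ind with
    | hb c w => rw [← ee_cons, wm_ee, wm_ee, List.map_cons, ww_cons]
    | h0 => simp
    | hadd x y hx hy => simp only [map_add, hx, hy]
    | hsmul c x hx => simp only [map_smul, hx]
  | h0 => simp
  | hadd x y hx hy => simp only [map_add, LinearMap.add_apply, hx, hy]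
  | hsmul c x hx => simp only [map_smul, LinearMap.smul_apply, hx]

theorem w_ind {P : WW k B → Prop} (hn : P (ww β [])) (hc : ∀ a W, P W → P (cons β a W))
    (h0 : P 0) (hadd : ∀ x y, P x → P y → P (x + y))
    (hsmul : ∀ (c : k) x, P x → P (c • x)) (W : WW k B) : P W :=
  ww_ind β (fun l => by
    induction l with
    | nil => exact hn
    | cons a l ih => exact hc a _ ih) h0 hadd hsmul W

theorem w_ext {f g : End k (WW k B)} (hn : f (ww β []) = g (ww β []))
    (hc : ∀ a W, f W = g W → f (cons β a W) = g (cons β a W)) (W : WW k B) : f W = g W :=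
  w_ind β (P := fun W => f W = g W) hn hc (by simp)
    (fun x y hx hy => by rw [map_add, map_add, hx, hy])
    (fun c x hx => by rw [map_smul, map_smul, hx]) W

theorem s_ext {f g : End k (WW k B)} (hn : f (ww β []) = g (ww β []))
    (hc : ∀ a W, f (snoc β a W) = g (snoc β a W)) (W : WW k B) : f W = g W :=
  ww_ext β (fun l => by
    induction l using List.reverseRecOn with
    | nil => exact hn
    | append_singleton l a _ => rw [ww_concat, hc]) W

theorem c_ext {f g : End k (WW k B)} (hn : f (ww β []) = g (ww β []))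
    (hc : ∀ a W, f (cons β a W) = g (cons β a W)) (W : WW k B) : f W = g W :=
  w_ext β hn (fun a W _ => hc a W) W

theorem om_nil : om (ww β []) = ww β [] := by rw [om_ww, List.length_nil, pow_zero, one_smul]

theorem E_snoc (φ : End k G) (a : G) (W : WW k B) :
    wm β β φ (snoc β a W) = snoc β (φ a) (wm β β φ W) :=
  w_ext β (f := wm β β φ ∘ₗ snoc β a) (g := snoc β (φ a) ∘ₗ wm β β φ)
    (by simp only [LinearMap.comp_apply, ← cons_nil, E_cons, E_nil])
    (fun c W ih => by
      simp only [LinearMap.comp_apply] at ih ⊢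
      rw [← cons_snoc, E_cons, ih, E_cons, cons_snoc]) W

theorem om_E (φ : End k G) (W : WW k B) : om (wm β β φ W) = wm β β φ (om W) :=
  w_ext β (f := om ∘ₗ wm β β φ) (g := wm β β φ ∘ₗ om)
    (by simp only [LinearMap.comp_apply, om_nil, E_nil])
    (fun c W ih => by
      simp only [LinearMap.comp_apply] at ih ⊢
      rw [E_cons, om_cons, om_cons, map_neg, E_cons, ih]) W

theorem E_E (hσ : Split σ) (W : WW k B) : wm β β (eps σ) (wm β β (eps σ) W) = W :=
  w_ext β (f := wm β β (eps σ) ∘ₗ wm β β (eps σ)) (g := LinearMap.id)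
    (by simp only [LinearMap.comp_apply, E_nil, LinearMap.id_apply])
    (fun c W ih => by
      simp only [LinearMap.comp_apply, LinearMap.id_apply] at ih ⊢
      rw [E_cons, E_cons, ih, eps_eps hσ]) W

theorem E_d0 (hσ : Split σ) (W : WW k B) :
    wm β β (eps σ) (d0 β W) = d0 β (wm β β (eps σ) W) :=
  c_ext β (f := wm β β (eps σ) ∘ₗ d0 β) (g := d0 β ∘ₗ wm β β (eps σ))
    (by simp only [LinearMap.comp_apply, E_nil, d0_ww_nil, map_zero])
    (fun a => c_ext β (f := wm β β (eps σ) ∘ₗ d0 β ∘ₗ cons β a)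
      (g := d0 β ∘ₗ wm β β (eps σ) ∘ₗ cons β a)
      (by simp only [LinearMap.comp_apply, E_cons, E_nil, d0_ww_one, map_zero])
      (fun c W => by simp only [LinearMap.comp_apply, E_cons, d0_cons_cons, eps_mul hσ])) W

theorem E_bp (hσ : Split σ) (W : WW k B) :
    wm β β (eps σ) (bp β W) = bp β (wm β β (eps σ) W) :=
  w_ext β (f := wm β β (eps σ) ∘ₗ bp β) (g := bp β ∘ₗ wm β β (eps σ))
    (by simp only [LinearMap.comp_apply, E_nil, bp_ww_nil, map_zero])
    (fun c W ih => by
      simp only [LinearMap.comp_apply] at ih ⊢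
      rw [bp_cons, map_sub, E_d0 β hσ, E_cons, E_cons, bp_cons, ih]) W

theorem dW_nil : dW β σ δ (ww β []) = 0 := by simp [dW, ww_nil, dl]

theorem dW_cons (a : G) (W : WW k B) :
    dW β σ δ (cons β a W) = cons β (δ a) W + cons β (eps σ a) (dW β σ δ W) := by
  induction a using basis_ind' β with
  | hb x =>
    induction W using ee_ind with
    | hb c w => rw [← ee_cons, dW, mk_ee, mk_ee, List.map_cons, dl, ee_eq_ww β]
    | h0 => simp
    | hadd x y hx hy => simp only [map_add, hx, hy]; abel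
    | hsmul c x hx => simp only [map_smul, hx, smul_add]
  | h0 => simp
  | hadd x y hx hy => simp only [map_add, LinearMap.add_apply, hx, hy]; abel
  | hsmul c x hx => simp only [map_smul, LinearMap.smul_apply, hx, smul_add]

theorem dW_snoc (a : G) (W : WW k B) : dW β σ δ (snoc β a W) =
    snoc β a (dW β σ δ W) + snoc β (δ a) (wm β β (eps σ) W) :=
  w_ext β (f := dW β σ δ ∘ₗ snoc β a)
    (g := snoc β a ∘ₗ dW β σ δ + snoc β (δ a) ∘ₗ wm β β (eps σ))
    (by
      simp only [LinearMap.comp_apply, LinearMap.add_apply, ← cons_nil, dW_cons, E_nil, dW_nil,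
        map_zero, add_zero, zero_add])
    (fun c W ih => by
      simp only [LinearMap.comp_apply, LinearMap.add_apply] at ih ⊢
      rw [← cons_snoc, dW_cons, ih, dW_cons, E_cons]
      simp only [map_add, cons_snoc]
      abel) W

theorem om_dW (W : WW k B) : om (dW β σ δ W) = dW β σ δ (om W) :=
  w_ext β (f := om ∘ₗ dW β σ δ) (g := dW β σ δ ∘ₗ om)
    (by simp only [LinearMap.comp_apply, om_nil, dW_nil, map_zero])
    (fun c W ih => by
      simp only [LinearMap.comp_apply] at ih ⊢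
      rw [dW_cons, map_add, om_cons, om_cons, om_cons, map_neg, dW_cons, ih]
      abel) W

theorem E_dW (h : DG σ δ) (W : WW k B) :
    wm β β (eps σ) (dW β σ δ W) = - dW β σ δ (wm β β (eps σ) W) :=
  w_ext β (f := wm β β (eps σ) ∘ₗ dW β σ δ) (g := - (dW β σ δ ∘ₗ wm β β (eps σ)))
    (by simp only [LinearMap.comp_apply, LinearMap.neg_apply, E_nil, dW_nil, map_zero, neg_zero])
    (fun c W ih => by
      simp only [LinearMap.comp_apply, LinearMap.neg_apply] at ih ⊢
      rw [dW_cons, map_add, E_cons, E_cons, E_cons, dW_cons, ih, eps_M (h.σδ c), δ_eps h]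
      simp only [map_neg, LinearMap.neg_apply]
      abel) W

theorem dW_dW (h : DG σ δ) (W : WW k B) : dW β σ δ (dW β σ δ W) = 0 :=
  w_ext β (f := dW β σ δ ∘ₗ dW β σ δ) (g := 0)
    (by simp only [LinearMap.comp_apply, dW_nil, map_zero, LinearMap.zero_apply])
    (fun c W ih => by
      simp only [LinearMap.comp_apply, LinearMap.zero_apply] at ih ⊢
      rw [dW_cons, map_add, dW_cons, dW_cons, ih, eps_M (h.σδ c), δ_eps h, δ_M h (h.σδ c)]
      simp) W

theorem dW_d0 (h : DG σ δ) (W : WW k B) : dW β σ δ (d0 β W) = d0 β (dW β σ δ W) :=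
  c_ext β (f := dW β σ δ ∘ₗ d0 β) (g := d0 β ∘ₗ dW β σ δ)
    (by simp only [LinearMap.comp_apply, dW_nil, d0_ww_nil, map_zero])
    (fun a => c_ext β (f := dW β σ δ ∘ₗ d0 β ∘ₗ cons β a) (g := d0 β ∘ₗ dW β σ δ ∘ₗ cons β a)
      (by simp only [LinearMap.comp_apply, dW_cons, dW_nil, d0_ww_one, map_zero, add_zero])
      (fun c W => by
        simp only [LinearMap.comp_apply, dW_cons, d0_cons_cons, eps_mul h.split, δ_mul h,
          map_add, LinearMap.add_apply, add_assoc])) W

theorem dW_bp (h : DG σ δ) (W : WW k B) : dW β σ δ (bp β W) = bp β (dW β σ δ W) :=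
  w_ext β (f := dW β σ δ ∘ₗ bp β) (g := bp β ∘ₗ dW β σ δ)
    (by simp only [LinearMap.comp_apply, dW_nil, bp_ww_nil, map_zero])
    (fun c W ih => by
      simp only [LinearMap.comp_apply] at ih ⊢
      rw [bp_cons, map_sub, dW_d0 β h, dW_cons, dW_cons, map_add, map_add, bp_cons, bp_cons, ih]
      abel) W

theorem TS_nil : TS β σ (ww β []) = ww β [] := by
  simp only [TS, LinearMap.sub_apply, End.mul_apply, E_nil, H1R.Tt_nil, TH_nil]
  abel

theorem TS_snoc (hσ : Split σ) (a : G) (W : WW k B) : TS β σ (snoc β a W) =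
    cons β (σ a) (om W) + cons β (a - σ a) (om (wm β β (eps σ) W)) := by
  simp only [TS, LinearMap.sub_apply, End.mul_apply, E_snoc, H1R.Tt_snoc, TH_snoc, σ_eps hσ]
  simp only [eps_apply, map_sub, LinearMap.sub_apply]
  abel

theorem TS_L (hσ : Split σ) {a : G} (ha : σ a = a) (W : WW k B) :
    TS β σ (snoc β a W) = cons β a (om W) := by
  rw [TS_snoc β hσ, ha, sub_self, map_zero, LinearMap.zero_apply, add_zero]

theorem TS_M (hσ : Split σ) {a : G} (ha : σ a = 0) (W : WW k B) :
    TS β σ (snoc β a W) = cons β a (om (wm β β (eps σ) W)) := by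
  rw [TS_snoc β hσ, ha, sub_zero, map_zero, LinearMap.zero_apply, zero_add]

theorem TS_one (hσ : Split σ) (a : G) : TS β σ (cons β a (ww β [])) = cons β a (ww β []) := by
  rw [cons_nil, TS_snoc β hσ, E_nil, om_nil, ← LinearMap.add_apply, ← map_add, add_sub_cancel,
    cons_nil]

theorem TS_cons_snoc (hσ : Split σ) (n a : G) (W : WW k B) :
    d0 β (TS β σ (cons β n (snoc β a W))) =
      - cons β (σ a * n) (om W) - cons β ((a - σ a) * eps σ n) (om (wm β β (eps σ) W)) := by
  rw [cons_snoc, TS_snoc β hσ, E_cons, om_cons, om_cons]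
  simp only [map_add, map_neg, d0_cons_cons]
  abel

theorem om_TS (hσ : Split σ) (W : WW k B) : om (TS β σ W) = TS β σ (om W) :=
  s_ext β (f := om ∘ₗ TS β σ) (g := TS β σ ∘ₗ om)
    (by simp only [LinearMap.comp_apply, om_nil, TS_nil])
    (fun a W => by
      simp only [LinearMap.comp_apply, om_snoc, map_neg, TS_snoc β hσ, map_add, om_cons, om_E]
      abel) W

theorem dW_TS (h : DG σ δ) (W : WW k B) : dW β σ δ (TS β σ W) = TS β σ (dW β σ δ W) :=
  s_ext β (f := dW β σ δ ∘ₗ TS β σ) (g := TS β σ ∘ₗ dW β σ δ)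
    (by simp only [LinearMap.comp_apply, dW_nil, TS_nil, map_zero])
    (fun a W => by
      simp only [LinearMap.comp_apply]
      induction a using hom_ind h.split with
      | hL a ha =>
        rw [dW_snoc, map_add, TS_L β h.split ha, TS_L β h.split ha, TS_M β h.split (h.σδ a),
          E_E β h.split, dW_cons, eps_L ha, om_dW, add_comm]
      | hM a ha =>
        rw [dW_snoc, map_add, TS_M β h.split ha, TS_M β h.split ha, dW_cons, δ_M h ha, eps_M ha,
          E_dW β h, ← om_dW]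
        simp
      | hadd a c ha hc => simp only [map_add, LinearMap.add_apply, ha, hc]) W

theorem key (hσ : Split σ) (W : WW k B) :
    bp β (TS β σ W) + d0 β (TS β σ (TS β σ W)) = d0 β (TS β σ W) + TS β σ (bp β W) := by
  refine s_ext β (f := bp β ∘ₗ TS β σ + d0 β ∘ₗ TS β σ ∘ₗ TS β σ)
    (g := d0 β ∘ₗ TS β σ + TS β σ ∘ₗ bp β) ?_ (fun c => s_ext β
      (f := (bp β ∘ₗ TS β σ + d0 β ∘ₗ TS β σ ∘ₗ TS β σ) ∘ₗ snoc β c)
      (g := (d0 β ∘ₗ TS β σ + TS β σ ∘ₗ bp β) ∘ₗ snoc β c) ?_ fun a W => ?_) W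
  · simp only [LinearMap.comp_apply, LinearMap.add_apply, TS_nil, bp_ww_nil, d0_ww_nil, map_zero]
  · simp only [LinearMap.comp_apply, LinearMap.add_apply, ← cons_nil, TS_one β hσ, bp_one,
      d0_ww_one, map_zero]
  simp only [LinearMap.comp_apply, LinearMap.add_apply]
  have h1 : d0 β (TS β σ (TS β σ (snoc β c (snoc β a W)))) = TS β σ (snoc β (a * c) (om W)) := by
    induction c using hom_ind hσ with
    | hL c hc =>
      rw [TS_L β hσ hc, om_snoc, map_neg, map_neg, map_neg, TS_cons_snoc β hσ, TS_snoc β hσ,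
        eps_L hc, map_mul σ, hc, sub_mul]
      abel
    | hM c hc =>
      have e : σ (a * c) = 0 := by rw [map_mul, hc, mul_zero]
      have e' : σ a * c = a * c := by
        have := hσ.sq _ _ (hσ.sub a) hc
        rw [sub_mul, sub_eq_zero] at this
        exact this.symm
      rw [TS_M β hσ hc, E_snoc, om_snoc, map_neg, map_neg, map_neg, TS_cons_snoc β hσ,
        TS_M β hσ e, eps_M hc, mul_neg, hσ.sq _ _ (hσ.sub _) hc, σ_eps hσ, e', om_E β _ (om W),
        om_om, om_om]
      simp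
    | hadd c c' hc hc' => simp only [map_add, LinearMap.add_apply, mul_add, hc, hc']
  rw [h1, bp_snoc_snoc, map_add, TS_snoc β hσ c, TS_snoc β hσ c, map_add, bp_cons, bp_cons,
    E_bp β hσ, om_bp, om_bp]
  simp only [map_add, map_neg]
  abel

theorem d0_d0_TS (hσ : Split σ) (W : WW k B) :
    d0 β (d0 β (TS β σ W)) + d0 β (TS β σ (d0 β W)) = 0 := by
  refine c_ext β (f := d0 β ∘ₗ d0 β ∘ₗ TS β σ + d0 β ∘ₗ TS β σ ∘ₗ d0 β) (g := 0) ?_
    (fun a => c_ext β (f := (d0 β ∘ₗ d0 β ∘ₗ TS β σ + d0 β ∘ₗ TS β σ ∘ₗ d0 β) ∘ₗ cons β a)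
      (g := 0) ?_ fun b => s_ext β
      (f := (d0 β ∘ₗ d0 β ∘ₗ TS β σ + d0 β ∘ₗ TS β σ ∘ₗ d0 β) ∘ₗ cons β a ∘ₗ cons β b)
      (g := 0) ?_ fun c W => ?_) W
  all_goals simp only [LinearMap.comp_apply, LinearMap.add_apply, LinearMap.zero_apply]
  · simp only [TS_nil, d0_ww_nil, map_zero, add_zero]
  · simp only [TS_one β hσ, d0_ww_one, map_zero, add_zero]
  · rw [d0_cons_cons, TS_one β hσ, cons_nil β b, TS_cons_snoc β hσ, E_nil, om_nil]
    simp only [map_sub (d0 β), map_neg, d0_ww_one, neg_zero, sub_zero, add_zero]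
  · rw [d0_cons_cons, cons_snoc β b, TS_cons_snoc β hσ, TS_cons_snoc β hσ, E_cons, om_cons,
      om_cons, eps_mul hσ]
    simp only [map_sub (d0 β), map_neg, d0_cons_cons, mul_assoc]
    abel

theorem bT_apply (W : WW k B) : bT β σ W = bp β W + d0 β (TS β σ W) := rfl

theorem DD_apply (W : WW k B) : DD β σ δ W = bT β σ W + om (dW β σ δ W) := rfl

theorem DK_apply (c : k) (W : WW k B) : DK β σ δ c W = bp β W + c • om (dW β σ δ W) := rfl

theorem bT_bT (hσ : Split σ) (W : WW k B) : bT β σ (bT β σ W) = 0 := by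
  have h1 := congrArg (d0 β) (key β hσ W)
  have h2 := bp_d0_add β (TS β σ W)
  have h3 := d0_d0_TS β hσ (TS β σ W)
  simp only [map_add] at h1
  simp only [bT_apply, map_add, bp_bp]
  linear_combination (norm := abel) h2 + h3 - h1

theorem DD_DD (h : DG σ δ) (W : WW k B) : DD β σ δ (DD β σ δ W) = 0 := by
  have h1 : ∀ W, om (bT β σ W) = - bT β σ (om W) := fun W => by
    rw [bT_apply, bT_apply, map_add, om_bp, om_d0, om_TS β h.split]; abel
  have h2 : dW β σ δ (bT β σ W) = bT β σ (dW β σ δ W) := by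
    rw [bT_apply, bT_apply, map_add, dW_bp β h, dW_d0 β h, dW_TS β h]
  rw [DD_apply, DD_apply, map_add, map_add, bT_bT β h.split, h2, ← om_dW, dW_dW β h, map_add, h1]
  simp

theorem DK_DK (h : DG σ δ) (c : k) (W : WW k B) : DK β σ δ c (DK β σ δ c W) = 0 := by
  rw [DK_apply, DK_apply, map_add, map_add, bp_bp, dW_bp β h, map_smul, map_smul, ← om_dW,
    dW_dW β h, map_add, om_bp]
  simp

/-- Words with all letters in `L`. -/
noncomputable def YW (L : Submodule k G) : Submodule k (WW k B) :=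
  Submodule.span k {W | ∃ l : List G, (∀ a ∈ l, a ∈ L) ∧ W = ww β l}

variable {β} {N L : Submodule k G}

theorem YW_map (f : End k (WW k B)) (V : Submodule k (WW k B))
    (h : ∀ l : List G, (∀ a ∈ l, a ∈ L) → f (ww β l) ∈ V) {W : WW k B} (hW : W ∈ YW β L) :
    f W ∈ V :=
  (Submodule.span_le (p := V.comap f)).2 (by rintro _ ⟨l, hl, rfl⟩; exact h l hl) hW

theorem XW_map (f : End k (WW k B)) (V : Submodule k (WW k B))
    (h : ∀ n ∈ N, ∀ l : List G, (∀ a ∈ l, a ∈ L) → f (cons β n (ww β l)) ∈ V) {W : WW k B}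
    (hW : W ∈ XW β N L) : f W ∈ V :=
  (Submodule.span_le (p := V.comap f)).2 (by rintro _ ⟨n, hn, l, hl, rfl⟩; exact h n hn l hl) hW

theorem ww_Y {l : List G} (h : ∀ a ∈ l, a ∈ L) : ww β l ∈ YW β L :=
  Submodule.subset_span ⟨l, h, rfl⟩

theorem cons_X {n : G} (hn : n ∈ N) {W : WW k B} (hW : W ∈ YW β L) : cons β n W ∈ XW β N L :=
  YW_map (cons β n) (XW β N L) (fun l hl => by
    rw [← ww_cons]; exact Submodule.subset_span ⟨n, hn, l, hl, rfl⟩) hW

theorem cons_Y {a : G} (ha : a ∈ L) {W : WW k B} (hW : W ∈ YW β L) : cons β a W ∈ YW β L :=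
  YW_map (cons β a) _ (fun l hl => ww_Y (l := a :: l) (List.forall_mem_cons.2 ⟨ha, hl⟩)) hW

theorem Y_ind (f : End k (WW k B)) (hn : f (ww β []) ∈ YW β L)
    (hc : ∀ a ∈ L, ∀ W ∈ YW β L, f W ∈ YW β L → f (cons β a W) ∈ YW β L) {W : WW k B}
    (hW : W ∈ YW β L) : f W ∈ YW β L :=
  YW_map f _ (fun l hl => by
    induction l with
    | nil => exact hn
    | cons a l ih =>
      have := List.forall_mem_cons.1 hl
      exact hc a this.1 _ (ww_Y this.2) (ih this.2)) hW

theorem om_Y {W : WW k B} (hW : W ∈ YW β L) : om W ∈ YW β L :=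
  YW_map om _ (fun l hl => by rw [om_ww]; exact Submodule.smul_mem _ _ (ww_Y hl)) hW

theorem d0_X (h : ∀ n ∈ N, ∀ a ∈ L, n * a ∈ N) {n : G} (hn : n ∈ N) {W : WW k B}
    (hW : W ∈ YW β L) : d0 β (cons β n W) ∈ XW β N L :=
  YW_map (d0 β ∘ₗ cons β n) _ (fun l hl => by
    cases l with
    | nil => rw [LinearMap.comp_apply, d0_ww_one]; exact Submodule.zero_mem _
    | cons a l =>
      have := List.forall_mem_cons.1 hl
      rw [LinearMap.comp_apply, ww_cons, d0_cons_cons]
      exact cons_X (h n hn a this.1) (ww_Y this.2)) hW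

theorem X_le_Y {W : WW k B} (hW : W ∈ XW β L L) : W ∈ YW β L :=
  XW_map LinearMap.id _ (fun _ hn _ hl => cons_Y hn (ww_Y hl)) hW

theorem DD_mem (hσ : Split σ) (h : Pair σ δ N L) {W : WW k B} (hW : W ∈ XW β N L) :
    DD β σ δ W ∈ XW β N L := by
  have eL : ∀ a ∈ L, eps σ a ∈ L := fun a ha => L.sub_mem (h.σL a ha) (L.sub_mem ha (h.σL a ha))
  have eN : ∀ a ∈ N, eps σ a ∈ N := fun a ha => N.sub_mem (h.σN a ha) (N.sub_mem ha (h.σN a ha))
  have hE : ∀ {W}, W ∈ YW β L → wm β β (eps σ) W ∈ YW β L :=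
    Y_ind _ (by rw [E_nil]; exact ww_Y (by simp))
      fun a ha W _ ih => by rw [E_cons]; exact cons_Y (eL a ha) ih
  have hd : ∀ {W}, W ∈ YW β L → dW β σ δ W ∈ YW β L :=
    Y_ind _ (by rw [dW_nil]; exact Submodule.zero_mem _) fun a ha W hW ih => by
      rw [dW_cons]; exact Submodule.add_mem _ (cons_Y (h.δL a ha) hW) (cons_Y (eL a ha) ih)
  have hb : ∀ {W}, W ∈ YW β L → bp β W ∈ YW β L :=
    Y_ind _ (by rw [bp_ww_nil]; exact Submodule.zero_mem _) fun a ha W hW ih => by
      rw [bp_cons]; exact Submodule.sub_mem _ (X_le_Y (d0_X h.LL ha hW)) (cons_Y ha ih)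
  refine XW_map _ _ (fun n hn l hl => ?_) hW
  rw [DD_apply, bT_apply, bp_cons, dW_cons, map_add, om_cons, om_cons]
  refine Submodule.add_mem _ (Submodule.add_mem _ (Submodule.sub_mem _ (d0_X h.NL hn (ww_Y hl))
    (cons_X hn (hb (ww_Y hl)))) ?_) (Submodule.add_mem _
    (Submodule.neg_mem _ (cons_X (h.δN n hn) (om_Y (ww_Y hl))))
    (Submodule.neg_mem _ (cons_X (eN n hn) (om_Y (hd (ww_Y hl))))))
  induction l using List.reverseRecOn with
  | nil => rw [TS_one β hσ, d0_ww_one]; exact Submodule.zero_mem _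
  | append_singleton l a _ =>
    have h1 : ww β l ∈ YW β L := ww_Y fun c hc => hl c (List.mem_append_left _ hc)
    have h2 : a ∈ L := hl a (by simp)
    rw [ww_concat, TS_cons_snoc β hσ]
    exact Submodule.sub_mem _ (Submodule.neg_mem _ (cons_X (h.LN _ (h.σL a h2) n hn) (om_Y h1)))
      (cons_X (h.LN _ (L.sub_mem h2 (h.σL a h2)) _ (eN n hn)) (om_Y (hE h1)))

theorem DD_eq (hσ : Split σ) {W : WW k B} (hW : W ∈ XW β (zc σ δ N) (zc σ δ L)) :
    DD β σ δ W = bH β W := by
  have h0 : ∀ l : List G, (∀ a ∈ l, δ a = 0) → dW β σ δ (ww β l) = 0 := fun l hl => by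
    induction l with
    | nil => exact dW_nil β
    | cons a l ih =>
      have := List.forall_mem_cons.1 hl
      rw [ww_cons, dW_cons, this.1, ih this.2]; simp
  have := XW_map (DD β σ δ - bH β) ⊥ (fun n hn l hl => ?_) hW
  · exact sub_eq_zero.1 ((Submodule.mem_bot k).1 this)
  rw [Submodule.mem_bot, LinearMap.sub_apply, sub_eq_zero, DD_apply, bT_apply, bH_apply, dW_cons,
    (mem_zc.1 hn).2, h0 l fun a ha => (mem_zc.1 (hl a ha)).2]
  simp only [map_zero, LinearMap.zero_apply, add_zero, add_right_inj]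
  induction l using List.reverseRecOn with
  | nil => rw [TS_one β hσ, d0_ww_one, d0_TH_one]
  | append_singleton l a _ =>
    rw [ww_concat, cons_snoc, TS_L β hσ (mem_zc.1 (hl a (by simp))).1.2, TH_snoc]

end Calcx

open Calcx in
theorem sCalc : SCalc := fun _ _ _ _ _ _ β _ _ h =>
  { E_nil := E_nil β _
    E_cons := E_cons β _
    E_snoc := E_snoc β _
    dW_nil := dW_nil β
    dW_cons := dW_cons β
    dW_snoc := dW_snoc β
    TS_L := fun _ W ha => TS_L β h.split ha W
    TS_M := fun _ W ha => TS_M β h.split ha W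
    d0_TS_nil := by rw [TS_nil, d0_ww_nil]
    om_dW := om_dW β
    bT_bT := bT_bT β h.split
    DD_DD := DD_DD β h
    DK_DK := DK_DK β h
    DD_mem := fun _ _ hp _ hW => DD_mem h.split hp hW
    DD_eq := fun _ _ _ hW => DD_eq h.split hW }

end Pool.Agent.MP_92f1cb_al.H21T
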