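import Pool.Agent.MP_92f1cb_al.H21T.Spec
import Pool.Agent.MP_92f1cb_al.H14C.Gld

set_option autoImplicit false

namespace Pool.Agent.MP_92f1cb_al.H21T

open Pool.Agent.MP_92f1cb_al.H14 Pool.Agent.MP_92f1cb_al.H14C Module

namespace Cobx

variable {k R B V : Type} [Field k] [Ring R] [Algebra k R] [AddCommGroup V] [Module k V]
  (β : Basis B k R)

/-- A linear map on words given through the last letter. -/
theorem exists_last {Y : Type} [AddCommGroup Y] [Module k Y] (F : R →ₗ[k] WW k B →ₗ[k] Y) :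
    ∃ L : WW k B →ₗ[k] Y, ∀ a W, L (snoc β a W) = F a W := by
  classical
  refine ⟨Finsupp.linearCombination k fun p =>
    if h : p.2 = [] then 0 else F (β (p.2.getLast h)) (ee (p.1, p.2.dropLast)), fun a W => ?_⟩
  induction a using basis_ind' β with
  | hb x =>
    induction W using ee_ind with
    | hb c w => rw [snoc_basis, snocB_ee]; simp [ee]
    | h0 => simp
    | hadd x y hx hy => simp only [map_add, hx, hy]
    | hsmul c x hx => simp only [map_smul, hx]
  | h0 => simp
  | hadd x y hx hy => simp only [map_add, LinearMap.add_apply, hx, hy]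
  | hsmul c x hx => simp only [map_smul, LinearMap.smul_apply, hx]

/-- The product of the derivations, on words. -/
noncomputable def Pw (ρ : ℕ → R →ₗ[k] End k V) (m : ℕ) : WW k B →ₗ[k] End k V :=
  Finsupp.linearCombination k fun p => prodR (fun m x => ρ m x) m (p.2.map β)

theorem Pw_cons (ρ : ℕ → R →ₗ[k] End k V) (m : ℕ) (a : R) (W : WW k B) :
    Pw β ρ m (cons β a W) = ρ m a * Pw β ρ (m + 1) W := by
  induction a using basis_ind' β with
  | hb x =>
    induction W using ee_ind with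
    | hb c w => rw [cons_basis, consB_ee]; simp [ee, Pw, prodR]
    | h0 => simp
    | hadd x y hx hy => simp only [map_add, hx, hy, mul_add]
    | hsmul c x hx => simp only [map_smul, hx, mul_smul_comm]
  | h0 => simp
  | hadd x y hx hy => simp only [map_add, LinearMap.add_apply, hx, hy, add_mul]
  | hsmul c x hx => simp only [map_smul, LinearMap.smul_apply, hx, smul_mul_assoc]

theorem Pw_ww (ρ : ℕ → R →ₗ[k] End k V) (l : List R) :
    ∀ m, Pw β ρ m (ww β l) = prodR (fun m x => ρ m x) m l := by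
  induction l with
  | nil => intro m; simp [ww_nil, ee, Pw, prodR]
  | cons a l ih => intro m; rw [ww_cons, Pw_cons, ih]; rfl

theorem prodR_concat (ρ : ℕ → R →ₗ[k] End k V) (l : List R) (a : R) :
    ∀ m, prodR (fun m x => ρ m x) m (l ++ [a]) =
      prodR (fun m x => ρ m x) m l * ρ (m + l.length) a := by
  induction l with
  | nil => intro m; simp [prodR]
  | cons c l ih =>
    intro m
    rw [List.cons_append, prodR, ih, prodR, mul_assoc, List.length_cons, Nat.add_right_comm m 1,
      Nat.add_assoc]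

variable {φ : ℕ → R →ₐ[k] End k V} {ρ : ℕ → R →ₗ[k] End k V}

/-- The product of the derivations is a cocycle. -/
theorem tele (h : ∀ m a c, ρ m (a * c) = φ m a * ρ m c + ρ m a * φ (m + 1) c) (a' : R)
    (l' : List R) : ∀ (m : ℕ) (a : R) (l : List R), a :: l = l' ++ [a'] →
      Pw β ρ m (bp β (ww β (a :: l))) = φ m a * Pw β ρ m (ww β l) -
        (-1 : k) ^ l'.length • (Pw β ρ m (ww β l') * φ (m + l'.length) a') := by
  induction l' with
  | nil =>
    intro m a l e
    obtain ⟨rfl, rfl⟩ := List.cons.inj e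
    rw [ww_cons, bp_one, Pw_ww]
    simp [prodR]
  | cons c l' ih =>
    intro m a l e
    obtain ⟨rfl, e2⟩ := List.cons.inj e
    obtain ⟨b, l₂, rfl⟩ : ∃ b l₂, l = b :: l₂ := by
      cases l with
      | nil => simp at e2
      | cons b l₂ => exact ⟨b, l₂, rfl⟩
    rw [ww_cons, bp_cons, map_sub, Pw_cons, ih (m + 1) b l₂ e2, ww_cons, d0_cons_cons, Pw_cons,
      Pw_cons, h, ww_cons, Pw_cons, List.length_cons, pow_succ, Nat.add_right_comm m 1,
      Nat.add_assoc]
    simp only [mul_sub, add_mul, mul_assoc, mul_smul_comm, mul_neg, mul_one, neg_smul]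
    abel

theorem lift_lin (h : ∀ m a c, ρ m (a * c) = φ m a * ρ m c + ρ m a * φ (m + 1) c) (j : ℕ)
    {P : Type} [AddCommGroup P] [Module R P] [Module k P] [IsScalarTower k R P]
    [Module.Projective R P] (τ : P →ₗ[k] V) (hτ : ∀ (a : R) y, τ (a • y) = φ (j + 1) a (τ y)) :
    ∃ Θ : P →ₗ[k] V, ∀ (a : R) y, Θ (a • y) = φ j a (Θ y) + ρ j a (τ y) := by
  obtain ⟨Θ, hΘ⟩ := GldR.lift (φ j) (φ (j + 1)) (ρ j) (h j) τ.toAddMonoidHom hτ
  have h1 : ρ j 1 = 0 := by
    have := h j 1 1
    rw [mul_one, map_one (φ j), map_one (φ (j + 1)), one_mul, mul_one] at this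
    exact left_eq_add.1 this
  refine ⟨⟨Θ.toAddHom, fun c y => ?_⟩, hΘ⟩
  have e := hΘ (c • (1 : R)) y
  rw [smul_assoc, one_smul, map_smul (φ j), map_smul (ρ j), h1, map_one] at e
  simpa using e

theorem main (h : ∀ m a c, ρ m (a * c) = φ m a * ρ m c + ρ m a * φ (m + 1) c) (m n : ℕ) :
    ∀ (X : Type) [AddCommGroup X] [Module R X] [Module k X] [IsScalarTower k R X], PD R n X →
    ∀ j, n ≤ j → ∀ θ : X →ₗ[k] V, (∀ (a : R) x, θ (a • x) = φ (m + j + 1) a (θ x)) →
    ∃ ψ : WW k B →ₗ[k] X →ₗ[k] V, ∀ (a a' : R) (l l' : List R), a :: l = l' ++ [a'] →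
      l'.length = j → ∀ x, prodR (fun m x => ρ m x) m (a :: l) (θ x) =
        φ m a (ψ (ww β l) x) - ψ (bp β (ww β (a :: l))) x -
          (-1 : k) ^ j • ψ (ww β l') (a' • x) := by
  have one : ∀ (X : Type) [AddCommGroup X] [Module R X] [Module k X] (j : ℕ) (T : X →ₗ[k] V),
      ∃ ψ : WW k B →ₗ[k] X →ₗ[k] V, ∀ (a a' : R) (l l' : List R), a :: l = l' ++ [a'] →
        l'.length = j → ∀ x, Pw β ρ m (ww β l') (T (a' • x) - φ (m + j) a' (T x)) =
          φ m a (ψ (ww β l) x) - ψ (bp β (ww β (a :: l))) x -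
            (-1 : k) ^ j • ψ (ww β l') (a' • x) := by
    intro X _ _ _ j T
    refine ⟨-(-1 : k) ^ j • (LinearMap.lcomp k V T ∘ₗ Pw β ρ m), fun a a' l l' e hl x => ?_⟩
    have hs : (-1 : k) ^ j * (-1 : k) ^ j = 1 := by rw [← mul_pow]; simp
    simp only [LinearMap.smul_apply, LinearMap.comp_apply, LinearMap.lcomp_apply]
    rw [tele β h a' l' m a l e, hl]
    simp only [LinearMap.sub_apply, LinearMap.smul_apply, End.mul_apply, map_smul, map_sub,
      smul_sub, smul_neg, smul_smul, neg_mul, hs, neg_smul, one_smul, map_neg]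
    abel
  induction n with
  | zero =>
    intro X _ _ _ _ hX j _ θ hθ
    have : Module.Projective R X := hX
    obtain ⟨Θ, hΘ⟩ := lift_lin h (m + j) θ hθ
    obtain ⟨ψ, hψ⟩ := one X j Θ
    refine ⟨ψ, fun a a' l l' e hl x => ?_⟩
    rw [← hψ a a' l l' e hl x, hΘ, add_sub_cancel_left, e, prodR_concat, hl, Pw_ww]
    rfl
  | succ n ih =>
    intro X _ _ _ _ hX j hj θ hθ
    obtain ⟨P, _, _, π, hP, hπ, hK⟩ := hX
    let _ : Module k P := Module.compHom P (algebraMap k R)
    have : IsScalarTower k R P := ⟨fun c a y => by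
      rw [Algebra.smul_def, mul_smul]; rfl⟩
    obtain ⟨j, rfl⟩ : ∃ i, j = i + 1 := ⟨j - 1, by omega⟩
    obtain ⟨Θ, hΘ⟩ := lift_lin h (m + (j + 1)) (θ ∘ₗ π.restrictScalars k) fun a y => by
      simp only [LinearMap.comp_apply, LinearMap.restrictScalars_apply, map_smul, hθ]
    obtain ⟨s, hs⟩ := (π.restrictScalars k).exists_rightInverse_of_surjective
      (LinearMap.range_eq_top.2 hπ)
    have hs' : ∀ x, π (s x) = x := fun x => LinearMap.congr_fun hs x
    obtain ⟨ψ', hψ'⟩ := ih (LinearMap.ker π) hK j (by omega)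
      (Θ ∘ₗ (LinearMap.ker π).subtype.restrictScalars k) fun a y => by
        have h0 : π y = 0 := y.2
        simp only [LinearMap.comp_apply, LinearMap.restrictScalars_apply, Submodule.subtype_apply,
          Submodule.coe_smul, hΘ, h0, map_zero, add_zero]
        rfl
    let κ : R →ₗ[k] X →ₗ[k] LinearMap.ker π := LinearMap.mk₂ k
      (fun a x => ⟨a • s x - s (a • x), by
        rw [LinearMap.mem_ker, map_sub, map_smul, hs', hs', sub_self]⟩)
      (fun a c x => Subtype.ext (by simp only [add_smul, map_add, Submodule.coe_add]; abel))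
      (fun c a x => Subtype.ext (by
        simp only [smul_assoc, map_smul, Submodule.coe_smul_of_tower, smul_sub]))
      (fun a x y => Subtype.ext (by simp only [smul_add, map_add, Submodule.coe_add]; abel))
      (fun c a x => Subtype.ext (by
        simp only [map_smul, Submodule.coe_smul_of_tower, smul_sub, smul_comm a c]))
    have hκ : ∀ a x, (κ a x : P) = a • s x - s (a • x) := fun _ _ => rfl
    have hκ2 : ∀ (a c : R) x, a • κ c x = κ (a * c) x - κ a (c • x) := fun a c x =>
      Subtype.ext (by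
        simp only [Submodule.coe_smul, Submodule.coe_sub, hκ, smul_sub, mul_smul]; abel)
    obtain ⟨ψ₂, hψ₂⟩ := exists_last β (Y := X →ₗ[k] V)
      ((LinearMap.llcomp k X (LinearMap.ker π) V).flip.compl₂ ψ' ∘ₗ κ)
    have hψ₃ : ∀ a W x, ψ₂ (snoc β a W) x = ψ' W (κ a x) := fun a W x => by
      rw [hψ₂]; rfl
    obtain ⟨ψ₁, hψ₁⟩ := one X (j + 1) (Θ ∘ₗ s)
    refine ⟨ψ₁ + ψ₂, fun a a' l l' e hl x => ?_⟩
    obtain ⟨l₁, rfl⟩ : ∃ l₁, l' = a :: l₁ := by
      cases l' with
      | nil => simp at hl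
      | cons b l₁ => exact ⟨l₁, by rw [(List.cons.inj e).1]⟩
    obtain rfl : l = l₁ ++ [a'] := (List.cons.inj e).2
    obtain ⟨l₂, b, e2⟩ : ∃ l₂ b, a :: l₁ = l₂ ++ [b] :=
      ⟨_, _, (List.dropLast_append_getLast (List.cons_ne_nil a l₁)).symm⟩
    have hl2 : l₂.length = j := by
      have := congrArg List.length e2
      simp only [List.length_append, List.length_cons, List.length_nil] at this hl
      omega
    have e3 := hψ' a b l₁ l₂ e2 hl2 (κ a' x)
    have e4 := hψ₁ a a' _ _ e hl x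
    have e5 : ρ (m + (j + 1)) a' (θ x) = Θ (κ a' x) +
        (Θ (s (a' • x)) - φ (m + (j + 1)) a' (Θ (s x))) := by
      rw [hκ, map_sub, hΘ]
      simp only [LinearMap.comp_apply, LinearMap.restrictScalars_apply, hs']
      abel
    have e6 : ψ₂ (bp β (ww β (a :: (l₁ ++ [a'])))) x =
        ψ' (bp β (ww β (a :: l₁))) (κ a' x) + (-1 : k) ^ j • ψ' (ww β l₂) (κ (b * a') x) := by
      rw [← List.cons_append, ww_concat, e2, ww_concat, bp_snoc_snoc, map_add,
        LinearMap.add_apply, hψ₃, hψ₃, om_ww, hl2, map_smul, LinearMap.smul_apply]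
    have e7 : ψ₂ (ww β (a :: l₁)) (a' • x) = ψ' (ww β l₂) (κ b (a' • x)) := by
      rw [e2, ww_concat, hψ₃]
    have e8 : ψ₂ (ww β (l₁ ++ [a'])) x = ψ' (ww β l₁) (κ a' x) := by
      rw [ww_concat, hψ₃]
    rw [e, prodR_concat, hl, End.mul_apply, e5, map_add, ← e]
    simp only [LinearMap.comp_apply, LinearMap.restrictScalars_apply, Submodule.subtype_apply,
      Pw_ww] at e3 e4
    rw [e3, e4, hκ2]
    simp only [LinearMap.add_apply, map_add, map_sub, e6, e7, e8, pow_succ, mul_neg, mul_one,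
      neg_smul, smul_add, smul_sub]
    abel

end Cobx

theorem sCob : SCob := by
  intro k R B V _ _ _ _ _ β φ ρ n D h hX hn
  obtain ⟨j, rfl⟩ : ∃ j, D = j + 1 := ⟨D - 1, by omega⟩
  let _ : Module R V := Module.compHom V (φ (j + 1)).toRingHom
  have hs : ∀ (a : R) (v : V), a • v = φ (j + 1) a v := fun _ _ => rfl
  have : IsScalarTower k R V := ⟨fun c a v => by rw [hs, hs, map_smul]; rfl⟩
  obtain ⟨ψ, hψ⟩ := Cobx.main β h 0 n V (hX V) j (by omega) LinearMap.id fun a x => by
    rw [zero_add]; rfl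
  refine ⟨ψ, fun a a' l l' e hl => LinearMap.ext fun x => ?_⟩
  have hl' : l'.length = j := by
    have := congrArg List.length e
    simp only [List.length_append, List.length_cons, List.length_nil] at this
    omega
  have := hψ a a' l l' e hl' x
  rw [LinearMap.id_apply, hs] at this
  rw [this]
  simp only [LinearMap.add_apply, LinearMap.sub_apply, LinearMap.smul_apply, End.mul_apply,
    pow_succ, mul_neg, mul_one, neg_smul, LinearMap.neg_apply]
  abel

end Pool.Agent.MP_92f1cb_al.H21T
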