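import Pool.Agent.MP_92f1cb_al.H21T.Spec

set_option autoImplicit false

namespace Pool.Agent.MP_92f1cb_al.H21T

open Pool.Agent.MP_92f1cb_al.H14 Pool.Agent.MP_92f1cb_al.H14C Module

namespace G1

variable {k A G : Type} [Field k] [Ring A] [Algebra k A] [Ring G] [Algebra k G] {b : Base k A}
  (m : Mx b G)

theorem ext {x z : G} (h : ∀ c c', m.ent x c c' = m.ent z c c') : x = z := by
  rw [← m.mat_ent x, ← m.mat_ent z, Matrix.ext h]

theorem εε (i : Fin 3) : b.ε i * b.ε i = b.ε i := (b.tri.1.idem i).eq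

theorem τε (i : Fin 3) : b.τ (b.ε i) = b.ε i := b.tri.3 i

theorem σε (i : Fin 3) : b.σ (b.ε i) = b.ε i := by rw [← τε, b.στ]

theorem corner (x : G) (c c' : CC b) :
    b.ε (ty c) * m.ent x c c' * b.ε (ty c') = m.ent x c c' := by
  rw [← m.ent_mat, m.mat_ent]

theorem left (x : G) (c c' : CC b) : b.ε (ty c) * m.ent x c c' = m.ent x c c' := by
  conv_lhs => rw [← corner m x c c']
  rw [← mul_assoc, ← mul_assoc, εε, corner]

theorem right (x : G) (c c' : CC b) : m.ent x c c' * b.ε (ty c') = m.ent x c c' := by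
  conv_lhs => rw [← corner m x c c']
  rw [mul_assoc, εε, corner]

theorem ent_lift {f : End k A} (hf : ∀ i a, f (b.ε i * a) = b.ε i * f a ∧ f (a * b.ε i) = f a * b.ε i)
    (x : G) (c c' : CC b) : m.ent (m.lift f x) c c' = f (m.ent x c c') := by
  have h : m.ent (m.lift f x) c c' = b.ε (ty c) * f (m.ent x c c') * b.ε (ty c') :=
    m.ent_mat (f.mapMatrix (m.ent x)) c c'
  rw [h, ← (hf _ _).1, ← (hf _ _).2, corner]

theorem ent_d (x : G) (c c' : CC b) : m.ent (m.lift b.d x) c c' = b.d (m.ent x c c') := by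
  refine ent_lift m (fun i a => ?_) x c c'
  have h : b.d (b.ε i) = 0 := by rw [← τε, b.dτ]
  constructor
  · rw [b.dg.leib, h, zero_mul, zero_add]
  · rw [b.dg.leib, h, mul_zero, add_zero]

theorem ent_p (x : G) (c c' : CC b) : m.ent (m.p x) c c' = b.p (m.ent x c c') :=
  ent_lift m b.pε x c c'

theorem ent_q (D : ℕ) (x : G) (c c' : CC b) : m.ent (m.q D x) c c' = b.q D (m.ent x c c') := by
  refine ent_lift m (fun i a => ?_) x c c'
  have h := b.qmul D (b.ε i) a
  rwa [τε] at h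

theorem ent_mul (x z : G) (c c' : CC b) :
    m.ent (x * z) c c' = ∑ e, m.ent x c e * m.ent z e c' := by
  rw [m.ent_mul, Matrix.mul_apply]

theorem ent_zero (c c' : CC b) : m.ent 0 c c' = 0 := by rw [map_zero, Matrix.zero_apply]

theorem σ_zero {x : G} : m.σ x = 0 ↔ ∀ c c', b.σ (m.ent x c c') = 0 :=
  ⟨fun h c c' => by rw [← m.ent_σ, h, ent_zero], fun h => ext m fun c c' => by
    rw [m.ent_σ, h, ent_zero]⟩

theorem mem_p {x : G} : x ∈ fx m.p ↔ ∀ c c', b.p (m.ent x c c') = m.ent x c c' :=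
  ⟨fun h c c' => by rw [← ent_p, mem_fx.1 h], fun h => ext m fun c c' => by
    exact (ent_p m x c c').trans (h c c')⟩

theorem mem_q {D : ℕ} {x : G} :
    x ∈ fx (m.q D) ↔ ∀ c c', b.q D (m.ent x c c') = m.ent x c c' :=
  ⟨fun h c c' => by rw [← ent_q, mem_fx.1 h], fun h => ext m fun c c' => by
    exact (ent_q m D x c c').trans (h c c')⟩

theorem σ_dm (c c' : CC b) : b.σ (dm b c c') = 0 := by
  rcases c with i | ⟨j, _ | z⟩
  · exact map_zero _
  · exact map_zero _
  · rcases c' with i' | ⟨j', _ | z'⟩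
    · exact map_zero _
    · show b.σ (if j = j' then b.dl j z else 0) = 0
      split_ifs
      · exact (b.dl_mem j z).1
      · exact map_zero _
    · exact map_zero _

theorem σ_h : m.σ (m.mat (dm b)) = 0 :=
  (σ_zero m).2 fun c c' => by rw [m.ent_mat, map_mul, map_mul, σ_dm, mul_zero, zero_mul]

theorem δ_apply (x : G) :
    m.δ x = m.lift b.d x + m.mat (dm b) * x - x * m.mat (dm b) := rfl

theorem split : Split m.σ :=
  ⟨fun a => ext m fun c c' => by rw [m.ent_σ, m.ent_σ, b.dg.split.1],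
    fun a z ha hz => ext m fun c c' => by
      rw [ent_mul, ent_zero]
      exact Finset.sum_eq_zero fun e _ =>
        b.dg.split.2 _ _ ((σ_zero m).1 ha _ _) ((σ_zero m).1 hz _ _)⟩

theorem dgm : DG m.σ m.δ := by
  refine ⟨split m, fun a z => ?_, fun a => ?_, fun a => ?_⟩
  · have h : m.lift b.d (a * z) = m.lift b.d a * z + a * m.lift b.d z := ext m fun c c' => by
      rw [map_add, Matrix.add_apply, ent_d, ent_mul, ent_mul, ent_mul, map_sum,
        ← Finset.sum_add_distrib]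
      exact Finset.sum_congr rfl fun e _ => by rw [b.dg.leib, ent_d, ent_d]
    rw [δ_apply, δ_apply, δ_apply, h]
    noncomm_ring
  · have h : m.σ (m.lift b.d a) = 0 := (σ_zero m).2 fun c c' => by rw [ent_d, b.dg.σδ]
    rw [δ_apply, map_sub, map_add, map_mul, map_mul, σ_h, h, zero_mul, mul_zero, add_zero,
      sub_zero]
  · have h : m.lift b.d (m.σ a) = m.lift b.d a := ext m fun c c' => by
      rw [ent_d, ent_d, m.ent_σ, b.dg.δσ]
    have h1 := (split m).2 _ _ (σ_h m) ((split m).sub a)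
    have h2 := (split m).2 _ _ ((split m).sub a) (σ_h m)
    rw [mul_sub, sub_eq_zero] at h1
    rw [sub_mul, sub_eq_zero] at h2
    rw [δ_apply, δ_apply, h, ← h1, ← h2]

theorem p_mul (a : G) (ha : a ∈ fx m.p) (z : G) (hz : z ∈ fx m.p) : a * z ∈ fx m.p :=
  (mem_p m).2 fun c c' => by
    rw [ent_mul, map_sum]
    exact Finset.sum_congr rfl fun e _ => b.pmul _ _ ((mem_p m).1 ha _ _) ((mem_p m).1 hz _ _)

theorem p_σ (a : G) (ha : a ∈ fx m.p) : m.σ a ∈ fx m.p :=
  (mem_p m).2 fun c c' => by rw [m.ent_σ, b.pσ, (mem_p m).1 ha]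

theorem p_δ (a : G) : m.δ a ∈ fx m.p :=
  (mem_p m).2 fun c c' => b.pO _ ((σ_zero m).1 ((dgm m).σδ a) c c')

theorem τ_q {D : ℕ} {n : A} (hn : b.q D n = n) : b.τ n = 0 := by rw [← hn, (b.qτ D n).1]

theorem q_left {D : ℕ} (a : A) {n : A} (hn : b.q D n = n) : b.q D (a * n) = a * n := by
  have h := b.split.2 _ _ (b.split.sub a) (τ_q hn)
  rw [sub_mul, sub_eq_zero] at h
  rw [h, (b.qmul D a n).1, hn]

theorem q_right {D : ℕ} (a : A) {n : A} (hn : b.q D n = n) : b.q D (n * a) = n * a := by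
  have h := b.split.2 _ _ (τ_q hn) (b.split.sub a)
  rw [mul_sub, sub_eq_zero] at h
  rw [h, (b.qmul D a n).2, hn]

theorem q_facts (D : ℕ) (n : G) (hn : n ∈ fx (m.q D)) :
    m.σ n = n ∧ m.δ n = 0 ∧ ∀ i, m.φ i n = 0 := by
  have hq := (mem_q m).1 hn
  refine ⟨ext m fun c c' => ?_, ?_, fun i => ?_⟩
  · rw [m.ent_σ, ← hq, (b.qσ D _).1]
  · have hτ : ∀ c c', b.τ (m.ent (m.mat (dm b)) c c') = 0 := fun c c' => by
      rw [← b.τσ, (σ_zero m).1 (σ_h m), map_zero]
    have h0 : m.lift b.d n = 0 := ext m fun c c' => by rw [ent_d, ent_zero, ← hq, b.dq]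
    have h1 : m.mat (dm b) * n = 0 := ext m fun c c' => by
      rw [ent_mul, ent_zero]
      exact Finset.sum_eq_zero fun e _ => b.split.2 _ _ (hτ _ _) (τ_q (hq _ _))
    have h2 : n * m.mat (dm b) = 0 := ext m fun c c' => by
      rw [ent_mul, ent_zero]
      exact Finset.sum_eq_zero fun e _ => b.split.2 _ _ (τ_q (hq _ _)) (hτ _ _)
    rw [δ_apply, h0, h1, h2, add_zero, sub_zero]
  · ext c c'
    rw [m.φ_apply, ← b.φτ, τ_q (hq c c'), map_zero, Matrix.zero_apply, Matrix.zero_apply]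

theorem fin_p : FiniteDimensional k (fx m.p) := by
  have := b.fin
  let F : fx m.p →ₗ[k] (CC b → CC b → fx b.p) :=
    { toFun := fun x c c' => ⟨m.ent x.1 c c', (mem_p m).1 x.2 c c'⟩
      map_add' := fun x z => by
        funext c c'
        exact Subtype.ext (by
          show m.ent (x.1 + z.1) c c' = m.ent x.1 c c' + m.ent z.1 c c'
          rw [map_add, Matrix.add_apply])
      map_smul' := fun r x => by
        funext c c'
        exact Subtype.ext (by
          show m.ent (r • x.1) c c' = r • m.ent x.1 c c'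
          rw [map_smul, Matrix.smul_apply]) }
  refine FiniteDimensional.of_injective F fun x z h => Subtype.ext (ext m fun c c' => ?_)
  exact congrArg Subtype.val (congrFun (congrFun h c) c')

theorem mulL {X : Matrix (Fin 3) (Fin 3) k} {t : Fin 3} (h : X * Matrix.single t t 1 = X)
    (M : Matrix (Fin 3) (Fin 3) k) (i j : Fin 3) : (X * M) i j = X i t * M t j := by
  conv_lhs => rw [← h]
  rw [Matrix.mul_assoc, Matrix.mul_apply, Finset.sum_eq_single t]
  · rw [Matrix.single_mul_apply_same, one_mul]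
  · intro s _ hs
    rw [Matrix.single_mul_apply_of_ne _ _ _ _ _ hs, mul_zero]
  · intro h'
    exact absurd (Finset.mem_univ t) h'

theorem mulR {X : Matrix (Fin 3) (Fin 3) k} {t : Fin 3} (h : Matrix.single t t 1 * X = X)
    (M : Matrix (Fin 3) (Fin 3) k) (i j : Fin 3) : (M * X) i j = M i t * X t j := by
  conv_lhs => rw [← h]
  rw [← Matrix.mul_assoc, Matrix.mul_apply, Finset.sum_eq_single t]
  · rw [Matrix.mul_single_apply_same, mul_one]
  · intro s _ hs
    rw [Matrix.mul_single_apply_of_ne _ _ _ _ _ hs, zero_mul]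
  · intro h'
    exact absurd (Finset.mem_univ t) h'

theorem φL (n : ℕ) (x : G) (c c' : CC b) :
    b.φ n (m.ent x c c') * Matrix.single (ty c') (ty c') 1 = b.φ n (m.ent x c c') := by
  rw [← b.φε n, ← map_mul, right]

theorem φR (n : ℕ) (x : G) (c c' : CC b) :
    Matrix.single (ty c) (ty c) 1 * b.φ n (m.ent x c c') = b.φ n (m.ent x c c') := by
  rw [← b.φε n, ← map_mul, left]

theorem reps : Reps m.σ m.φ m.ρ m.ν := by
  refine ⟨fun n a => ?_, fun n a => ?_, fun n a => ?_, fun n a z => ?_, fun n a z => ?_⟩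
  · ext c c'
    rw [m.φ_apply, m.φ_apply, m.ent_σ, b.reps.φσ]
  · ext c c'
    rw [m.ρ_apply, m.ρ_apply, m.ent_σ, b.reps.ρσ]
  · ext c c'
    rw [m.ν_apply, m.ν_apply, m.ent_σ, b.reps.νσ]
  · ext c c'
    rw [m.ρ_apply, ent_mul, map_sum, Matrix.sum_apply, Matrix.add_apply, Matrix.mul_apply,
      Matrix.mul_apply, ← Finset.sum_add_distrib]
    refine Finset.sum_congr rfl fun e _ => ?_
    rw [b.reps.ρmul, Matrix.add_apply, mulL (φL m n a c e), mulR (φR m (n + 1) z e c'),
      m.φ_apply, m.φ_apply, m.ρ_apply, m.ρ_apply]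
  · ext c c'
    rw [m.ν_apply, ent_mul, map_sum, Matrix.sum_apply, Matrix.add_apply, Matrix.mul_apply,
      Matrix.mul_apply, ← Finset.sum_add_distrib]
    refine Finset.sum_congr rfl fun e _ => ?_
    rw [b.reps.νmul, Matrix.add_apply, mulL (φL m n a c e), mulR (φR m 0 z e c'),
      m.φ_apply, m.φ_apply, m.ν_apply, m.ν_apply]

theorem ent_un (c₀ c c' : CC b) :
    m.ent (m.un c₀ c₀) c c' = if c₀ = c ∧ c₀ = c' then b.ε (ty c₀) else 0 := by
  rw [Mx.un, m.ent_mat, Matrix.single_apply]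
  split_ifs with h
  · rw [← h.1, ← h.2, mul_one, εε]
  · rw [mul_zero, zero_mul]

theorem φ_un (n : ℕ) (c₀ : CC b) : m.φ n (m.un c₀ c₀) = m.φ 0 (m.un c₀ c₀) := by
  ext c c'
  rw [m.φ_apply, m.φ_apply, ent_un]
  split_ifs
  · rw [b.φε, b.φε]
  · rw [map_zero, map_zero]

theorem ρ_un (n : ℕ) (c₀ : CC b) : m.ρ n (m.un c₀ c₀) = 0 := by
  ext c c'
  rw [m.ρ_apply, ent_un, Matrix.zero_apply]
  split_ifs
  · rw [← τε, b.ρτ, Matrix.zero_apply]
  · rw [map_zero, Matrix.zero_apply]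

/-- A diagonal element with scalar weights. -/
def Dg (u : G) (w : CC b → k) : Prop :=
  ∀ x c c', m.ent (u * x) c c' = w c • m.ent x c c' ∧ m.ent (x * u) c c' = w c' • m.ent x c c'

theorem dg_un (c₀ : CC b) : Dg m (m.un c₀ c₀) fun c => if c₀ = c then 1 else 0 := by
  intro x c c'
  constructor
  · rw [ent_mul, Finset.sum_eq_single c₀]
    · rw [ent_un]
      by_cases h : c₀ = c
      · subst h
        rw [if_pos ⟨rfl, rfl⟩, left]
        simp
      · rw [if_neg fun g => h g.1, zero_mul]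
        simp [h]
    · intro s _ hs
      rw [ent_un, if_neg fun g => hs g.2.symm, zero_mul]
    · intro h'
      exact absurd (Finset.mem_univ _) h'
  · rw [ent_mul, Finset.sum_eq_single c₀]
    · rw [ent_un]
      by_cases h : c₀ = c'
      · subst h
        rw [if_pos ⟨rfl, rfl⟩, right]
        simp
      · rw [if_neg fun g => h g.2, mul_zero]
        simp [h]
    · intro s _ hs
      rw [ent_un, if_neg fun g => hs g.1.symm, mul_zero]
    · intro h'
      exact absurd (Finset.mem_univ _) h'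

theorem dg_add {u u' : G} {w w' : CC b → k} (h : Dg m u w) (h' : Dg m u' w') :
    Dg m (u + u') fun c => w c + w' c := fun x c c' =>
  ⟨by rw [add_mul, map_add, Matrix.add_apply, (h x c c').1, (h' x c c').1, add_smul],
    by rw [mul_add, map_add, Matrix.add_apply, (h x c c').2, (h' x c c').2, add_smul]⟩

theorem dg_y (j : Fin 2) :
    Dg m (m.y j) fun c => ∑ o, if (Sum.inr ⟨j, o⟩ : CC b) = c then 1 else 0 := fun x c c' =>
  ⟨by
    rw [Mx.y, Finset.sum_mul, map_sum, Matrix.sum_apply, Finset.sum_smul]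
    exact Finset.sum_congr rfl fun o _ => (dg_un m _ x c c').1,
   by
    rw [Mx.y, Finset.mul_sum, map_sum, Matrix.sum_apply, Finset.sum_smul]
    exact Finset.sum_congr rfl fun o _ => (dg_un m _ x c c').2⟩

theorem dg_e : ∃ w : CC b → k, Dg m m.e w ∧ ∀ c, w c * w c = w c := by
  refine ⟨_, dg_add m (dg_add m (dg_un m _) (dg_un m _)) (dg_un m _), fun c => ?_⟩
  rcases c with i | j
  · fin_cases i <;> simp
  · simp

theorem dg_e' : ∃ w : CC b → k, Dg m m.e' w ∧ ∀ c, w c * w c = w c := by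
  refine ⟨_, dg_add m (dg_un m _) (dg_add m (dg_y m 0) (dg_y m 1)), fun c => ?_⟩
  rcases c with i | ⟨j, o⟩
  · by_cases h : 0 = i <;> simp [h]
  · obtain rfl | rfl : j = 0 ∨ j = 1 := by omega
    · simp
    · simp

/-- The maps that act on the entries. -/
def Good (b : Base k A) (D : ℕ) (f : A → A) : Prop :=
  (∃ w : k, w * w = w ∧ f = fun a => w • a) ∨ f = b.σ ∨ f = b.p ∨ f = b.q D

theorem good_idem {D : ℕ} {f : A → A} (hf : Good b D f) (a : A) : f (f a) = f a := by
  rcases hf with ⟨w, hw, rfl⟩ | rfl | rfl | rfl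
  · show w • w • a = w • a
    rw [smul_smul, hw]
  · exact b.dg.split.1 a
  · exact b.pp a
  · exact b.qq D a

theorem good_comm {D : ℕ} {f g : A → A} (hf : Good b D f) (hg : Good b D g) (a : A) :
    f (g a) = g (f a) := by
  rcases hf with ⟨w, hw, rfl⟩ | rfl | rfl | rfl <;> rcases hg with ⟨w', hw', rfl⟩ | rfl | rfl | rfl
  · exact smul_comm _ _ _
  · exact (map_smul _ _ _).symm
  · exact (map_smul _ _ _).symm
  · exact (map_smul _ _ _).symm
  · exact map_smul _ _ _
  · rfl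
  · exact (b.pσ a).symm
  · exact (b.qσ D a).1.trans (b.qσ D a).2.symm
  · exact map_smul _ _ _
  · exact b.pσ a
  · rfl
  · exact (b.qp D a).2.trans (b.qp D a).1.symm
  · exact map_smul _ _ _
  · exact (b.qσ D a).2.trans (b.qσ D a).1.symm
  · exact (b.qp D a).1.trans (b.qp D a).2.symm
  · rfl

end G1

open G1

theorem sG1 : SG1 := by
  intro k A G _ _ _ _ _ b m
  refine ⟨dgm m, ⟨p_mul m, p_mul m, p_mul m, p_σ m, p_σ m, fun a _ => p_δ m a,
    fun a _ => p_δ m a⟩, fun D => ⟨p_mul m, fun a _ n hn => ?_, fun n hn a _ => ?_, p_σ m,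
      fun a ha => ?_, fun a _ => p_δ m a, fun a ha => ?_⟩, q_facts m, fin_p m⟩
  · refine (mem_q m).2 fun c c' => ?_
    rw [G1.ent_mul, map_sum]
    exact Finset.sum_congr rfl fun e _ => q_left _ ((mem_q m).1 hn _ _)
  · refine (mem_q m).2 fun c c' => ?_
    rw [G1.ent_mul, map_sum]
    exact Finset.sum_congr rfl fun e _ => q_right _ ((mem_q m).1 hn _ _)
  · rw [(q_facts m D a ha).1]
    exact ha
  · rw [(q_facts m D a ha).2.1]
    exact zero_mem _

theorem sG7 : SG7 := by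
  intro k A G _ _ _ _ _ b m
  refine ⟨reps m, fun n => ?_, fun n => ?_, fun D P hP => ?_⟩
  · simp only [Mx.e', Mx.f, Mx.y, Mx.E, map_add, map_sum, φ_un m n]
  · simp only [Mx.e', Mx.f, Mx.y, Mx.E, map_add, map_sum, ρ_un m n, Finset.sum_const_zero,
      add_zero]
  · obtain ⟨w, hw, hw2⟩ := dg_e m
    obtain ⟨w', hw', hw2'⟩ := dg_e' m
    have key : ∀ i c c', ∃ f, Good b D f ∧ ∀ x, m.ent (P i x) c c' = f (m.ent x c c') := by
      intro i c c'
      subst hP
      fin_cases i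
      · exact ⟨_, Or.inl ⟨w c, hw2 c, rfl⟩, fun x => (hw x c c').1⟩
      · exact ⟨_, Or.inl ⟨w c', hw2 c', rfl⟩, fun x => (hw x c c').2⟩
      · exact ⟨_, Or.inl ⟨w' c, hw2' c, rfl⟩, fun x => (hw' x c c').1⟩
      · exact ⟨_, Or.inl ⟨w' c', hw2' c', rfl⟩, fun x => (hw' x c c').2⟩
      · exact ⟨_, Or.inr (Or.inl rfl), fun x => m.ent_σ x c c'⟩
      · exact ⟨_, Or.inr (Or.inr (Or.inl rfl)), fun x => ent_p m x c c'⟩
      · exact ⟨_, Or.inr (Or.inr (Or.inr rfl)), fun x => ent_q m D x c c'⟩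
    refine ⟨fun i a => G1.ext m fun c c' => ?_, fun i j a => G1.ext m fun c c' => ?_⟩
    · obtain ⟨f, hf, h⟩ := key i c c'
      rw [h, h, good_idem hf]
    · obtain ⟨f, hf, h⟩ := key i c c'
      obtain ⟨g, hg, h'⟩ := key j c c'
      rw [h, h', h', h, good_comm hf hg]

end Pool.Agent.MP_92f1cb_al.H21T
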