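import Pool.Agent.MP_92f1cb_al.H21T.Spec

set_option autoImplicit false

namespace Pool.Agent.MP_92f1cb_al.H21T

open Pool.Agent.MP_92f1cb_al.H14 Pool.Agent.MP_92f1cb_al.H14C Module

namespace G2

variable {k A G : Type} [Field k] [Ring A] [Algebra k A] [Ring G] [Algebra k G] {b : Base k A}
  (m : Mx b G)

theorem ee (b : Base k A) (i : Fin 3) : b.ε i * b.ε i = b.ε i := b.tri.coi.idem i

theorem τε (b : Base k A) (i j : Fin 3) : b.τ (b.ε i * b.ε j) = b.ε i * b.ε j := by
  rw [map_mul, b.tri.fix, b.tri.fix]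

theorem inj {x z : G} (h : m.ent x = m.ent z) : x = z := by
  rw [← m.mat_ent x, h, m.mat_ent]

theorem ent_un (c c' : CC b) :
    m.ent (m.un c c') = Matrix.single c c' (b.ε (ty c) * b.ε (ty c')) := by
  ext a a'
  rw [Mx.un, m.ent_mat]
  by_cases h : c = a ∧ c' = a'
  · obtain ⟨rfl, rfl⟩ := h
    rw [Matrix.single_apply_same, Matrix.single_apply_same, mul_one]
  · rw [Matrix.single_apply_of_ne _ _ _ _ _ h, Matrix.single_apply_of_ne _ _ _ _ _ h, mul_zero,
      zero_mul]

theorem un_mul {c c' : CC b} (c'' : CC b) (h : ty c = ty c') :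
    m.un c c' * m.un c' c'' = m.un c c'' := by
  apply inj m
  rw [m.ent_mul, ent_un, ent_un, ent_un, Matrix.single_mul_single_same, ← h, ee,
    ← mul_assoc, ee]

theorem un_mul_ne (c : CC b) {c' a : CC b} (a' : CC b) (h : c' ≠ a) :
    m.un c c' * m.un a a' = 0 := by
  apply inj m
  rw [m.ent_mul, ent_un, ent_un, map_zero, Matrix.single_mul_single_of_ne _ _ _ _ h]

theorem lift_un (f : End k A) (c c' : CC b) :
    m.lift f (m.un c c') = m.mat (Matrix.single c c' (f (b.ε (ty c) * b.ε (ty c')))) := by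
  have h : m.lift f (m.un c c') = m.mat ((m.ent (m.un c c')).map f) := rfl
  rw [h, ent_un]
  refine congrArg m.mat ?_
  ext a a'
  rw [Matrix.map_apply]
  by_cases h : c = a ∧ c' = a'
  · obtain ⟨rfl, rfl⟩ := h
    rw [Matrix.single_apply_same, Matrix.single_apply_same]
  · rw [Matrix.single_apply_of_ne _ _ _ _ _ h, Matrix.single_apply_of_ne _ _ _ _ _ h, map_zero]

theorem un_mem (c c' : CC b) : m.un c c' ∈ fx m.p := by
  rw [mem_fx, Mx.p, lift_un, ← τε, b.pτ, τε, ← ent_un m, m.mat_ent]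

theorem σ_un (c c' : CC b) : m.σ (m.un c c') = m.un c c' := by
  apply inj m
  ext a a'
  rw [m.ent_σ, ent_un]
  by_cases h : c = a ∧ c' = a'
  · obtain ⟨rfl, rfl⟩ := h
    rw [Matrix.single_apply_same, ← τε, b.στ]
  · rw [Matrix.single_apply_of_ne _ _ _ _ _ h, map_zero]

theorem δ_un (c c' : CC b) :
    m.δ (m.un c c') = m.mat (dm b) * m.un c c' - m.un c c' * m.mat (dm b) := by
  have h : m.δ (m.un c c') = m.lift b.d (m.un c c') + m.mat (dm b) * m.un c c' -
      m.un c c' * m.mat (dm b) := rfl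
  rw [h, lift_un, ← τε, b.dτ, Matrix.single_zero, map_zero, zero_add]

theorem dm_un {c : CC b} (c' : CC b) (h : ∀ a, dm b a c = 0) : m.mat (dm b) * m.un c c' = 0 := by
  apply inj m
  ext a a'
  rw [m.ent_mul, ent_un, map_zero, Matrix.zero_apply]
  by_cases h' : a' = c'
  · subst h'
    rw [Matrix.mul_single_apply_same, m.ent_mat, h, mul_zero, zero_mul, zero_mul]
  · rw [Matrix.mul_single_apply_of_ne _ _ _ _ _ h']

theorem un_dm (c : CC b) {c' : CC b} (h : ∀ a, dm b c' a = 0) : m.un c c' * m.mat (dm b) = 0 := by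
  apply inj m
  ext a a'
  rw [m.ent_mul, ent_un, map_zero, Matrix.zero_apply]
  by_cases h' : a = c
  · subst h'
    rw [Matrix.single_mul_apply_same, m.ent_mat, h, mul_zero, zero_mul, mul_zero]
  · rw [Matrix.single_mul_apply_of_ne _ _ _ _ _ h']

theorem δ_un_zero {c c' : CC b} (h : ∀ a, dm b a c = 0) (h' : ∀ a, dm b c' a = 0) :
    m.δ (m.un c c') = 0 := by
  rw [δ_un, dm_un m _ h, un_dm m _ h', sub_zero]

theorem col_inl (i : Fin 3) (a : CC b) : dm b a (Sum.inl i) = 0 := by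
  rcases a with a | ⟨j, _ | z⟩ <;> rfl

theorem col_some (j : Fin 2) (z : Fin (b.Z j)) (a : CC b) :
    dm b a (Sum.inr ⟨j, some z⟩) = 0 := by
  rcases a with a | ⟨j, _ | z⟩ <;> rfl

theorem row_inl (i : Fin 3) (a : CC b) : dm b (Sum.inl i) a = 0 := by
  rcases a with a | ⟨j, _ | z⟩ <;> rfl

theorem row_none (j : Fin 2) (a : CC b) : dm b (Sum.inr ⟨j, none⟩) a = 0 := by
  rcases a with a | ⟨j, _ | z⟩ <;> rfl

/-- The block of a component. -/
def blk : CC b → Fin 3 ⊕ Fin 2 := Sum.map id Sigma.fst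

theorem dm_blk {a a' : CC b} (h : blk a ≠ blk a') : dm b a a' = 0 := by
  rcases a with a | ⟨j, _ | z⟩
  · exact row_inl _ _
  · exact row_none _ _
  · rcases a' with a' | ⟨j', _ | z'⟩
    · rfl
    · have hj : j ≠ j' := fun e => h (congrArg Sum.inr e)
      exact if_neg hj
    · rfl

theorem ent_blk (s : Fin 3 ⊕ Fin 2) : m.ent (Sum.elim m.E m.y s) =
    Matrix.diagonal fun c => if blk c = s then b.ε (ty c) else 0 := by
  rw [← Matrix.sum_single_eq_diagonal, Fintype.sum_sum_type, Fintype.sum_sigma]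
  rcases s with i | j
  · rw [Sum.elim_inl, Mx.E, ent_un, ee, Finset.sum_eq_single i]
    · simp [blk]
    · intro i' _ h
      simp [blk, h]
    · simp
  · rw [Sum.elim_inr, Mx.y, map_sum, Finset.sum_eq_single j]
    · simp [blk, ent_un, ee]
    · intro j' _ h
      simp [blk, h]
    · simp

theorem blk_mul (s s' : Fin 3 ⊕ Fin 2) : Sum.elim m.E m.y s * Sum.elim m.E m.y s' =
    if s = s' then Sum.elim m.E m.y s else 0 := by
  apply inj m
  rw [m.ent_mul, ent_blk, ent_blk, Matrix.diagonal_mul_diagonal]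
  by_cases h : s = s'
  · subst h
    rw [if_pos rfl, ent_blk]
    refine congrArg Matrix.diagonal (funext fun c => ?_)
    split_ifs
    · exact ee b _
    · exact mul_zero _
  · rw [if_neg h, map_zero, ← Matrix.diagonal_zero]
    refine congrArg Matrix.diagonal (funext fun c => ?_)
    by_cases h1 : blk c = s
    · rw [if_neg (fun h2 => h (h1.symm.trans h2)), mul_zero]
    · rw [if_neg h1, zero_mul]

theorem coi : CompleteOrthogonalIdempotents (Sum.elim m.E m.y) where
  idem s := by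
    have h := blk_mul m s s
    rwa [if_pos rfl] at h
  ortho s s' h := by
    have h' := blk_mul m s s'
    rwa [if_neg h] at h'
  complete := by
    apply inj m
    rw [map_sum, m.ent_one]
    ext a a'
    rw [Matrix.sum_apply]
    simp only [ent_blk]
    by_cases h : a = a'
    · subst h
      simp
    · simp [Matrix.diagonal_apply_ne _ h]

theorem blk_ne (c : CC b) : Sum.elim m.E m.y (blk c) ≠ 0 := by
  intro h
  have h1 := congrFun (congrFun (ent_blk m (blk c)) c) c
  rw [h, map_zero, Matrix.diagonal_apply_eq, if_pos rfl] at h1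
  exact b.tri.ne _ h1.symm

theorem comm_blk (s : Fin 3 ⊕ Fin 2) :
    m.mat (dm b) * Sum.elim m.E m.y s = Sum.elim m.E m.y s * m.mat (dm b) := by
  apply inj m
  ext a a'
  rw [m.ent_mul, m.ent_mul, ent_blk, Matrix.mul_diagonal, Matrix.diagonal_mul, m.ent_mat]
  by_cases h : blk a = blk a'
  · rw [← h]
    split_ifs
    · rw [mul_assoc _ (b.ε (ty a')), ee, ← mul_assoc, ← mul_assoc, ee]
    · rw [mul_zero, zero_mul]
  · rw [dm_blk h, mul_zero, zero_mul, zero_mul, mul_zero]

theorem clE (i : Fin 3) : Cl m.σ m.δ (fx m.p) (m.E i) :=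
  ⟨un_mem m _ _, un_mul m _ rfl, σ_un m _ _, δ_un_zero m (col_inl i) (row_inl i)⟩

theorem cly (j : Fin 2) : Cl m.σ m.δ (fx m.p) (m.y j) := by
  refine ⟨Submodule.sum_mem _ fun o _ => un_mem m _ _, (coi m).idem (Sum.inr j), ?_, ?_⟩
  · rw [Mx.y, map_sum]
    exact Finset.sum_congr rfl fun o _ => σ_un m _ _
  · have h := comm_blk m (Sum.inr j)
    rw [Sum.elim_inr, Mx.y, Finset.mul_sum, Finset.sum_mul] at h
    rw [Mx.y, map_sum, Finset.sum_congr rfl fun o _ => δ_un m _ _, Finset.sum_sub_distrib, h,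
      sub_self]

theorem ne_o {j : Fin 2} {o o' : Option (Fin (b.Z j))} (h : o ≠ o') :
    (Sum.inr ⟨j, o⟩ : CC b) ≠ Sum.inr ⟨j, o'⟩ := by
  intro e
  exact h (eq_of_heq (Sigma.mk.inj (Sum.inr.inj e)).2)

theorem un_y (c : CC b) (j : Fin 2) (o : Option (Fin (b.Z j)))
    (h : ty c = ty (Sum.inr ⟨j, o⟩ : CC b)) :
    m.un c (Sum.inr ⟨j, o⟩) * m.y j = m.un c (Sum.inr ⟨j, o⟩) := by
  rw [Mx.y, Finset.mul_sum, Finset.sum_eq_single o]
  · exact un_mul m _ h
  · intro o' _ h'
    exact un_mul_ne m _ _ (ne_o h'.symm)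
  · simp

end G2

open G2 in
theorem sG2 : SG2 := by
  intro k A G _ _ _ _ _ b m
  refine ⟨clE m, cly m, coi m, blk_ne m (Sum.inl 0), fun j => blk_ne m (Sum.inr ⟨j, none⟩),
    fun j => ⟨⟨un_mem m _ _, un_mem m _ _, fun z => ⟨un_mem m _ _, un_mem m _ _⟩⟩,
      ⟨δ_un_zero m (col_inl _) (row_none j), fun z => δ_un_zero m (col_some j z) (row_inl 0)⟩,
      ⟨un_mul m _ rfl, un_y m _ j none rfl, fun z => ⟨un_mul m _ rfl, un_y m _ j (some z) rfl⟩⟩,
      un_mul m _ rfl, fun z z' => ?_, fun z => ⟨?_, ?_⟩, ?_⟩⟩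
  · by_cases h : z = z'
    · subst h
      rw [if_pos rfl]
      exact un_mul m _ rfl
    · rw [if_neg h]
      exact un_mul_ne m _ _ (ne_o fun e => h (Option.some.inj e))
  · exact un_mul_ne m _ _ (ne_o (Option.some_ne_none z).symm)
  · exact un_mul_ne m _ _ (ne_o (Option.some_ne_none z))
  · rw [Mx.y, Fintype.sum_option]
    exact congrArg₂ (· + ·) (un_mul m _ rfl) (Finset.sum_congr rfl fun z _ => un_mul m _ rfl)

end Pool.Agent.MP_92f1cb_al.H21T
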