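import Pool.Agent.MP_92f1cb_al.H21T.Spec

set_option autoImplicit false

namespace Pool.Agent.MP_92f1cb_al.H21T

open Pool.Agent.MP_92f1cb_al.H14 Pool.Agent.MP_92f1cb_al.H14C Module

namespace G3

variable {k A G : Type} [Field k] [Ring A] [Algebra k A] [Ring G] [Algebra k G] {b : Base k A}
  (m : Mx b G)

theorem gext {x z : G} (h : ∀ c c', m.ent x c c' = m.ent z c c') : x = z := by
  have h' : m.ent x = m.ent z := Matrix.ext h
  rw [← m.mat_ent x, ← m.mat_ent z, h']

theorem ent_ι (a : A) (c c' : CC b) : m.ent (m.ι a) c c' =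
    b.ε (ty c) * (if c.isLeft ∧ c'.isLeft then a else 0) * b.ε (ty c') :=
  m.ent_mat (im b a) c c'

theorem ent_ll (a : A) (i j : Fin 3) :
    m.ent (m.ι a) (Sum.inl i) (Sum.inl j) = b.ε i * a * b.ε j := by
  rw [ent_ι, if_pos ⟨rfl, rfl⟩]
  rfl

theorem ent_r (a : A) (s : (j : Fin 2) × Option (Fin (b.Z j))) (c' : CC b) :
    m.ent (m.ι a) (Sum.inr s) c' = 0 := by
  rw [ent_ι, if_neg (by simp), mul_zero, zero_mul]

theorem ent_r' (a : A) (c : CC b) (s : (j : Fin 2) × Option (Fin (b.Z j))) :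
    m.ent (m.ι a) c (Sum.inr s) = 0 := by
  rw [ent_ι, if_neg (by simp), mul_zero, zero_mul]

theorem εε (b : Base k A) (i : Fin 3) : b.ε i * b.ε i = b.ε i := (b.tri.coi.idem i).eq

theorem εne (b : Base k A) {i j : Fin 3} (h : i ≠ j) : b.ε i * b.ε j = 0 := b.tri.coi.ortho h

theorem εsum (b : Base k A) : ∑ i, b.ε i = 1 := b.tri.coi.complete

/-- An element with vanishing right rows and columns and the given left entries. -/
theorem eq_ι {x : G} {a : A} (h : ∀ i j, m.ent x (Sum.inl i) (Sum.inl j) = b.ε i * a * b.ε j)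
    (h₁ : ∀ s c, m.ent x (Sum.inr s) c = 0) (h₂ : ∀ s c, m.ent x c (Sum.inr s) = 0) :
    m.ι a = x := by
  refine gext m fun c c' => ?_
  rcases c with i | s
  · rcases c' with j | s'
    · rw [ent_ll, h]
    · rw [ent_r', h₂]
  · rw [ent_r, h₁]

theorem sum_corner (b : Base k A) (a : A) : ∑ i, ∑ j, b.ε i * a * b.ε j = a := by
  simp only [← Finset.mul_sum, ← Finset.sum_mul, εsum, mul_one, one_mul]

theorem ι_inj : Function.Injective m.ι := by
  refine (injective_iff_map_eq_zero m.ι).2 fun a ha => ?_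
  rw [← sum_corner b a]
  refine Finset.sum_eq_zero fun i _ => Finset.sum_eq_zero fun j _ => ?_
  rw [← ent_ll m, ha, map_zero, Matrix.zero_apply]

theorem ι_mul (a c : A) : m.ι (a * c) = m.ι a * m.ι c := by
  refine eq_ι m (fun i j => ?_) (fun s d => ?_) (fun s d => ?_)
  · rw [m.ent_mul, Matrix.mul_apply, Fintype.sum_sum_type]
    simp only [ent_ll, ent_r, mul_zero, Finset.sum_const_zero, add_zero]
    have : ∀ l, b.ε i * a * b.ε l * (b.ε l * c * b.ε j) = b.ε i * a * b.ε l * (c * b.ε j) := by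
      intro l
      calc b.ε i * a * b.ε l * (b.ε l * c * b.ε j)
          = b.ε i * a * (b.ε l * b.ε l) * (c * b.ε j) := by simp only [mul_assoc]
        _ = _ := by rw [εε]
    simp only [this]
    rw [← Finset.sum_mul, ← Finset.mul_sum, εsum, mul_one]
    simp only [mul_assoc]
  · rw [m.ent_mul, Matrix.mul_apply]
    simp only [ent_r, zero_mul, Finset.sum_const_zero]
  · rw [m.ent_mul, Matrix.mul_apply]
    simp only [ent_r', mul_zero, Finset.sum_const_zero]

theorem ent_E (i : Fin 3) (c c' : CC b) : m.ent (m.E i) c c' =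
    b.ε (ty c) * (if Sum.inl i = c ∧ Sum.inl i = c' then 1 else 0) * b.ε (ty c') :=
  m.ent_mat _ c c'

theorem ι_one : m.ι 1 = m.e := by
  have he : ∀ c c', m.ent m.e c c' =
      m.ent (m.E 0) c c' + m.ent (m.E 1) c c' + m.ent (m.E 2) c c' := by
    intro c c'
    rw [Mx.e, map_add, map_add]
    rfl
  refine eq_ι m (fun i j => ?_) (fun s d => ?_) (fun s d => ?_)
  · rw [he, ent_E, ent_E, ent_E]
    have hi : ty (b := b) (Sum.inl i) = i := rfl
    have hj : ty (b := b) (Sum.inl j) = j := rfl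
    rw [hi, hj, ← add_mul, ← add_mul, ← mul_add, ← mul_add]
    by_cases hij : i = j
    · subst hij
      fin_cases i <;> simp
    · rw [mul_one, εne b hij, if_neg, if_neg, if_neg]
      · simp
      all_goals
        rintro ⟨h, h'⟩
        exact hij (Sum.inl_injective (h.symm.trans h'))
  · rw [he, ent_E, ent_E, ent_E]
    simp
  · rw [he, ent_E, ent_E, ent_E]
    simp

theorem ent_fix (x : G) (c c' : CC b) :
    m.ent x c c' = b.ε (ty c) * m.ent x c c' * b.ε (ty c') := by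
  have h := m.ent_mat (m.ent x) c c'
  rwa [m.mat_ent] at h

theorem ι_range : LinearMap.range m.ι = cor m.e ⊤ := by
  ext x
  rw [LinearMap.mem_range, mem_cor]
  constructor
  · rintro ⟨a, rfl⟩
    refine ⟨⟨trivial, ?_⟩, ?_⟩
    · rw [← ι_one, ← ι_mul, one_mul]
    · rw [← ι_one, ← ι_mul, mul_one]
  · rintro ⟨⟨-, h₁⟩, h₂⟩
    refine ⟨∑ i, ∑ j, m.ent x (Sum.inl i) (Sum.inl j), eq_ι m (fun i j => ?_) (fun s d => ?_)
      (fun s d => ?_)⟩
    · have hf : ∀ i j, m.ent x (Sum.inl i) (Sum.inl j) =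
          b.ε i * m.ent x (Sum.inl i) (Sum.inl j) * b.ε j := fun i j => ent_fix m x _ _
      rw [Finset.mul_sum, Finset.sum_mul, Finset.sum_eq_single i, Finset.mul_sum, Finset.sum_mul,
        Finset.sum_eq_single j]
      · exact hf i j
      · intro j' _ hj
        rw [hf i j', mul_assoc, mul_assoc, εne b hj, mul_zero, mul_zero]
      · intro h
        exact absurd (Finset.mem_univ _) h
      · intro i' _ hi
        rw [Finset.mul_sum, Finset.sum_mul]
        refine Finset.sum_eq_zero fun j' _ => ?_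
        rw [hf i' j', ← mul_assoc, ← mul_assoc, εne b hi.symm, zero_mul, zero_mul, zero_mul]
      · intro h
        exact absurd (Finset.mem_univ _) h
    · rw [← h₁, ← ι_one, m.ent_mul, Matrix.mul_apply]
      simp only [ent_r, zero_mul, Finset.sum_const_zero]
    · rw [← h₂, ← ι_one, m.ent_mul, Matrix.mul_apply]
      simp only [ent_r', mul_zero, Finset.sum_const_zero]

theorem ι_σ (a : A) : m.ι (b.σ a) = m.σ (m.ι a) := by
  have hε : ∀ i, b.σ (b.ε i) = b.ε i := fun i => by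
    have h := b.στ (b.ε i)
    rwa [b.tri.fix] at h
  refine eq_ι m (fun i j => ?_) (fun s d => ?_) (fun s d => ?_)
  · rw [m.ent_σ, ent_ll, map_mul, map_mul, hε, hε]
  · rw [m.ent_σ, ent_r, map_zero]
  · rw [m.ent_σ, ent_r', map_zero]

theorem ent_lift (f : End k A) (x : G) (c c' : CC b) :
    m.ent (m.lift f x) c c' = b.ε (ty c) * f (m.ent x c c') * b.ε (ty c') :=
  m.ent_mat _ c c'

theorem ι_lift (f : End k A) (hf : ∀ i j a, f (b.ε i * a * b.ε j) = b.ε i * f a * b.ε j)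
    (a : A) : m.ι (f a) = m.lift f (m.ι a) := by
  refine eq_ι m (fun i j => ?_) (fun s d => ?_) (fun s d => ?_)
  · rw [ent_lift, ent_ll, hf]
    have hi : ty (b := b) (Sum.inl i) = i := rfl
    have hj : ty (b := b) (Sum.inl j) = j := rfl
    rw [hi, hj]
    calc b.ε i * (b.ε i * f a * b.ε j) * b.ε j
        = b.ε i * b.ε i * f a * (b.ε j * b.ε j) := by simp only [mul_assoc]
      _ = _ := by rw [εε, εε]
  · rw [ent_lift, ent_r, map_zero, mul_zero, zero_mul]
  · rw [ent_lift, ent_r', map_zero, mul_zero, zero_mul]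

theorem dm_l (i : Fin 3) (c : CC b) : dm b (Sum.inl i) c = 0 := by
  simp only [dm]

theorem dm_l' (c : CC b) (i : Fin 3) : dm b c (Sum.inl i) = 0 := by
  rcases c with j | ⟨j, _ | z⟩ <;> simp only [dm]

theorem dm_ι (a : A) : m.mat (dm b) * m.ι a = 0 := by
  refine gext m fun c c' => ?_
  rw [m.ent_mul, Matrix.mul_apply, Fintype.sum_sum_type, map_zero, Matrix.zero_apply]
  simp only [ent_r, m.ent_mat, dm_l', mul_zero, zero_mul, Finset.sum_const_zero, add_zero]

theorem ι_dm (a : A) : m.ι a * m.mat (dm b) = 0 := by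
  refine gext m fun c c' => ?_
  rw [m.ent_mul, Matrix.mul_apply, Fintype.sum_sum_type, map_zero, Matrix.zero_apply]
  simp only [ent_r', m.ent_mat, dm_l, mul_zero, zero_mul, Finset.sum_const_zero, add_zero]

theorem ι_d (a : A) : m.ι (b.d a) = m.δ (m.ι a) := by
  have hε : ∀ i, b.d (b.ε i) = 0 := fun i => by
    have h := b.dτ (b.ε i)
    rwa [b.tri.fix] at h
  have h : m.δ (m.ι a) = m.lift b.d (m.ι a) + m.mat (dm b) * m.ι a - m.ι a * m.mat (dm b) := rfl
  rw [h, dm_ι, ι_dm, add_zero, sub_zero]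
  refine ι_lift m b.d (fun i j a => ?_) a
  rw [b.dg.leib, b.dg.leib, hε, hε, zero_mul, zero_add, mul_zero, add_zero]

theorem ι_p (a : A) : m.ι (b.p a) = m.p (m.ι a) := by
  refine ι_lift m b.p (fun i j a => ?_) a
  rw [(b.pε j _).2, (b.pε i _).1]

theorem ι_q (D : ℕ) (a : A) : m.ι (b.q D a) = m.q D (m.ι a) := by
  refine ι_lift m (b.q D) (fun i j a => ?_) a
  have h₁ := (b.qmul D (b.ε j) (b.ε i * a)).2
  have h₂ := (b.qmul D (b.ε i) a).1
  rw [b.tri.fix] at h₁ h₂
  rw [h₁, h₂]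

theorem sgl_entry (X : Matrix (Fin 3) (Fin 3) k) (i j : Fin 3) :
    (Matrix.single i i (1 : k) * X * Matrix.single j j (1 : k)) i j = X i j := by
  rw [Matrix.mul_single_apply_same, Matrix.single_mul_apply_same, one_mul, mul_one]

theorem ρ_corner (b : Base k A) (n : ℕ) (a : A) (i j : Fin 3) :
    b.ρ n (b.ε i * a * b.ε j) i j = b.ρ n a i j := by
  have hε : ∀ n i, b.ρ n (b.ε i) = 0 := fun n i => by
    have h := b.ρτ n (b.ε i)
    rwa [b.tri.fix] at h
  rw [b.reps.ρmul, b.reps.ρmul, hε, hε, mul_zero, zero_add, zero_mul, add_zero, b.φε, b.φε,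
    sgl_entry]

theorem ν_corner (b : Base k A) (n : ℕ) (a : A) (i j : Fin 3) :
    b.ν n (b.ε i * a * b.ε j) i j = b.ν n a i j := by
  have hε : ∀ n i, b.ν n (b.ε i) = 0 := fun n i => by
    have h := b.ντ n (b.ε i)
    rwa [b.tri.fix] at h
  rw [b.reps.νmul, b.reps.νmul, hε, hε, mul_zero, zero_add, zero_mul, add_zero, b.φε, b.φε,
    sgl_entry]

/-- The matrix unit at the first component. -/
def U (b : Base k A) : Matrix (CC b) (CC b) k := Matrix.single (Sum.inl 0) (Sum.inl 0) 1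

theorem eq_U {X : Matrix (CC b) (CC b) k} {r : k}
    (h : ∀ i j, X (Sum.inl i) (Sum.inl j) = (r • Matrix.single (0 : Fin 3) (0 : Fin 3) (1 : k)) i j)
    (h₁ : ∀ s c, X (Sum.inr s) c = 0) (h₂ : ∀ s c, X c (Sum.inr s) = 0) : X = r • U b := by
  ext c c'
  rcases c with i | s
  · rcases c' with j | s'
    · rw [h]
      simp [U, Matrix.single_apply]
    · rw [h₂]
      simp [U, Matrix.single_apply]
  · rw [h₁]
    simp [U, Matrix.single_apply]

theorem ρ_μ (n : ℕ) : ∃ r : k, r ≠ 0 ∧ m.ρ n (m.ι (b.μ n)) = r • U b := by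
  obtain ⟨r, hr, h⟩ := b.ρμ n
  refine ⟨r, hr, eq_U (fun i j => ?_) (fun s d => ?_) (fun s d => ?_)⟩
  · rw [m.ρ_apply, ent_ll, ← h]
    exact ρ_corner b n _ i j
  · rw [m.ρ_apply, ent_r, map_zero, Matrix.zero_apply]
  · rw [m.ρ_apply, ent_r', map_zero, Matrix.zero_apply]

theorem ν_n (D : ℕ) : m.ν D (m.ι (b.n D)) = U b := by
  rw [← one_smul k (U b)]
  refine eq_U (fun i j => ?_) (fun s d => ?_) (fun s d => ?_)
  · rw [m.ν_apply, ent_ll, one_smul, ← b.νn D]
    exact ν_corner b D _ i j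
  · rw [m.ν_apply, ent_r, map_zero, Matrix.zero_apply]
  · rw [m.ν_apply, ent_r', map_zero, Matrix.zero_apply]

theorem UU (b : Base k A) : U b * U b = U b := by
  rw [U, Matrix.single_mul_single_same, mul_one]

theorem U_prod (D : ℕ) : ∀ s, ∃ r : k, r ≠ 0 ∧
    U b * prodR (fun n a => m.ρ n a) s (((List.range' s D).map b.μ).map m.ι) = r • U b := by
  induction D with
  | zero =>
    intro s
    exact ⟨1, one_ne_zero, by simp [prodR]⟩
  | succ D ih =>
    intro s
    obtain ⟨r, hr, h⟩ := ih (s + 1)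
    obtain ⟨r', hr', h'⟩ := ρ_μ m s
    refine ⟨r' * r, mul_ne_zero hr' hr, ?_⟩
    rw [List.range'_succ, List.map_cons, List.map_cons, prodR, ← mul_assoc, h', Matrix.mul_smul,
      UU, Matrix.smul_mul, h, smul_smul]

theorem pf_ne (D : ℕ) : pf (m.ν D) m.ρ D ((b.n D :: (List.range D).map b.μ).map m.ι) ≠ 0 := by
  obtain ⟨r, hr, h⟩ := U_prod m D 0
  rw [List.map_cons, pf, if_pos (by simp), ν_n, List.range_eq_range', h, Matrix.trace_smul, U,
    Matrix.trace_single_eq_same, smul_eq_mul, mul_one]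
  exact hr

end G3

theorem sG3 : SG3 := fun _ _ _ _ _ _ _ _ _ m =>
  ⟨⟨G3.ι_inj m, G3.ι_mul m, G3.ι_one m, G3.ι_range m⟩, G3.ι_σ m, G3.ι_d m, G3.ι_p m, G3.ι_q m,
    G3.pf_ne m⟩

end Pool.Agent.MP_92f1cb_al.H21T
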