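import Pool.Agent.MP_92f1cb_al.H21T.Spec

set_option autoImplicit false

namespace Pool.Agent.MP_92f1cb_al.H21T

open Pool.Agent.MP_92f1cb_al.H14 Pool.Agent.MP_92f1cb_al.H14C Module

namespace G4x

variable {k A G : Type} [Field k] [Ring A] [Algebra k A] [Ring G] [Algebra k G] {b : Base k A}

theorem ee (i : Fin 3) : b.ε i * b.ε i = b.ε i := (b.tri.coi.idem i).eq

theorem σe (i : Fin 3) : b.σ (b.ε i) = b.ε i := by
  have h := b.στ (b.ε i)
  rwa [b.tri.fix] at h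

theorem de (i : Fin 3) : b.d (b.ε i) = 0 := by
  have h := b.dτ (b.ε i)
  rwa [b.tri.fix] at h

theorem dee (i j : Fin 3) (a : A) : b.d (b.ε i * a * b.ε j) = b.ε i * b.d a * b.ε j := by
  rw [b.dg.leib, b.dg.leib, de, de, zero_mul, zero_add, mul_zero, add_zero]

theorem e_dl (j : Fin 2) (z : Fin (b.Z j)) : b.ε 0 * b.dl j z = b.dl j z := by
  rw [← (b.dl_mem j z).2, ← mul_assoc, ← mul_assoc, ee]

theorem σ_dm (c c' : CC b) : b.σ (dm b c c') = 0 := by
  rcases c with i | ⟨j, _ | z⟩ <;> rcases c' with i' | ⟨j', _ | z'⟩ <;> simp only [dm, map_zero]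
  split_ifs
  · exact (b.dl_mem j z).1
  · exact map_zero _

theorem τ_dm (c c' : CC b) : b.τ (dm b c c') = 0 := by rw [← b.τσ, σ_dm, map_zero]

variable (m : Mx b G)

theorem ext' {x y : G} (h : ∀ c c', m.ent x c c' = m.ent y c c') : x = y := by
  rw [← m.mat_ent x, Matrix.ext h, m.mat_ent]

theorem ent_fix (x : G) (c c' : CC b) :
    b.ε (ty c) * m.ent x c c' * b.ε (ty c') = m.ent x c c' := by
  rw [← m.ent_mat, m.mat_ent]

theorem ent_l (x : G) (c c' : CC b) : b.ε (ty c) * m.ent x c c' = m.ent x c c' := by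
  rw [← ent_fix m x c c', ← mul_assoc, ← mul_assoc, ee]

theorem ent_r (x : G) (c c' : CC b) : m.ent x c c' * b.ε (ty c') = m.ent x c c' := by
  rw [← ent_fix m x c c', mul_assoc, ee]

theorem ent_dm : m.ent (m.mat (dm b)) = dm b := by
  ext c c'
  rw [m.ent_mat]
  rcases c with i | ⟨j, _ | z⟩ <;> rcases c' with i' | ⟨j', _ | z'⟩ <;>
    simp only [dm, mul_zero, zero_mul]
  split_ifs with h
  · subst h
    exact (b.dl_mem j z).2
  · rw [mul_zero, zero_mul]

theorem ent_δ (x : G) (c c' : CC b) : m.ent (m.δ x) c c' =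
    b.d (m.ent x c c') + (dm b * m.ent x) c c' - (m.ent x * dm b) c c' := by
  have h : m.ent (m.lift b.d x) c c' = b.d (m.ent x c c') := by
    have h1 := m.ent_mat ((m.ent x).map b.d) c c'
    rw [Matrix.map_apply, ← dee, ent_fix] at h1
    exact h1
  simp only [Mx.δ, LinearMap.sub_apply, LinearMap.add_apply, LinearMap.mulLeft_apply,
    LinearMap.mulRight_apply, map_sub, map_add, m.ent_mul, ent_dm, Matrix.sub_apply,
    Matrix.add_apply, h]

theorem mem_p {x : G} (h : ∀ c c', b.p (m.ent x c c') = m.ent x c c') : x ∈ fx m.p := by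
  have e : (m.ent x).map b.p = m.ent x := Matrix.ext h
  change m.mat ((m.ent x).map b.p) = x
  rw [e, m.mat_ent]

/-- The indicator of the components of the corner. -/
def sc : CC b → k
  | Sum.inl i => if i = 0 then 1 else 0
  | Sum.inr _ => 1

theorem ent_e : m.ent m.e' = Matrix.diagonal fun c => sc c • b.ε (ty c) := by
  have h : m.e' = m.mat (Matrix.single (Sum.inl 0) (Sum.inl 0) 1 +
      ∑ s, Matrix.single (Sum.inr s) (Sum.inr s) 1) := by
    rw [map_add, map_sum, Fintype.sum_sigma, Fin.sum_univ_two]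
    rfl
  ext c c'
  rw [h, m.ent_mat, Matrix.add_apply, Matrix.sum_apply]
  by_cases e : c = c'
  · subst e
    rw [Matrix.diagonal_apply_eq]
    rcases c with i | s
    · by_cases h0 : i = 0
      · subst h0
        simp [sc, ee]
      · simp [sc, h0, Ne.symm h0]
    · simp [sc, Matrix.single_apply, ee]
  · rw [Matrix.diagonal_apply_ne _ e, Matrix.single_apply_of_ne, Finset.sum_eq_zero, add_zero,
      mul_zero, zero_mul]
    · exact fun s _ => Matrix.single_apply_of_ne _ _ _ _ _ fun k => e (k.1.symm.trans k.2)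
    · exact fun k => e (k.1.symm.trans k.2)

theorem left_iff {x : G} : m.e' * x = x ↔ ∀ i, i ≠ 0 → ∀ c', m.ent x (Sum.inl i) c' = 0 := by
  have h : ∀ c c', m.ent (m.e' * x) c c' = sc c • m.ent x c c' := fun c c' => by
    rw [m.ent_mul, ent_e, Matrix.diagonal_mul, smul_mul_assoc, ent_l]
  refine ⟨fun e i hi c' => ?_, fun e => ext' m fun c c' => ?_⟩
  · rw [← e, h, sc, if_neg hi, zero_smul]
  · rw [h]
    rcases c with i | s
    · by_cases h0 : i = 0
      · rw [sc, if_pos h0, one_smul]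
      · rw [e i h0, smul_zero]
    · rw [sc, one_smul]

theorem right_iff {x : G} : x * m.e' = x ↔ ∀ i, i ≠ 0 → ∀ c, m.ent x c (Sum.inl i) = 0 := by
  have h : ∀ c c', m.ent (x * m.e') c c' = sc c' • m.ent x c c' := fun c c' => by
    rw [m.ent_mul, ent_e, Matrix.mul_diagonal, mul_smul_comm, ent_r]
  refine ⟨fun e i hi c => ?_, fun e => ext' m fun c c' => ?_⟩
  · rw [← e, h, sc, if_neg hi, zero_smul]
  · rw [h]
    rcases c' with i | s
    · by_cases h0 : i = 0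
      · rw [sc, if_pos h0, one_smul]
      · rw [e i h0, smul_zero]
    · rw [sc, one_smul]

/-- The part of the solution in the image of `τ`. -/
def lm (l : CC b → ∀ j : Fin 2, Fin (b.Z j) → A) : Matrix (CC b) (CC b) A
  | c, Sum.inr ⟨j, some z⟩ => -l c j z
  | _, _ => 0

theorem mul_dm (X : Matrix (CC b) (CC b) A) (c : CC b) (j : Fin 2) :
    (X * dm b) c (Sum.inr ⟨j, none⟩) = ∑ z, X c (Sum.inr ⟨j, some z⟩) * b.dl j z := by
  rw [Matrix.mul_apply, Fintype.sum_sum_type, Fintype.sum_sigma, Finset.sum_eq_single j]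
  · simp [dm, Fintype.sum_option]
  · intro j' _ h
    simp [dm, Fintype.sum_option, h]
  · simp

theorem step1 {w : G} (hl : m.e' * w = w) (hr : w * m.e' = w) (hw : m.σ w = 0) :
    ∃ g ∈ cor m.e' (fx m.p), m.σ g = g ∧ ∀ c c', ∃ M, b.p M = M ∧ b.τ M = 0 ∧ b.σ M = M ∧
      b.d M = m.ent (w - m.δ g) c c' ∧ ((∃ i, i ≠ 0 ∧ (c = Sum.inl i ∨ c' = Sum.inl i)) → M = 0) := by
  have hσ : ∀ c c', b.σ (m.ent w c c') = 0 := fun c c' => by rw [← m.ent_σ, hw, map_zero]; rfl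
  have h1 : ∀ (c : CC b) (j : Fin 2), ∃ (M : A) (l : Fin (b.Z j) → A), b.p M = M ∧ b.τ M = 0 ∧
      b.σ M = M ∧ (∀ z, b.τ (l z) = l z) ∧
      m.ent w c (Sum.inr ⟨j, none⟩) = b.d M + ∑ z, l z * b.dl j z ∧
      (m.ent w c (Sum.inr ⟨j, none⟩) = 0 → ∀ z, l z = 0) := fun c j => by
    by_cases h0 : m.ent w c (Sum.inr ⟨j, none⟩) = 0
    · exact ⟨0, 0, by simp, by simp, by simp, by simp, by simp [h0], fun _ _ => rfl⟩
    · obtain ⟨M, l, a1, a2, a3, a4, a5⟩ := b.colj j _ (hσ c _) (ent_r m w c (Sum.inr ⟨j, none⟩))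
      exact ⟨M, l, a1, a2, a3, a4, a5, fun h => absurd h h0⟩
  choose M l a1 a2 a3 a4 a5 a6 using h1
  obtain ⟨g, hg⟩ : ∃ g, g = m.mat (lm l) := ⟨_, rfl⟩
  have g0 : ∀ c c', m.ent g c c' = b.ε (ty c) * lm l c c' * b.ε (ty c') := fun c c' => by
    rw [hg, m.ent_mat]
  have gτ : ∀ c c', b.τ (m.ent g c c') = m.ent g c c' := fun c c' => by
    rw [g0, map_mul, map_mul, b.tri.fix, b.tri.fix]
    rcases c' with i | ⟨j, _ | z⟩ <;> simp only [lm, map_zero, map_neg, a4]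
  have gl : ∀ i, i ≠ 0 → ∀ c', m.ent g (Sum.inl i) c' = 0 := fun i hi c' => by
    rw [g0]
    rcases c' with i | ⟨j, _ | z⟩ <;> simp only [lm, mul_zero, zero_mul]
    rw [a6 _ j ((left_iff m).1 hl i hi _) z, neg_zero, mul_zero, zero_mul]
  have gr : ∀ i c, m.ent g c (Sum.inl i) = 0 := fun i c => by
    rw [g0]
    simp only [lm, mul_zero, zero_mul]
  have gn : ∀ j c, m.ent g c (Sum.inr ⟨j, none⟩) = 0 := fun j c => by
    rw [g0]
    simp only [lm, mul_zero, zero_mul]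
  have e1 : ∀ c c', m.ent (w - m.δ g) c c' =
      m.ent w c c' - ((dm b * m.ent g) c c' - (m.ent g * dm b) c c') := fun c c' => by
    rw [map_sub, Matrix.sub_apply, ent_δ, ← gτ, b.dτ, zero_add]
  have e2 : ∀ c c', b.σ (m.ent (w - m.δ g) c c') = 0 := fun c c' => by
    simp only [e1, map_sub, hσ, Matrix.mul_apply, map_sum, map_mul, σ_dm, zero_mul, mul_zero,
      Finset.sum_const_zero, sub_zero]
  refine ⟨g, ⟨⟨mem_p m fun c c' => ?_, (left_iff m).2 gl⟩, (right_iff m).2 fun i _ c => gr i c⟩,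
    ext' m fun c c' => ?_, fun c c' => ?_⟩
  · rw [← gτ, b.pτ]
  · rw [m.ent_σ, ← gτ, b.στ]
  by_cases h0 : ∃ i, i ≠ 0 ∧ (c = Sum.inl i ∨ c' = Sum.inl i)
  · refine ⟨0, by simp, by simp, by simp, ?_, fun _ => rfl⟩
    obtain ⟨i, hi, rfl | rfl⟩ := h0
    · simp [e1, Matrix.mul_apply, gl i hi, (left_iff m).1 hl i hi, dm]
    · simp [e1, Matrix.mul_apply, gr i, (right_iff m).1 hr i hi, dm]
  suffices h : ∃ M, b.p M = M ∧ b.τ M = 0 ∧ b.σ M = M ∧ b.d M = m.ent (w - m.δ g) c c' by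
    obtain ⟨M, k1, k2, k3, k4⟩ := h
    exact ⟨M, k1, k2, k3, k4, fun h => absurd h h0⟩
  rcases c' with i | ⟨j, _ | z⟩
  · have hi : i = 0 := by
      by_contra hi
      exact h0 ⟨i, hi, Or.inr rfl⟩
    subst hi
    exact b.col0 _ (e2 _ _) (ent_r m _ c (Sum.inl 0))
  · refine ⟨b.ε (ty c) * M c j, by rw [(b.pε _ _).1, a1], by rw [map_mul, a2, mul_zero],
      by rw [map_mul, σe, a3], ?_⟩
    have e3 : ∀ z, m.ent g c (Sum.inr ⟨j, some z⟩) * b.dl j z =
        -(b.ε (ty c) * (l c j z * b.dl j z)) := fun z => by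
      rw [g0, mul_assoc, show b.ε (ty (Sum.inr ⟨j, some z⟩ : CC b)) = b.ε 0 from rfl, e_dl]
      simp only [lm, mul_neg, neg_mul, mul_assoc]
    rw [e1, mul_dm, Matrix.mul_apply, ← ent_l m w, a5, b.dg.leib, de, zero_mul, zero_add]
    simp only [gn, e3, mul_zero, Finset.sum_const_zero, Finset.sum_neg_distrib, mul_add,
      Finset.mul_sum]
    abel
  · exact b.col0 _ (e2 _ _) (ent_r m _ c (Sum.inr ⟨j, some z⟩))

end G4x

open G4x in
theorem sG4 : SG4 := by
  intro k A G _ _ _ _ _ b m w hw hσ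
  obtain ⟨g, g1, g2, h⟩ := step1 m hw.1.2 hw.2 hσ
  choose M a1 a2 a3 a4 a5 using h
  obtain ⟨r, hr⟩ : ∃ r, r = m.mat (Matrix.of M) := ⟨_, rfl⟩
  have r0 : ∀ c c', m.ent r c c' = b.ε (ty c) * M c c' * b.ε (ty c') := fun c c' => by
    rw [hr, m.ent_mat]
    rfl
  have rτ : ∀ c c', b.τ (m.ent r c c') = 0 := fun c c' => by
    rw [r0, map_mul, map_mul, a2, mul_zero, zero_mul]
  have r1 : r ∈ cor m.e' (fx m.p) := by
    refine ⟨⟨mem_p m fun c c' => ?_, (left_iff m).2 fun i hi c => ?_⟩,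
      (right_iff m).2 fun i hi c => ?_⟩
    · rw [r0, (b.pε _ _).2, (b.pε _ _).1, a1]
    · rw [r0, a5 _ _ ⟨i, hi, Or.inl rfl⟩, mul_zero, zero_mul]
    · rw [r0, a5 _ _ ⟨i, hi, Or.inr rfl⟩, mul_zero, zero_mul]
  have r2 : m.σ r = r := ext' m fun c c' => by
    rw [m.ent_σ, r0, map_mul, map_mul, σe, σe, a3]
  have r3 : m.δ r = w - m.δ g := ext' m fun c c' => by
    rw [ent_δ, Matrix.mul_apply, Matrix.mul_apply,
      Finset.sum_eq_zero fun x _ => b.split.sq _ _ (τ_dm c x) (rτ x c'),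
      Finset.sum_eq_zero fun x _ => b.split.sq _ _ (rτ c x) (τ_dm x c'), add_zero, sub_zero, r0,
      dee, a4, ent_fix]
  refine ⟨g + r, Submodule.add_mem _ g1 r1, by rw [map_add, g2, r2], ?_⟩
  rw [map_add, r3, add_sub_cancel]

end Pool.Agent.MP_92f1cb_al.H21T
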