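import Pool.Agent.MP_92f1cb_al.H21T.Spec

set_option autoImplicit false

namespace Pool.Agent.MP_92f1cb_al.H21T

open Pool.Agent.MP_92f1cb_al.H14 Pool.Agent.MP_92f1cb_al.H14C Module

namespace G5x

variable {k A G : Type} [Field k] [Ring A] [Algebra k A] [Ring G] [Algebra k G] {b : Base k A}
  (m : Mx b G)

theorem ext {x z : G} (h : ∀ c c', m.ent x c c' = m.ent z c c') : x = z := by
  rw [← m.mat_ent x, ← m.mat_ent z, Matrix.ext h]

theorem cnr (x : G) (c c' : CC b) : b.ε (ty c) * m.ent x c c' * b.ε (ty c') = m.ent x c c' := by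
  rw [← m.ent_mat, m.mat_ent]

theorem idem (b : Base k A) (i : Fin 3) : b.ε i * b.ε i = b.ε i := b.tri.coi.idem i

theorem dε (b : Base k A) (i : Fin 3) : b.d (b.ε i) = 0 := by
  rw [← b.tri.fix i, b.dτ]

theorem left (x : G) (c c' : CC b) : b.ε (ty c) * m.ent x c c' = m.ent x c c' := by
  rw [← cnr m x c c', ← mul_assoc, ← mul_assoc, idem]

theorem τcnr (x : G) (c c' : CC b) :
    b.ε (ty c) * b.τ (m.ent x c c') * b.ε (ty c') = b.τ (m.ent x c c') := by
  conv_rhs => rw [← cnr m x c c', map_mul, map_mul, b.tri.fix, b.tri.fix]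

theorem τup (x : G) {c c' : CC b} (h : ty c < ty c') : b.τ (m.ent x c c') = 0 := by
  rw [← τcnr m x c c']
  exact b.tri.up _ (b.split.idem _) _ _ h

theorem τdiag (x : G) {c c' : CC b} (h : ty c' = ty c) :
    ∃ s : k, b.τ (m.ent x c c') = s • b.ε (ty c) := by
  obtain ⟨s, hs⟩ := b.tri.diag _ (b.split.idem (m.ent x c c')) (ty c)
  have e := τcnr m x c c'
  rw [h] at e
  exact ⟨s, e.symm.trans hs⟩

theorem τdl (b : Base k A) (j : Fin 2) (z : Fin (b.Z j)) : b.τ (b.dl j z) = 0 := by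
  rw [← b.τσ, (b.dl_mem j z).1, map_zero]

theorem εdl (b : Base k A) (j : Fin 2) (z : Fin (b.Z j)) : b.ε 0 * b.dl j z = b.dl j z := by
  rw [← (b.dl_mem j z).2, ← mul_assoc, ← mul_assoc, idem]

theorem dlε (b : Base k A) (j : Fin 2) (z : Fin (b.Z j)) : b.dl j z * b.ε j.succ = b.dl j z := by
  rw [← (b.dl_mem j z).2, mul_assoc _ _ (b.ε j.succ), idem]

theorem mul_dl (b : Base k A) (a : A) (j : Fin 2) (z : Fin (b.Z j)) :
    a * b.dl j z = b.τ a * b.dl j z := by
  have := b.split.sq (a - b.τ a) (b.dl j z) (by rw [map_sub, b.split.idem, sub_self]) (τdl b j z)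
  rwa [sub_mul, sub_eq_zero] at this

theorem dl_mul (b : Base k A) (a : A) (j : Fin 2) (z : Fin (b.Z j)) :
    b.dl j z * a = b.dl j z * b.τ a := by
  have := b.split.sq (b.dl j z) (a - b.τ a) (τdl b j z) (by rw [map_sub, b.split.idem, sub_self])
  rwa [mul_sub, sub_eq_zero] at this

theorem ent_dm : m.ent (m.mat (dm b)) = dm b := by
  ext c c'
  rw [m.ent_mat]
  rcases c with c | ⟨j, _ | z⟩ <;> rcases c' with c' | ⟨j', _ | z'⟩ <;>
    simp only [dm, mul_zero, zero_mul]
  split_ifs with h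
  · subst h
    exact (b.dl_mem j z).2
  · rw [mul_zero, zero_mul]

theorem ent_δ (x : G) (c c' : CC b) : m.ent (m.δ x) c c' =
    b.d (m.ent x c c') + (dm b * m.ent x) c c' - (m.ent x * dm b) c c' := by
  have e : b.ε (ty c) * b.d (m.ent x c c') * b.ε (ty c') = b.d (m.ent x c c') := by
    conv_rhs => rw [← cnr m x c c', b.dg.leib, b.dg.leib, dε, dε, zero_mul, zero_add, mul_zero,
      add_zero]
  simp only [Mx.δ, Mx.lift, LinearMap.sub_apply, LinearMap.add_apply, LinearMap.comp_apply,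
    LinearMap.mulLeft_apply, LinearMap.mulRight_apply, map_sub, map_add, m.ent_mul, ent_dm,
    Matrix.sub_apply, Matrix.add_apply, m.ent_mat, LinearMap.mapMatrix_apply, Matrix.map_apply, e]

theorem ent_p {x : G} (h : m.p x = x) (c c' : CC b) : b.p (m.ent x c c') = m.ent x c c' := by
  have e : m.ent (m.p x) c c' = b.ε (ty c) * b.p (m.ent x c c') * b.ε (ty c') := by
    simp only [Mx.p, Mx.lift, LinearMap.comp_apply, m.ent_mat, LinearMap.mapMatrix_apply,
      Matrix.map_apply]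
  rw [h, ← (b.pε _ _).1, ← (b.pε _ _).2, cnr] at e
  exact e.symm

theorem mul_dm_none (X : Matrix (CC b) (CC b) A) (c : CC b) (j : Fin 2) :
    (X * dm b) c (Sum.inr ⟨j, none⟩) = ∑ z, X c (Sum.inr ⟨j, some z⟩) * b.dl j z := by
  rw [Matrix.mul_apply, Fintype.sum_sum_type, Fintype.sum_sigma, Finset.sum_eq_single j]
  · simp [dm]
  · intro j' _ hj
    simp [dm, hj]
  · simp

theorem mul_dm_zero (X : Matrix (CC b) (CC b) A) (c c' : CC b) (h : ty c' = 0)
    : (X * dm b) c c' = 0 := by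
  rw [Matrix.mul_apply]
  refine Finset.sum_eq_zero fun a _ => ?_
  rcases c' with c' | ⟨j', _ | z'⟩
  · rcases a with a | ⟨j, _ | z⟩ <;> simp only [dm, mul_zero]
  · exact absurd h (Fin.succ_ne_zero j')
  · rcases a with a | ⟨j, _ | z⟩ <;> simp only [dm, mul_zero]

theorem dm_mul_inl (X : Matrix (CC b) (CC b) A) (i : Fin 3) (c' : CC b) :
    (dm b * X) (Sum.inl i) c' = 0 := by
  rw [Matrix.mul_apply]
  exact Finset.sum_eq_zero fun a _ => by simp only [dm, zero_mul]

theorem dm_mul_some (X : Matrix (CC b) (CC b) A) (j : Fin 2) (z : Fin (b.Z j)) (c' : CC b) :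
    (dm b * X) (Sum.inr ⟨j, some z⟩) c' = b.dl j z * X (Sum.inr ⟨j, none⟩) c' := by
  rw [Matrix.mul_apply, Finset.sum_eq_single (Sum.inr ⟨j, none⟩)]
  · simp [dm]
  · rintro (a | ⟨j', _ | z'⟩) _ ha
    · simp only [dm, zero_mul]
    · have : j ≠ j' := fun h => ha (by subst h; rfl)
      simp only [dm, if_neg this, zero_mul]
    · simp only [dm, zero_mul]
  · simp

/-- the hypotheses on a closed element. -/
structure Cyc (x : G) : Prop where
  p : m.p x = x
  σ : m.σ x = x
  δ : m.δ x = 0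

variable {m}

theorem Cyc.σe {x : G} (h : Cyc m x) (c c' : CC b) : b.σ (m.ent x c c') = m.ent x c c' := by
  rw [← m.ent_σ, h.σ]

theorem Cyc.δe {x : G} (h : Cyc m x) (c c' : CC b) :
    b.d (m.ent x c c') + (dm b * m.ent x) c c' - (m.ent x * dm b) c c' = 0 := by
  rw [← ent_δ, h.δ, map_zero, Matrix.zero_apply]

theorem Cyc.row {x : G} (h : Cyc m x) {c : CC b} (hc : ty c = 0) (j : Fin 2)
    (r : Fin (b.Z j) → k) (hr : (dm b * m.ent x) c (Sum.inr ⟨j, none⟩) = ∑ z, r z • b.dl j z) :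
    m.ent x c (Sum.inr ⟨j, none⟩) = 0 ∧
      ∀ z, b.τ (m.ent x c (Sum.inr ⟨j, some z⟩)) = r z • b.ε 0 := by
  have h1 : ∀ z, ∃ s : k, b.τ (m.ent x c (Sum.inr ⟨j, some z⟩)) = s • b.ε 0 := fun z => by
    have := τdiag m x (c := c) (c' := Sum.inr ⟨j, some z⟩) hc.symm
    rwa [hc] at this
  choose s hs using h1
  have h2 : b.τ (m.ent x c (Sum.inr ⟨j, none⟩)) = 0 :=
    τup m x (by rw [hc]; exact Fin.succ_pos j)
  have h3 : b.d (m.ent x c (Sum.inr ⟨j, none⟩)) = ∑ z, (s z - r z) • b.dl j z := by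
    have e := h.δe c (Sum.inr ⟨j, none⟩)
    rw [hr, mul_dm_none] at e
    have e2 : ∀ z, m.ent x c (Sum.inr ⟨j, some z⟩) * b.dl j z = s z • b.dl j z := fun z => by
      rw [mul_dl, hs, smul_mul_assoc, εdl]
    simp only [e2] at e
    simp only [sub_smul, Finset.sum_sub_distrib]
    rw [eq_sub_iff_add_eq, ← sub_eq_zero]
    exact e
  have h4 := b.indep j _ _ (ent_p m h.p _ _) h2 (h.σe _ _) h3
  refine ⟨b.inj0 _ (ent_p m h.p _ _) h2 (h.σe _ _) (hc ▸ left m x c _) ?_, fun z => ?_⟩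
  · rw [h3]
    exact Finset.sum_eq_zero fun z _ => by rw [h4 z, zero_smul]
  · rw [hs, sub_eq_zero.1 (h4 z)]

theorem Cyc.top {x : G} (h : Cyc m x) {c' : CC b} (hc : ty c' = 0) :
    m.ent x (Sum.inl 0) c' = b.τ (m.ent x (Sum.inl 0) c') := by
  have e := h.δe (Sum.inl 0) c'
  rw [dm_mul_inl, mul_dm_zero _ _ _ hc, add_zero, sub_zero] at e
  refine sub_eq_zero.1 (b.inj0 _ ?_ ?_ ?_ ?_ ?_)
  · rw [map_sub, ent_p m h.p, b.pτ]
  · rw [map_sub, b.split.idem, sub_self]
  · rw [map_sub, h.σe, b.στ]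
  · have e1 : b.ε 0 * m.ent x (Sum.inl 0) c' = m.ent x (Sum.inl 0) c' := left m x (Sum.inl 0) c'
    have e2 := congrArg b.τ e1
    rw [map_mul, b.tri.fix] at e2
    rw [mul_sub, e1, e2]
  · rw [map_sub, e, b.dτ, sub_zero]

theorem Cyc.inl_inr {x : G} (h : Cyc m x) (s : (j : Fin 2) × Option (Fin (b.Z j))) :
    m.ent x (Sum.inl 0) (Sum.inr s) = 0 := by
  obtain ⟨j, o⟩ := s
  have := h.row (c := Sum.inl 0) rfl j 0 (by simp [dm_mul_inl])
  rcases o with _ | z
  · exact this.1
  · rw [h.top (c' := Sum.inr ⟨j, some z⟩) rfl, this.2 z, Pi.zero_apply, zero_smul]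

variable (m)

theorem ent_un (c : CC b) :
    m.ent (m.un c c) = Matrix.diagonal fun a => if a = c then b.ε (ty a) else 0 := by
  ext a a'
  rw [Mx.un, m.ent_mat, Matrix.diagonal_apply, Matrix.single_apply]
  by_cases h1 : a = a'
  · subst h1
    by_cases h2 : a = c
    · subst h2
      simp [idem]
    · simp [h2, Ne.symm h2]
  · rw [if_neg h1, if_neg fun h => h1 (h.1.symm.trans h.2), mul_zero, zero_mul]

/-- the block of a component. -/
def blk : CC b → Option (Fin 2) := Sum.elim (fun _ => none) fun s => some s.1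

theorem ent_y (j : Fin 2) :
    m.ent (m.y j) = Matrix.diagonal fun a => if blk a = some j then b.ε (ty a) else 0 := by
  ext a a'
  rw [Mx.y, map_sum, Matrix.sum_apply]
  simp only [ent_un, Matrix.diagonal_apply]
  by_cases h1 : a = a'
  · simp only [if_pos h1]
    rcases a with a | ⟨j', o⟩
    · simp [blk]
    · by_cases h2 : j' = j
      · subst h2
        simp [blk]
      · have : ∀ o', (Sum.inr ⟨j', o⟩ : CC b) ≠ Sum.inr ⟨j, o'⟩ := fun o' e =>
          h2 (congrArg Sigma.fst (Sum.inr.inj e))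
        simp [blk, h2, this]
  · simp only [if_neg h1, Finset.sum_const_zero]

theorem inl_row {x : G} (h : m.f * x = x) (i : Fin 3) (c' : CC b) :
    m.ent x (Sum.inl i) c' = 0 := by
  rw [← h, m.ent_mul, Mx.f, map_add, ent_y, ent_y, add_mul, Matrix.add_apply,
    Matrix.diagonal_mul, Matrix.diagonal_mul]
  simp [blk]

theorem inl_col {x : G} (h : x * m.f = x) (i : Fin 3) (c : CC b) :
    m.ent x c (Sum.inl i) = 0 := by
  rw [← h, m.ent_mul, Mx.f, map_add, ent_y, ent_y, mul_add, Matrix.add_apply,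
    Matrix.mul_diagonal, Matrix.mul_diagonal]
  simp [blk]

theorem sum_six (t : ℤ) (a : A) (h : 0 ≤ t ∧ t ≤ 5 ∨ a = 0) :
    ∑ n ∈ Finset.range 6, (if t = (n : ℕ) then a else 0) = a := by
  rcases h with ⟨h1, h2⟩ | rfl
  · interval_cases t <;> simp [Finset.sum_range_succ]
  · simp

end G5x

open G5x in
theorem sG5 : SG5 := by
  intro k A G _ _ _ _ _ b m
  have cyc : ∀ a ∈ m.VA, Cyc m a := fun a ha => ⟨ha.1.1.1.1, ha.1.2, ha.2⟩
  refine ⟨fun a ha => ext m fun c c' => ?_, fun a ha => ?_, fun x hx => ext m fun c c' => ?_,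
    fun x hx => ?_⟩
  · rw [m.ent_mul, m.ent_mul, Mx.f, map_add, ent_y, ent_y, Mx.E, ent_un, mul_add,
      Matrix.add_apply, Matrix.mul_diagonal, Matrix.mul_diagonal, Matrix.diagonal_mul, map_zero,
      Matrix.zero_apply]
    by_cases hc : c = Sum.inl 0
    · subst hc
      rcases c' with c' | s
      · simp [blk]
      · simp [(cyc a ha).inl_inr s]
    · simp [hc]
  · obtain ⟨s, hs⟩ := τdiag m a (c := Sum.inl 0) (c' := Sum.inl 0) rfl
    refine ⟨s, ext m fun c c' => ?_⟩
    rw [m.ent_mul, m.ent_mul, map_smul, Mx.E, ent_un, Matrix.mul_diagonal, Matrix.diagonal_mul,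
      Matrix.smul_apply, Matrix.diagonal_apply]
    by_cases hc : c = Sum.inl 0 <;> by_cases hc' : c' = Sum.inl 0
    · subst hc hc'
      simp only [if_true]
      rw [cnr, (cyc a ha).top (c' := Sum.inl 0) rfl, hs]
    · subst hc
      simp [hc', Ne.symm hc']
    · simp [hc]
    · simp [hc]
  · have h := cyc x hx.1.1
    rw [map_sum, Matrix.sum_apply]
    simp only [m.ent_gr, Finset.sum_add_distrib]
    have low : ∀ z : Fin (b.Z 0), m.ent x (Sum.inr ⟨0, some z⟩) (Sum.inr ⟨1, none⟩) = 0 ∧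
        ∀ z', b.τ (m.ent x (Sum.inr ⟨0, some z⟩) (Sum.inr ⟨1, some z'⟩)) = 0 := fun z => by
      have := h.row (c := Sum.inr ⟨0, some z⟩) rfl 1 0 (by
        rw [dm_mul_some, dl_mul, τup m x (by simp [ty]), mul_zero]
        simp)
      simpa using this
    rw [sum_six, sum_six, add_sub_cancel]
    · rcases c with c | ⟨i, o⟩
      · simp [inl_row m hx.1.2]
      rcases c' with c' | ⟨j, o'⟩
      · simp [inl_col m hx.2]
      fin_cases i <;> fin_cases j <;> rcases o with _ | z <;> rcases o' with _ | z' <;>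
        first
          | (left; simp [dg, ty, ht]; done)
          | (right; simp [(low z).1]; done)
    · rcases c with c | ⟨i, o⟩
      · simp [inl_row m hx.1.2]
      rcases c' with c' | ⟨j, o'⟩
      · simp [inl_col m hx.2]
      fin_cases i <;> fin_cases j <;> rcases o with _ | z <;> rcases o' with _ | z' <;>
        first
          | (left; simp [dg, ty, ht]; done)
          | (right; exact (low z).2 z')
          | (right; exact τup m x (by simp [ty]))
  · have h := cyc x hx.1.1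
    choose s hs using fun j : Fin 2 =>
      τdiag m x (c := Sum.inr ⟨j, none⟩) (c' := Sum.inr ⟨j, none⟩) rfl
    have mid : ∀ (j : Fin 2) (z : Fin (b.Z j)),
        m.ent x (Sum.inr ⟨j, some z⟩) (Sum.inr ⟨j, none⟩) = 0 ∧
        ∀ z', b.τ (m.ent x (Sum.inr ⟨j, some z⟩) (Sum.inr ⟨j, some z'⟩)) =
          (if z = z' then s j else 0) • b.ε 0 := fun j z =>
      h.row (c := Sum.inr ⟨j, some z⟩) rfl j (fun z' => if z = z' then s j else 0) (by
        rw [dm_mul_some, dl_mul, hs, mul_smul_comm]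
        simp [ty, dlε])
    refine ⟨s 0, s 1, ext m fun c c' => ?_⟩
    rw [m.ent_gr, map_add, map_smul, map_smul, ent_y, ent_y, Matrix.add_apply, Matrix.smul_apply,
      Matrix.smul_apply, Matrix.diagonal_apply, Matrix.diagonal_apply]
    rcases c with c | ⟨i, o⟩
    · simp [inl_row m hx.1.2, blk]
    rcases c' with c' | ⟨j, o'⟩
    · simp [inl_col m hx.2]
    have h0 := hs 0
    have h1 := hs 1
    have m0 := mid 0
    have m1 := mid 1
    fin_cases i <;> fin_cases j <;> rcases o with _ | z <;> rcases o' with _ | z' <;>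
      simp_all [dg, ty, ht, blk]

end Pool.Agent.MP_92f1cb_al.H21T
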