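import Pool.Agent.MP_92f1cb_al.H21T.Spec

set_option autoImplicit false

namespace Pool.Agent.MP_92f1cb_al.H21T

open Pool.Agent.MP_92f1cb_al.H14 Pool.Agent.MP_92f1cb_al.H14C Module

namespace G6x

variable {k A : Type} [Field k] [Ring A] [Algebra k A]

/-- The projection of an entry. -/
def pr (τ : A →ₐ[k] A) (D n : ℤ) (a : A) : A :=
  (if D = n then τ a else 0) + if D + 2 = n then a - τ a else 0

/-- Homogeneous entries. -/
def Hg (τ : A →ₐ[k] A) (D n : ℤ) (a : A) : Prop := (D ≠ n → τ a = 0) ∧ (D + 2 ≠ n → τ a = a)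

theorem pr_eq_iff {τ : A →ₐ[k] A} {D n : ℤ} {a : A} : pr τ D n a = a ↔ Hg τ D n a := by
  unfold pr Hg
  by_cases h1 : D = n
  · have h2 : ¬ D + 2 = n := by omega
    rw [if_pos h1, if_neg h2, add_zero]
    exact ⟨fun h => ⟨fun h' => absurd h1 h', fun _ => h⟩, fun h => h.2 h2⟩
  · by_cases h2 : D + 2 = n
    · rw [if_neg h1, if_pos h2, zero_add, sub_eq_self]
      exact ⟨fun h => ⟨fun _ => h, fun h' => absurd h2 h'⟩, fun h => h.1 h1⟩
    · rw [if_neg h1, if_neg h2, add_zero]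
      refine ⟨fun h => ?_, fun h => (h.1 h1).symm.trans (h.2 h2)⟩
      subst h
      exact ⟨fun _ => map_zero _, fun _ => map_zero _⟩

theorem hg_zero (τ : A →ₐ[k] A) (D n : ℤ) : Hg τ D n 0 :=
  ⟨fun _ => map_zero _, fun _ => map_zero _⟩

theorem hg_sum {τ : A →ₐ[k] A} {D n : ℤ} {I : Type} (s : Finset I) (f : I → A)
    (h : ∀ i, Hg τ D n (f i)) : Hg τ D n (∑ i ∈ s, f i) := by
  refine ⟨fun h' => ?_, fun h' => ?_⟩
  · rw [map_sum]
    exact Finset.sum_eq_zero fun i _ => (h i).1 h'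
  · rw [map_sum]
    exact Finset.sum_congr rfl fun i _ => (h i).2 h'

theorem hg_mul {τ : A →ₐ[k] A} (hs : Split τ) {D n D' n' : ℤ} {a c : A} (ha : Hg τ D n a)
    (hc : Hg τ D' n' c) : Hg τ (D + D') (n + n') (a * c) := by
  refine ⟨fun h => ?_, fun h => ?_⟩
  · rw [map_mul]
    by_cases h1 : D = n
    · rw [hc.1 (by omega), mul_zero]
    · rw [ha.1 h1, zero_mul]
  · by_cases h1 : D + 2 = n
    · rw [hs.sq a c (ha.1 (by omega)) (hc.1 (by omega)), map_zero]
    · by_cases h2 : D' + 2 = n'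
      · rw [hs.sq a c (ha.1 (by omega)) (hc.1 (by omega)), map_zero]
      · rw [map_mul, ha.2 h1, hc.2 h2]

theorem tau_sub {τ : A →ₐ[k] A} (hs : Split τ) (a : A) : τ (a - τ a) = 0 := by
  rw [map_sub, hs.idem, sub_self]

theorem hg_pr {τ : A →ₐ[k] A} (hs : Split τ) (D n : ℤ) (a : A) : Hg τ D n (pr τ D n a) := by
  unfold pr
  refine ⟨fun h => ?_, fun h => ?_⟩
  · rw [if_neg h, zero_add]
    split_ifs
    · exact tau_sub hs a
    · exact map_zero _
  · rw [if_neg h, add_zero]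
    split_ifs
    · exact hs.idem a
    · exact map_zero _

theorem pr_ne {τ : A →ₐ[k] A} {D n n' : ℤ} {a : A} (h : Hg τ D n' a) (hn : n ≠ n') :
    pr τ D n a = 0 := by
  unfold pr
  have e1 : (if D = n then τ a else 0) = 0 := by
    split_ifs with h1
    · exact h.1 (by omega)
    · rfl
  have e2 : (if D + 2 = n then a - τ a else 0) = 0 := by
    split_ifs with h1
    · rw [h.2 (by omega), sub_self]
    · rfl
  rw [e1, e2, add_zero]

theorem pr_map {τ : A →ₐ[k] A} (f : A →+ A) (hf : ∀ a, τ (f a) = f (τ a)) (D n : ℤ) (a : A) :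
    pr τ D n (f a) = f (pr τ D n a) := by
  unfold pr
  rw [map_add, hf]
  split_ifs <;> simp only [map_zero, map_sub]

theorem pr_sum (τ : A →ₐ[k] A) (D n : ℤ) {I : Type} (s : Finset I) (f : I → A) :
    pr τ D n (∑ i ∈ s, f i) = ∑ i ∈ s, pr τ D n (f i) := by
  unfold pr
  rw [Finset.sum_add_distrib, map_sum]
  split_ifs <;> simp only [Finset.sum_const_zero, Finset.sum_sub_distrib]

theorem pr_left {τ : A →ₐ[k] A} (hs : Split τ) {D : ℤ} {u : A} (hu : Hg τ D 0 u) (D' n : ℤ)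
    (a : A) : pr τ (D + D') n (u * a) = u * pr τ D' n a := by
  by_cases h1 : D = 0
  · subst h1
    rw [zero_add]
    refine pr_map (AddMonoidHom.mulLeft u) (fun c => ?_) D' n a
    show τ (u * c) = u * τ c
    rw [map_mul, hu.2 (by omega)]
  · have t0 := hu.1 h1
    by_cases h2 : D + 2 = 0
    · have s0 : u * (a - τ a) = 0 := hs.sq _ _ t0 (tau_sub hs a)
      have s1 : u * τ a = u * a := by
        rw [mul_sub, sub_eq_zero] at s0
        exact s0.symm
      unfold pr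
      rw [map_mul, t0, zero_mul, ite_self, zero_add, sub_zero, mul_add, mul_ite, mul_ite, s0, s1,
        mul_zero, ite_self, add_zero]
      exact if_congr (by omega) rfl rfl
    · have u0 : u = 0 := (hu.2 h2).symm.trans t0
      rw [u0, zero_mul, zero_mul]
      exact pr_eq_iff.2 (hg_zero τ _ _)

theorem pr_right {τ : A →ₐ[k] A} (hs : Split τ) {D : ℤ} {u : A} (hu : Hg τ D 0 u) (D' n : ℤ)
    (a : A) : pr τ (D' + D) n (a * u) = pr τ D' n a * u := by
  by_cases h1 : D = 0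
  · subst h1
    rw [add_zero]
    refine pr_map (AddMonoidHom.mulRight u) (fun c => ?_) D' n a
    show τ (c * u) = τ c * u
    rw [map_mul, hu.2 (by omega)]
  · have t0 := hu.1 h1
    by_cases h2 : D + 2 = 0
    · have s0 : (a - τ a) * u = 0 := hs.sq _ _ (tau_sub hs a) t0
      have s1 : τ a * u = a * u := by
        rw [sub_mul, sub_eq_zero] at s0
        exact s0.symm
      unfold pr
      rw [map_mul, t0, mul_zero, ite_self, zero_add, sub_zero, add_mul, ite_mul, ite_mul, s0, s1,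
        zero_mul, ite_self, add_zero]
      exact if_congr (by omega) rfl rfl
    · have u0 : u = 0 := (hu.2 h2).symm.trans t0
      rw [u0, mul_zero, mul_zero]
      exact pr_eq_iff.2 (hg_zero τ _ _)

variable {b : Base k A} {G : Type} [Ring G] [Algebra k G] (m : Mx b G)

theorem dg_add (c c' c'' : CC b) : dg c c' = dg c c'' + dg c'' c' := by
  unfold dg
  ring

theorem dg_self (c : CC b) : dg c c = 0 := by
  unfold dg
  ring

theorem ext {x z : G} (h : ∀ c c', m.ent x c c' = m.ent z c c') : x = z := by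
  rw [← m.mat_ent x, ← m.mat_ent z, Matrix.ext h]

theorem ent_gr (n : ℕ) (x : G) (c c' : CC b) :
    m.ent (m.gr n x) c c' = pr b.τ (dg c c') n (m.ent x c c') := m.ent_gr n x c c'

theorem gr_iff (n : ℕ) (x : G) :
    m.gr n x = x ↔ ∀ c c', Hg b.τ (dg c c') n (m.ent x c c') := by
  refine ⟨fun h c c' => ?_, fun h => ext m fun c c' => ?_⟩
  · rw [← pr_eq_iff, ← ent_gr, h]
  · rw [ent_gr, pr_eq_iff]
    exact h c c'

theorem hg_eps (i : Fin 3) : Hg b.τ 0 0 (b.ε i) :=
  ⟨fun h => absurd rfl h, fun _ => b.tri.fix i⟩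

theorem hg_mat (f : Matrix (CC b) (CC b) A) (h : ∀ c c', Hg b.τ (dg c c') 0 (f c c')) :
    m.gr 0 (m.mat f) = m.mat f := by
  refine (gr_iff m 0 _).2 fun c c' => ?_
  rw [m.ent_mat]
  have := hg_mul b.split (hg_mul b.split (hg_eps (ty c)) (h c c')) (hg_eps (ty c'))
  simpa only [zero_add, add_zero, Nat.cast_zero] using this

theorem gr_un (c : CC b) : m.gr 0 (m.un c c) = m.un c c := by
  refine hg_mat m _ fun c₁ c₂ => ?_
  by_cases h : c = c₁ ∧ c = c₂
  · obtain ⟨rfl, rfl⟩ := h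
    rw [Matrix.single_apply_same, dg_self]
    exact ⟨fun h => absurd rfl h, fun _ => map_one _⟩
  · rw [Matrix.single_apply_of_ne _ _ _ _ _ h]
    exact hg_zero _ _ _

theorem gr_y (j : Fin 2) : m.gr 0 (m.y j) = m.y j := by
  unfold Mx.y
  rw [map_sum]
  exact Finset.sum_congr rfl fun o _ => gr_un m _

theorem gr_f : m.gr 0 m.f = m.f := by
  unfold Mx.f
  rw [map_add, gr_y, gr_y]

theorem gr_e' : m.gr 0 m.e' = m.e' := by
  unfold Mx.e' Mx.E
  rw [map_add, gr_f, gr_un]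

theorem gr_dm : m.gr 0 (m.mat (dm b)) = m.mat (dm b) := by
  refine hg_mat m _ fun c c' => ?_
  rcases c with i | ⟨j, _ | z⟩
  · exact hg_zero _ _ _
  · exact hg_zero _ _ _
  · rcases c' with i' | ⟨j', _ | z'⟩
    · exact hg_zero _ _ _
    · show Hg b.τ _ 0 (if j = j' then b.dl j z else 0)
      split_ifs with h
      · subst h
        refine ⟨fun _ => ?_, fun h => absurd ?_ h⟩
        · rw [← b.τσ, (b.dl_mem j z).1, map_zero]
        · simp only [dg, ty, ht, Fin.val_succ, Fin.val_zero]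
          push_cast
          ring
      · exact hg_zero _ _ _
    · exact hg_zero _ _ _

theorem gr_left {u : G} (hu : m.gr 0 u = u) (n : ℕ) (x : G) :
    m.gr n (u * x) = u * m.gr n x := by
  refine ext m fun c c' => ?_
  rw [ent_gr, m.ent_mul, m.ent_mul, Matrix.mul_apply, Matrix.mul_apply, pr_sum]
  refine Finset.sum_congr rfl fun c'' _ => ?_
  rw [ent_gr, dg_add c c' c'']
  exact pr_left b.split ((gr_iff m 0 u).1 hu c c'') _ _ _

theorem gr_right {u : G} (hu : m.gr 0 u = u) (n : ℕ) (x : G) :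
    m.gr n (x * u) = m.gr n x * u := by
  refine ext m fun c c' => ?_
  rw [ent_gr, m.ent_mul, m.ent_mul, Matrix.mul_apply, Matrix.mul_apply, pr_sum]
  refine Finset.sum_congr rfl fun c'' _ => ?_
  rw [ent_gr, dg_add c c' c'']
  exact pr_right b.split ((gr_iff m 0 u).1 hu c'' c') _ _ _

theorem ent_lift (f : End k A) (x : G) (c c' : CC b) :
    m.ent (m.lift f x) c c' = b.ε (ty c) * f (m.ent x c c') * b.ε (ty c') :=
  m.ent_mat _ c c'

theorem gr_lift (f : End k A) (hf : ∀ a, b.τ (f a) = f (b.τ a)) (n : ℕ) (x : G) :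
    m.gr n (m.lift f x) = m.lift f (m.gr n x) := by
  refine ext m fun c c' => ?_
  have e1 := pr_right b.split (hg_eps (ty c')) (dg c c') n (b.ε (ty c) * f (m.ent x c c'))
  have e2 := pr_left b.split (hg_eps (ty c)) (dg c c') n (f (m.ent x c c'))
  have e3 : pr b.τ (dg c c') n (f (m.ent x c c')) = f (pr b.τ (dg c c') n (m.ent x c c')) :=
    pr_map f.toAddMonoidHom hf _ _ _
  rw [add_zero] at e1
  rw [zero_add] at e2
  rw [ent_gr, ent_lift, ent_lift, ent_gr, e1, e2, e3]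

theorem gr_sigma (n : ℕ) (x : G) : m.gr n (m.σ x) = m.σ (m.gr n x) := by
  refine ext m fun c c' => ?_
  rw [ent_gr, m.ent_σ, m.ent_σ, ent_gr]
  exact pr_map b.σ.toLinearMap.toAddMonoidHom (fun a => (b.τσ a).trans (b.στ a).symm) _ _ _

theorem gr_p (n : ℕ) (x : G) : m.gr n (m.p x) = m.p (m.gr n x) :=
  gr_lift m b.p (fun a => (b.τp a).trans (b.pτ a).symm) n x

theorem gr_delta (n : ℕ) (x : G) : m.gr n (m.δ x) = m.δ (m.gr n x) := by
  have hd : ∀ a, b.τ (b.d a) = b.d (b.τ a) := fun a => by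
    rw [← b.τσ, b.dg.σδ, map_zero, b.dτ]
  show m.gr n (m.lift b.d x + m.mat (dm b) * x - x * m.mat (dm b)) =
    m.lift b.d (m.gr n x) + m.mat (dm b) * m.gr n x - m.gr n x * m.mat (dm b)
  rw [map_sub, map_add, gr_lift m b.d hd, gr_left m (gr_dm m), gr_right m (gr_dm m)]

end G6x

open G6x in
theorem sG6 : SG6 := by
  intro k A G _ _ _ _ _ b m
  refine ⟨fun n x hx => ?_, fun n n' x => ?_, fun n n' x z hx hz => ?_, gr_y m⟩
  · obtain ⟨⟨hA, h1⟩, h2⟩ := mem_cor.1 hx
    obtain ⟨⟨hC, h3⟩, h4⟩ := mem_zc.1 hA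
    obtain ⟨⟨h5, h6⟩, h7⟩ := mem_cor.1 hC
    refine mem_cor.2 ⟨⟨mem_zc.2 ⟨⟨mem_cor.2 ⟨⟨mem_fx.2 ?_, ?_⟩, ?_⟩, ?_⟩, ?_⟩, ?_⟩, ?_⟩
    · rw [← gr_p, mem_fx.1 h5]
    · rw [← gr_left m (gr_e' m), h6]
    · rw [← gr_right m (gr_e' m), h7]
    · rw [← gr_sigma, h3]
    · rw [← gr_delta, h4, map_zero]
    · rw [← gr_left m (gr_f m), h1]
    · rw [← gr_right m (gr_f m), h2]
  · split_ifs with h
    · subst h
      refine (gr_iff m n _).2 fun c c' => ?_
      rw [ent_gr]
      exact hg_pr b.split _ _ _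
    · refine ext m fun c c' => ?_
      rw [ent_gr, ent_gr, map_zero]
      exact pr_ne (hg_pr b.split _ _ _) (by exact_mod_cast h)
  · refine (gr_iff m _ _).2 fun c c' => ?_
    rw [m.ent_mul, Matrix.mul_apply]
    refine hg_sum _ _ fun c'' => ?_
    rw [dg_add c c' c'', Nat.cast_add]
    exact hg_mul b.split ((gr_iff m n x).1 hx c c'') ((gr_iff m n' z).1 hz c'' c')

end Pool.Agent.MP_92f1cb_al.H21T
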