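import Pool.Agent.MP_92f1cb_al.H21T.Spec

set_option autoImplicit false

namespace Pool.Agent.MP_92f1cb_al.H21T

open Pool.Agent.MP_92f1cb_al.H14 Pool.Agent.MP_92f1cb_al.H14C Module

namespace Genx

theorem contr {k X : Type} [Field k] [AddCommGroup X] [Module k X] (D : End k X)
    (K : Submodule k X) (hD : ∀ z, D (D z) = 0) (hK : ∀ z ∈ K, D z ∈ K) (hE : Ex D K) :
    ∃ s : End k X, ∀ z ∈ K, s z ∈ K ∧ D (s z) + s (D z) = z := by
  let Z : Submodule k X := K ⊓ LinearMap.ker D
  let f : K →ₗ[k] Z := (D ∘ₗ K.subtype).codRestrict Z fun z => ⟨hK _ z.2, hD _⟩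
  obtain ⟨g, hg⟩ := f.exists_rightInverse_of_surjective (LinearMap.range_eq_top.2 fun z => by
    obtain ⟨u, hu, h⟩ := hE z z.2.1 z.2.2
    exact ⟨⟨u, hu⟩, Subtype.ext h⟩)
  obtain ⟨π, hπ⟩ := Z.subtype.exists_leftInverse_of_injective Z.ker_subtype
  let s₀ : End k X := K.subtype ∘ₗ g ∘ₗ π
  have h1 : ∀ z, s₀ z ∈ K := fun z => (g (π z)).2
  have h2 : ∀ z ∈ K, D z = 0 → D (s₀ z) = z := fun z hz h0 => by
    have a1 : π z = ⟨z, hz, h0⟩ := LinearMap.congr_fun hπ ⟨z, hz, h0⟩
    have a2 := congrArg Subtype.val (LinearMap.congr_fun hg (π z))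
    rw [a1] at a2
    change D (g (π z)) = z
    rw [a1]; exact a2
  refine ⟨s₀ * (1 - s₀ * D), fun z hz => ⟨h1 _, ?_⟩⟩
  simp only [End.mul_apply, LinearMap.sub_apply, End.one_apply]
  rw [h2 _ (K.sub_mem hz (h1 _)) (by rw [map_sub, h2 _ (hK z hz) (hD z), sub_self]), hD,
    map_zero, sub_zero, sub_add_cancel]

variable {k G B : Type} [Field k] [Ring G] [Algebra k G] {β : Basis B k G} {σ : G →ₐ[k] G}
  {δ : End k G} {N L : Submodule k G} {e : G}

/-- `b` is a basis vector that occurs in `a`. -/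
def Rel (β : Basis B k G) (b a : G) : Prop :=
  (∃ x, β x = b) ∧ ∀ P : End k G, Adp β P → (P a = a → P b = b) ∧ (P a = 0 → P b = 0)

theorem rel_of {a : G} {x : B} (h : β.repr a x ≠ 0) : Rel β (β x) a := by
  classical
  refine ⟨⟨x, rfl⟩, fun P hP => ?_⟩
  have key : ∀ c, β.repr (P c) x = if P (β x) = β x then β.repr c x else 0 := by
    intro c
    induction c using basis_ind' β with
    | hb z =>
      by_cases hz : z = x
      · subst hz
        rcases hP z with h1 | h1
        · rw [if_pos h1, h1]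
        · rw [if_neg (by rw [h1]; exact (β.ne_zero z).symm), h1]; simp
      · rcases hP z with h1 | h1 <;> simp [h1, hz]
    | h0 => simp
    | hadd a c ha hc => simp only [map_add, Finsupp.add_apply, ha, hc]; split_ifs <;> simp
    | hsmul r a ha => simp only [map_smul, Finsupp.smul_apply, ha]; split_ifs <;> simp
  constructor
  · intro ha
    by_contra hx
    have := key a
    rw [ha, if_neg hx] at this
    exact h this
  · intro ha
    refine (hP x).resolve_left fun hx => ?_
    have := key a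
    rw [ha, if_pos hx] at this
    exact h (by rw [← this]; simp)

theorem ww_span {X : Type} [AddCommGroup X] [Module k X] (V : Submodule k X) (l : List G) :
    ∀ φ : WW k B →ₗ[k] X, (∀ l', List.Forall₂ (Rel β) l' l → φ (ww β l') ∈ V) →
      φ (ww β l) ∈ V := by
  induction l with
  | nil => exact fun φ h => h [] List.Forall₂.nil
  | cons a l ih =>
    intro φ h
    rw [ww_cons]
    refine basis_ind β (fun z => β.repr a z ≠ 0) (P := fun c => φ (cons β c (ww β l)) ∈ V)
      (fun z hz => ih (φ ∘ₗ cons β (β z)) fun l' hl' => h _ (List.Forall₂.cons (rel_of hz) hl'))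
      (by simp) (fun x y hx hy => ?_) (fun c x hx => ?_) a fun _ hz => hz
    · simp only [map_add, LinearMap.add_apply]; exact V.add_mem hx hy
    · simp only [map_smul, LinearMap.smul_apply]; exact V.smul_mem c hx

theorem span_map {X Y : Type} [AddCommGroup X] [Module k X] [AddCommGroup Y] [Module k Y]
    (φ : X →ₗ[k] Y) (V : Submodule k Y) {S : Set X} (h : ∀ x ∈ S, φ x ∈ V) {z : X}
    (hz : z ∈ Submodule.span k S) : φ z ∈ V :=
  (Submodule.span_le (p := V.comap φ)).2 h hz

/-- Chains of good junctions that end in `U`. -/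
def Ch (L U : Submodule k G) (e : G) : G → List G → Prop
  | a, [] => a ∈ U
  | a, b :: l => a * e = a ∧ e * b = b ∧ b ∈ L ∧ Ch L U e b l

/-- The span of the chains with head in `V`. -/
noncomputable def TT (β : Basis B k G) (L : Submodule k G) (e : G) (V U : Submodule k G) :
    Submodule k (WW k B) :=
  Submodule.span k {W | ∃ a ∈ V, ∃ l, Ch L U e a l ∧ W = ww β (a :: l)}

theorem TT_gen {V U : Submodule k G} {a : G} {l : List G} (ha : a ∈ V) (h : Ch L U e a l) :
    ww β (a :: l) ∈ TT β L e V U := Submodule.subset_span ⟨a, ha, l, h, rfl⟩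

theorem Ch.top {U : Submodule k G} {l : List G} : ∀ {a : G}, Ch L U e a l → Ch L ⊤ e a l := by
  induction l with
  | nil => exact fun _ => trivial
  | cons b l ih => exact fun h => ⟨h.1, h.2.1, h.2.2.1, ih h.2.2.2⟩

theorem Ch.mem {U : Submodule k G} {l : List G} :
    ∀ {a : G}, Ch L U e a l → ∀ c ∈ l, c ∈ L := by
  induction l with
  | nil => simp
  | cons b l ih =>
    intro a h c hc
    rcases List.mem_cons.1 hc with rfl | hc
    · exact h.2.2.1
    · exact ih h.2.2.2 c hc

theorem ch_concat {l : List G} {c : G} : ∀ {a : G}, Ch L ⊤ e a (l ++ [c]) ↔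
    a * e = a ∧ (∀ x ∈ l, x ∈ cor e L) ∧ e * c = c ∧ c ∈ L := by
  induction l with
  | nil => simp [Ch]
  | cons b l ih =>
    intro a
    simp only [List.cons_append, Ch, ih, List.forall_mem_cons, mem_cor]
    tauto

theorem KW_eq : KW β N L e 1 = TT β L e N ⊤ := by
  refine le_antisymm (Submodule.span_le.2 ?_) (Submodule.span_le.2 ?_)
  · rintro _ (⟨n, hn, -, rfl⟩ | ⟨n, hn, l, a, ha, h1, h2, h3, -, rfl⟩)
    · exact TT_gen hn trivial
    · exact TT_gen hn (ch_concat.2 ⟨h1, h2, h3, ha⟩)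
  · rintro _ ⟨a, ha, l, h, rfl⟩
    induction l using List.reverseRecOn with
    | nil => exact Submodule.subset_span (Or.inl ⟨a, ha, mul_one a, rfl⟩)
    | append_singleton l c _ =>
      obtain ⟨h1, h2, h3, h4⟩ := ch_concat.1 h
      exact Submodule.subset_span (Or.inr ⟨a, ha, l, c, h4, h1, h2, h3, mul_one c, rfl⟩)

theorem eps_apply (a : G) : eps σ a = σ a - (a - σ a) := rfl

theorem eps_mem {V : Submodule k G} (h : ∀ a ∈ V, σ a ∈ V) {a : G} (ha : a ∈ V) : eps σ a ∈ V :=
  V.sub_mem (h a ha) (V.sub_mem ha (h a ha))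

theorem σ_l (he : Cl σ δ L e) (a : G) : σ (e * a) = e * σ a := by rw [map_mul, he.fix]

theorem σ_r (he : Cl σ δ L e) (a : G) : σ (a * e) = σ a * e := by rw [map_mul, he.fix]

theorem δ_l (hd : DG σ δ) (he : Cl σ δ L e) (a : G) : δ (e * a) = e * δ a := by
  rw [hd.leib, he.cl, zero_mul, zero_add]

theorem δ_r (hd : DG σ δ) (he : Cl σ δ L e) (a : G) : δ (a * e) = δ a * e := by
  rw [hd.leib, he.cl, mul_zero, add_zero]

theorem eps_l (he : Cl σ δ L e) {a : G} (h : e * a = a) : e * eps σ a = eps σ a := by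
  rw [eps_apply, mul_sub, mul_sub, ← σ_l he, h]

theorem eps_r (he : Cl σ δ L e) {a : G} (h : a * e = a) : eps σ a * e = eps σ a := by
  rw [eps_apply, sub_mul, sub_mul, ← σ_r he, h]

/-- Stable right modules. -/
structure Hv (σ : G →ₐ[k] G) (δ : End k G) (L V : Submodule k G) : Prop where
  mul : ∀ a ∈ V, ∀ c ∈ L, a * c ∈ V
  hσ : ∀ a ∈ V, σ a ∈ V
  hδ : ∀ a ∈ V, δ a ∈ V

/-- Stable left ideals. -/
structure Tv (σ : G →ₐ[k] G) (δ : End k G) (U : Submodule k G) : Prop where
  mul : ∀ a ∈ U, ∀ c, c * a ∈ U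
  hσ : ∀ a ∈ U, σ a ∈ U
  hδ : ∀ a ∈ U, δ a ∈ U

theorem tv_top : Tv σ δ ⊤ := ⟨fun _ _ _ => trivial, fun _ _ => trivial, fun _ _ => trivial⟩

theorem Ch.head {U : Submodule k G} {a a' : G} {l : List G} (h : Ch L U e a l)
    (h1 : a ∈ U → a' ∈ U) (h2 : a * e = a → a' * e = a') : Ch L U e a' l := by
  cases l with
  | nil => exact h1 h
  | cons b l => exact ⟨h2 h.1, h.2⟩

theorem Ch.map_eps (hp : Pair σ δ N L) (he : Cl σ δ L e) {l : List G} :
    ∀ {a : G}, Ch L ⊤ e a l → Ch L ⊤ e (eps σ a) (l.map (eps σ)) := by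
  induction l with
  | nil => exact fun _ => trivial
  | cons b l ih =>
    exact fun h => ⟨eps_r he h.1, eps_l he h.2.1, eps_mem hp.σL h.2.2.1, ih h.2.2.2⟩

theorem hv_eL (hd : DG σ δ) (hp : Pair σ δ N L) (he : Cl σ δ L e) :
    Hv σ δ L (L ⊓ fx (LinearMap.mulLeft k e)) :=
  ⟨fun a ha c hc => ⟨hp.LL a ha.1 c hc, by
      change e * (a * c) = a * c
      rw [← mul_assoc, show e * a = a from ha.2]⟩,
    fun a ha => ⟨hp.σL a ha.1, by
      change e * σ a = σ a
      rw [← σ_l he, show e * a = a from ha.2]⟩,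
    fun a ha => ⟨hp.δL a ha.1, by
      change e * δ a = δ a
      rw [← δ_l hd he, show e * a = a from ha.2]⟩⟩

theorem cons_TT {V U : Submodule k G} {a : G} (ha : a ∈ V) (h : a * e = a) {W : WW k B}
    (hW : W ∈ TT β L e (L ⊓ fx (LinearMap.mulLeft k e)) U) : cons β a W ∈ TT β L e V U :=
  span_map (cons β a) _ (by
    rintro _ ⟨b, hb, l, hl, rfl⟩
    exact TT_gen (l := b :: l) ha ⟨h, hb.2, hb.1, hl⟩) hW

theorem DK_TT (hd : DG σ δ) (hc : Calc β σ δ) (hp : Pair σ δ N L) (he : Cl σ δ L e)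
    {V U : Submodule k G} (hV : Hv σ δ L V) (hU : Tv σ δ U) (c : k) {W : WW k B}
    (hW : W ∈ TT β L e V U) : DK β σ δ c W ∈ TT β L e V U := by
  have key : ∀ (l : List G) (V : Submodule k G), Hv σ δ L V → ∀ a ∈ V, Ch L U e a l →
      bp β (ww β (a :: l)) ∈ TT β L e V U ∧ dW β σ δ (ww β (a :: l)) ∈ TT β L e V U := by
    intro l
    induction l with
    | nil =>
      intro V hV a ha h
      rw [ww_cons, bp_one, hc.dW_cons, hc.dW_nil, map_zero, add_zero]
      exact ⟨Submodule.zero_mem _, TT_gen (l := []) (hV.hδ a ha) (hU.hδ a h)⟩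
    | cons b l ih =>
      intro V hV a ha h
      obtain ⟨i1, i2⟩ := ih _ (hv_eL hd hp he) b ⟨h.2.2.1, h.2.1⟩ h.2.2.2
      rw [ww_cons, bp_cons, hc.dW_cons]
      refine ⟨Submodule.sub_mem _ ?_ (cons_TT ha h.1 i1), Submodule.add_mem _
        (TT_gen (hV.hδ a ha) (h.head (hU.hδ a) fun h => by rw [← δ_r hd he, h]))
        (cons_TT (eps_mem hV.hσ ha) (eps_r he h.1) i2)⟩
      rw [ww_cons, d0_cons_cons]
      exact TT_gen (hV.mul a ha b h.2.2.1)
        (h.2.2.2.head (fun h => hU.mul b h a) fun h => by rw [mul_assoc, h])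
  refine span_map _ _ ?_ hW
  rintro _ ⟨a, ha, l, h, rfl⟩
  obtain ⟨i1, i2⟩ := key l V hV a ha h
  rw [DK, LinearMap.add_apply, LinearMap.smul_apply, End.mul_apply, hc.om_dW, om_ww, map_smul]
  exact Submodule.add_mem _ i1 (Submodule.smul_mem _ _ (Submodule.smul_mem _ _ i2))

open Classical in
/-- The part behind the longest initial chain. -/
noncomputable def rest (e : G) : G → List G → List G
  | _, [] => []
  | a, b :: l => if a * e = a ∧ e * b = b then rest e b l else b :: l

open Classical in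
/-- The longest initial chain. -/
noncomputable def seg (e : G) : G → List G → List G
  | _, [] => []
  | a, b :: l => if a * e = a ∧ e * b = b then b :: seg e b l else []

open Classical in
/-- The cost of a list. -/
noncomputable def cost (σ : G →ₐ[k] G) (l : List G) : ℕ :=
  (l.map fun a => if σ a = 0 then 1 else 2).sum

open Classical in
theorem cost_cons (a : G) (l : List G) :
    cost σ (a :: l) = (if σ a = 0 then 1 else 2) + cost σ l := by simp [cost]

theorem cost_append (l l' : List G) : cost σ (l ++ l') = cost σ l + cost σ l' := by simp [cost]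

theorem cost_nil : cost σ [] = 0 := rfl

theorem cost_pos (a : G) : 0 < cost σ [a] := by
  rw [cost_cons]; split_ifs <;> omega

theorem cost_eps (hd : DG σ δ) (l : List G) : cost σ (l.map (eps σ)) = cost σ l := by
  induction l with
  | nil => rfl
  | cons a l ih =>
    rw [List.map_cons, cost_cons, cost_cons, ih, eps_apply, map_sub, map_sub, hd.split.idem,
      sub_self, sub_zero]

theorem seg_rest (l : List G) : ∀ a, seg e a l ++ rest e a l = l := by
  induction l with
  | nil => exact fun _ => rfl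
  | cons b l ih =>
    intro a
    rw [seg, rest]
    split_ifs
    · rw [List.cons_append, ih]
    · rfl

theorem ch_seg (l : List G) : ∀ a, (∀ c ∈ l, c ∈ L) → Ch L ⊤ e a (seg e a l) := by
  induction l with
  | nil => exact fun _ _ => trivial
  | cons b l ih =>
    intro a h
    rw [seg]
    split_ifs with h1
    · exact ⟨h1.1, h1.2, h b (by simp), ih b fun c hc => h c (by simp [hc])⟩
    · trivial

theorem cost_rest (l : List G) : ∀ a, cost σ (rest e a l) ≤ cost σ l := fun a => by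
  conv_rhs => rw [← seg_rest (e := e) l a, cost_append]
  omega

theorem cost_rel (hσ : Adp β σ.toLinearMap) {l' l : List G} (h : List.Forall₂ (Rel β) l' l) :
    cost σ l' ≤ cost σ l := by
  induction h with
  | nil => exact le_rfl
  | @cons b a _ _ h1 _ ih =>
    rw [cost_cons, cost_cons]
    have : σ a = 0 → σ b = 0 := (h1.2 _ hσ).2
    split_ifs with h2 h3 h3
    · omega
    · omega
    · exact absurd (this h3) h2
    · omega

theorem cost_rest_rel (hσ : Adp β σ.toLinearMap) (hl : Adp β (LinearMap.mulLeft k e))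
    (hr : Adp β (LinearMap.mulRight k e)) {r : List G} (u : List G) :
    ∀ (a a' : G) (w : List G), Rel β a' a → Ch L ⊤ e a u → List.Forall₂ (Rel β) w (u ++ r) →
      cost σ (rest e a' w) ≤ cost σ r := by
  induction u with
  | nil => exact fun a a' w _ _ h => (cost_rest w a').trans (cost_rel hσ h)
  | cons b u ih =>
    intro a a' w h1 h2 h3
    cases h3 with
    | cons h3 h4 =>
      rw [rest, if_pos ⟨(h1.2 _ hr).1 h2.1, (h3.2 _ hl).1 h2.2.1⟩]
      exact ih _ _ _ h3 h2.2.2.2 h4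

theorem rel_all {P : G → Prop} {l' l : List G} (h : List.Forall₂ (Rel β) l' l)
    (hP : ∀ b a, Rel β b a → a ∈ l → P b) : ∀ c ∈ l', P c := by
  induction h with
  | nil => simp
  | cons h1 _ ih =>
    intro c hc
    rcases List.mem_cons.1 hc with rfl | hc
    · exact hP _ _ h1 (by simp)
    · exact ih (fun b a h2 h3 => hP b a h2 (by simp [h3])) c hc

theorem Ch.rel {U : Submodule k G} (hl : Adp β (LinearMap.mulLeft k e))
    (hr : Adp β (LinearMap.mulRight k e)) (hL : ∀ b a, Rel β b a → a ∈ L → b ∈ L)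
    (hU : ∀ b a, Rel β b a → a ∈ U → b ∈ U) {u' u : List G} (h : List.Forall₂ (Rel β) u' u) :
    ∀ a' a, Rel β a' a → Ch L U e a u → Ch L U e a' u' := by
  induction h with
  | nil => exact fun a' a h1 h2 => hU _ _ h1 h2
  | cons h3 _ ih =>
    exact fun a' a h1 h2 => ⟨(h1.2 _ hr).1 h2.1, (h3.2 _ hl).1 h2.2.1, hL _ _ h3 h2.2.2.1,
      ih _ _ h3 h2.2.2.2⟩

/-- Append a list. -/
noncomputable def app (β : Basis B k G) : List G → End k (WW k B)
  | [] => 1
  | b :: r => app β r * snoc β b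

theorem app_ww (r : List G) : ∀ l, app β r (ww β l) = ww β (l ++ r) := by
  induction r with
  | nil => intro l; rw [List.append_nil]; rfl
  | cons b r ih => intro l; rw [app, End.mul_apply, ← ww_concat, ih]; simp

theorem app_concat (r : List G) (b : G) (W : WW k B) :
    app β (r ++ [b]) W = snoc β b (app β r W) :=
  ww_ext β (f := app β (r ++ [b])) (g := snoc β b ∘ₗ app β r) (fun l => by
    rw [LinearMap.comp_apply, app_ww, app_ww, ← ww_concat, List.append_assoc]) W

theorem om_app (r : List G) (W : WW k B) :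
    om (app β r W) = (-1 : k) ^ r.length • app β r (om W) :=
  ww_ext β (f := om ∘ₗ app β r) (g := (-1 : k) ^ r.length • (app β r ∘ₗ om)) (fun l => by
    rw [LinearMap.comp_apply, LinearMap.smul_apply, LinearMap.comp_apply, app_ww, om_ww, om_ww,
      map_smul, app_ww, smul_smul, List.length_append, pow_add, mul_comm]) W

/-- The filtration. -/
noncomputable def GG (β : Basis B k G) (σ : G →ₐ[k] G) (N L : Submodule k G) (e : G) (m : ℕ) :
    Submodule k (WW k B) :=
  Submodule.span k {W | ∃ a ∈ N, ∃ u r, Ch L ⊤ e a u ∧ (∀ c ∈ r, c ∈ L) ∧ cost σ r < m ∧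
    W = ww β (a :: (u ++ r))}

theorem GG_gen {m : ℕ} {a : G} {u r : List G} (ha : a ∈ N) (h : Ch L ⊤ e a u)
    (hr : ∀ c ∈ r, c ∈ L) (hm : cost σ r < m) : ww β (a :: (u ++ r)) ∈ GG β σ N L e m :=
  Submodule.subset_span ⟨a, ha, u, r, h, hr, hm, rfl⟩

theorem GG_mono {m m' : ℕ} (h : m ≤ m') : GG β σ N L e m ≤ GG β σ N L e m' :=
  Submodule.span_mono fun _ ⟨a, ha, u, r, h1, h2, h3, h4⟩ => ⟨a, ha, u, r, h1, h2, by omega, h4⟩

theorem GG_le (m : ℕ) : GG β σ N L e m ≤ XW β N L :=
  Submodule.span_mono fun _ ⟨a, ha, u, r, h1, h2, _, h4⟩ => ⟨a, ha, u ++ r, fun c hc =>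
    (List.mem_append.1 hc).elim (h1.mem c) (h2 c), h4⟩

theorem mem_concat {r : List G} {b : G} (hr : ∀ c ∈ r, c ∈ L) (hb : b ∈ L) :
    ∀ c ∈ r ++ [b], c ∈ L := fun c hc =>
  (List.mem_append.1 hc).elim (hr c) fun h => List.mem_singleton.1 h ▸ hb

theorem snoc_GG {m : ℕ} {b : G} (hb : b ∈ L) {W : WW k B} (hW : W ∈ GG β σ N L e m) :
    snoc β b W ∈ GG β σ N L e (m + cost σ [b]) :=
  span_map (snoc β b) _ (by
    rintro _ ⟨a, ha, u, r, h1, h2, h3, rfl⟩
    rw [← ww_concat, List.cons_append, List.append_assoc]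
    exact GG_gen ha h1 (mem_concat h2 hb) (by rw [cost_append]; omega)) hW

theorem om_GG {m : ℕ} {W : WW k B} (hW : W ∈ GG β σ N L e m) : om W ∈ GG β σ N L e m :=
  span_map om _ (fun x hx => by
    have := Submodule.subset_span (R := k) hx
    obtain ⟨a, -, u, r, -, -, -, rfl⟩ := hx
    rw [om_ww]; exact Submodule.smul_mem _ _ this) hW

theorem app_GG {m : ℕ} {r : List G} (hr : ∀ c ∈ r, c ∈ L) (hm : cost σ r < m) {W : WW k B}
    (hW : W ∈ TT β L e N ⊤) : app β r W ∈ GG β σ N L e m :=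
  span_map (app β r) _ (by
    rintro _ ⟨a, ha, u, h, rfl⟩
    rw [app_ww]; exact GG_gen ha h hr hm) hW

theorem E_ww (hc : Calc β σ δ) (l : List G) :
    wm β β (eps σ) (ww β l) = ww β (l.map (eps σ)) := by
  induction l with
  | nil => exact hc.E_nil
  | cons a l ih => rw [ww_cons, hc.E_cons, ih]; rfl

theorem est_bp (hp : Pair σ δ N L) {a : G} {u : List G} (ha : a ∈ N) (h : Ch L ⊤ e a u)
    (r : List G) (hr : ∀ c ∈ r, c ∈ L) :
    bp β (ww β (a :: (u ++ r))) - app β r (bp β (ww β (a :: u))) ∈ GG β σ N L e (cost σ r) := by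
  induction r using List.reverseRecOn with
  | nil => rw [List.append_nil]; change _ - bp β _ ∈ _; rw [sub_self]; exact Submodule.zero_mem _
  | append_singleton r b ih =>
    have hb : b ∈ L := hr b (by simp)
    have hr' : ∀ c ∈ r, c ∈ L := fun c hc => hr c (by simp [hc])
    have h1 := snoc_GG hb (ih hr')
    have key : ∀ l c, a :: (u ++ r) = l ++ [c] →
        ww β (l ++ [c * b]) ∈ GG β σ N L e (cost σ (r ++ [b])) →
        bp β (ww β (a :: (u ++ (r ++ [b])))) - app β (r ++ [b]) (bp β (ww β (a :: u))) ∈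
          GG β σ N L e (cost σ (r ++ [b])) := fun l c h2 h3 => by
      rw [← List.append_assoc, ← List.cons_append, ww_concat, h2, ww_concat, bp_snoc_snoc,
        ← ww_concat, ← h2, app_concat, add_sub_right_comm, ← map_sub, om_ww, map_smul,
        ← ww_concat]
      exact Submodule.add_mem _ (by rw [cost_append]; exact h1) (Submodule.smul_mem _ _ h3)
    have hpos := cost_pos (σ := σ) b
    induction r using List.reverseRecOn with
    | nil =>
      induction u using List.reverseRecOn with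
      | nil =>
        exact key [] a rfl (GG_gen (u := []) (r := []) (hp.NL a ha b hb) trivial (by simp) hpos)
      | append_singleton u c _ =>
        obtain ⟨h2, h3, h4, h5⟩ := ch_concat.1 h
        refine key (a :: u) c (by simp) ?_
        have := GG_gen (β := β) (σ := σ) (r := []) ha (ch_concat.2
          ⟨h2, h3, by rw [← mul_assoc, h4], hp.LL c h5 b hb⟩) (by simp) hpos
        simpa using this
    | append_singleton r c _ =>
      refine key (a :: (u ++ r)) c (by simp) ?_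
      rw [List.cons_append, List.append_assoc u r]
      refine GG_gen ha h (mem_concat (fun x hx => hr' x (by simp [hx]))
        (hp.LL c (hr' c (by simp)) b hb)) ?_
      have h2 : σ c = 0 ∨ σ b = 0 → σ (c * b) = 0 := fun h => by
        rw [map_mul]; rcases h with h | h <;> simp [h]
      simp only [cost_append, cost_cons, cost_nil]
      split_ifs with h3 h4 h5 h4 h4 h5 h5 <;>
        first | omega | exact absurd (h2 (by tauto)) h3

theorem est_dW (hd : DG σ δ) (hc : Calc β σ δ) (hp : Pair σ δ N L) (he : Cl σ δ L e)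
    {a : G} {u : List G} (ha : a ∈ N) (h : Ch L ⊤ e a u) (r : List G) (hr : ∀ c ∈ r, c ∈ L) :
    dW β σ δ (ww β (a :: (u ++ r))) - app β r (dW β σ δ (ww β (a :: u))) ∈
      GG β σ N L e (cost σ r) := by
  induction r using List.reverseRecOn with
  | nil =>
    rw [List.append_nil]; change _ - dW β σ δ _ ∈ _; rw [sub_self]; exact Submodule.zero_mem _
  | append_singleton r b ih =>
    have hb : b ∈ L := hr b (by simp)
    have hr' : ∀ c ∈ r, c ∈ L := fun c hc => hr c (by simp [hc])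
    have h1 := snoc_GG hb (ih hr')
    rw [← List.append_assoc, ← List.cons_append, ww_concat, hc.dW_snoc, app_concat,
      add_sub_right_comm, ← map_sub]
    refine Submodule.add_mem _ (by rw [cost_append]; exact h1) ?_
    by_cases h2 : σ b = 0
    · rw [← hd.δσ b, h2, map_zero, map_zero]; exact Submodule.zero_mem _
    · rw [E_ww hc, ← ww_concat, List.map_cons, List.map_append, List.cons_append,
        List.append_assoc]
      refine GG_gen (eps_mem hp.σN ha) (h.map_eps hp he) (mem_concat (fun c hc => ?_)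
        (hp.δL b hb)) ?_
      · obtain ⟨x, hx, rfl⟩ := List.mem_map.1 hc
        exact eps_mem hp.σL (hr' x hx)
      · simp only [cost_append, cost_cons, cost_nil, cost_eps hd, hd.σδ, h2, if_true, if_false]
        omega

theorem last_face (hd : DG σ δ) (hc : Calc β σ δ) (V : Submodule k (WW k B)) (a c : G)
    (l : List G) (h1 : ww β (σ c * a :: l) ∈ V)
    (h2 : ww β ((c - σ c) * eps σ a :: l.map (eps σ)) ∈ V) :
    d0 β (TS β σ (ww β (a :: (l ++ [c])))) ∈ V := by
  rw [← List.cons_append, ww_concat]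
  have : snoc β c (ww β (a :: l)) =
      snoc β (σ c) (ww β (a :: l)) + snoc β (c - σ c) (ww β (a :: l)) := by
    rw [← LinearMap.add_apply, ← map_add, add_sub_cancel]
  rw [this, map_add, hc.TS_L _ _ (hd.split.idem c), hc.TS_M _ _ (hd.split.sub c), E_ww hc, om_ww,
    om_ww, map_smul, map_smul, map_add, map_smul, map_smul, List.map_cons, ww_cons, ww_cons,
    d0_cons_cons, d0_cons_cons]
  exact V.add_mem (V.smul_mem _ h1) (V.smul_mem _ h2)

theorem est_TS (hd : DG σ δ) (hc : Calc β σ δ) (hp : Pair σ δ N L) (he : Cl σ δ L e)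
    {a : G} {u : List G} (ha : a ∈ N) (h : Ch L ⊤ e a u) (r : List G) (hr : ∀ c ∈ r, c ∈ L) :
    d0 β (TS β σ (ww β (a :: (u ++ r)))) ∈
      GG β σ N L e (cost σ r) ⊔ XW β (cor e N) (cor e L) := by
  induction r using List.reverseRecOn with
  | nil =>
    rw [List.append_nil]
    induction u using List.reverseRecOn with
    | nil =>
      have : ww β [a] = snoc β (σ a) (ww β []) + snoc β (a - σ a) (ww β []) := by
        rw [← LinearMap.add_apply, ← map_add, add_sub_cancel, ← cons_nil]; rfl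
      rw [this, map_add, hc.TS_L _ _ (hd.split.idem a), hc.TS_M _ _ (hd.split.sub a), hc.E_nil,
        om_ww, map_smul, map_smul, map_add, map_smul, map_smul, d0_ww_one, d0_ww_one]
      simp
    | append_singleton u c _ =>
      obtain ⟨h2, h3, h4, h5⟩ := ch_concat.1 h
      have h6 : e * σ c = σ c := by rw [← σ_l he, h4]
      refine Submodule.mem_sup_right (last_face hd hc _ a c u
        (Submodule.subset_span ⟨_, ⟨⟨hp.LN _ (hp.σL c h5) a ha, ?_⟩, ?_⟩, u, h3, rfl⟩)
        (Submodule.subset_span ⟨_, ⟨⟨hp.LN _ (L.sub_mem h5 (hp.σL c h5)) _ (eps_mem hp.σN ha),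
          ?_⟩, ?_⟩, _, fun x hx => ?_, rfl⟩))
      · change e * (σ c * a) = σ c * a
        rw [← mul_assoc, h6]
      · change σ c * a * e = σ c * a
        rw [mul_assoc, h2]
      · change e * ((c - σ c) * eps σ a) = (c - σ c) * eps σ a
        rw [← mul_assoc, mul_sub, h4, h6]
      · change (c - σ c) * eps σ a * e = (c - σ c) * eps σ a
        rw [mul_assoc, eps_r he h2]
      · obtain ⟨x, hx', rfl⟩ := List.mem_map.1 hx
        exact ⟨⟨eps_mem hp.σL (h3 x hx').1.1, eps_l he (h3 x hx').1.2⟩, eps_r he (h3 x hx').2⟩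
  | append_singleton r c _ =>
    have h5 : c ∈ L := hr c (by simp)
    have hr' : ∀ x ∈ r, x ∈ L := fun x hx => hr x (by simp [hx])
    have hpos := cost_pos (σ := σ) c
    rw [← List.append_assoc]
    refine Submodule.mem_sup_left (last_face hd hc _ a c _
      (GG_gen (hp.LN _ (hp.σL c h5) a ha) (h.head id fun h => by rw [mul_assoc, h]) hr'
        (by rw [cost_append]; omega)) ?_)
    rw [List.map_append]
    refine GG_gen (hp.LN _ (L.sub_mem h5 (hp.σL c h5)) _ (eps_mem hp.σN ha))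
      ((h.map_eps hp he).head id fun h => by rw [mul_assoc, h]) (fun x hx => ?_)
      (by rw [cost_append, cost_eps hd]; omega)
    obtain ⟨x, hx', rfl⟩ := List.mem_map.1 hx
    exact eps_mem hp.σL (hr' x hx')

theorem est (hd : DG σ δ) (hc : Calc β σ δ) (hp : Pair σ δ N L) (he : Cl σ δ L e)
    (r : List G) (hr : ∀ c ∈ r, c ∈ L) {W : WW k B} (hW : W ∈ TT β L e N ⊤) :
    DD β σ δ (app β r W) - app β r (DK β σ δ ((-1) ^ r.length) W) ∈
      GG β σ N L e (cost σ r) ⊔ XW β (cor e N) (cor e L) := by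
  refine span_map (DD β σ δ * app β r - app β r * DK β σ δ ((-1) ^ r.length)) _ ?_ hW
  rintro _ ⟨a, ha, u, h, rfl⟩
  have h1 := est_bp (β := β) hp ha h r hr
  have h2 := om_GG (est_dW hd hc hp he ha h r hr)
  have h3 := est_TS hd hc hp he ha h r hr
  rw [map_sub, om_app] at h2
  have := Submodule.add_mem _ (Submodule.mem_sup_left (Submodule.add_mem _ h1 h2)) h3
  refine (congrArg (· ∈ _) ?_).mp this
  simp only [DD, DK, bT, LinearMap.sub_apply, End.mul_apply, LinearMap.add_apply,
    LinearMap.smul_apply, app_ww, map_add, map_smul, List.cons_append]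
  abel

theorem split_eq {U : Submodule k G} {r : List G} (u : List G) : ∀ a, Ch L U e a u →
    (∀ x ∈ a :: u, x ∈ U → ∀ b r', r = b :: r' → ¬ (x * e = x ∧ e * b = b)) →
    seg e a (u ++ r) = u ∧ rest e a (u ++ r) = r := by
  induction u with
  | nil =>
    intro a h h1
    cases r with
    | nil => exact ⟨rfl, rfl⟩
    | cons b r =>
      have := h1 a (by simp) h b r rfl
      rw [List.nil_append, seg, rest, if_neg this, if_neg this]
      exact ⟨rfl, rfl⟩
  | cons c u ih =>
    intro a h h1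
    obtain ⟨i1, i2⟩ := ih c h.2.2.2 fun x hx => h1 x (List.mem_cons_of_mem _ hx)
    rw [List.cons_append, seg, rest, if_pos ⟨h.1, h.2.1⟩, if_pos ⟨h.1, h.2.1⟩, i1, i2]
    exact ⟨rfl, rfl⟩

theorem Ch.exists_mem {U : Submodule k G} {u : List G} :
    ∀ {a : G}, Ch L U e a u → ∃ x ∈ a :: u, x ∈ U := by
  induction u with
  | nil => exact fun h => ⟨_, by simp, h⟩
  | cons c u ih =>
    intro a h
    obtain ⟨x, hx, h1⟩ := ih h.2.2.2
    exact ⟨x, List.mem_cons_of_mem _ hx, h1⟩

theorem types (hl : Adp β (LinearMap.mulLeft k e)) (hr : Adp β (LinearMap.mulRight k e))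
    (l : List G) : ∀ a, (∀ c ∈ a :: l, ∃ x, β x = c) → (∀ c ∈ l, c ∈ L) →
      Ch L (LinearMap.ker (LinearMap.mulRight k e)) e a (seg e a l) ∨
      (∃ b r', rest e a l = b :: r' ∧ e * b = 0) ∨
      (rest e a l = [] ∧ a * e = a ∧ ∀ c ∈ l, c ∈ cor e L) := by
  induction l with
  | nil =>
    intro a h _
    obtain ⟨x, rfl⟩ := h a (by simp)
    exact (hr x).elim (fun h => Or.inr (Or.inr ⟨rfl, h, by simp⟩)) Or.inl
  | cons b l ih =>
    intro a h hL
    rw [seg, rest]
    split_ifs with h1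
    · rcases ih b (fun c hc => h c (List.mem_cons_of_mem _ hc))
        (fun c hc => hL c (List.mem_cons_of_mem _ hc)) with h2 | h2 | ⟨h2, h3, h4⟩
      · exact Or.inl ⟨h1.1, h1.2, hL b (by simp), h2⟩
      · exact Or.inr (Or.inl h2)
      · exact Or.inr (Or.inr ⟨h2, h1.1, List.forall_mem_cons.2
          ⟨⟨⟨hL b (by simp), h1.2⟩, h3⟩, h4⟩⟩)
    · obtain ⟨x, rfl⟩ := h a (by simp)
      obtain ⟨y, rfl⟩ := h b (by simp)
      rcases hr x with h2 | h2
      · exact Or.inr (Or.inl ⟨_, _, rfl, (hl y).resolve_left fun h3 => h1 ⟨h2, h3⟩⟩)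
      · exact Or.inl h2

open Classical in
/-- The homotopy on lists. -/
noncomputable def Hl (β : Basis B k G) (N L : Submodule k G) (e : G) (s : ℕ → End k (WW k B)) :
    List G → WW k B
  | [] => 0
  | a :: l => if a ∈ cor e N ∧ ∀ c ∈ l, c ∈ cor e L then 0 else
      app β (rest e a l) (s (rest e a l).length (ww β (a :: seg e a l)))

/-- The homotopy. -/
noncomputable def HH (β : Basis B k G) (N L : Submodule k G) (e : G) (s : ℕ → End k (WW k B)) :
    End k (WW k B) := mk fun p => Hl β N L e s (p.2.map β)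

theorem HH_ww (s : ℕ → End k (WW k B)) {l : List G} (h : ∀ c ∈ l, ∃ x, β x = c) :
    HH β N L e s (ww β l) = Hl β N L e s l := by
  obtain ⟨w, rfl⟩ : ∃ w : List B, l = w.map β := by
    induction l with
    | nil => exact ⟨[], rfl⟩
    | cons a l ih =>
      obtain ⟨w, rfl⟩ := ih fun c hc => h c (List.mem_cons_of_mem _ hc)
      obtain ⟨x, rfl⟩ := h a (by simp)
      exact ⟨x :: w, rfl⟩
  rw [← ee_eq_ww β 0, HH, mk_ee]

theorem pair_cor (hd : DG σ δ) (hp : Pair σ δ N L) (he : Cl σ δ L e) :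
    Pair σ δ (cor e N) (cor e L) := by
  have m1 : ∀ a c : G, e * a = a → e * (a * c) = a * c := fun a c h => by rw [← mul_assoc, h]
  have m2 : ∀ a c : G, c * e = c → a * c * e = a * c := fun a c h => by rw [mul_assoc, h]
  have s1 : ∀ a : G, e * a = a → e * σ a = σ a := fun a h => by rw [← σ_l he, h]
  have s2 : ∀ a : G, a * e = a → σ a * e = σ a := fun a h => by rw [← σ_r he, h]
  have d1 : ∀ a : G, e * a = a → e * δ a = δ a := fun a h => by rw [← δ_l hd he, h]
  have d2 : ∀ a : G, a * e = a → δ a * e = δ a := fun a h => by rw [← δ_r hd he, h]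
  exact ⟨fun a ha c hc => ⟨⟨hp.LL a ha.1.1 c hc.1.1, m1 a c ha.1.2⟩, m2 a c hc.2⟩,
    fun a ha c hc => ⟨⟨hp.LN a ha.1.1 c hc.1.1, m1 a c ha.1.2⟩, m2 a c hc.2⟩,
    fun a ha c hc => ⟨⟨hp.NL a ha.1.1 c hc.1.1, m1 a c ha.1.2⟩, m2 a c hc.2⟩,
    fun a ha => ⟨⟨hp.σL a ha.1.1, s1 a ha.1.2⟩, s2 a ha.2⟩,
    fun a ha => ⟨⟨hp.σN a ha.1.1, s1 a ha.1.2⟩, s2 a ha.2⟩,
    fun a ha => ⟨⟨hp.δL a ha.1.1, d1 a ha.1.2⟩, d2 a ha.2⟩,
    fun a ha => ⟨⟨hp.δN a ha.1.1, d1 a ha.1.2⟩, d2 a ha.2⟩⟩

end Genx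

open Genx in
theorem sGen : SGen := by
  intro k G B _ _ _ β σ δ p q e hd hc hp he hl hr hσ ap aq hE
  set N := fx q
  set L := fx p
  set X' := XW β (cor e N) (cor e L) with hX'
  have rN : ∀ b a, Rel β b a → a ∈ N → b ∈ N := fun b a h => (h.2 _ aq).1
  have rL : ∀ b a, Rel β b a → a ∈ L → b ∈ L := fun b a h => (h.2 _ ap).1
  have hvN : Hv σ δ L N := ⟨hp.NL, hp.σN, hp.δN⟩
  choose s hs using fun n : ℕ => contr (DK β σ δ ((-1) ^ n)) (TT β L e N ⊤) (hc.DK_DK _)
    (fun z hz => DK_TT hd hc hp he hvN tv_top _ hz)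
    (KW_eq (β := β) (N := N) (L := L) (e := e) ▸ hE _ (neg_one_pow_eq_or k n))
  have ne0 : ∀ c : G, (∃ x, β x = c) → c ≠ 0 := by rintro _ ⟨x, rfl⟩; exact β.ne_zero x
  -- reduction to basis words
  have X'map : ∀ (φ : End k (WW k B)) (V : Submodule k (WW k B)),
      (∀ a l, (∀ c ∈ a :: l, ∃ x, β x = c) → a ∈ cor e N → (∀ c ∈ l, c ∈ cor e L) →
        φ (ww β (a :: l)) ∈ V) → ∀ z ∈ X', φ z ∈ V := fun φ V h z hz => by
    refine span_map φ V ?_ hz
    rintro _ ⟨a, ha, l, h1, rfl⟩
    refine ww_span V _ φ fun l' hl' => ?_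
    have hb := rel_all hl' fun b _ h _ => h.1
    cases hl' with
    | cons h2 h3 =>
      exact h _ _ hb ⟨⟨rN _ _ h2 ha.1.1, (h2.2 _ hl).1 ha.1.2⟩, (h2.2 _ hr).1 ha.2⟩
        (rel_all h3 fun b c h4 h5 => ⟨⟨rL _ _ h4 (h1 c h5).1.1, (h4.2 _ hl).1 (h1 c h5).1.2⟩,
          (h4.2 _ hr).1 (h1 c h5).2⟩)
  have Gmap : ∀ (m : ℕ) (φ : End k (WW k B)) (V : Submodule k (WW k B)),
      (∀ a l, (∀ c ∈ a :: l, ∃ x, β x = c) → a ∈ N → (∀ c ∈ l, c ∈ L) →
        cost σ (rest e a l) < m → φ (ww β (a :: l)) ∈ V) →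
      ∀ z ∈ GG β σ N L e m, φ z ∈ V := fun m φ V h z hz => by
    refine span_map φ V ?_ hz
    rintro _ ⟨a, ha, u, r, h1, h2, h3, rfl⟩
    refine ww_span V _ φ fun l' hl' => ?_
    have hb := rel_all hl' fun b _ h _ => h.1
    cases hl' with
    | cons h4 h5 =>
      exact h _ _ hb (rN _ _ h4 ha) (rel_all h5 fun b c h6 h7 => rL _ _ h6
        ((List.mem_append.1 h7).elim (h1.mem c) (h2 c)))
        ((cost_rest_rel hσ hl hr u _ _ _ h4 h1 h5).trans_lt h3)
  have restL : ∀ a l, (∀ c ∈ l, c ∈ L) → ∀ c ∈ rest e a l, c ∈ L := fun a l h c hc =>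
    h c (by rw [← seg_rest (e := e) l a]; exact List.mem_append_right _ hc)
  have H0 : ∀ z ∈ X', HH β N L e s z = 0 := fun z hz =>
    (Submodule.mem_bot k).1 (X'map _ ⊥ (fun a l h1 h2 h3 => by
      rw [HH_ww s h1, Hl, if_pos ⟨h2, h3⟩]; exact Submodule.zero_mem _) z hz)
  have HG : ∀ m, ∀ z ∈ GG β σ N L e m ⊔ X', HH β N L e s z ∈ GG β σ N L e m := fun m z hz => by
    obtain ⟨y, hy, x, hx, rfl⟩ := Submodule.mem_sup.1 hz
    rw [map_add, H0 x hx, add_zero]
    refine Gmap m _ _ (fun a l h1 h2 h3 h4 => ?_) y hy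
    rw [HH_ww s h1, Hl]
    split_ifs
    · exact Submodule.zero_mem _
    · exact app_GG (restL a l h3) h4 (hs _ _ (TT_gen h2 (ch_seg l a h3))).1
  have DX : ∀ z ∈ X', DD β σ δ z ∈ X' := hc.DD_mem _ _ (pair_cor hd hp he)
  -- the homotopy on typed chains
  have Happ : ∀ (V U : Submodule k G) (r : List G), (∀ c ∈ r, ∃ x, β x = c) →
      (∀ b a, Rel β b a → a ∈ V → b ∈ V) → (∀ b a, Rel β b a → a ∈ U → b ∈ U) →
      (∀ x ∈ U, x ≠ 0 → ∀ b r', r = b :: r' → ¬ (x * e = x ∧ e * b = b)) →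
      (∀ a ∈ V, a ≠ 0 → ∀ x ∈ U, x ≠ 0 → e * a = a → x * e = x → ¬ ∀ c ∈ r, e * c = c) →
      ∀ z ∈ TT β L e V U, HH β N L e s (app β r z) = app β r (s r.length z) := by
    intro V U r b1 b2 b3 b4 b5 z hz
    refine sub_eq_zero.1 ((Submodule.mem_bot k).1
      (span_map (HH β N L e s * app β r - app β r * s r.length) ⊥ ?_ hz))
    rintro _ ⟨a, ha, u, h, rfl⟩
    refine ww_span ⊥ _ _ fun l' hl' => ?_
    have hb := rel_all hl' fun b _ h _ => h.1
    cases hl' with
    | @cons a' _ u' _ h2 h3 =>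
      have h4 := Ch.rel hl hr rL b3 h3 _ _ h2 h
      obtain ⟨i1, i2⟩ := split_eq (r := r) u' a' h4 fun x hx hU => b4 x hU (ne0 x (hb x hx))
      obtain ⟨x, hx, hxU⟩ := h4.exists_mem
      rw [Submodule.mem_bot, LinearMap.sub_apply, End.mul_apply, End.mul_apply, app_ww,
        HH_ww s fun c hc => (List.mem_append.1 hc).elim (hb c) (b1 c), List.cons_append, Hl,
        if_neg, i1, i2, sub_self]
      rintro ⟨h5, h6⟩
      refine b5 a' (b2 _ _ h2 ha) (ne0 _ (hb _ (by simp))) x hxU (ne0 x (hb x hx)) h5.1.2 ?_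
        fun c hc => (h6 c (List.mem_append_right _ hc)).1.2
      rcases List.mem_cons.1 hx with rfl | hx
      · exact h5.2
      · exact (h6 x (List.mem_append_left _ hx)).2
  have Phi : ∀ m, ∀ z ∈ GG β σ N L e (m + 1) ⊔ X',
      (DD β σ δ * HH β N L e s + HH β N L e s * DD β σ δ - 1) z ∈ GG β σ N L e m ⊔ X' := by
    have hX : ∀ m, ∀ z ∈ X',
        (DD β σ δ * HH β N L e s + HH β N L e s * DD β σ δ - 1) z ∈ GG β σ N L e m ⊔ X' :=
      fun m z hz => by
      simp only [LinearMap.sub_apply, LinearMap.add_apply, End.mul_apply, End.one_apply, H0 z hz,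
        H0 _ (DX z hz), map_zero, add_zero, zero_sub]
      exact Submodule.mem_sup_right (Submodule.neg_mem _ hz)
    intro m z hz
    obtain ⟨y, hy, x, hx, rfl⟩ := Submodule.mem_sup.1 hz
    rw [map_add]
    refine Submodule.add_mem _ (Gmap _ _ _ (fun a l h1 h2 h3 h4 => ?_) y hy) (hX m x hx)
    by_cases hcy : a ∈ cor e N ∧ ∀ c ∈ l, c ∈ cor e L
    · exact hX m _ (Submodule.subset_span ⟨a, hcy.1, l, hcy.2, rfl⟩)
    have hw : ww β (a :: l) = app β (rest e a l) (ww β (a :: seg e a l)) := by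
      rw [app_ww, List.cons_append, seg_rest]
    have hy0 := TT_gen (β := β) h2 (ch_seg (e := e) l a h3)
    have rb : ∀ c ∈ rest e a l, ∃ x, β x = c := fun c hc => h1 c (List.mem_cons_of_mem _ (by
      rw [← seg_rest (e := e) l a]; exact List.mem_append_right _ hc))
    have hA : HH β N L e s (app β (rest e a l)
        (DK β σ δ ((-1) ^ (rest e a l).length) (ww β (a :: seg e a l)))) =
        app β (rest e a l) (s (rest e a l).length
          (DK β σ δ ((-1) ^ (rest e a l).length) (ww β (a :: seg e a l)))) := by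
      rcases types (L := L) hl hr l a h1 h3 with h5 | ⟨b, r', h5, h6⟩ | ⟨h5, h6, h7⟩
      · refine Happ N _ _ rb rN (fun b a h => (h.2 _ hr).2) (fun x hx h0 b r' _ h => h0 ?_)
          (fun _ _ _ x hx h0 _ h _ => h0 ?_) _ (DK_TT hd hc hp he hvN ⟨fun a ha c => ?_,
            fun a ha => ?_, fun a ha => ?_⟩ _ (TT_gen h2 h5))
        · exact h.1.symm.trans hx
        · exact h.symm.trans hx
        · change c * a * e = 0
          rw [mul_assoc, show a * e = 0 from ha, mul_zero]
        · change σ a * e = 0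
          rw [← σ_r he, show a * e = 0 from ha, map_zero]
        · change δ a * e = 0
          rw [← δ_r hd he, show a * e = 0 from ha, map_zero]
      · have hb0 := ne0 b (rb b (by rw [h5]; simp))
        refine Happ N ⊤ _ rb rN (fun _ _ _ _ => trivial) (fun x _ _ b' r'' h7 h => hb0 ?_)
          (fun _ _ _ _ _ _ _ _ h => hb0 ?_) _ (DK_TT hd hc hp he hvN tv_top _ hy0)
        · rw [h5] at h7
          obtain ⟨rfl, -⟩ := List.cons.inj h7
          exact h.2.symm.trans h6
        · exact (h b (by rw [h5]; simp)).symm.trans h6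
      · have ha0 : e * a = 0 := by
          obtain ⟨x, rfl⟩ := h1 a (by simp)
          exact (hl x).resolve_left fun h => hcy ⟨⟨⟨h2, h⟩, h6⟩, h7⟩
        refine Happ (N ⊓ LinearMap.ker (LinearMap.mulLeft k e)) ⊤ _ rb
          (fun b a h h' => ⟨rN _ _ h h'.1, (h.2 _ hl).2 h'.2⟩) (fun _ _ _ _ => trivial)
          (fun x _ _ b' r'' h8 => by rw [h5] at h8; cases h8)
          (fun a ha h0 _ _ _ h _ _ => h0 (h.symm.trans ha.2)) _
          (DK_TT (V := N ⊓ LinearMap.ker (LinearMap.mulLeft k e)) hd hc hp he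
            ⟨fun a ha c hc => ⟨hp.NL a ha.1 c hc, ?_⟩,
            fun a ha => ⟨hp.σN a ha.1, ?_⟩, fun a ha => ⟨hp.δN a ha.1, ?_⟩⟩ tv_top _
            (TT_gen ⟨h2, ha0⟩ (ch_seg l a h3)))
        · change e * (a * c) = 0
          rw [← mul_assoc, show e * a = 0 from ha.2, zero_mul]
        · change e * σ a = 0
          rw [← σ_l he, show e * a = 0 from ha.2, map_zero]
        · change e * δ a = 0
          rw [← δ_l hd he, show e * a = 0 from ha.2, map_zero]
    have e1 := est hd hc hp he _ (restL a l h3) (hs (rest e a l).length _ hy0).1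
    have e2 := HG _ _ (est hd hc hp he _ (restL a l h3) hy0)
    have e3 := congrArg (app β (rest e a l)) (hs (rest e a l).length _ hy0).2
    rw [map_sub, hA, ← hw] at e2
    rw [map_add, ← hw] at e3
    have := sup_le_sup_right (GG_mono (show cost σ (rest e a l) ≤ m by omega)) X'
      (Submodule.add_mem _ e1 (Submodule.mem_sup_left e2))
    refine (congrArg (· ∈ _) ?_).mp this
    simp only [LinearMap.sub_apply, LinearMap.add_apply, End.mul_apply, End.one_apply]
    rw [HH_ww s h1, Hl, if_neg hcy]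
    conv_rhs => rw [← e3]
    rw [e3, ← e3]
    abel
  have main : ∀ m, ∀ z ∈ GG β σ N L e m ⊔ X', DD β σ δ z ∈ X' →
      ∃ u ∈ XW β N L, z - DD β σ δ u ∈ X' := by
    intro m
    induction m with
    | zero =>
      intro z hz _
      refine ⟨0, Submodule.zero_mem _, ?_⟩
      rw [map_zero, sub_zero]
      refine (sup_le (Submodule.span_le.2 ?_) le_rfl : _ ≤ X') hz
      rintro _ ⟨a, -, u, r, -, -, h, -⟩
      exact absurd h (Nat.not_lt_zero _)
    | succ m ih =>
      intro z hz hD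
      have h1 := Submodule.neg_mem _ (Phi m z hz)
      simp only [LinearMap.sub_apply, LinearMap.add_apply, End.mul_apply, End.one_apply,
        H0 _ hD, add_zero, neg_sub] at h1
      obtain ⟨u, hu, h2⟩ := ih _ h1 (by rw [map_sub, hc.DD_DD, sub_zero]; exact hD)
      exact ⟨HH β N L e s z + u, Submodule.add_mem _ (GG_le _ (HG _ z hz)) hu, by
        rw [map_add, ← sub_sub]; exact h2⟩
  intro z hz hD
  obtain ⟨m, hm⟩ : ∃ m, z ∈ GG β σ N L e m := by
    clear hD
    induction hz using Submodule.span_induction with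
    | mem x hx =>
      obtain ⟨n, hn, l, h, rfl⟩ := hx
      exact ⟨_, GG_gen (u := []) hn trivial h (Nat.lt_succ_self _)⟩
    | zero => exact ⟨0, Submodule.zero_mem _⟩
    | add x y _ _ hx hy =>
      obtain ⟨m, hm⟩ := hx
      obtain ⟨m', hm'⟩ := hy
      exact ⟨max m m', Submodule.add_mem _ (GG_mono (le_max_left _ _) hm)
        (GG_mono (le_max_right _ _) hm')⟩
    | smul c x _ hx => exact hx.imp fun m hm => Submodule.smul_mem _ c hm
  exact main m z (Submodule.mem_sup_left hm) hD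

end Pool.Agent.MP_92f1cb_al.H21T
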