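import Pool.Agent.MP_92f1cb_al.H21T.K

set_option autoImplicit false

namespace Pool.Agent.MP_92f1cb_al.H21T.H56

open Pool.Agent.MP_92f1cb_al.H14 Pool.Agent.MP_92f1cb_al.H14C Module KR

variable {k G B : Type} [Field k] [Ring G] [Algebra k G] {β : Basis B k G}

theorem adp1 {P : End k G} (h : Adp β P) {x : B} (hx : P (β x) = 0) (a : G) :
    β.repr (P a) x = 0 := by
  classical
  induction a using basis_ind' β with
  | hb y =>
    by_cases hy : y = x
    · rw [hy, hx, map_zero, Finsupp.zero_apply]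
    · rcases h y with h | h
      · rw [h, Basis.repr_self, Finsupp.single_apply, if_neg hy]
      · rw [h, map_zero, Finsupp.zero_apply]
  | h0 => simp
  | hadd x y hx hy => rw [map_add, map_add, Finsupp.add_apply, hx, hy, add_zero]
  | hsmul c x hx => rw [map_smul, map_smul, Finsupp.smul_apply, hx, smul_zero]

theorem adp2 {P : End k G} (h : Adp β P) {x : B} (hx : P (β x) = β x) (a : G) :
    β.repr (P a) x = β.repr a x := by
  classical
  induction a using basis_ind' β with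
  | hb y =>
    by_cases hy : y = x
    · rw [hy, hx]
    · rcases h y with h | h
      · rw [h]
      · rw [h, map_zero, Finsupp.zero_apply, Basis.repr_self, Finsupp.single_apply, if_neg hy]
  | h0 => simp
  | hadd x y hx hy => rw [map_add, map_add, map_add, Finsupp.add_apply, Finsupp.add_apply, hx, hy]
  | hsmul c x hx => rw [map_smul, map_smul, map_smul, Finsupp.smul_apply, Finsupp.smul_apply, hx]

theorem adp_fix {P : End k G} (h : Adp β P) {a : G} (ha : P a = a) {x : B}
    (hx : β.repr a x ≠ 0) : P (β x) = β x :=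
  (h x).resolve_right fun h0 => hx (by rw [← ha]; exact adp1 h h0 a)

theorem adp_ker {P : End k G} (h : Adp β P) {a : G} (ha : P a = 0) {x : B}
    (hx : β.repr a x ≠ 0) : P (β x) = 0 :=
  (h x).resolve_left fun h0 => hx (by rw [← adp2 h h0 a, ha, map_zero, Finsupp.zero_apply])

/-- The coordinate of the last letter. -/
noncomputable def st (β : Basis B k G) (x : B) : End k (WW k B) :=
  HdT β ((β.coord x).smulRight (Tl β 1 * om)) * TH k B

theorem st_snoc (x : B) (a : G) (W : WW k B) :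
    st β x (snoc β a W) = β.repr a x • Tl β 1 W := by
  rw [st, End.mul_apply, TH_snoc, HdT_cons, LinearMap.smulRight_apply, LinearMap.smul_apply,
    End.mul_apply, om_om, Basis.coord_apply]

theorem Tl_one_cons (c : G) (W : WW k B) : Tl β 1 (cons β c W) = cons β c W := by
  refine snoc_ext β (f := Tl β 1 * cons β c) (g := cons β c) ?_ (fun a l => ?_) W
  · rw [End.mul_apply, cons_nil, Tl_snoc, mul_one]
  · rw [End.mul_apply, cons_snoc, Tl_snoc, mul_one]

theorem Hd_snoc (φ : End k G) (a : G) (W : WW k B) :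
    Hd β φ (snoc β a (Tl β 1 W)) = snoc β a (Hd β φ W) := by
  refine ww_ext β (f := Hd β φ * snoc β a * Tl β 1) (g := snoc β a * Hd β φ) (fun l => ?_) W
  simp only [End.mul_apply]
  cases l with
  | nil => rw [Tl_nil, Hd_nil, map_zero, map_zero]
  | cons c l => rw [ww_cons, Tl_one_cons, ← cons_snoc, Hd_cons, Hd_cons, cons_snoc]

theorem d0_cons (b : G) (W : WW k B) :
    d0 β (cons β b W) = Hd β (LinearMap.mulLeft k b) W := by
  refine ww_ext β (f := d0 β * cons β b) (fun l => ?_) W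
  rw [End.mul_apply]
  cases l with
  | nil => rw [d0_ww_one, Hd_nil]
  | cons c l => rw [ww_cons, d0_cons_cons, Hd_cons, LinearMap.mulLeft_apply]

theorem bp_snoc (c : G) (W : WW k B) :
    bp β (snoc β c W) = snoc β c (bp β W) - Tl β c (om W) := by
  refine snoc_ext β (f := bp β * snoc β c) (g := snoc β c * bp β - Tl β c * om) ?_
    (fun a l => ?_) W
  · simp only [End.mul_apply, LinearMap.sub_apply]
    rw [bp_snoc_nil, bp_ww_nil, om_ww, map_smul, Tl_nil, map_zero, smul_zero, sub_zero]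
  · simp only [End.mul_apply, LinearMap.sub_apply]
    rw [bp_snoc_snoc, om_snoc, map_neg, Tl_snoc, sub_neg_eq_add]

variable {σ : G →ₐ[k] G} {δ : End k G} {N L : Submodule k G} {e y : G}

/-- The lower terms. -/
noncomputable def Rm (β : Basis B k G) (σ : G →ₐ[k] G) (δ : End k G) (c : k) (a : G) :
    End k (WW k B) := Tl β a * om + c • (snoc β (δ a) * om * wm β β (eps σ))

theorem Rm_apply (c : k) (a : G) (W : WW k B) :
    Rm β σ δ c a W = Tl β a (om W) + c • snoc β (δ a) (om (wm β β (eps σ) W)) := rfl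

theorem DK_snoc (hc : Calc β σ δ) (c : k) (a : G) (W : WW k B) :
    DK β σ δ c (snoc β a W) = snoc β a (DK β σ δ (-c) W) - Rm β σ δ c a W := by
  rw [DK_apply, DK_apply, Rm_apply, bp_snoc, hc.dW_snoc, map_add, om_snoc, om_snoc, map_add,
    map_smul, smul_add, smul_neg, smul_neg, neg_smul]
  abel

theorem last_snoc (hd : DG σ δ) (hc : Calc β σ δ) (a : G) (W : WW k B) :
    d0 β (TS β σ (snoc β a W)) = Hd β (LinearMap.mulLeft k (σ a)) (om W) +
      Hd β (LinearMap.mulLeft k (a - σ a)) (om (wm β β (eps σ) W)) := by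
  have h : snoc β a W = snoc β (σ a) W + snoc β (a - σ a) W := by
    rw [← LinearMap.add_apply, ← map_add, add_sub_cancel]
  rw [h, map_add, hc.TS_L _ _ (hd.split.idem a), hc.TS_M _ _ (hd.split.sub a), map_add, d0_cons,
    d0_cons]

theorem DD_apply (W : WW k B) : DD β σ δ W = DK β σ δ 1 W + d0 β (TS β σ W) := by
  rw [DK_apply, one_smul]
  change bp β W + d0 β (TS β σ W) + om (dW β σ δ W) = _
  abel

theorem δ_one (hd : DG σ δ) : δ 1 = 0 := by
  have := hd.leib 1 1
  rw [mul_one, mul_one, one_mul] at this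
  exact left_eq_add.1 this

theorem E_mem (hc : Calc β σ δ) (hp : Pair σ δ N L) (he : Cl σ δ L e) (hy : σ y = y)
    {W : WW k B} (hW : W ∈ KW β N L e y) : wm β β (eps σ) W ∈ KW β N L e y :=
  KW_map (wm β β (eps σ)) _
    (fun n hn hny => by
      rw [hc.E_snoc, hc.E_nil]; exact one_mem (eps_mem hp.σN hn) (eps_right hy hny))
    (fun n hn hne l hl a ha hea hay => by
      rw [hc.E_snoc]
      exact snoc_mem (eps_mem hp.σL ha) (eps_left he.fix hea) (eps_right hy hay)
        (E_in hc hp he hn hne l hl)) hW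

theorem in_mem {n : G} (hn : n ∈ N) (hne : n * e = n) (l : List G) (hl : ∀ c ∈ l, c ∈ cor e L) :
    ww β (n :: l) ∈ KW β N L e e := by
  induction l using List.reverseRecOn with
  | nil => rw [ww_cons, cons_nil]; exact one_mem hn hne
  | append_singleton l c _ =>
    have h := mem_cor.1 (hl c (by simp))
    rw [← List.cons_append, ww_concat]
    exact gen_mem hn hne (fun x hx => hl x (List.mem_append_left _ hx)) h.1.1 h.1.2 h.2

theorem Hd_mem (hp : Pair σ δ N L) {b : G} (hb : b ∈ L) {W : WW k B} (hW : W ∈ KW β N L e y) :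
    Hd β (LinearMap.mulLeft k b) W ∈ KW β N L e y :=
  KW_map _ _
    (fun n hn hny => by
      rw [← cons_nil, Hd_cons, cons_nil, LinearMap.mulLeft_apply]
      exact one_mem (hp.LN b hb n hn) (by rw [mul_assoc, hny]))
    (fun n hn hne l hl a ha hea hay => by
      rw [ww_cons, ← cons_snoc, Hd_cons, cons_snoc, LinearMap.mulLeft_apply, ← ww_cons]
      exact gen_mem (hp.LN b hb n hn) (by rw [mul_assoc, hne]) hl ha hea hay) hW

theorem Hd_cor (hp : Pair σ δ N L) {b : G} (hb : b ∈ L) (heb : e * b = b) {W : WW k B}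
    (hW : W ∈ KW β N L e e) : Hd β (LinearMap.mulLeft k b) W ∈ XW β (cor e N) (cor e L) :=
  KW_map _ _
    (fun n hn hne => by
      rw [← cons_nil, Hd_cons, LinearMap.mulLeft_apply]
      exact Submodule.subset_span ⟨b * n, mem_cor.2 ⟨⟨hp.LN b hb n hn, by rw [← mul_assoc, heb]⟩,
        by rw [mul_assoc, hne]⟩, [], fun _ h => absurd h List.not_mem_nil, rfl⟩)
    (fun n hn hne l hl a ha hea hae => by
      rw [← ww_concat, List.cons_append, ww_cons, Hd_cons, LinearMap.mulLeft_apply]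
      refine Submodule.subset_span ⟨b * n, mem_cor.2 ⟨⟨hp.LN b hb n hn, by rw [← mul_assoc, heb]⟩,
        by rw [mul_assoc, hne]⟩, l ++ [a], fun x hx => ?_, rfl⟩
      rcases List.mem_append.1 hx with h | h
      · exact hl x h
      · rw [List.mem_singleton.1 h]; exact mem_cor.2 ⟨⟨ha, hea⟩, hae⟩) hW

theorem XW_map (f : End k (WW k B)) (V : Submodule k (WW k B))
    (h : ∀ n ∈ N, ∀ l : List G, (∀ a ∈ l, a ∈ L) → f (ww β (n :: l)) ∈ V) {W : WW k B}
    (hW : W ∈ XW β N L) : f W ∈ V := by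
  refine (Submodule.span_le (p := V.comap f)).2 ?_ hW
  rintro _ ⟨n, hn, l, hl, rfl⟩
  exact h n hn l hl

theorem cor_le {W : WW k B} (hW : W ∈ XW β (cor e N) (cor e L)) : W ∈ KW β N L e e :=
  XW_map 1 _ (fun _ hn l hl => in_mem (mem_cor.1 hn).1.1 (mem_cor.1 hn).2 l hl) hW

theorem Hd_fix {W : WW k B} (hW : W ∈ XW β (cor e N) (cor e L)) :
    Hd β (LinearMap.mulLeft k e) W = W := by
  have := XW_map (Hd β (LinearMap.mulLeft k e) - 1) ⊥ (fun n hn l _ => by
    rw [LinearMap.sub_apply, ww_cons, Hd_cons, LinearMap.mulLeft_apply, (mem_cor.1 hn).1.2,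
      End.one_apply, sub_self]
    exact Submodule.zero_mem _) hW
  rwa [Submodule.mem_bot, LinearMap.sub_apply, End.one_apply, sub_eq_zero] at this

theorem Hd_DK (hd : DG σ δ) (hc : Calc β σ δ) (he : Cl σ δ L e) (c : k) (W : WW k B) :
    DK β σ δ c (Hd β (LinearMap.mulLeft k e) W) = Hd β (LinearMap.mulLeft k e) (DK β σ δ c W) := by
  refine ww_ext β (f := DK β σ δ c * Hd β (LinearMap.mulLeft k e))
    (g := Hd β (LinearMap.mulLeft k e) * DK β σ δ c) (fun l => ?_) W
  simp only [End.mul_apply]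
  cases l with
  | nil => rw [Hd_nil, DK_apply _ (ww β []), bp_ww_nil, hc.dW_nil]; simp
  | cons a l =>
    have h1 : δ (e * a) = e * δ a := by rw [hd.leib, he.cl, zero_mul, zero_add]
    have h2 : eps σ (e * a) = e * eps σ a := by
      rw [eps_apply, eps_apply, map_mul, he.fix, mul_sub, mul_sub]
    have h3 : LinearMap.mulLeft k e * LinearMap.mulLeft k a = LinearMap.mulLeft k (e * a) :=
      LinearMap.ext fun x => (mul_assoc e a x).symm
    rw [ww_cons, Hd_cons, DK_apply, DK_apply, bp_cons, bp_cons, hc.dW_cons, hc.dW_cons]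
    simp only [map_add, map_sub, map_smul, map_neg, om_cons, Hd_cons, LinearMap.mulLeft_apply,
      d0_cons, Hd_Hd, h1, h2, h3]

theorem last_cor (hd : DG σ δ) (hc : Calc β σ δ) (hp : Pair σ δ N L) (he : Cl σ δ L e)
    {W : WW k B} (hW : W ∈ KW β N L e y) : d0 β (TS β σ W) ∈ XW β (cor e N) (cor e L) :=
  KW_map (d0 β * TS β σ) _
    (fun n _ _ => by
      rw [End.mul_apply, last_snoc hd hc, hc.E_nil, om_ww, map_smul, map_smul, Hd_nil, Hd_nil,
        smul_zero, add_zero]
      exact Submodule.zero_mem _)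
    (fun n hn hne l hl a ha hea _ => by
      have h1 : e * σ a = σ a := by
        have := congrArg σ hea
        rwa [map_mul, he.fix] at this
      rw [End.mul_apply, last_snoc hd hc]
      exact Submodule.add_mem _ (Hd_cor hp (hp.σL a ha) h1 (om_mem (in_mem hn hne l hl)))
        (Hd_cor hp (L.sub_mem ha (hp.σL a ha)) (by rw [mul_sub, hea, h1])
          (om_mem (E_in hc hp he hn hne l hl)))) hW

/-- The generators of the filtration. -/
inductive Gn (β : Basis B k G) (σ : G →ₐ[k] G) (N L : Submodule k G) (e : G) :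
    ℕ → WW k B → Prop
  | base {m : ℕ} {W : WW k B} : W ∈ KW β N L e 1 → Gn β σ N L e m W
  | two {m j : ℕ} {a : G} {W : WW k B} : a ∈ L → j + 2 ≤ m → Gn β σ N L e j W →
      Gn β σ N L e m (snoc β a W)
  | one {m j : ℕ} {a : G} {W : WW k B} : a ∈ L → σ a = 0 → j + 1 ≤ m → Gn β σ N L e j W →
      Gn β σ N L e m (snoc β a W)

/-- The filtration. -/
noncomputable def Fl (β : Basis B k G) (σ : G →ₐ[k] G) (N L : Submodule k G) (e : G) (m : ℕ) :
    Submodule k (WW k B) := Submodule.span k {W | Gn β σ N L e m W}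

theorem Fl_map {m : ℕ} (f : End k (WW k B)) (V : Submodule k (WW k B))
    (h : ∀ W, Gn β σ N L e m W → f W ∈ V) {W : WW k B} (hW : W ∈ Fl β σ N L e m) : f W ∈ V :=
  (Submodule.span_le (p := V.comap f)).2 (fun W hW => h W hW) hW

theorem Fl_gn {m : ℕ} {W : WW k B} (h : Gn β σ N L e m W) : W ∈ Fl β σ N L e m :=
  Submodule.subset_span h

theorem Fl_base {m : ℕ} {W : WW k B} (h : W ∈ KW β N L e y) : W ∈ Fl β σ N L e m :=
  Fl_gn (Gn.base (KW_mono (mul_one _) h))

theorem Fl_two {m j : ℕ} {a : G} (ha : a ∈ L) (hj : j + 2 ≤ m) {W : WW k B}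
    (h : W ∈ Fl β σ N L e j) : snoc β a W ∈ Fl β σ N L e m :=
  Fl_map (snoc β a) _ (fun _ h => Fl_gn (Gn.two ha hj h)) h

theorem Fl_one {m j : ℕ} {a : G} (ha : a ∈ L) (h0 : σ a = 0) (hj : j + 1 ≤ m) {W : WW k B}
    (h : W ∈ Fl β σ N L e j) : snoc β a W ∈ Fl β σ N L e m :=
  Fl_map (snoc β a) _ (fun _ h => Fl_gn (Gn.one ha h0 hj h)) h

theorem Fl_mono {m m' : ℕ} (hm : m ≤ m') {W : WW k B} (h : W ∈ Fl β σ N L e m) :
    W ∈ Fl β σ N L e m' :=
  Fl_map 1 _ (fun _ h => by
    cases h with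
    | base h => exact Fl_base h
    | two ha hj h => exact Fl_gn (Gn.two ha (hj.trans hm) h)
    | one ha h0 hj h => exact Fl_gn (Gn.one ha h0 (hj.trans hm) h)) h

theorem Fl_zero {W : WW k B} (h : W ∈ Fl β σ N L e 0) : W ∈ KW β N L e 1 :=
  Fl_map 1 _ (fun _ h => by
    cases h with
    | base h => exact h
    | two _ hj _ => omega
    | one _ _ hj _ => omega) h

theorem Fl_fix {m : ℕ} {W : WW k B} (h : W ∈ Fl β σ N L e m) : Tl β 1 W = W := by
  have := Fl_map (Tl β 1 - 1) ⊥ (fun W h => by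
    rw [LinearMap.sub_apply, End.one_apply, Submodule.mem_bot, sub_eq_zero]
    cases h with
    | base h => exact Tl_fix h
    | two => rw [Tl_snoc, mul_one]
    | one => rw [Tl_snoc, mul_one]) h
  rwa [Submodule.mem_bot, LinearMap.sub_apply, End.one_apply, sub_eq_zero] at this

theorem Fl_pres (f : End k (WW k B)) (φ : G → G) (s : k)
    (hK : ∀ W ∈ KW β N L e 1, f W ∈ KW β N L e 1)
    (h : ∀ a W, Tl β 1 W = W → f (snoc β a W) = s • snoc β (φ a) (f W))
    (hL : ∀ a ∈ L, φ a ∈ L) (h0 : ∀ a, σ a = 0 → σ (φ a) = 0) {m : ℕ} {W : WW k B}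
    (hW : W ∈ Fl β σ N L e m) : f W ∈ Fl β σ N L e m := by
  have key : ∀ m W, Gn β σ N L e m W → f W ∈ Fl β σ N L e m := by
    intro m W hG
    induction hG with
    | base h => exact Fl_base (hK _ h)
    | two ha hj hG ih =>
      rw [h _ _ (Fl_fix (Fl_gn hG))]
      exact Submodule.smul_mem _ _ (Fl_two (hL _ ha) hj ih)
    | one ha h1 hj hG ih =>
      rw [h _ _ (Fl_fix (Fl_gn hG))]
      exact Submodule.smul_mem _ _ (Fl_one (hL _ ha) (h0 _ h1) hj ih)
  exact Fl_map f _ (key m) hW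

theorem Fl_om {m : ℕ} {W : WW k B} (hW : W ∈ Fl β σ N L e m) : om W ∈ Fl β σ N L e m :=
  Fl_pres om id (-1) (fun _ h => om_mem h) (fun a W _ => by rw [om_snoc, neg_one_smul, id])
    (fun _ h => h) (fun _ h => h) hW

theorem Fl_E (hc : Calc β σ δ) (hp : Pair σ δ N L) (he : Cl σ δ L e) {m : ℕ} {W : WW k B}
    (hW : W ∈ Fl β σ N L e m) : wm β β (eps σ) W ∈ Fl β σ N L e m :=
  Fl_pres (wm β β (eps σ)) (eps σ) 1 (fun _ h => E_mem hc hp he (map_one σ) h)
    (fun a W _ => by rw [hc.E_snoc, one_smul]) (fun _ h => eps_mem hp.σL h)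
    (fun a h => by rw [eps_apply, h, map_sub, map_sub, h, map_zero, sub_zero, sub_zero]) hW

theorem Fl_Hd (hp : Pair σ δ N L) {b : G} (hb : b ∈ L) {m : ℕ} {W : WW k B}
    (hW : W ∈ Fl β σ N L e m) : Hd β (LinearMap.mulLeft k b) W ∈ Fl β σ N L e m :=
  Fl_pres _ id 1 (fun _ h => Hd_mem hp hb h)
    (fun a W h => by rw [one_smul, id, ← Hd_snoc, h]) (fun _ h => h) (fun _ h => h) hW

theorem Fl_Tl (hp : Pair σ δ N L) {b : G} (hb : b ∈ L) {m : ℕ} {W : WW k B}
    (hW : W ∈ Fl β σ N L e m) : Tl β b W ∈ Fl β σ N L e m :=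
  Fl_map _ _ (fun W hW => by
    cases hW with
    | base h => exact Fl_base (Tl_mem hp hb (mul_one b) h)
    | two ha hj h => rw [Tl_snoc]; exact Fl_gn (Gn.two (hp.LL _ ha _ hb) hj h)
    | one ha h0 hj h =>
      rw [Tl_snoc]
      exact Fl_gn (Gn.one (hp.LL _ ha _ hb) (by rw [map_mul, h0, zero_mul]) hj h)) hW

theorem Fl_last (hd : DG σ δ) (hc : Calc β σ δ) (hp : Pair σ δ N L) (he : Cl σ δ L e) {m : ℕ}
    {W : WW k B} (hW : W ∈ Fl β σ N L e (m + 1)) : d0 β (TS β σ W) ∈ Fl β σ N L e m := by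
  have key : ∀ a ∈ L, ∀ j, j ≤ m → ∀ W, Gn β σ N L e j W →
      d0 β (TS β σ (snoc β a W)) ∈ Fl β σ N L e m := fun a ha j hj W h => by
    rw [last_snoc hd hc]
    exact Fl_mono hj (Submodule.add_mem _ (Fl_Hd hp (hp.σL a ha) (Fl_om (Fl_gn h)))
      (Fl_Hd hp (L.sub_mem ha (hp.σL a ha)) (Fl_om (Fl_E hc hp he (Fl_gn h)))))
  refine Fl_map (d0 β * TS β σ) _ (fun W h => ?_) hW
  rw [End.mul_apply]
  cases h with
  | base h => exact Fl_base (cor_le (last_cor hd hc hp he h))
  | two ha hj h => exact key _ ha _ (by omega) _ h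
  | one ha _ hj h => exact key _ ha _ (by omega) _ h

theorem Fl_le {m : ℕ} {W : WW k B} (hW : W ∈ Fl β σ N L e m) : W ∈ XW β N L := by
  have hs : ∀ a ∈ L, ∀ W ∈ XW β N L, snoc β a W ∈ XW β N L := fun a ha W hW =>
    XW_map (snoc β a) _ (fun n hn l hl => by
      rw [← ww_concat, List.cons_append]
      refine Submodule.subset_span ⟨n, hn, l ++ [a], fun x hx => ?_, rfl⟩
      rcases List.mem_append.1 hx with h | h
      · exact hl x h
      · rw [List.mem_singleton.1 h]; exact ha) hW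
  refine Fl_map 1 _ (fun W h => ?_) hW
  rw [End.one_apply]
  clear hW
  induction h with
  | base h =>
    refine KW_map 1 _ (fun n hn _ => ?_) (fun n hn _ l hl a ha _ _ => ?_) h
    · rw [End.one_apply, ← cons_nil]
      exact Submodule.subset_span ⟨n, hn, [], fun _ h => absurd h List.not_mem_nil, rfl⟩
    · exact hs a ha _ (Submodule.subset_span ⟨n, hn, l, fun c h => (mem_cor.1 (hl c h)).1.1, rfl⟩)
  | two ha _ _ ih => exact hs _ ha _ ih
  | one ha _ _ _ ih => exact hs _ ha _ ih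

theorem Fl_exh (σ : G →ₐ[k] G) (e : G) {W : WW k B} (hW : W ∈ XW β N L) :
    ∃ m, W ∈ Fl β σ N L e m := by
  induction hW using Submodule.span_induction with
  | mem W h =>
    obtain ⟨n, hn, l, hl, rfl⟩ := h
    induction l using List.reverseRecOn with
    | nil => exact ⟨0, by rw [ww_cons, cons_nil]; exact Fl_base (one_mem hn (mul_one n))⟩
    | append_singleton l c ih =>
      obtain ⟨m, hm⟩ := ih fun x hx => hl x (List.mem_append_left _ hx)
      exact ⟨m + 2, by
        rw [← List.cons_append, ww_concat]; exact Fl_two (hl c (by simp)) le_rfl hm⟩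
  | zero => exact ⟨0, Submodule.zero_mem _⟩
  | add x y _ _ hx hy =>
    obtain ⟨m, hm⟩ := hx
    obtain ⟨m', hm'⟩ := hy
    exact ⟨m + m', Submodule.add_mem _ (Fl_mono (by omega) hm) (Fl_mono (by omega) hm')⟩
  | smul c x _ hx =>
    obtain ⟨m, hm⟩ := hx
    exact ⟨m, Submodule.smul_mem _ _ hm⟩

open Classical in
/-- The cost of a letter. -/
noncomputable def cs (σ : G →ₐ[k] G) (a : G) : ℕ := if σ a = 0 then 1 else 2

open Classical in
/-- The space of the coordinates at a last letter. -/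
noncomputable def Fx (β : Basis B k G) (σ : G →ₐ[k] G) (N L : Submodule k G) (e a : G) (m : ℕ) :
    Submodule k (WW k B) :=
  if a ∈ L then (if cs σ a ≤ m then Fl β σ N L e (m - cs σ a) else
    if e * a = a then KW β N L e e else ⊥) else ⊥

theorem cs_cases (a : G) : (σ a = 0 ∧ cs σ a = 1) ∨ cs σ a = 2 := by
  unfold cs
  split_ifs with h
  · exact Or.inl ⟨h, rfl⟩
  · exact Or.inr rfl

theorem Fx_of_F {a : G} {j m : ℕ} (ha : a ∈ L) (hj : j + cs σ a ≤ m) {W : WW k B}
    (h : W ∈ Fl β σ N L e j) : W ∈ Fx β σ N L e a m := by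
  rw [Fx, if_pos ha, if_pos (by omega)]
  exact Fl_mono (by omega) h

theorem Fx_of_K {a : G} {m : ℕ} (ha : a ∈ L) (hea : e * a = a) {W : WW k B}
    (h : W ∈ KW β N L e e) : W ∈ Fx β σ N L e a m := by
  rw [Fx, if_pos ha]
  split_ifs
  · exact Fl_base h
  · exact h

theorem Fx_cases {a : G} {m : ℕ} {W : WW k B} (h : W ∈ Fx β σ N L e a m) :
    W = 0 ∨ (a ∈ L ∧ e * a = a ∧ W ∈ KW β N L e e) ∨
      (a ∈ L ∧ ∃ j, j + cs σ a = m ∧ W ∈ Fl β σ N L e j) := by
  rw [Fx] at h
  split_ifs at h with h1 h2 h3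
  · exact Or.inr (Or.inr ⟨h1, _, by omega, h⟩)
  · exact Or.inr (Or.inl ⟨h1, h3, h⟩)
  · exact Or.inl h
  · exact Or.inl h

theorem snoc_Fx {a : G} {m : ℕ} {W : WW k B} (h : W ∈ Fx β σ N L e a m) :
    snoc β a W ∈ Fl β σ N L e m := by
  rcases Fx_cases h with rfl | ⟨ha, hea, h⟩ | ⟨ha, j, hj, h⟩
  · rw [map_zero]; exact Submodule.zero_mem _
  · exact Fl_base (snoc_mem ha hea (mul_one a) h)
  · rcases cs_cases (σ := σ) a with ⟨h0, h1⟩ | h2
    · exact Fl_one ha h0 (by omega) h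
    · exact Fl_two ha (by omega) h

theorem Rm_Fx (hd : DG σ δ) (hc : Calc β σ δ) (hp : Pair σ δ N L) (he : Cl σ δ L e) (c : k)
    {a : G} {m : ℕ} {W : WW k B} (h : W ∈ Fx β σ N L e a (m + 1)) :
    Rm β σ δ c a W ∈ Fl β σ N L e m := by
  rcases Fx_cases h with rfl | ⟨ha, hea, h⟩ | ⟨ha, j, hj, h⟩
  · rw [map_zero]; exact Submodule.zero_mem _
  · rw [Rm_apply]
    exact Submodule.add_mem _ (Fl_base (Tl_mem hp ha (mul_one a) (om_mem h)))
      (Submodule.smul_mem _ _ (Fl_base (snoc_mem (hp.δL a ha) (δ_left hd he.cl hea) (mul_one _)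
        (om_mem (E_mem hc hp he he.fix h)))))
  · rw [Rm_apply]
    rcases cs_cases (σ := σ) a with ⟨h0, h1⟩ | h2
    · have : δ a = 0 := by rw [← hd.δσ, h0, map_zero]
      rw [this, map_zero, LinearMap.zero_apply, smul_zero, add_zero]
      exact Fl_mono (by omega) (Fl_Tl hp ha (Fl_om h))
    · exact Submodule.add_mem _ (Fl_mono (by omega) (Fl_Tl hp ha (Fl_om h)))
        (Submodule.smul_mem _ _ (Fl_one (hp.δL a ha) (hd.σδ a) (by omega)
          (Fl_om (Fl_E hc hp he h))))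

theorem st_Fl {p : End k G} (a1 : Adp β (LinearMap.mulLeft k e)) (a2 : Adp β σ.toLinearMap)
    (a3 : Adp β p) (x : B) {m : ℕ} {W : WW k B} (hW : W ∈ Fl β σ N (fx p) e m) :
    st β x W ∈ Fx β σ N (fx p) e (β x) m := by
  have key : ∀ (a : G) (V : WW k B), Tl β 1 V = V →
      (β.repr a x ≠ 0 → V ∈ Fx β σ N (fx p) e (β x) m) →
      st β x (snoc β a V) ∈ Fx β σ N (fx p) e (β x) m := fun a V h1 h2 => by
    rw [st_snoc, h1]
    by_cases h : β.repr a x = 0
    · rw [h, zero_smul]; exact Submodule.zero_mem _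
    · exact Submodule.smul_mem _ _ (h2 h)
  refine Fl_map _ _ (fun W h => ?_) hW
  cases h with
  | base h =>
    refine KW_map _ _ (fun n _ _ => ?_) (fun n hn hne l hl a ha hea _ => ?_) h
    · rw [st_snoc, Tl_nil, smul_zero]; exact Submodule.zero_mem _
    · exact key a _ (Tl_one_cons _ _) fun h =>
        Fx_of_K (adp_fix a3 ha h) (adp_fix a1 hea h) (in_mem hn hne l hl)
  | two ha hj h =>
    refine key _ _ (Fl_fix (Fl_gn h)) fun h' => Fx_of_F (adp_fix a3 ha h') ?_ (Fl_gn h)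
    rcases cs_cases (σ := σ) (β x) with ⟨_, h1⟩ | h2 <;> omega
  | one ha h0 hj h =>
    refine key _ _ (Fl_fix (Fl_gn h)) fun h' => Fx_of_F (adp_fix a3 ha h') ?_ (Fl_gn h)
    have h3 : σ (β x) = 0 := adp_ker a2 h0 h'
    rw [cs, if_pos h3]
    exact hj

theorem dec {m : ℕ} {W : WW k B} (hW : W ∈ Fl β σ N L e m) :
    ∃ T : Finset B, ∀ T' : Finset B, T ⊆ T' →
      W - ∑ x ∈ T', snoc β (β x) (st β x W) ∈ KW β N L e 1 := by
  classical
  have hadd : ∀ W W' : WW k B, (∃ T : Finset B, ∀ T' : Finset B, T ⊆ T' →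
      W - ∑ x ∈ T', snoc β (β x) (st β x W) ∈ KW β N L e 1) → (∃ T : Finset B, ∀ T' : Finset B,
      T ⊆ T' → W' - ∑ x ∈ T', snoc β (β x) (st β x W') ∈ KW β N L e 1) →
      ∃ T : Finset B, ∀ T' : Finset B, T ⊆ T' →
      W + W' - ∑ x ∈ T', snoc β (β x) (st β x (W + W')) ∈ KW β N L e 1 := by
    rintro W W' ⟨T, h⟩ ⟨T', h'⟩
    refine ⟨T ∪ T', fun S hS => ?_⟩
    simp only [map_add, Finset.sum_add_distrib]
    rw [add_sub_add_comm]
    exact Submodule.add_mem _ (h S (Finset.subset_union_left.trans hS))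
      (h' S (Finset.subset_union_right.trans hS))
  have hsm : ∀ (c : k) (W : WW k B), (∃ T : Finset B, ∀ T' : Finset B, T ⊆ T' →
      W - ∑ x ∈ T', snoc β (β x) (st β x W) ∈ KW β N L e 1) →
      ∃ T : Finset B, ∀ T' : Finset B, T ⊆ T' →
      c • W - ∑ x ∈ T', snoc β (β x) (st β x (c • W)) ∈ KW β N L e 1 := by
    rintro c W ⟨T, h⟩
    refine ⟨T, fun S hS => ?_⟩
    simp only [map_smul]
    rw [← Finset.smul_sum, ← smul_sub]
    exact Submodule.smul_mem _ _ (h S hS)
  have key : ∀ (a : G) (V : WW k B), Tl β 1 V = V → ∃ T : Finset B, ∀ T' : Finset B, T ⊆ T' →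
      snoc β a V - ∑ x ∈ T', snoc β (β x) (st β x (snoc β a V)) ∈ KW β N L e 1 := by
    intro a V hV
    refine ⟨(β.repr a).support, fun S hS => ?_⟩
    have h1 : ∑ x ∈ S, β.repr a x • β x = a := by
      have := β.linearCombination_repr a
      rwa [Finsupp.linearCombination_apply, Finsupp.sum_of_support_subset _ hS
        (fun i a => a • β i) (fun _ _ => zero_smul _ _)] at this
    have h2 : ∑ x ∈ S, snoc β (β x) (st β x (snoc β a V)) = snoc β a V := by
      conv_rhs => rw [← h1, map_sum, LinearMap.sum_apply]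
      exact Finset.sum_congr rfl fun x _ => by
        rw [st_snoc, hV, map_smul, map_smul, LinearMap.smul_apply]
    rw [h2, sub_self]
    exact Submodule.zero_mem _
  induction hW using Submodule.span_induction with
  | mem W h =>
    cases h with
    | base h =>
      induction h using Submodule.span_induction with
      | mem W h =>
        rcases h with ⟨n, hn, hy, rfl⟩ | ⟨n, hn, l, a, ha, hne, hl, hea, hay, rfl⟩
        · refine ⟨∅, fun S _ => ?_⟩
          rw [ww_cons, cons_nil, Finset.sum_eq_zero fun x _ => by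
            rw [st_snoc, Tl_nil, smul_zero, map_zero], sub_zero]
          exact one_mem hn hy
        · rw [← List.cons_append, ww_concat]
          exact key a _ (Tl_one_cons _ _)
      | zero => exact ⟨∅, fun S _ => by simp⟩
      | add x y _ _ hx hy => exact hadd x y hx hy
      | smul c x _ hx => exact hsm c x hx
    | two _ _ h => exact key _ _ (Fl_fix (Fl_gn h))
    | one _ _ _ h => exact key _ _ (Fl_fix (Fl_gn h))
  | zero => exact ⟨∅, fun S _ => by simp⟩
  | add x y _ _ hx hy => exact hadd x y hx hy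
  | smul c x _ hx => exact hsm c x hx

theorem step {p : End k G} (hd : DG σ δ) (hc : Calc β σ δ) (hp : Pair σ δ N (fx p))
    (he : Cl σ δ (fx p) e) (a1 : Adp β (LinearMap.mulLeft k e)) (a2 : Adp β σ.toLinearMap)
    (a3 : Adp β p) (hex : ∀ c : k, c = 1 ∨ c = -1 → Ex (DK β σ δ c) (KW β N (fx p) e 1))
    (m : ℕ) : ∀ c : k, c = 1 ∨ c = -1 →
      QEx (DK β σ δ c) (Fl β σ N (fx p) e (m + 1)) (Fl β σ N (fx p) e m) := by
  classical
  induction m using Nat.strong_induction_on with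
  | _ m ih =>
  intro c hc1 z hz hD
  have hc2 : -c = 1 ∨ -c = -1 := by
    rcases hc1 with rfl | rfl
    · exact Or.inr rfl
    · exact Or.inl (neg_neg 1)
  have hC : ∀ a : G, QEx (DK β σ δ (-c)) (Fx β σ N (fx p) e a (m + 1)) (Fx β σ N (fx p) e a m) := by
    intro a w hw hDw
    have hcs := cs_cases (σ := σ) a
    rcases Fx_cases hw with rfl | ⟨ha, hea, h⟩ | ⟨ha, j, hj, h⟩
    · exact ⟨0, Submodule.zero_mem _, by rw [map_zero, sub_zero]; exact Submodule.zero_mem _⟩
    · exact ⟨0, Submodule.zero_mem _, by rw [map_zero, sub_zero]; exact Fx_of_K ha hea h⟩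
    · cases j with
      | zero =>
        have hw1 := Fl_zero h
        rcases Fx_cases hDw with h0 | ⟨_, hea, h1⟩ | ⟨_, j, hj', _⟩
        · obtain ⟨u, hu, hDu⟩ := hex _ hc2 w hw1 h0
          exact ⟨u, Fx_of_F ha hj.le (Fl_base hu), by
            rw [hDu, sub_self]; exact Submodule.zero_mem _⟩
        · have h2 : Tl β e w ∈ KW β N (fx p) e e := Tl_mem hp he.mem he.idem hw1
          obtain ⟨u, hu, hDu⟩ := hex _ hc2 (w - Tl β e w)
            (Submodule.sub_mem _ hw1 (KW_mono (mul_one _) h2))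
            (by rw [map_sub, Tl_DK hd hc _ he.cl, Tl_fix h1, sub_self])
          exact ⟨u, Fx_of_F ha hj.le (Fl_base hu), by
            rw [hDu, sub_sub_cancel]; exact Fx_of_K ha hea h2⟩
        · omega
      | succ j =>
        have hD' : DK β σ δ (-c) w ∈ Fl β σ N (fx p) e j := by
          rcases Fx_cases hDw with h0 | ⟨_, _, h1⟩ | ⟨_, j', hj', h1⟩
          · rw [h0]; exact Submodule.zero_mem _
          · exact Fl_base h1
          · exact Fl_mono (by omega) h1
        obtain ⟨u, hu, hDu⟩ := ih j (by omega) _ hc2 w h hD'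
        exact ⟨u, Fx_of_F ha hj.le hu, Fx_of_F ha (by omega) hDu⟩
  obtain ⟨T, hT⟩ := dec hz
  have h1 := hT T subset_rfl
  have hv : ∀ x, st β x z ∈ Fx β σ N (fx p) e (β x) (m + 1) := fun x => st_Fl a1 a2 a3 x hz
  have hsum : ∀ v : B → WW k B, (∀ x ∈ T, v x ∈ Fx β σ N (fx p) e (β x) (m + 1)) →
      ∑ x ∈ T, snoc β (β x) (DK β σ δ (-c) (v x)) - DK β σ δ c (∑ x ∈ T, snoc β (β x) (v x)) ∈
        Fl β σ N (fx p) e m := fun v hv => by
    rw [map_sum, ← Finset.sum_sub_distrib]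
    exact Submodule.sum_mem _ fun x hx => by
      rw [DK_snoc hc, sub_sub_cancel]; exact Rm_Fx hd hc hp he c (hv x hx)
  have hY : ∑ x ∈ T, snoc β (β x) (DK β σ δ (-c) (st β x z)) ∈ Fl β σ N (fx p) e m := by
    have h2 := Submodule.add_mem _ (hsum _ fun x _ => hv x) (Submodule.sub_mem _ hD
      (Fl_base (DK_mem hd hc hp he (δ_one hd) c h1)))
    rwa [map_sub, sub_sub_cancel, sub_add_cancel] at h2
  have hu : ∀ x, ∃ u, x ∈ T → u ∈ Fx β σ N (fx p) e (β x) (m + 1) ∧
      st β x z - DK β σ δ (-c) u ∈ Fx β σ N (fx p) e (β x) m := fun x => by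
    by_cases hx : x ∈ T
    · have h2 := st_Fl a1 a2 a3 x hY
      have h3 : Tl β 1 (st β x z) = st β x z := Fl_fix (σ := σ) (N := N) (L := fx p) (e := e)
        (m := m + 1) (by
          rcases Fx_cases (hv x) with h0 | ⟨_, _, h⟩ | ⟨_, j, hj, h⟩
          · rw [h0]; exact Submodule.zero_mem _
          · exact Fl_base h
          · exact Fl_mono (by omega) h)
      rw [map_sum, Finset.sum_eq_single x (fun y _ hy => by
        rw [st_snoc, Basis.repr_self, Finsupp.single_apply, if_neg hy, zero_smul])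
        (fun h => absurd hx h), st_snoc, Basis.repr_self, Finsupp.single_eq_same, one_smul,
        ← Tl_DK hd hc _ (δ_one hd), h3] at h2
      obtain ⟨u, hu, hDu⟩ := hC _ _ (hv x) h2
      exact ⟨u, fun _ => ⟨hu, hDu⟩⟩
    · exact ⟨0, fun h => absurd h hx⟩
  choose u hu using hu
  refine ⟨∑ x ∈ T, snoc β (β x) (u x), Submodule.sum_mem _ fun x hx => snoc_Fx (hu x hx).1, ?_⟩
  have h2 : ∑ x ∈ T, snoc β (β x) (st β x z - DK β σ δ (-c) (u x)) ∈ Fl β σ N (fx p) e m :=
    Submodule.sum_mem _ fun x hx => snoc_Fx (hu x hx).2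
  have h3 := Submodule.add_mem _ (Submodule.add_mem _ (Fl_base h1) h2)
    (hsum u fun x hx => (hu x hx).1)
  simp only [map_sub, Finset.sum_sub_distrib] at h3
  rwa [sub_add_sub_cancel, sub_add_sub_cancel] at h3

theorem sGen : SGen := by
  intro k G B _ _ _ β σ δ p q e hd hc hp he a1 _ a2 a3 _ hex z hz hD
  have h0 : ∀ z ∈ KW β (fx q) (fx p) e 1, DD β σ δ z ∈ XW β (cor e (fx q)) (cor e (fx p)) →
      ∃ u ∈ XW β (fx q) (fx p), z - DD β σ δ u ∈ XW β (cor e (fx q)) (cor e (fx p)) := by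
    intro z hz hD
    have h1 : DK β σ δ 1 z ∈ XW β (cor e (fx q)) (cor e (fx p)) := by
      have := Submodule.sub_mem _ hD (last_cor hd hc hp he hz)
      rwa [DD_apply, add_sub_cancel_right] at this
    have h2 : Hd β (LinearMap.mulLeft k e) (Tl β e z) ∈ XW β (cor e (fx q)) (cor e (fx p)) :=
      Hd_cor hp he.mem he.idem (Tl_mem hp he.mem he.idem hz)
    obtain ⟨u, hu, hDu⟩ := hex 1 (Or.inl rfl) (z - Hd β (LinearMap.mulLeft k e) (Tl β e z))
      (Submodule.sub_mem _ hz (KW_mono (mul_one _) (cor_le h2)))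
      (by rw [map_sub, Hd_DK hd hc he, Tl_DK hd hc _ he.cl, Tl_fix (cor_le h1), Hd_fix h1, sub_self])
    refine ⟨u, Fl_le (Fl_base (σ := σ) (m := 0) hu), ?_⟩
    rw [DD_apply, hDu, ← sub_sub, sub_sub_cancel]
    exact Submodule.sub_mem _ h2 (last_cor hd hc hp he hu)
  obtain ⟨m, hm⟩ := Fl_exh σ e hz
  clear hz
  induction m generalizing z with
  | zero => exact h0 z (Fl_zero hm) hD
  | succ m ih =>
    have h1 : DK β σ δ 1 z ∈ Fl β σ (fx q) (fx p) e m := by
      have := Submodule.sub_mem _ (Fl_base (cor_le hD)) (Fl_last hd hc hp he hm)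
      rwa [DD_apply, add_sub_cancel_right] at this
    obtain ⟨u, hu, hDu⟩ := step hd hc hp he a1 a2 a3 hex m 1 (Or.inl rfl) z hm h1
    have h2 : z - DD β σ δ u ∈ Fl β σ (fx q) (fx p) e m := by
      rw [DD_apply, ← sub_sub]
      exact Submodule.sub_mem _ hDu (Fl_last hd hc hp he hu)
    obtain ⟨u', hu', h3⟩ := ih (z - DD β σ δ u) (by rw [map_sub, hc.DD_DD, sub_zero]; exact hD) h2
    exact ⟨u + u', Submodule.add_mem _ (Fl_le hu) hu', by rwa [map_add, ← sub_sub]⟩

end Pool.Agent.MP_92f1cb_al.H21T.H56
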