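import Pool.Agent.MP_92f1cb_al.H21T.Spec

set_option autoImplicit false

namespace Pool.Agent.MP_92f1cb_al.H21T

open Pool.Agent.MP_92f1cb_al.H14 Pool.Agent.MP_92f1cb_al.H14C Module

namespace Gl2x

variable {k G B : Type} [Field k] [Ring G] [Algebra k G]

theorem exHd (β : Basis B k G) (Φ : G →ₗ[k] WW k B →ₗ[k] k) :
    ∃ Ψ : WW k B →ₗ[k] k, ∀ a W, Ψ (cons β a W) = Φ a W := by
  refine ⟨Finsupp.lapply (0, []) ∘ₗ HdT β (LinearMap.llcomp k (WW k B) k (WW k B)
    (LinearMap.toSpanSingleton k (WW k B) (ee (0, []))) ∘ₗ Φ), fun a W => ?_⟩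
  rw [LinearMap.comp_apply, HdT_cons]
  simp [ee]

theorem prodR_map {R M M' : Type} [Monoid M] [Monoid M'] (T : M →* M') (ρ : ℕ → R → M)
    (l : List R) : ∀ m, T (prodR ρ m l) = prodR (fun n a => T (ρ n a)) m l := by
  induction l with
  | nil => intro m; simp [prodR]
  | cons a l ih => intro m; simp only [prodR, map_mul, ih]

theorem prodR_congr {R R' M : Type} [Monoid M] (ρ : ℕ → R → M) (ρ' : ℕ → R' → M) (g : R → R')
    (l : List R) (h : ∀ a ∈ l, ∀ n, ρ' n (g a) = ρ n a) :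
    ∀ m, prodR ρ' m (l.map g) = prodR ρ m l := by
  induction l with
  | nil => intro m; simp [prodR]
  | cons a l ih =>
    intro m
    simp only [List.map_cons, prodR]
    rw [h a (by simp), ih fun c hc => h c (by simp [hc])]

theorem prodR_right {R M : Type} [Monoid M] (ρ : ℕ → R → M) (P : M) (l : List R) :
    ∀ (a : R) (m : ℕ), (∀ c ∈ a :: l, ∀ n, ρ n c * P = ρ n c) →
      prodR ρ m (a :: l) * P = prodR ρ m (a :: l) := by
  induction l with
  | nil => intro a m h; simp only [prodR, mul_one]; exact h a (by simp) m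
  | cons b l ih =>
    intro a m h
    have := ih b (m + 1) fun c hc => h c (List.mem_cons_of_mem _ hc)
    rw [prodR, mul_assoc, this]

theorem cobM (h5 : SCob) {R C : Type} [Ring R] [Algebra k R] [Fintype C] [DecidableEq C]
    (β : Basis B k R) (φ : ℕ → R →ₐ[k] Matrix C C k) (ρ : ℕ → R →ₗ[k] Matrix C C k) (n D : ℕ)
    (h : ∀ m a c, ρ m (a * c) = φ m a * ρ m c + ρ m a * φ (m + 1) c)
    (hp : ∀ (X : Type) [AddCommGroup X] [Module R X], PD R n X) (hn : n < D) :
    ∃ ψ : WW k B →ₗ[k] Matrix C C k, ∀ (a a' : R) (l l' : List R), a :: l = l' ++ [a'] →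
      l.length + 1 = D → prodR (fun m x => ρ m x) 0 (a :: l) =
        φ 0 a * ψ (ww β l) - ψ (bp β (ww β (a :: l))) +
          (-1 : k) ^ D • (ψ (ww β l') * φ D a') := by
  let T : Matrix C C k ≃ₐ[k] End k (C → k) := Matrix.toLinAlgEquiv'
  obtain ⟨ψ, hψ⟩ := h5 k R B (C → k) β (fun m => T.toAlgHom.comp (φ m))
    (fun m => T.toLinearMap ∘ₗ ρ m) n D (fun m a c => by
      change T (ρ m (a * c)) = T (φ m a) * T (ρ m c) + T (ρ m a) * T (φ (m + 1) c)
      rw [h, map_add, map_mul, map_mul]) hp hn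
  refine ⟨T.symm.toLinearMap ∘ₗ ψ, fun a a' l l' e1 e2 => T.injective ?_⟩
  have e3 := hψ a a' l l' e1 e2
  have e4 := prodR_map (T : Matrix C C k →* End k (C → k)) (fun m x => ρ m x) (a :: l) 0
  change T (prodR _ _ _) = prodR (fun n a => T (ρ n a)) 0 (a :: l) at e4
  change prodR (fun n a => T (ρ n a)) 0 (a :: l) = T (φ 0 a) * _ - _ + _ • (_ * T (φ D a')) at e3
  rw [e4, e3]
  simp only [map_add, map_sub, map_mul, map_smul, LinearMap.comp_apply, AlgEquiv.toLinearMap_apply,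
    AlgEquiv.apply_symm_apply]

theorem exChi {R : Type} [Ring R] [Algebra k R] (e f : R) (he : e * e = e) (hef : e + f = 1)
    (h0 : ∀ a, e * a * f = 0) (h1 : ∀ a, ∃ c : k, e * a * e = c • e) (hne : e ≠ 0) :
    ∃ χ : R →ₗ[k] k, χ 1 = 1 ∧ ∀ a c, χ (a * c) = χ a * χ c := by
  obtain ⟨r, hr⟩ := LinearMap.exists_leftInverse_of_injective (LinearMap.toSpanSingleton k R e)
    (LinearMap.ker_toSpanSingleton k hne)
  have hr' : ∀ c : k, r (c • e) = c := fun c => LinearMap.congr_fun hr c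
  refine ⟨r ∘ₗ LinearMap.mulRight k e ∘ₗ LinearMap.mulLeft k e, ?_, fun a c => ?_⟩
  · change r (e * 1 * e) = 1
    rw [mul_one, he, ← hr' 1, one_smul]
  · change r (e * (a * c) * e) = r (e * a * e) * r (e * c * e)
    obtain ⟨x, hx⟩ := h1 a
    obtain ⟨y, hy⟩ := h1 c
    have : e * (a * c) * e = (x * y) • e := by
      calc e * (a * c) * e = e * a * (e + f) * c * e := by rw [hef]; noncomm_ring
        _ = e * a * e * (c * e) + e * a * f * (c * e) := by noncomm_ring
        _ = x • (e * c * e) := by rw [h0, zero_mul, add_zero, hx, smul_mul_assoc, mul_assoc]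
        _ = (x * y) • e := by rw [hy, smul_smul]
    rw [this, hx, hy, hr', hr', hr']

end Gl2x

open Gl2x in
theorem sGl2 (h1 : SWM) (h2 : SSub) (h3 : SPd) (h4 : STri) (h5 : SCob) (h6 : SPf) : SGl2 := by
  intro k G B C R _ _ _ _ _ _ _ β σ φ ρ ν N V e f ι D₀ D hR hN hV heV hfV hee hef hfe hu h0 hc
    hne hP hρ hι hgl hD z hz hb
  obtain ⟨R', _, _, ι', hι'⟩ := h2 k G V (e + f) (V.add_mem heV hfV) hV hu
  obtain ⟨g, hg⟩ := LinearMap.exists_leftInverse_of_injective ι' (LinearMap.ker_eq_bot.2 hι'.inj)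
  have g1 : ∀ x, g (ι' x) = x := fun x => LinearMap.congr_fun hg x
  have hmem : ∀ x, ι' x ∈ V := fun x => hι'.range ▸ LinearMap.mem_range_self ι' x
  have g2 : ∀ a ∈ V, ι' (g a) = a := fun a ha => by
    obtain ⟨x, rfl⟩ : a ∈ LinearMap.range ι' := hι'.range ▸ ha
    rw [g1]
  have gm : ∀ a ∈ V, ∀ c ∈ V, a * c ∈ V ∧ g (a * c) = g a * g c := fun a ha c hc' =>
    ⟨hV a ha c hc', hι'.inj (by rw [hι'.mul, g2 a ha, g2 c hc', g2 _ (hV a ha c hc')])⟩
  have a1 : g e * g e = g e := by rw [← (gm e heV e heV).2, hee]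
  have a2 : g e + g f = 1 := by rw [← map_add, ← hι'.one, g1]
  have a3 : ∀ a, g e * a * g f = 0 := fun a => hι'.inj (by
    rw [hι'.mul, hι'.mul, g2 e heV, g2 f hfV, h0 _ (hmem a), map_zero])
  have a4 : ∀ a, ∃ c : k, g e * a * g e = c • g e := fun a => by
    obtain ⟨c, hc'⟩ := hc _ (hmem a)
    exact ⟨c, hι'.inj (by rw [hι'.mul, hι'.mul, map_smul, g2 e heV, hc'])⟩
  have a5 : g e ≠ 0 := fun h => hne (by rw [← g2 e heV, h, map_zero])
  have im : ∀ r, ι r ∈ cor f V := fun r => hι.range ▸ LinearMap.mem_range_self ι r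
  have a6 : Emb (g ∘ₗ ι) (cor (g f) ⊤) (g f) := by
    refine ⟨fun x y h => hι.inj ?_, fun a c => ?_, ?_, ?_⟩
    · have := congrArg ι' h
      rwa [LinearMap.comp_apply, LinearMap.comp_apply, g2 _ (mem_cor.1 (im x)).1.1,
        g2 _ (mem_cor.1 (im y)).1.1] at this
    · rw [LinearMap.comp_apply, LinearMap.comp_apply, LinearMap.comp_apply, hι.mul,
        (gm _ (mem_cor.1 (im a)).1.1 _ (mem_cor.1 (im c)).1.1).2]
    · rw [LinearMap.comp_apply, hι.one]
    · ext x
      rw [mem_cor]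
      constructor
      · rintro ⟨r, rfl⟩
        obtain ⟨⟨b1, b2⟩, b3⟩ := mem_cor.1 (im r)
        rw [LinearMap.comp_apply, ← (gm _ hfV _ b1).2, ← (gm _ b1 _ hfV).2, b2, b3]
        exact ⟨⟨trivial, rfl⟩, rfl⟩
      · rintro ⟨⟨-, b2⟩, b3⟩
        have : ι' x ∈ LinearMap.range ι := by
          rw [hι.range, mem_cor]
          refine ⟨⟨hmem x, ?_⟩, ?_⟩
          · rw [← g2 f hfV, ← hι'.mul, b2]
          · rw [← g2 f hfV, ← hι'.mul, b3]
        obtain ⟨r, hr⟩ := this
        exact ⟨r, by rw [LinearMap.comp_apply, hr, g1]⟩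
  have pd := h4 k R R' (g ∘ₗ ι) (g e) (g f) D₀ a1 a2 a3 a4 a6 (h3 R D₀ hgl)
  obtain ⟨χ, χ1, χm⟩ := exChi (g e) (g f) a1 a2 a3 a4 a5
  obtain ⟨P, hPd⟩ : ∃ P, P = φ 0 (e + f) := ⟨_, rfl⟩
  rw [← hPd] at hP
  have pl : ∀ m, ∀ a ∈ V, P * φ m a = φ m a := fun m a ha => by
    rw [← hP m, ← map_mul, (hu a ha).1]
  have pr : ∀ m, ∀ a ∈ V, φ m a * P = φ m a := fun m a ha => by
    rw [← hP m, ← map_mul, (hu a ha).2]
  have pp : P * P = P := by
    have := pl 0 _ (V.add_mem heV hfV)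
    rwa [hP 0] at this
  have rl : ∀ m, ∀ a ∈ V, P * ρ m a = ρ m a := fun m a ha => by
    have := hR.ρmul m (e + f) a
    rw [(hu a ha).1, hρ, zero_mul, add_zero, hP m] at this
    exact this.symm
  have rr : ∀ m, ∀ a ∈ V, ρ m a * P = ρ m a := fun m a ha => by
    have := hR.ρmul m a (e + f)
    rw [(hu a ha).2, hρ, mul_zero, zero_add, hP (m + 1)] at this
    exact this.symm
  obtain ⟨φ', hφ'⟩ : ∃ φ' : ℕ → R' →ₐ[k] Matrix C C k,
      ∀ m a, φ' m a = φ m (ι' a) + χ a • (1 - P) := by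
    refine ⟨fun m => AlgHom.ofLinearMap ((φ m).toLinearMap ∘ₗ ι' + χ.smulRight (1 - P)) ?_
      fun a c => ?_, fun m a => rfl⟩
    · change φ m (ι' 1) + χ 1 • (1 - P) = 1
      rw [hι'.one, hP m, χ1, one_smul]; abel
    · change φ m (ι' (a * c)) + χ (a * c) • (1 - P) =
        (φ m (ι' a) + χ a • (1 - P)) * (φ m (ι' c) + χ c • (1 - P))
      have b1 : φ m (ι' a) * (1 - P) = 0 := by rw [mul_sub, pr m _ (hmem a), mul_one, sub_self]
      have b2 : (1 - P) * φ m (ι' c) = 0 := by rw [sub_mul, pl m _ (hmem c), one_mul, sub_self]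
      have b3 : (1 - P) * (1 - P) = 1 - P := by
        rw [mul_sub, mul_one, sub_mul, one_mul, pp, sub_self, sub_zero]
      rw [hι'.mul, map_mul, χm, add_mul, mul_add, mul_add, mul_smul_comm, smul_mul_assoc,
        smul_mul_assoc, mul_smul_comm, b1, b2, b3, smul_zero, smul_zero, add_zero, zero_add,
        smul_smul]
  let β' := Basis.ofVectorSpace k R'
  obtain ⟨ψ, hψ⟩ := cobM h5 β' φ' (fun m => ρ m ∘ₗ ι') (D₀ + 1) D (fun m a c => by
    have b1 : ρ m (ι' a) * (1 - P) = 0 := by rw [mul_sub, rr m _ (hmem a), mul_one, sub_self]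
    have b2 : (1 - P) * ρ m (ι' c) = 0 := by rw [sub_mul, rl m _ (hmem c), one_mul, sub_self]
    rw [LinearMap.comp_apply, LinearMap.comp_apply, LinearMap.comp_apply, hφ', hφ', hι'.mul,
      hR.ρmul, add_mul, mul_add, smul_mul_assoc, mul_smul_comm, b1, b2, smul_zero, smul_zero,
      add_zero, add_zero]) pd hD
  obtain ⟨w1, w2, -⟩ := h1 k G B R' _ β β' g
  obtain ⟨Ψ, hΨ⟩ := exHd β (LinearMap.mk₂ k
    (fun (a : G) (W : WW k B) => (ν D a * (P * ψ (wm β β' g W) * P)).trace)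
    (fun a c W => by rw [map_add, add_mul, Matrix.trace_add])
    (fun c a W => by rw [map_smul, smul_mul_assoc, Matrix.trace_smul])
    (fun a W W' => by rw [map_add, map_add, mul_add, add_mul, mul_add, Matrix.trace_add])
    (fun c a W => by
      rw [map_smul, map_smul, mul_smul_comm, smul_mul_assoc, mul_smul_comm, Matrix.trace_smul]))
  simp only [LinearMap.mk₂_apply] at hΨ
  have key : ∀ z ∈ XW β N V, PW β (ν D) ρ D z = Ψ (bH β (piL k B (D + 1) z)) := by
    intro z hz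
    have : XW β N V ≤ LinearMap.eqLocus (PW β (ν D) ρ D) (Ψ ∘ₗ bH β ∘ₗ piL k B (D + 1)) := by
      refine Submodule.span_le.2 ?_
      rintro _ ⟨n, hn, L, hL, rfl⟩
      change PW β (ν D) ρ D (ww β (n :: L)) = Ψ (bH β (piL k B (D + 1) (ww β (n :: L))))
      rw [(h6 k G B C β σ 0 φ ρ ν D N V).1, piL_ww, pf, List.length_cons]
      by_cases hl : L.length = D
      swap
      · rw [if_neg hl, if_neg (by omega), map_zero, map_zero]
      rw [if_pos hl, if_pos (by omega)]
      obtain ⟨a, l, rfl⟩ : ∃ a l, L = a :: l := by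
        cases L with
        | nil => simp at hl; omega
        | cons a l => exact ⟨a, l, rfl⟩
      obtain ⟨l', a', e1⟩ : ∃ l' a', a :: l = l' ++ [a'] :=
        ⟨_, _, (List.dropLast_append_getLast (List.cons_ne_nil a l)).symm⟩
      have ha : a ∈ V := hL a (by simp)
      have ha' : a' ∈ V := hL a' (by rw [e1]; simp)
      have e2 : l'.length + 1 = D := by
        have := congrArg List.length e1
        simp at this hl; omega
      have e3 := hψ (g a) (g a') (l.map g) (l'.map g)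
        (by rw [← List.map_cons, e1]; simp) (by simpa using hl)
      have e4 : wm β β' g (bp β (ww β (a :: l))) = bp β' (ww β' (g a :: l.map g)) := by
        rw [(w2 V gm _ (Submodule.subset_span
          ⟨a, ha, l, fun c hc' => hL c (by simp [hc']), rfl⟩)).2, w1, List.map_cons]
      have e5 : prodR (fun m x => (ρ m ∘ₗ ι') x) 0 (g a :: l.map g) =
          prodR (fun m x => ρ m x) 0 (a :: l) := by
        rw [← List.map_cons]
        exact prodR_congr _ _ g _ (fun c hc' m => by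
          rw [LinearMap.comp_apply, g2 c (hL c hc')]) 0
      have e6 : P * prodR (fun m x => ρ m x) 0 (a :: l) * P =
          prodR (fun m x => ρ m x) 0 (a :: l) := by
        rw [mul_assoc, prodR_right _ P l a 0 fun c hc' m => rr m c (hL c hc'), prodR,
          ← mul_assoc, rl 0 a ha]
      have e7 : d0 β (TH k B (cons β n (ww β (a :: l)))) =
          (-1 : k) ^ D • cons β (a' * n) (ww β l') := by
        rw [e1, ww_concat, d0_TH_cons_snoc, om_ww, map_smul, ← e2, pow_succ, mul_neg_one,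
          neg_smul]
      have e8 : P * φ' 0 (g a) = φ 0 a * P := by
        rw [hφ', g2 a ha, mul_add, mul_smul_comm, mul_sub, mul_one, pp, sub_self, smul_zero,
          add_zero, pl 0 a ha, pr 0 a ha]
      have e9 : φ' D (g a') * P = P * φ D a' := by
        rw [hφ', g2 a' ha', add_mul, smul_mul_assoc, sub_mul, one_mul, pp, sub_self, smul_zero,
          add_zero, pl D a' ha', pr D a' ha']
      rw [ww_cons β n, bH_apply, bp_cons, e7, ww_cons β a l, d0_cons_cons, ← ww_cons β a l, map_add,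
        map_sub, map_smul, hΨ, hΨ, hΨ, e4, w1, w1, hR.νmul, hR.νmul, hN n hn, hN n hn, zero_mul,
        zero_add, mul_zero, add_zero, ← e6, ← e5, e3, mul_add, mul_sub, add_mul, sub_mul,
        mul_add, mul_sub, Matrix.trace_add, Matrix.trace_sub, mul_smul_comm, smul_mul_assoc,
        mul_smul_comm, Matrix.trace_smul, ← mul_assoc P (φ' 0 (g a)), e8,
        mul_assoc (φ D a'), Matrix.trace_mul_comm (φ D a'), mul_assoc P (_ * φ' D (g a')),
        mul_assoc _ (φ' D (g a')), e9]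
      simp only [mul_assoc]
    exact this hz
  rw [key z hz, ← piL_bH, hb, map_zero, map_zero]

end Pool.Agent.MP_92f1cb_al.H21T
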