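import Pool.Agent.MP_92f1cb_al.H21T.Pf
import Pool.Agent.MP_92f1cb_al.H34G.Chi

set_option autoImplicit false

namespace Pool.Agent.MP_92f1cb_al.H21T.H79

open Pool.Agent.MP_92f1cb_al.H14 Pool.Agent.MP_92f1cb_al.H14C Module

theorem rp_eq {k G C : Type} [Field k] [Ring G] [Algebra k G] [Fintype C] [DecidableEq C]
    (ρ : ℕ → G →ₗ[k] Matrix C C k) (l : List G) : ∀ m,
    H34G.rp (fun n => (Matrix.toLinAlgEquiv' (R := k) (n := C)).toLinearMap ∘ₗ ρ n) m l =
      Matrix.toLinAlgEquiv' (prodR (fun m a => ρ m a) m l) := by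
  induction l with
  | nil => intro m; rw [H34G.rp, prodR, map_one]
  | cons a l ih => intro m; rw [H34G.rp, prodR, map_mul, ih]; rfl

theorem sGl2 : SGl2 := by
  intro k G B C R _ _ _ _ _ _ _ β σ φ ρ ν N V e f ι D₀ D hr hN hV he hf ee ef fe hu up dg _ _ _
    hι hD hlt z hz hb
  let T := (Matrix.toLinAlgEquiv' (R := k) (n := C))
  have ff : f * f = f := by
    have h := (hu f hf).1
    rwa [add_mul, ef, zero_add] at h
  have hmem : ∀ c, ι c ∈ cor f V := fun c => hι.range ▸ LinearMap.mem_range_self ι c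
  refine H34G.chi_zero β (Γ := V) (φ := fun n => T.toLinearMap ∘ₗ (φ n).toLinearMap)
    (ρ := fun n => T.toLinearMap ∘ₗ ρ n) (ι := ι) (ε := e) (y := f)
    ⟨hV, fun n a _ c _ => ?_, fun n a _ c _ => ?_⟩
    ⟨he, hf, ee, ff, ef, fe, fun a ha => (hu a ha).1, fun a ha => (hu a ha).2, up, dg, hι.mul,
      hι.one, hι.inj, fun c => (mem_cor.1 (hmem c)).1.1, fun a ha => ?_⟩ hD (D := D)
    (by omega) N (T.toLinearMap ∘ₗ ν D) (fun n hn a _ => ?_) (fun n hn a _ => ?_)
    (PW β (ν D) ρ D) (fun n _ l _ => ?_) hz hb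
  · show T (φ n (a * c)) = T (φ n a) * T (φ n c)
    rw [map_mul, map_mul]
  · show T (ρ n (a * c)) = T (φ n a) * T (ρ n c) + T (ρ n a) * T (φ (n + 1) c)
    rw [hr.ρmul, map_add, map_mul, map_mul]
  · have h : f * a * f ∈ LinearMap.range ι := by
      rw [hι.range]
      refine mem_cor.2 ⟨⟨hV _ (hV _ hf _ ha) _ hf, ?_⟩, ?_⟩
      · rw [← mul_assoc, ← mul_assoc, ff]
      · rw [mul_assoc, ff]
    exact h
  · show T (ν D (n * a)) = T (ν D n) * T (φ 0 a)
    rw [hr.νmul, hN n hn, zero_mul, zero_add, map_mul]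
  · show T (ν D (a * n)) = T (φ D a) * T (ν D n)
    rw [hr.νmul, hN n hn, mul_zero, add_zero, map_mul]
  · rw [PfA.PW_ww, pf, rp_eq]
    split_ifs
    · show _ = LinearMap.trace k (C → k) (T (ν D n) * T (prodR (fun m a => ρ m a) 0 l))
      rw [← map_mul]
      exact (Matrix.trace_toLin'_eq _).symm
    · rfl

end Pool.Agent.MP_92f1cb_al.H21T.H79
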