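import Pool.Agent.MP_92f1cb_al.H21T.H22GenB

set_option autoImplicit false

namespace Pool.Agent.MP_92f1cb_al.H21T.H22

open Pool.Agent.MP_92f1cb_al.H14 Pool.Agent.MP_92f1cb_al.H14C Module

variable {k G B : Type} [Field k] [Ring G] [Algebra k G] {β : Basis B k G}
  {σ : G →ₐ[k] G} {δ p q : End k G} {e : G}

open Classical in
theorem repr_adp {P : End k G} (h : Adp β P) (a : G) (x : B) :
    β.repr (P a) x = if P (β x) = β x then β.repr a x else 0 := by
  induction a using basis_ind' β with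
  | hb y =>
    by_cases hxy : y = x
    · subst hxy
      rcases h y with hy | hy
      · rw [if_pos hy, hy]
      · rw [hy, if_neg (β.ne_zero y).symm]; simp
    · rcases h y with hy | hy <;> rw [hy] <;> simp [hxy]
  | h0 => simp
  | hadd a c ha hc => simp only [map_add, Finsupp.add_apply, ha, hc]; split_ifs <;> simp
  | hsmul r a ha => simp only [map_smul, Finsupp.smul_apply, ha]; split_ifs <;> simp

theorem adp_fix {P : End k G} (h : Adp β P) {a : G} (ha : P a = a) {x : B}
    (hx : β.repr a x ≠ 0) : P (β x) = β x := by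
  by_contra hn
  have := repr_adp h a x
  rw [if_neg hn, ha] at this
  exact hx this

theorem adp_kill {P : End k G} (h : Adp β P) {a : G} (ha : P a = 0) {x : B}
    (hx : β.repr a x ≠ 0) : P (β x) = 0 := by
  refine (h x).resolve_left fun hy => hx ?_
  have := repr_adp h a x
  rw [if_pos hy, ha] at this
  simpa using this.symm

/-- The junction of `u` with the letter `y` is of type `e`. -/
def Gd (β : Basis B k G) (e : G) (u : List B) (y : B) : Prop :=
  ∀ x ∈ u.getLast?, β x * e = β x ∧ e * β y = β y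

open Classical in
/-- One step of the splitting. -/
noncomputable def st (β : Basis B k G) (e : G) (s : List B × List B) (y : B) : List B × List B :=
  if s.2 = [] ∧ Gd β e s.1 y then (s.1 ++ [y], []) else (s.1, s.2 ++ [y])

/-- The longest initial piece with junctions of type `e`, and the rest. -/
noncomputable def sp (β : Basis B k G) (e : G) (w : List B) : List B × List B :=
  w.foldl (st β e) ([], [])

theorem sp_concat (w : List B) (y : B) : sp β e (w ++ [y]) = st β e (sp β e w) y := by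
  simp [sp]

theorem sp_one (x : B) : sp β e [x] = ([x], []) := by simp [sp, st, Gd]

theorem sp_app {u : List B} (hu : sp β e u = (u, [])) (ρ : List B)
    (h : ∀ y ∈ ρ.head?, ¬ Gd β e u y) : sp β e (u ++ ρ) = (u, ρ) := by
  induction ρ using List.reverseRecOn with
  | nil => simpa using hu
  | append_singleton ρ y ih =>
    rw [← List.append_assoc, sp_concat]
    cases ρ with
    | nil => rw [List.append_nil, hu, st, if_neg fun h' => h y (by simp) h'.2]
    | cons x ρ => rw [ih (by simpa using h), st, if_neg (by simp)]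

/-- Basis words with head fixed by `q` and the other letters fixed by `p`. -/
inductive XB (β : Basis B k G) (p q : End k G) : List B → Prop
  | one {x : B} : q (β x) = β x → XB β p q [x]
  | snoc {w : List B} {y : B} : XB β p q w → p (β y) = β y → XB β p q (w ++ [y])

theorem XB.ne {w : List B} (h : XB β p q w) : w ≠ [] := by cases h <;> simp

theorem Rm_ee (u : List B) (x : B) : Rm β (LinearMap.mulRight k e) (ee (0, u ++ [x])) =
    snoc β (β x * e) (ee (0, u)) := by rw [ee_concat β, Rm_snoc]; rfl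

theorem sp_spec (hp : Pair σ δ (fx q) (fx p)) (he : Cl σ δ (fx p) e) {w : List B}
    (h : XB β p q w) : (sp β e w).1 ++ (sp β e w).2 = w ∧ (sp β e w).1 ≠ [] ∧
      (ee (0, (sp β e w).1) : WW k B) ∈ KW β (fx q) (fx p) e 1 ∧
      (∀ y ∈ (sp β e w).2, p (β y) = β y) ∧
      ∀ y ∈ (sp β e w).2.head?, ¬ Gd β e (sp β e w).1 y := by
  induction h with
  | @one x hx =>
    rw [sp_one]
    refine ⟨rfl, by simp, ?_, by simp, by simp⟩
    rw [ee_eq_ww β]
    exact one_mem_K hx
  | @snoc w y _ hy ih =>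
    obtain ⟨h1, h2, h3, h4, h5⟩ := ih
    rw [sp_concat, st]
    split_ifs with hc
    · rw [hc.1, List.append_nil] at h1
      refine ⟨by simp [h1], by simp, ?_, by simp, by simp⟩
      obtain ⟨u, x, hu⟩ := (List.eq_nil_or_concat' _).resolve_left h2
      have hg := hc.2 x (by simp [hu])
      have := snoc_K hp he hy hg.2 h3
      rw [hu, Rm_ee, hg.1, ← ee_concat, ← ee_concat] at this
      rwa [hu]
    · refine ⟨by rw [← List.append_assoc, h1], h2, h3, fun x hx => ?_, fun x hx => ?_⟩
      · rcases List.mem_append.1 hx with hx | hx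
        · exact h4 x hx
        · rw [List.mem_singleton.1 hx]; exact hy
      · cases hr : (sp β e w).2 with
        | nil =>
          rw [hr] at hx
          obtain rfl : y = x := by simpa using hx
          exact fun hg => hc ⟨hr, hg⟩
        | cons z r =>
          rw [hr] at hx h5
          exact h5 x (by simpa using hx)

/-- The filtration on basis words. -/
noncomputable def FB (β : Basis B k G) (σ : G →ₐ[k] G) (p q : End k G) (e : G) (c : ℕ) :
    Submodule k (WW k B) :=
  Finsupp.supported k k {s | XB β p q s.2 ∧ wl σ ((sp β e s.2).2.map β) ≤ c}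

theorem wl_eq_zero {v : List B} (h : wl σ (v.map β) ≤ 0) : v = [] := by
  rcases List.eq_nil_or_concat' v with rfl | ⟨v, a, rfl⟩
  · rfl
  · have := wt_pos (σ := σ) (β a)
    rw [List.map_append, List.map_singleton, wl_concat] at h
    omega

theorem ee_split (hp : Pair σ δ (fx q) (fx p)) (he : Cl σ δ (fx p) e) {s : ZMod 1 × List B}
    (h : XB β p q s.2) :
    (ee s : WW k B) = apL β ((sp β e s.2).2.map β) (ee (0, (sp β e s.2).1)) := by
  rw [apL_ee, (sp_spec hp he h).1, Subsingleton.elim 0 s.1]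

theorem rest_mem (hp : Pair σ δ (fx q) (fx p)) (he : Cl σ δ (fx p) e) {w : List B}
    (h : XB β p q w) : ∀ a ∈ (sp β e w).2.map β, a ∈ fx p := fun a ha => by
  obtain ⟨x, hx, rfl⟩ := List.mem_map.1 ha
  exact (sp_spec hp he h).2.2.2.1 x hx

theorem FB_le_F (hp : Pair σ δ (fx q) (fx p)) (he : Cl σ δ (fx p) e) {c : ℕ} {z : WW k B}
    (hz : z ∈ FB β σ p q e c) : z ∈ FF' β σ (fx q) (fx p) e c :=
  mem_of_supported LinearMap.id _ _ (fun s hs => by
    rw [LinearMap.id_apply, ee_split hp he hs.1]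
    exact mem_F (rest_mem hp he hs.1) hs.2 (sp_spec hp he hs.1).2.2.1) hz

theorem snoc_basis_ind {P : Submodule k (WW k B)} (Q : B → Prop) (W : WW k B)
    (h : ∀ y, Q y → snoc β (β y) W ∈ P) {a : G} (ha : ∀ y, β.repr a y ≠ 0 → Q y) :
    snoc β a W ∈ P :=
  basis_ind β Q (P := fun a => snoc β a W ∈ P) h (by simp)
    (fun x y hx hy => by simpa using P.add_mem hx hy)
    (fun c x hx => by simpa using P.smul_mem c hx) a ha

theorem snoc_FB (aσ : Adp β σ.toLinearMap) (ap : Adp β p) {c : ℕ} {a : G} (ha : a ∈ fx p)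
    {z : WW k B} (hz : z ∈ FB β σ p q e c) : snoc β a z ∈ FB β σ p q e (c + wt σ a) :=
  mem_of_supported (snoc β a) _ _ (fun s hs => by
    refine snoc_basis_ind (fun y => p (β y) = β y ∧ wt σ (β y) ≤ wt σ a) _ (fun y hy => ?_)
      (fun y hy => ⟨adp_fix ap ha hy, ?_⟩)
    · rw [← ee_concat β s.1 y s.2]
      refine ee_mem ⟨hs.1.snoc hy.1, ?_⟩
      have := hs.2
      have := hy.2
      simp only [sp_concat, st]
      split_ifs
      · simp [wl]
      · rw [List.map_append, List.map_singleton, wl_concat]; omega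
    · by_cases h0 : σ a = 0
      · rw [wt_zero h0, wt_zero (adp_kill aσ h0 hy)]
      · rw [wt_two h0]; exact wt_le _) hz

theorem K_le_FB (hp : Pair σ δ (fx q) (fx p)) (he : Cl σ δ (fx p) e)
    (al : Adp β (LinearMap.mulLeft k e)) (ar : Adp β (LinearMap.mulRight k e)) (ap : Adp β p)
    (aq : Adp β q) {z : WW k B} (hz : z ∈ KW β (fx q) (fx p) e 1) : z ∈ FB β σ p q e 0 := by
  refine K_ind _ (fun n hn => ?_) (fun V _ hV hR a ha ea => ?_) hz
  · rw [ww_cons, cons_nil, ww_nil]
    refine snoc_basis_ind (fun y => q (β y) = β y) _ (fun y hy => ?_) fun y hy => adp_fix aq hn hy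
    rw [← ee_concat β]
    exact ee_mem ⟨XB.one hy, by simp [sp_one, wl]⟩
  · rw [← hR]
    refine mem_of_supported (snoc β a ∘ₗ Rm β (LinearMap.mulRight k e)) _ _ (fun s hs => ?_) hV
    obtain ⟨c, w⟩ := s
    obtain ⟨u, x, rfl⟩ := (List.eq_nil_or_concat' _).resolve_left hs.1.ne
    rw [LinearMap.comp_apply, Subsingleton.elim c 0, Rm_ee]
    rcases ar x with hx | hx <;> rw [LinearMap.mulRight_apply] at hx <;> rw [hx]
    · rw [← ee_concat]
      refine snoc_basis_ind (fun y => p (β y) = β y ∧ e * β y = β y) _ (fun y hy => ?_)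
        fun y hy => ⟨adp_fix ap ha hy, adp_fix al ea hy⟩
      rw [← ee_concat]
      refine ee_mem ⟨hs.1.snoc hy.1, ?_⟩
      have h0 := wl_eq_zero hs.2
      have h1 := (sp_spec hp he hs.1).1
      simp only [h0, List.append_nil] at h1
      simp only at h0
      rw [sp_concat (u ++ [x]), st, if_pos ⟨h0, by rw [h1]; simp [Gd, hx, hy.2]⟩]
      simp [wl]
    · simp

theorem F_le_FB (hp : Pair σ δ (fx q) (fx p)) (he : Cl σ δ (fx p) e)
    (al : Adp β (LinearMap.mulLeft k e)) (ar : Adp β (LinearMap.mulRight k e))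
    (aσ : Adp β σ.toLinearMap) (ap : Adp β p) (aq : Adp β q) {c : ℕ} {z : WW k B}
    (hz : z ∈ FF' β σ (fx q) (fx p) e c) : z ∈ FB β σ p q e c :=
  F_map LinearMap.id _ (fun v hv hc W hW => by
    have : apL β v W ∈ FB β σ p q e (wl σ v) := by
      clear hc
      induction v using List.reverseRecOn with
      | nil => exact K_le_FB hp he al ar ap aq hW
      | append_singleton v a ih =>
        rw [apL_concat, wl_concat]
        exact snoc_FB aσ ap (hv a (by simp)) (ih fun x hx => hv x (by simp [hx]))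
    exact mem_of_supported LinearMap.id _ (FB β σ p q e c)
      (fun s hs => ee_mem (And.intro hs.1 (hs.2.trans hc))) this) hz

open Classical in
/-- The coefficient of a given rest. -/
noncomputable def xt (β : Basis B k G) (e : G) (ρ : List B) : End k (WW k B) :=
  mk fun s => if (sp β e s.2).2 = ρ then ee (0, (sp β e s.2).1) else 0

open Classical in
/-- The projection on the words that have a junction of another type with `ρ`. -/
noncomputable def JJ (β : Basis B k G) (e : G) (ρ : List B) : End k (WW k B) :=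
  if ∃ y ∈ ρ.head?, e * β y = β y then 1 - Rm β (LinearMap.mulRight k e) else 1

theorem xt_zero {c : ℕ} {ρ : List B} (h : c < wl σ (ρ.map β)) {z : WW k B}
    (hz : z ∈ FB β σ p q e c) : xt β e ρ z = 0 :=
  eq_of_supported _ 0 _ (fun s hs => by
    rw [xt, mk_ee, if_neg fun h' => by have := hs.2; rw [h'] at this; omega]; rfl) hz

theorem xt_K (hp : Pair σ δ (fx q) (fx p)) (he : Cl σ δ (fx p) e) {c : ℕ} (ρ : List B)
    {z : WW k B} (hz : z ∈ FB β σ p q e c) : xt β e ρ z ∈ KW β (fx q) (fx p) e 1 :=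
  mem_of_supported _ _ _ (fun s hs => by
    rw [xt, mk_ee]
    split_ifs
    · exact (sp_spec hp he hs.1).2.2.1
    · exact Submodule.zero_mem _) hz

open Classical in
theorem xt_ap (hp : Pair σ δ (fx q) (fx p)) (he : Cl σ δ (fx p) e)
    (ar : Adp β (LinearMap.mulRight k e)) (ρ ρ' : List B) {W : WW k B}
    (hW : W ∈ FB β σ p q e 0) : xt β e ρ (apL β (ρ'.map β) (JJ β e ρ' W)) =
      if ρ' = ρ then JJ β e ρ' W else 0 := by
  have := eq_of_supported (xt β e ρ ∘ₗ apL β (ρ'.map β) ∘ₗ JJ β e ρ')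
    (if ρ' = ρ then JJ β e ρ' else 0) _ (fun s hs => by
      obtain ⟨c, w⟩ := s
      have h0 := wl_eq_zero hs.2
      have h1 := (sp_spec hp he hs.1).1
      simp only [h0, List.append_nil] at h1
      have h2 : sp β e w = (w, []) := Prod.ext h1 h0
      have key : (∀ y ∈ ρ'.head?, ¬ Gd β e w y) → xt β e ρ (apL β (ρ'.map β) (ee (0, w))) =
          if ρ' = ρ then ee (0, w) else 0 := fun h => by
        rw [apL_ee, xt, mk_ee, sp_app h2 ρ' h]
      obtain ⟨u, x, rfl⟩ := (List.eq_nil_or_concat' _).resolve_left hs.1.ne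
      rw [Subsingleton.elim c 0, LinearMap.comp_apply, LinearMap.comp_apply]
      have fin : ∀ V : WW k B, JJ β e ρ' (ee (0, u ++ [x])) = V →
          (xt β e ρ (apL β (ρ'.map β) V) = if ρ' = ρ then V else 0) →
          xt β e ρ (apL β (ρ'.map β) (JJ β e ρ' (ee (0, u ++ [x])))) =
            (if ρ' = ρ then JJ β e ρ' else 0) (ee (0, u ++ [x])) := fun V h1 h2 => by
        rw [h1, h2]; split_ifs
        · exact h1.symm
        · rfl
      by_cases hc : ∃ y ∈ ρ'.head?, e * β y = β y
      · rcases ar x with hx | hx <;> rw [LinearMap.mulRight_apply] at hx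
        · refine fin 0 ?_ (by simp)
          rw [JJ, if_pos hc, LinearMap.sub_apply, Rm_ee, hx, ← ee_concat]; simp
        · refine fin _ ?_ (key fun y _ hg => β.ne_zero x ?_)
          · rw [JJ, if_pos hc, LinearMap.sub_apply, Rm_ee, hx]; simp
          · rw [← (hg x (by simp)).1, hx]
      · refine fin _ ?_ (key fun y hy hg => hc ⟨y, hy, (hg x (by simp)).2⟩)
        rw [JJ, if_neg hc]; rfl) hW
  rw [LinearMap.comp_apply, LinearMap.comp_apply] at this
  rw [this]
  split_ifs <;> rfl

theorem JJ_seg (hp : Pair σ δ (fx q) (fx p)) (he : Cl σ δ (fx p) e)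
    (ar : Adp β (LinearMap.mulRight k e)) {w : List B} (h : XB β p q w) :
    JJ β e (sp β e w).2 (ee (0, (sp β e w).1)) = ee (0, (sp β e w).1) := by
  obtain ⟨_, h2, _, _, h5⟩ := sp_spec hp he h
  obtain ⟨u, x, hu⟩ := (List.eq_nil_or_concat' _).resolve_left h2
  rw [JJ]
  split_ifs with hc
  · obtain ⟨y, hy, ey⟩ := hc
    rcases ar x with hx | hx <;> rw [LinearMap.mulRight_apply] at hx
    · exact absurd (by rw [hu]; simp [Gd, hx, ey]) (h5 y hy)
    · rw [hu, LinearMap.sub_apply, Rm_ee, hx]; simp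
  · rfl

theorem JJ_DK (hd : DG σ δ) (h : Calc β σ δ) (he : δ e = 0) (ρ : List B) (c : k) (W : WW k B) :
    DK β σ δ c (JJ β e ρ W) = JJ β e ρ (DK β σ δ c W) := by
  rw [JJ]
  split_ifs
  · simp [Rm_DK hd h he]
  · rfl

theorem step (hd : DG σ δ) (h : Calc β σ δ) (hp : Pair σ δ (fx q) (fx p))
    (he : Cl σ δ (fx p) e) (al : Adp β (LinearMap.mulLeft k e))
    (ar : Adp β (LinearMap.mulRight k e)) (aσ : Adp β σ.toLinearMap) (ap : Adp β p)
    (aq : Adp β q) (hK : ∀ c : k, c = 1 ∨ c = -1 → Ex (DK β σ δ c) (KW β (fx q) (fx p) e 1))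
    (c : ℕ) : QEx (DD β σ δ) (FF' β σ (fx q) (fx p) e (c + 1)) (FF' β σ (fx q) (fx p) e c) := by
  classical
  intro z hz hD
  have toB : ∀ {c : ℕ} {z : WW k B}, z ∈ FF' β σ (fx q) (fx p) e c → z ∈ FB β σ p q e c :=
    fun hz => F_le_FB hp he al ar aσ ap aq hz
  have hzB := toB hz
  have comm : ∀ ρ : List B, wl σ (ρ.map β) = c + 1 →
      xt β e ρ (DD β σ δ z) = DK β σ δ ((-1) ^ (ρ.map β).length) (xt β e ρ z) := fun ρ hρ =>
    eq_of_supported (xt β e ρ ∘ₗ DD β σ δ) (DK β σ δ _ ∘ₗ xt β e ρ) _ (fun s hs => by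
      have hu := (sp_spec hp he hs.1).2.2.1
      have h1 := xt_zero (ρ := ρ) (by have := hs.2; omega)
        (toB (DD_ap hd h hp he (rest_mem hp he hs.1) hu))
      rw [map_sub, sub_eq_zero, ← ee_split hp he hs.1] at h1
      rw [LinearMap.comp_apply, LinearMap.comp_apply, h1, ← JJ_seg hp he ar hs.1,
        JJ_DK hd h he.cl, xt_ap hp he ar _ _ (K_le_FB hp he al ar ap aq (DK_K hd h hp he _ hu)),
        ← JJ_DK hd h he.cl, JJ_seg hp he ar hs.1, xt, mk_ee]
      split_ifs with hr
      · rw [hr]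
      · rw [map_zero]) hzB
  have sol : ∀ ρ : List B, ∃ u ∈ KW β (fx q) (fx p) e 1, wl σ (ρ.map β) = c + 1 →
      DK β σ δ ((-1) ^ (ρ.map β).length) u = xt β e ρ z := fun ρ => by
    by_cases hρ : wl σ (ρ.map β) = c + 1
    · obtain ⟨u, hu, hDu⟩ := hK _ (neg_one_pow_eq_or k _) _ (xt_K hp he ρ hzB)
        (by rw [← comm ρ hρ]; exact xt_zero (by omega) (toB hD))
      exact ⟨u, hu, fun _ => hDu⟩
    · exact ⟨0, Submodule.zero_mem _, fun h' => absurd h' hρ⟩
  choose u hu hDu using sol
  let S : Finset (List B) :=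
    (z.support.image fun s => (sp β e s.2).2).filter fun ρ => wl σ (ρ.map β) = c + 1
  have hz' := (Finsupp.mem_supported k z).1 hzB
  have hS : ∀ ρ ∈ S, wl σ (ρ.map β) = c + 1 ∧ ∀ a ∈ ρ.map β, a ∈ fx p := fun ρ hρ => by
    obtain ⟨h1, h2⟩ := Finset.mem_filter.1 hρ
    obtain ⟨s, hs, rfl⟩ := Finset.mem_image.1 h1
    exact ⟨h2, rest_mem hp he (hz' hs).1⟩
  refine ⟨∑ ρ ∈ S, apL β (ρ.map β) (u ρ), Submodule.sum_mem _ fun ρ hρ =>
    mem_F (hS ρ hρ).2 (hS ρ hρ).1.le (hu ρ), ?_⟩
  have h1 : z - ∑ ρ ∈ S, apL β (ρ.map β) (xt β e ρ z) ∈ FF' β σ (fx q) (fx p) e c := by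
    have := mem_of_supported (LinearMap.id - ∑ ρ ∈ S, apL β (ρ.map β) ∘ₗ xt β e ρ)
      (z.support : Set _) (FB β σ p q e c) (fun s hs => by
        have hs' := hz' hs
        simp only [LinearMap.sub_apply, LinearMap.id_apply, LinearMap.sum_apply,
          LinearMap.comp_apply, xt, mk_ee, apply_ite (apL β _), map_zero, Finset.sum_ite_eq]
        split_ifs with hm
        · rw [← ee_split hp he hs'.1, sub_self]; exact Submodule.zero_mem _
        · rw [sub_zero]
          refine ee_mem ⟨hs'.1, ?_⟩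
          have h2 := hs'.2
          have h3 : wl σ ((sp β e s.2).2.map β) ≠ c + 1 := fun h3 =>
            hm (Finset.mem_filter.2 ⟨Finset.mem_image_of_mem _ hs, h3⟩)
          omega) ((Finsupp.mem_supported k z).2 le_rfl)
    simpa [LinearMap.sum_apply] using FB_le_F hp he this
  have h2 : ∑ ρ ∈ S, (DD β σ δ (apL β (ρ.map β) (u ρ)) - apL β (ρ.map β) (xt β e ρ z)) ∈
      FF' β σ (fx q) (fx p) e c := Submodule.sum_mem _ fun ρ hρ => by
    have := DD_ap hd h hp he (hS ρ hρ).2 (hu ρ)
    rwa [hDu ρ (hS ρ hρ).1, (hS ρ hρ).1] at this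
  have := Submodule.sub_mem _ h1 h2
  rwa [Finset.sum_sub_distrib, sub_sub, add_sub_cancel, ← map_sum] at this

theorem sGen : SGen := by
  intro k G B _ _ _ β σ δ p q e hd h hp he al ar aσ ap aq hK z hz hD
  obtain ⟨c, hc⟩ := X_le_F (σ := σ) (e := e) hz
  clear hz
  induction c generalizing z with
  | zero =>
    obtain ⟨u, hu, h1⟩ := base_step hd h hp he (hK 1 (Or.inl rfl)) z (F0_le_K hc) hD
    exact ⟨u, K_le_X hu, h1⟩
  | succ c ih =>
    obtain ⟨u, hu, h1⟩ := step hd h hp he al ar aσ ap aq hK c z hc (K_le_F _ (Xe_le_K hD))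
    obtain ⟨u', hu', h2⟩ := ih _ (by rwa [map_sub, h.DD_DD, sub_zero]) h1
    exact ⟨u + u', Submodule.add_mem _ (F_le_X hu) hu', by rwa [map_add, ← sub_sub]⟩

end Pool.Agent.MP_92f1cb_al.H21T.H22
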