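import Pool.Agent.MP_92f1cb_al.H21T.Spec

set_option autoImplicit false

namespace Pool.Agent.MP_92f1cb_al.H21T.H22

open Pool.Agent.MP_92f1cb_al.H14 Pool.Agent.MP_92f1cb_al.H14C Module

variable {k G B : Type} [Field k] [Ring G] [Algebra k G] (β : Basis B k G)

/-- Apply `φ` to the last letter. -/
noncomputable def Rm (φ : End k G) : End k (WW k B) :=
  mk fun p => match p.2.getLast? with
    | none => 0
    | some x => snoc β (φ (β x)) (ee (0, p.2.dropLast))

theorem Rm_nil (φ : End k G) : Rm β φ (ww β []) = 0 := by simp [Rm, ww_nil]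

theorem Rm_snoc (φ : End k G) (a : G) (W : WW k B) :
    Rm β φ (snoc β a W) = snoc β (φ a) W := by
  induction a using basis_ind' β with
  | hb x =>
    induction W using ee_ind with
    | hb c w => rw [← ee_concat, Subsingleton.elim c 0]; simp [Rm]
    | h0 => simp
    | hadd x y hx hy => simp only [map_add, hx, hy]
    | hsmul c x hx => simp only [map_smul, hx]
  | h0 => simp
  | hadd x y hx hy => simp only [map_add, LinearMap.add_apply, hx, hy]
  | hsmul c x hx => simp only [map_smul, LinearMap.smul_apply, hx]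

theorem sn_ext {X : Type} [AddCommGroup X] [Module k X] (f g : WW k B →ₗ[k] X)
    (h0 : f (ww β []) = g (ww β [])) (h : ∀ a W, f (snoc β a W) = g (snoc β a W))
    (W : WW k B) : f W = g W := by
  refine ww_ext β (fun l => ?_) W
  induction l using List.reverseRecOn with
  | nil => exact h0
  | append_singleton l a _ => rw [ww_concat]; exact h _ _

theorem cn_ext {X : Type} [AddCommGroup X] [Module k X] (f g : WW k B →ₗ[k] X)
    (h0 : f (ww β []) = g (ww β [])) (h : ∀ a W, f (cons β a W) = g (cons β a W))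
    (W : WW k B) : f W = g W := by
  refine ww_ext β (fun l => ?_) W
  cases l with
  | nil => exact h0
  | cons a l => rw [ww_cons]; exact h _ _

theorem om_nil : om (ww β []) = ww β [] := by rw [om_ww]; simp

theorem Rm_om (φ : End k G) (W : WW k B) : Rm β φ (om W) = om (Rm β φ W) :=
  sn_ext β (Rm β φ ∘ₗ om) (om ∘ₗ Rm β φ) (by simp [om_nil, Rm_nil])
    (fun a W => by simp [om_snoc, Rm_snoc]) W

theorem bp_snoc (a : G) (V : WW k B) :
    bp β (snoc β a V) = snoc β a (bp β V) - Rm β (LinearMap.mulRight k a) (om V) :=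
  sn_ext β (bp β ∘ₗ snoc β a) (snoc β a ∘ₗ bp β - Rm β (LinearMap.mulRight k a) ∘ₗ om)
    (by simp [om_nil, Rm_nil, ← cons_nil, bp_one, bp_ww_nil])
    (fun c W => by simp [om_snoc, Rm_snoc, bp_snoc_snoc]) V

theorem Rm_Rm (φ ψ : End k G) (W : WW k B) : Rm β φ (Rm β ψ W) = Rm β (φ * ψ) W :=
  sn_ext β (Rm β φ ∘ₗ Rm β ψ) _ (by simp [Rm_nil]) (fun a W => by simp [Rm_snoc]) W

theorem Rm_bp (e : G) (W : WW k B) :
    Rm β (LinearMap.mulRight k e) (bp β W) = bp β (Rm β (LinearMap.mulRight k e) W) :=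
  sn_ext β (Rm β (LinearMap.mulRight k e) ∘ₗ bp β) (bp β ∘ₗ Rm β (LinearMap.mulRight k e))
    (by simp [Rm_nil, bp_ww_nil]) (fun a V => by
      have : LinearMap.mulRight k e * LinearMap.mulRight k a = LinearMap.mulRight k (a * e) := by
        ext x; simp [mul_assoc]
      simp only [LinearMap.comp_apply, bp_snoc, map_sub, Rm_snoc, Rm_Rm, this,
        LinearMap.mulRight_apply]) W

theorem d0_cons (a : G) (V : WW k B) :
    d0 β (cons β a V) = Hd β (LinearMap.mulLeft k a) V :=
  cn_ext β (d0 β ∘ₗ cons β a) _ (by simp [d0_ww_one, Hd_nil])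
    (fun c W => by simp [d0_cons_cons, Hd_cons]) V

theorem Hd_om (φ : End k G) (W : WW k B) : Hd β φ (om W) = om (Hd β φ W) :=
  cn_ext β (Hd β φ ∘ₗ om) (om ∘ₗ Hd β φ) (by simp [om_nil, Hd_nil])
    (fun a W => by simp [om_cons, Hd_cons]) W

theorem Hd_bp (e : G) (W : WW k B) :
    Hd β (LinearMap.mulLeft k e) (bp β W) = bp β (Hd β (LinearMap.mulLeft k e) W) :=
  cn_ext β (Hd β (LinearMap.mulLeft k e) ∘ₗ bp β) (bp β ∘ₗ Hd β (LinearMap.mulLeft k e))
    (by simp [Hd_nil, bp_ww_nil]) (fun a V => by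
      have : LinearMap.mulLeft k e * LinearMap.mulLeft k a = LinearMap.mulLeft k (e * a) := by
        ext x; simp
      simp only [LinearMap.comp_apply, bp_cons, d0_cons, map_sub, Hd_cons, Hd_Hd, this,
        LinearMap.mulLeft_apply]) W

/-- Append a list of letters. -/
noncomputable def ap (v : List G) (W : WW k B) : WW k B := v.foldl (fun V a => snoc β a V) W

theorem ap_nil (W : WW k B) : ap β [] W = W := rfl

theorem ap_concat (v : List G) (a : G) (W : WW k B) :
    ap β (v ++ [a]) W = snoc β a (ap β v W) := by simp [ap]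

theorem ap_add (v : List G) (W W' : WW k B) : ap β v (W + W') = ap β v W + ap β v W' := by
  induction v using List.reverseRecOn with
  | nil => rfl
  | append_singleton v a ih => simp only [ap_concat, ih, map_add]

theorem ap_smul (v : List G) (c : k) (W : WW k B) : ap β v (c • W) = c • ap β v W := by
  induction v using List.reverseRecOn with
  | nil => rfl
  | append_singleton v a ih => simp only [ap_concat, ih, map_smul]

/-- Append a list of letters, as a linear map. -/
noncomputable def apL (v : List G) : End k (WW k B) where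
  toFun := ap β v
  map_add' := ap_add β v
  map_smul' := ap_smul β v

theorem apL_nil (W : WW k B) : apL β [] W = W := rfl

theorem apL_concat (v : List G) (a : G) (W : WW k B) :
    apL β (v ++ [a]) W = snoc β a (apL β v W) := ap_concat β v a W

theorem apL_ee (u v : List B) : apL β (v.map β) (ee (0, u)) = ee (0, u ++ v) := by
  induction v using List.reverseRecOn with
  | nil => simp [apL_nil]
  | append_singleton v a ih =>
    rw [List.map_append, List.map_singleton, apL_concat, ih, ← List.append_assoc, ee_concat β]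

theorem apL_cons (v : List G) (a : G) (W : WW k B) :
    apL β v (cons β a W) = cons β a (apL β v W) := by
  induction v using List.reverseRecOn with
  | nil => rfl
  | append_singleton v c ih => rw [apL_concat, apL_concat, ih, cons_snoc]

theorem om_apL (v : List G) (W : WW k B) :
    om (apL β v W) = (-1 : k) ^ v.length • apL β v (om W) := by
  induction v using List.reverseRecOn with
  | nil => simp [apL_nil]
  | append_singleton v c ih =>
    rw [apL_concat, apL_concat, om_snoc, ih, map_smul, List.length_append, List.length_singleton,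
      pow_succ, mul_neg_one, neg_smul]

variable {β} {σ : G →ₐ[k] G} {δ : End k G} {N L : Submodule k G} {e : G}

theorem eps_apply (a : G) : eps σ a = σ a - (a - σ a) := rfl

theorem E_ww (h : Calc β σ δ) (l : List G) :
    wm β β (eps σ) (ww β l) = ww β (l.map (eps σ)) := by
  induction l with
  | nil => exact h.E_nil
  | cons a l ih => rw [ww_cons, h.E_cons, ih]; rfl

theorem E_apL (h : Calc β σ δ) (v : List G) (W : WW k B) :
    wm β β (eps σ) (apL β v W) = apL β (v.map (eps σ)) (wm β β (eps σ) W) := by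
  induction v using List.reverseRecOn with
  | nil => rfl
  | append_singleton v c ih =>
    rw [List.map_append, List.map_singleton, apL_concat, apL_concat, h.E_snoc, ih]

theorem eps_mul (he : σ e = e) (a : G) : eps σ (a * e) = eps σ a * e := by
  simp [eps_apply, he, sub_mul]

theorem mul_eps (he : σ e = e) (a : G) : eps σ (e * a) = e * eps σ a := by
  simp [eps_apply, he, mul_sub]

theorem eps_mem (hV : ∀ a ∈ N, σ a ∈ N) {a : G} (ha : a ∈ N) : eps σ a ∈ N :=
  N.sub_mem (hV a ha) (N.sub_mem ha (hV a ha))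

theorem Rm_dW (hd : DG σ δ) (h : Calc β σ δ) (he : δ e = 0) (W : WW k B) :
    Rm β (LinearMap.mulRight k e) (dW β σ δ W) = dW β σ δ (Rm β (LinearMap.mulRight k e) W) :=
  sn_ext β (Rm β (LinearMap.mulRight k e) ∘ₗ dW β σ δ)
    (dW β σ δ ∘ₗ Rm β (LinearMap.mulRight k e)) (by simp [Rm_nil, h.dW_nil])
    (fun a V => by simp [h.dW_snoc, Rm_snoc, hd.leib, he]) W

theorem Hd_dW (hd : DG σ δ) (h : Calc β σ δ) (he : δ e = 0) (hs : σ e = e) (W : WW k B) :
    Hd β (LinearMap.mulLeft k e) (dW β σ δ W) = dW β σ δ (Hd β (LinearMap.mulLeft k e) W) :=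
  cn_ext β (Hd β (LinearMap.mulLeft k e) ∘ₗ dW β σ δ)
    (dW β σ δ ∘ₗ Hd β (LinearMap.mulLeft k e)) (by simp [Hd_nil, h.dW_nil])
    (fun a V => by simp [h.dW_cons, Hd_cons, hd.leib, he, mul_eps hs]) W

theorem DK_apply (c : k) (W : WW k B) : DK β σ δ c W = bp β W + c • om (dW β σ δ W) := rfl

theorem DD_apply (W : WW k B) :
    DD β σ δ W = bp β W + d0 β (TS β σ W) + om (dW β σ δ W) := rfl

theorem Rm_DK (hd : DG σ δ) (h : Calc β σ δ) (he : δ e = 0) (c : k) (W : WW k B) :
    Rm β (LinearMap.mulRight k e) (DK β σ δ c W) =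
      DK β σ δ c (Rm β (LinearMap.mulRight k e) W) := by
  rw [DK_apply, DK_apply, map_add, map_smul, Rm_bp, Rm_om, Rm_dW hd h he]

theorem Hd_DK (hd : DG σ δ) (h : Calc β σ δ) (he : δ e = 0) (hs : σ e = e) (c : k)
    (W : WW k B) : Hd β (LinearMap.mulLeft k e) (DK β σ δ c W) =
      DK β σ δ c (Hd β (LinearMap.mulLeft k e) W) := by
  rw [DK_apply, DK_apply, map_add, map_smul, Hd_bp, Hd_om, Hd_dW hd h he hs]

theorem d0_TS (hd : DG σ δ) (h : Calc β σ δ) (a : G) (V : WW k B) :
    d0 β (TS β σ (snoc β a V)) = Hd β (LinearMap.mulLeft k (σ a)) (om V) +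
      Hd β (LinearMap.mulLeft k (a - σ a)) (om (wm β β (eps σ) V)) := by
  have h1 : snoc β a V = snoc β (σ a) V + snoc β (a - σ a) V := by
    rw [← LinearMap.add_apply, ← map_add]; simp
  rw [h1, map_add, map_add, h.TS_L _ _ (hd.split.idem a),
    h.TS_M _ _ (by rw [map_sub, hd.split.idem, sub_self]), d0_cons, d0_cons]

theorem one_mem_K {n : G} (hn : n ∈ N) : ww β [n] ∈ KW β N L e 1 :=
  Submodule.subset_span (Or.inl ⟨n, hn, mul_one n, rfl⟩)

theorem gen_mem_K {n a : G} {l : List G} (hn : n ∈ N) (ha : a ∈ L) (h1 : n * e = n)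
    (h2 : ∀ c ∈ l, c ∈ cor e L) (h3 : e * a = a) : ww β (n :: (l ++ [a])) ∈ KW β N L e 1 :=
  Submodule.subset_span (Or.inr ⟨n, hn, l, a, ha, h1, h2, h3, mul_one a, rfl⟩)

theorem K_map {X : Type} [AddCommGroup X] [Module k X] (f : WW k B →ₗ[k] X)
    (P : Submodule k X) (h1 : ∀ n ∈ N, f (ww β [n]) ∈ P)
    (h2 : ∀ n ∈ N, ∀ l : List G, ∀ a ∈ L, n * e = n → (∀ c ∈ l, c ∈ cor e L) → e * a = a →
      f (ww β (n :: (l ++ [a]))) ∈ P) {W : WW k B} (hW : W ∈ KW β N L e 1) : f W ∈ P :=
  (Submodule.span_le (p := P.comap f)).2 (by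
    rintro _ (⟨n, hn, _, rfl⟩ | ⟨n, hn, l, a, ha, e1, e2, e3, _, rfl⟩)
    · exact h1 n hn
    · exact h2 n hn l a ha e1 e2 e3) hW

theorem ww_cc (n a : G) (l : List G) : ww β (n :: (l ++ [a])) = snoc β a (ww β (n :: l)) :=
  ww_concat β (n :: l) a

theorem Rm_one (φ : End k G) (n : G) : Rm β φ (ww β [n]) = ww β [φ n] := by
  rw [ww_cons, ww_cons, cons_nil, cons_nil, Rm_snoc]

theorem Rm_cc (φ : End k G) (n a : G) (l : List G) :
    Rm β φ (ww β (n :: (l ++ [a]))) = ww β (n :: (l ++ [φ a])) := by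
  rw [ww_cc, ww_cc, Rm_snoc]

theorem K_ind (P : Submodule k (WW k B)) (h1 : ∀ n ∈ N, ww β [n] ∈ P)
    (h2 : ∀ V ∈ KW β N L e 1, V ∈ P → Rm β (LinearMap.mulRight k e) V = V → ∀ a ∈ L, e * a = a →
      snoc β a V ∈ P) {W : WW k B} (hW : W ∈ KW β N L e 1) : W ∈ P := by
  refine K_map LinearMap.id P h1 (fun n hn l a ha e1 e2 e3 => ?_) hW
  rw [LinearMap.id_apply, ww_cc]
  induction l using List.reverseRecOn generalizing a with
  | nil => exact h2 _ (one_mem_K hn) (h1 n hn) (by rw [Rm_one]; simp [e1]) a ha e3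
  | append_singleton l c ih =>
    have hc := mem_cor.1 (e2 c (by simp))
    have hl : ∀ x ∈ l, x ∈ cor e L := fun x hx => e2 x (by simp [hx])
    refine h2 _ (gen_mem_K hn hc.1.1 e1 hl hc.1.2) ?_ (by rw [Rm_cc]; simp [hc.2]) a ha e3
    rw [ww_cc]
    exact ih c hc.1.1 hl hc.1.2

theorem om_K {W : WW k B} (hW : W ∈ KW β N L e 1) : om W ∈ KW β N L e 1 :=
  K_map om _ (fun n hn => by rw [om_ww]; exact Submodule.smul_mem _ _ (one_mem_K hn))
    (fun n hn l a ha e1 e2 e3 => by
      rw [om_ww]; exact Submodule.smul_mem _ _ (gen_mem_K hn ha e1 e2 e3)) hW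

theorem Rm_K (hp : Pair σ δ N L) {c : G} (hc : c ∈ L) {W : WW k B} (hW : W ∈ KW β N L e 1) :
    Rm β (LinearMap.mulRight k c) W ∈ KW β N L e 1 :=
  K_map _ _ (fun n hn => by rw [Rm_one]; exact one_mem_K (hp.NL n hn c hc))
    (fun n hn l a ha e1 e2 e3 => by
      rw [Rm_cc]
      exact gen_mem_K hn (hp.LL a ha c hc) e1 e2 (by simp [← mul_assoc, e3])) hW

theorem Hd_K (hp : Pair σ δ N L) {c : G} (hc : c ∈ L) {W : WW k B} (hW : W ∈ KW β N L e 1) :
    Hd β (LinearMap.mulLeft k c) W ∈ KW β N L e 1 :=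
  K_map _ _ (fun n hn => by rw [ww_cons, Hd_cons]; exact one_mem_K (hp.LN c hc n hn))
    (fun n hn l a ha e1 e2 e3 => by
      rw [ww_cons, Hd_cons]
      exact gen_mem_K (hp.LN c hc n hn) ha (by simp [mul_assoc, e1]) e2 e3) hW

theorem eps_cor (hV : ∀ a ∈ L, σ a ∈ L) (he : σ e = e) {a : G} (ha : a ∈ cor e L) :
    eps σ a ∈ cor e L :=
  mem_cor.2 ⟨⟨eps_mem hV (mem_cor.1 ha).1.1, by rw [← mul_eps he, (mem_cor.1 ha).1.2]⟩,
    by rw [← eps_mul he, (mem_cor.1 ha).2]⟩

theorem E_K (h : Calc β σ δ) (hp : Pair σ δ N L) (he : σ e = e) {W : WW k B}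
    (hW : W ∈ KW β N L e 1) : wm β β (eps σ) W ∈ KW β N L e 1 :=
  K_map _ _ (fun n hn => by rw [E_ww h]; exact one_mem_K (eps_mem hp.σN hn))
    (fun n hn l a ha e1 e2 e3 => by
      rw [E_ww h, List.map_cons, List.map_append, List.map_singleton]
      refine gen_mem_K (eps_mem hp.σN hn) (eps_mem hp.σL ha) (by rw [← eps_mul he, e1])
        (fun c hc => ?_) (by rw [← mul_eps he, e3])
      obtain ⟨x, hx, rfl⟩ := List.mem_map.1 hc
      exact eps_cor hp.σL he (e2 x hx)) hW

theorem snoc_K (hp : Pair σ δ N L) (he : Cl σ δ L e) {c : G} (hc : c ∈ L) (hc' : e * c = c)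
    {W : WW k B} (hW : W ∈ KW β N L e 1) :
    snoc β c (Rm β (LinearMap.mulRight k e) W) ∈ KW β N L e 1 :=
  K_map (snoc β c ∘ₗ Rm β (LinearMap.mulRight k e)) _ (fun n hn => by
      rw [LinearMap.comp_apply, Rm_one, ← ww_concat]
      exact gen_mem_K (l := []) (hp.NL n hn e he.mem) hc (by simp [mul_assoc, he.idem])
        (by simp) hc')
    (fun n hn l a ha e1 e2 e3 => by
      rw [LinearMap.comp_apply, Rm_cc, ← ww_cc]
      refine gen_mem_K hn hc e1 (fun x hx => ?_) hc'
      rcases List.mem_append.1 hx with hx | hx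
      · exact e2 x hx
      · rw [List.mem_singleton.1 hx]
        exact mem_cor.2 ⟨⟨hp.LL a ha e he.mem, by simp [← mul_assoc, e3]⟩,
          by simp [mul_assoc, he.idem]⟩) hW

theorem Rm_E (h : Calc β σ δ) (he : σ e = e) (W : WW k B) :
    Rm β (LinearMap.mulRight k e) (wm β β (eps σ) W) =
      wm β β (eps σ) (Rm β (LinearMap.mulRight k e) W) :=
  sn_ext β (Rm β (LinearMap.mulRight k e) ∘ₗ wm β β (eps σ))
    (wm β β (eps σ) ∘ₗ Rm β (LinearMap.mulRight k e)) (by simp [Rm_nil, h.E_nil])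
    (fun a V => by simp [h.E_snoc, Rm_snoc, eps_mul he]) W

theorem DK_K (hd : DG σ δ) (h : Calc β σ δ) (hp : Pair σ δ N L) (he : Cl σ δ L e) (c : k)
    {W : WW k B} (hW : W ∈ KW β N L e 1) : DK β σ δ c W ∈ KW β N L e 1 := by
  rw [DK_apply]
  refine Submodule.add_mem _ ?_ (Submodule.smul_mem _ _ (om_K ?_))
  · refine K_ind ((KW β N L e 1).comap (bp β)) (fun n _ => ?_) (fun V hV ih hR a ha ea => ?_) hW
    · rw [Submodule.mem_comap, ww_cons, bp_one]; exact Submodule.zero_mem _
    · rw [Submodule.mem_comap, bp_snoc]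
      refine Submodule.sub_mem _ ?_ (Rm_K hp ha (om_K hV))
      rw [← hR, ← Rm_bp]
      exact snoc_K hp he ha ea ih
  · refine K_ind ((KW β N L e 1).comap (dW β σ δ)) (fun n hn => ?_)
      (fun V hV ih hR a ha ea => ?_) hW
    · rw [Submodule.mem_comap, ww_cons, h.dW_cons, h.dW_nil, map_zero, add_zero]
      exact one_mem_K (hp.δN n hn)
    · rw [Submodule.mem_comap, h.dW_snoc, ← hR, ← Rm_dW hd h he.cl, ← Rm_E h he.fix]
      refine Submodule.add_mem _ (snoc_K hp he ha ea ih) (snoc_K hp he (hp.δL a ha) ?_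
        (E_K h hp he.fix hV))
      have := hd.leib e a
      rw [ea, he.cl, zero_mul, zero_add] at this
      exact this.symm

end Pool.Agent.MP_92f1cb_al.H21T.H22
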