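import Pool.Agent.MP_92f1cb_al.H21T.H22GenA

set_option autoImplicit false

namespace Pool.Agent.MP_92f1cb_al.H21T.H22

open Pool.Agent.MP_92f1cb_al.H14 Pool.Agent.MP_92f1cb_al.H14C Module

variable {k G B : Type} [Field k] [Ring G] [Algebra k G] {β : Basis B k G}
  {σ : G →ₐ[k] G} {δ : End k G} {N L : Submodule k G} {e : G}

open Classical in
/-- The weight of a letter. -/
noncomputable def wt (σ : G →ₐ[k] G) (a : G) : ℕ := if σ a = 0 then 1 else 2

/-- The weight of a list. -/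
noncomputable def wl (σ : G →ₐ[k] G) (v : List G) : ℕ := (v.map (wt σ)).sum

theorem wt_pos (a : G) : 1 ≤ wt σ a := by unfold wt; split_ifs <;> omega

theorem wt_le (a : G) : wt σ a ≤ 2 := by unfold wt; split_ifs <;> omega

theorem wt_zero {a : G} (h : σ a = 0) : wt σ a = 1 := by simp [wt, h]

theorem wt_two {a : G} (h : σ a ≠ 0) : wt σ a = 2 := by simp [wt, h]

theorem wl_concat (v : List G) (a : G) : wl σ (v ++ [a]) = wl σ v + wt σ a := by simp [wl]

theorem wt_mul (a c : G) : wt σ (a * c) + 1 ≤ wt σ a + wt σ c := by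
  by_cases h : σ a = 0
  · rw [wt_zero h, wt_zero (by rw [map_mul, h, zero_mul])]
    have := wt_pos (σ := σ) c
    omega
  · have := wt_pos (σ := σ) c
    have := wt_le (σ := σ) (a * c)
    rw [wt_two h]
    omega

theorem wl_eps (hd : DG σ δ) (v : List G) : wl σ (v.map (eps σ)) = wl σ v := by
  simp only [wl, List.map_map]
  refine congrArg _ (List.map_congr_left fun a _ => ?_)
  have : σ (eps σ a) = σ a := by simp [eps_apply, hd.split.idem]
  by_cases h0 : σ a = 0
  · rw [Function.comp, wt_zero h0, wt_zero (this.trans h0)]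
  · rw [Function.comp, wt_two h0, wt_two (this ▸ h0)]

theorem X_map {X : Type} [AddCommGroup X] [Module k X] (f : WW k B →ₗ[k] X)
    (P : Submodule k X) (h : ∀ n ∈ N, ∀ l : List G, (∀ a ∈ l, a ∈ L) → f (ww β (n :: l)) ∈ P)
    {W : WW k B} (hW : W ∈ XW β N L) : f W ∈ P :=
  (Submodule.span_le (p := P.comap f)).2 (by
    rintro _ ⟨n, hn, l, hl, rfl⟩; exact h n hn l hl) hW

theorem mem_X {n : G} {l : List G} (hn : n ∈ N) (hl : ∀ a ∈ l, a ∈ L) :
    ww β (n :: l) ∈ XW β N L := Submodule.subset_span ⟨n, hn, l, hl, rfl⟩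

theorem mem_X' {n a : G} {l : List G} (hn : n ∈ N) (hl : ∀ c ∈ l, c ∈ L) (ha : a ∈ L) :
    ww β (n :: (l ++ [a])) ∈ XW β N L :=
  mem_X hn fun c hc => by
    rcases List.mem_append.1 hc with hc | hc
    · exact hl c hc
    · rw [List.mem_singleton.1 hc]; exact ha

theorem K_le_X {W : WW k B} (hW : W ∈ KW β N L e 1) : W ∈ XW β N L :=
  K_map LinearMap.id _ (fun _ hn => mem_X hn (by simp))
    (fun _ hn _ _ ha _ e2 _ => mem_X' hn (fun c hc => (mem_cor.1 (e2 c hc)).1.1) ha) hW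

theorem Xe_le_K {W : WW k B} (hW : W ∈ XW β (cor e N) (cor e L)) : W ∈ KW β N L e 1 :=
  X_map LinearMap.id _ (fun n hn l hl => by
    have h := mem_cor.1 hn
    rcases List.eq_nil_or_concat' l with rfl | ⟨l, a, rfl⟩
    · exact one_mem_K h.1.1
    · have ha := mem_cor.1 (hl a (by simp))
      exact gen_mem_K h.1.1 ha.1.1 h.2 (fun c hc => hl c (by simp [hc])) ha.1.2) hW

theorem Q_mem (hp : Pair σ δ N L) (he : Cl σ δ L e) {W : WW k B} (hW : W ∈ KW β N L e 1) :
    Hd β (LinearMap.mulLeft k e) (Rm β (LinearMap.mulRight k e) W) ∈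
      XW β (cor e N) (cor e L) :=
  K_map (Hd β (LinearMap.mulLeft k e) ∘ₗ Rm β (LinearMap.mulRight k e)) _ (fun n hn => by
      rw [LinearMap.comp_apply, Rm_one, ww_cons, Hd_cons]
      exact mem_X (mem_cor.2 ⟨⟨hp.LN e he.mem _ (hp.NL n hn e he.mem),
        by simp [← mul_assoc, he.idem]⟩, by simp [mul_assoc, he.idem]⟩) (by simp))
    (fun n hn l a ha e1 e2 e3 => by
      rw [LinearMap.comp_apply, Rm_cc, ww_cons, Hd_cons]
      exact mem_X' (mem_cor.2 ⟨⟨hp.LN e he.mem _ hn, by simp [← mul_assoc, he.idem]⟩,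
        by simp [mul_assoc, e1]⟩) e2 (mem_cor.2 ⟨⟨hp.LL a ha e he.mem,
          by simp [← mul_assoc, e3]⟩, by simp [mul_assoc, he.idem]⟩)) hW

theorem Q_id {W : WW k B} (hW : W ∈ XW β (cor e N) (cor e L)) :
    Hd β (LinearMap.mulLeft k e) (Rm β (LinearMap.mulRight k e) W) = W := by
  have := X_map (Hd β (LinearMap.mulLeft k e) ∘ₗ Rm β (LinearMap.mulRight k e) - LinearMap.id) ⊥
    (fun n hn l hl => by
      have h := mem_cor.1 hn
      rw [LinearMap.sub_apply, LinearMap.comp_apply, LinearMap.id_apply, Submodule.mem_bot,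
        sub_eq_zero]
      rcases List.eq_nil_or_concat' l with rfl | ⟨l, a, rfl⟩
      · rw [Rm_one, ww_cons, Hd_cons]; simp [h.1.2, h.2, ww_cons]
      · have ha := mem_cor.1 (hl a (by simp))
        rw [Rm_cc, ww_cons, Hd_cons]; simp [h.1.2, ha.2, ww_cons]) hW
  simpa [sub_eq_zero] using this

theorem TS_K (hd : DG σ δ) (h : Calc β σ δ) (hp : Pair σ δ N L) (he : Cl σ δ L e)
    {W : WW k B} (hW : W ∈ KW β N L e 1) : d0 β (TS β σ W) ∈ XW β (cor e N) (cor e L) :=
  K_map (d0 β ∘ₗ TS β σ) _ (fun n _ => by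
      rw [LinearMap.comp_apply, ww_cons, cons_nil, d0_TS hd h, h.E_nil, om_nil, Hd_nil, Hd_nil]
      simp)
    (fun n hn l a ha e1 e2 e3 => by
      have hs : e * σ a = σ a := by rw [← he.fix, ← map_mul, e3]
      rw [LinearMap.comp_apply, ww_cc, d0_TS hd h, E_ww h, om_ww, om_ww, map_smul, map_smul,
        List.map_cons, ww_cons, ww_cons, Hd_cons, Hd_cons]
      refine Submodule.add_mem _ (Submodule.smul_mem _ _ (mem_X (mem_cor.2
        ⟨⟨hp.LN _ (hp.σL a ha) n hn, by simp [← mul_assoc, hs]⟩, by simp [mul_assoc, e1]⟩) e2))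
        (Submodule.smul_mem _ _ (mem_X (mem_cor.2 ⟨⟨hp.LN _ (L.sub_mem ha (hp.σL a ha)) _
          (eps_mem hp.σN hn), ?_⟩, ?_⟩) fun c hc => ?_))
      · rw [LinearMap.mulLeft_apply, ← mul_assoc, mul_sub, e3, hs]
      · rw [LinearMap.mulLeft_apply, mul_assoc, ← eps_mul he.fix, e1]
      · obtain ⟨x, hx, rfl⟩ := List.mem_map.1 hc
        exact eps_cor hp.σL he.fix (e2 x hx)) hW

theorem base_step (hd : DG σ δ) (h : Calc β σ δ) (hp : Pair σ δ N L) (he : Cl σ δ L e)
    (hK : Ex (DK β σ δ 1) (KW β N L e 1)) :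
    QEx (DD β σ δ) (KW β N L e 1) (XW β (cor e N) (cor e L)) := by
  intro z hz hD
  have e1 : ∀ W : WW k B, DD β σ δ W = DK β σ δ 1 W + d0 β (TS β σ W) := fun W => by
    rw [DD_apply, DK_apply, one_smul]; abel
  have h1 : DK β σ δ 1 z ∈ XW β (cor e N) (cor e L) := by
    have := Submodule.sub_mem _ hD (TS_K hd h hp he hz)
    rwa [e1, add_sub_cancel_right] at this
  have hQ := Q_mem hp he hz
  obtain ⟨u, hu, hDu⟩ := hK _ (Submodule.sub_mem _ hz (Xe_le_K hQ)) (by
    rw [map_sub, ← Hd_DK hd h he.cl he.fix, ← Rm_DK hd h he.cl, Q_id h1, sub_self])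
  refine ⟨u, hu, ?_⟩
  rw [e1, hDu, ← sub_sub, sub_sub_cancel]
  exact Submodule.sub_mem _ hQ (TS_K hd h hp he hu)

/-- The filtration by the weight of the appended letters. -/
noncomputable def FF' (β : Basis B k G) (σ : G →ₐ[k] G) (N L : Submodule k G) (e : G) (c : ℕ) :
    Submodule k (WW k B) :=
  Submodule.span k {z | ∃ v : List G, (∀ a ∈ v, a ∈ L) ∧ wl σ v ≤ c ∧
    ∃ W ∈ KW β N L e 1, z = apL β v W}

theorem mem_F {c : ℕ} {v : List G} (hv : ∀ a ∈ v, a ∈ L) (hc : wl σ v ≤ c) {W : WW k B}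
    (hW : W ∈ KW β N L e 1) : apL β v W ∈ FF' β σ N L e c :=
  Submodule.subset_span ⟨v, hv, hc, W, hW, rfl⟩

theorem F_map {c : ℕ} (f : End k (WW k B)) (P : Submodule k (WW k B))
    (h : ∀ v : List G, (∀ a ∈ v, a ∈ L) → wl σ v ≤ c → ∀ W ∈ KW β N L e 1, f (apL β v W) ∈ P)
    {z : WW k B} (hz : z ∈ FF' β σ N L e c) : f z ∈ P :=
  (Submodule.span_le (p := P.comap f)).2 (by
    rintro _ ⟨v, hv, hc, W, hW, rfl⟩; exact h v hv hc W hW) hz

theorem F_mono {c c' : ℕ} (hc : c ≤ c') {z : WW k B} (hz : z ∈ FF' β σ N L e c) :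
    z ∈ FF' β σ N L e c' :=
  F_map LinearMap.id _ (fun _ hv h _ hW => mem_F hv (h.trans hc) hW) hz

theorem K_le_F (c : ℕ) {W : WW k B} (hW : W ∈ KW β N L e 1) : W ∈ FF' β σ N L e c :=
  mem_F (v := []) (by simp) (by simp [wl]) hW

theorem F0_le_K {z : WW k B} (hz : z ∈ FF' β σ N L e 0) : z ∈ KW β N L e 1 :=
  F_map LinearMap.id _ (fun v _ h W hW => by
    rcases List.eq_nil_or_concat' v with rfl | ⟨v, a, rfl⟩
    · exact hW
    · have := wt_pos (σ := σ) a
      rw [wl_concat] at h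
      omega) hz

theorem concat_mem {v : List G} {a : G} (hv : ∀ c ∈ v, c ∈ L) (ha : a ∈ L) :
    ∀ c ∈ v ++ [a], c ∈ L := fun c hc => by
  rcases List.mem_append.1 hc with hc | hc
  · exact hv c hc
  · rw [List.mem_singleton.1 hc]; exact ha

theorem snoc_F {c : ℕ} {a : G} (ha : a ∈ L) {z : WW k B} (hz : z ∈ FF' β σ N L e c) :
    snoc β a z ∈ FF' β σ N L e (c + wt σ a) :=
  F_map (snoc β a) _ (fun v hv h W hW => by
    rw [← apL_concat]
    exact mem_F (concat_mem hv ha) (by rw [wl_concat]; omega) hW) hz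

theorem om_F {c : ℕ} {z : WW k B} (hz : z ∈ FF' β σ N L e c) : om z ∈ FF' β σ N L e c :=
  F_map om _ (fun v hv h W hW => by
    rw [om_apL]; exact Submodule.smul_mem _ _ (mem_F hv h (om_K hW))) hz

theorem E_F (hd : DG σ δ) (h : Calc β σ δ) (hp : Pair σ δ N L) (he : σ e = e) {c : ℕ}
    {z : WW k B} (hz : z ∈ FF' β σ N L e c) : wm β β (eps σ) z ∈ FF' β σ N L e c :=
  F_map _ _ (fun v hv hc W hW => by
    rw [E_apL h]
    refine mem_F (fun a ha => ?_) (by rwa [wl_eps hd]) (E_K h hp he hW)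
    obtain ⟨x, hx, rfl⟩ := List.mem_map.1 ha
    exact eps_mem hp.σL (hv x hx)) hz

theorem Hd_apL (φ : End k G) (v : List G) {W : WW k B} (hW : W ∈ KW β N L e 1) :
    Hd β φ (apL β v W) = apL β v (Hd β φ W) := by
  have := X_map (Hd β φ ∘ₗ apL β v - apL β v ∘ₗ Hd β φ) ⊥ (fun n _ l _ => by
    simp [ww_cons, apL_cons, Hd_cons]) (K_le_X hW)
  simpa [sub_eq_zero] using this

theorem Hd_F (hp : Pair σ δ N L) {a : G} (ha : a ∈ L) {c : ℕ} {z : WW k B}
    (hz : z ∈ FF' β σ N L e c) : Hd β (LinearMap.mulLeft k a) z ∈ FF' β σ N L e c :=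
  F_map _ _ (fun v hv hc W hW => by rw [Hd_apL _ v hW]; exact mem_F hv hc (Hd_K hp ha hW)) hz

theorem F_le_X {c : ℕ} {z : WW k B} (hz : z ∈ FF' β σ N L e c) : z ∈ XW β N L :=
  F_map LinearMap.id _ (fun v hv hc W hW => by
    clear hc
    rw [LinearMap.id_apply]
    induction v using List.reverseRecOn with
    | nil => exact K_le_X hW
    | append_singleton v a ih =>
      rw [apL_concat]
      exact X_map (snoc β a) _ (fun n hn l hl => by
        rw [← ww_cc]; exact mem_X' hn hl (hv a (by simp))) (ih fun x hx => hv x (by simp [hx]))) hz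

theorem apL_ww (u v : List G) : apL β v (ww β u) = ww β (u ++ v) := by
  induction v using List.reverseRecOn with
  | nil => simp [apL_nil]
  | append_singleton v a ih => rw [apL_concat, ih, ← List.append_assoc, ww_concat]

theorem X_le_F {z : WW k B} (hz : z ∈ XW β N L) : ∃ c, z ∈ FF' β σ N L e c := by
  induction hz using Submodule.span_induction with
  | mem x hx =>
    obtain ⟨n, hn, l, hl, rfl⟩ := hx
    have := mem_F (β := β) (σ := σ) (e := e) hl le_rfl (one_mem_K hn)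
    rw [apL_ww] at this
    exact ⟨_, this⟩
  | zero => exact ⟨0, Submodule.zero_mem _⟩
  | add x y _ _ hx hy =>
    obtain ⟨c, hx⟩ := hx
    obtain ⟨c', hy⟩ := hy
    exact ⟨c + c', Submodule.add_mem _ (F_mono (by omega) hx) (F_mono (by omega) hy)⟩
  | smul r x _ hx =>
    obtain ⟨c, hx⟩ := hx
    exact ⟨c, Submodule.smul_mem _ _ hx⟩

theorem bp_ap (hp : Pair σ δ N L) {v : List G} (hv : ∀ a ∈ v, a ∈ L) {W : WW k B}
    (hW : W ∈ KW β N L e 1) :
    bp β (apL β v W) - apL β v (bp β W) ∈ FF' β σ N L e (wl σ v - 1) := by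
  induction v using List.reverseRecOn with
  | nil => simp [apL_nil]
  | append_singleton v a ih =>
    have ha := hv a (by simp)
    have hv' : ∀ x ∈ v, x ∈ L := fun x hx => hv x (by simp [hx])
    rw [apL_concat, apL_concat, bp_snoc, sub_right_comm, ← map_sub]
    rcases List.eq_nil_or_concat' v with rfl | ⟨v, c, rfl⟩
    · rw [apL_nil, apL_nil, sub_self, map_zero, zero_sub]
      exact Submodule.neg_mem _ (K_le_F _ (Rm_K hp ha (om_K hW)))
    · have h1 := wt_pos (σ := σ) c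
      have h2 := wt_mul (σ := σ) c a
      refine Submodule.sub_mem _ (F_mono (by simp only [wl_concat]; omega) (snoc_F ha (ih hv'))) ?_
      rw [apL_concat, om_snoc, map_neg, Rm_snoc]
      refine Submodule.neg_mem _ (F_mono (by simp only [wl_concat]; simpa using by omega)
        (snoc_F (hp.LL c (hv' c (by simp)) a ha) (om_F (mem_F (fun x hx => hv' x (by simp [hx]))
          le_rfl hW))))

theorem dW_ap (hd : DG σ δ) (h : Calc β σ δ) (hp : Pair σ δ N L) (he : σ e = e) {v : List G}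
    (hv : ∀ a ∈ v, a ∈ L) {W : WW k B} (hW : W ∈ KW β N L e 1) :
    dW β σ δ (apL β v W) - apL β v (dW β σ δ W) ∈ FF' β σ N L e (wl σ v - 1) := by
  induction v using List.reverseRecOn with
  | nil => simp [apL_nil]
  | append_singleton v a ih =>
    have ha := hv a (by simp)
    have hv' : ∀ x ∈ v, x ∈ L := fun x hx => hv x (by simp [hx])
    rw [apL_concat, apL_concat, h.dW_snoc, add_sub_right_comm, ← map_sub]
    refine Submodule.add_mem _ ?_ ?_
    · rcases List.eq_nil_or_concat' v with rfl | ⟨v, c, rfl⟩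
      · rw [apL_nil, apL_nil, sub_self, map_zero]; exact Submodule.zero_mem _
      · have h1 := wt_pos (σ := σ) c
        exact F_mono (by simp only [wl_concat]; omega) (snoc_F ha (ih hv'))
    · by_cases hs : σ a = 0
      · rw [← hd.δσ, hs, map_zero, map_zero]; exact Submodule.zero_mem _
      · exact F_mono (by rw [wl_concat, wt_two hs, wt_zero (hd.σδ a)]; omega)
          (snoc_F (hp.δL a ha) (E_F hd h hp he (mem_F hv' le_rfl hW)))

theorem TS_ap (hd : DG σ δ) (h : Calc β σ δ) (hp : Pair σ δ N L) (he : Cl σ δ L e)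
    {v : List G} (hv : ∀ a ∈ v, a ∈ L) {W : WW k B} (hW : W ∈ KW β N L e 1) :
    d0 β (TS β σ (apL β v W)) ∈ FF' β σ N L e (wl σ v - 1) := by
  rcases List.eq_nil_or_concat' v with rfl | ⟨v, a, rfl⟩
  · exact K_le_F _ (Xe_le_K (TS_K hd h hp he hW))
  · have ha := hv a (by simp)
    have hz : apL β v W ∈ FF' β σ N L e (wl σ v) :=
      mem_F (fun x hx => hv x (by simp [hx])) le_rfl hW
    have h1 := wt_pos (σ := σ) a
    rw [apL_concat, d0_TS hd h]
    exact F_mono (c := wl σ v) (by rw [wl_concat]; omega) (Submodule.add_mem _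
      (Hd_F hp (hp.σL a ha) (om_F hz))
      (Hd_F hp (L.sub_mem ha (hp.σL a ha)) (om_F (E_F hd h hp he.fix hz))))

theorem DD_ap (hd : DG σ δ) (h : Calc β σ δ) (hp : Pair σ δ N L) (he : Cl σ δ L e)
    {v : List G} (hv : ∀ a ∈ v, a ∈ L) {W : WW k B} (hW : W ∈ KW β N L e 1) :
    DD β σ δ (apL β v W) - apL β v (DK β σ δ ((-1) ^ v.length) W) ∈
      FF' β σ N L e (wl σ v - 1) := by
  have := Submodule.add_mem _ (Submodule.add_mem _ (bp_ap hp hv hW) (TS_ap hd h hp he hv hW))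
    (om_F (dW_ap hd h hp he.fix hv hW))
  rw [map_sub, om_apL] at this
  have e1 : DD β σ δ (apL β v W) - apL β v (DK β σ δ ((-1) ^ v.length) W) =
      bp β (apL β v W) - apL β v (bp β W) + d0 β (TS β σ (apL β v W)) +
        (om (dW β σ δ (apL β v W)) - (-1 : k) ^ v.length • apL β v (om (dW β σ δ W))) := by
    rw [DD_apply, DK_apply, map_add, map_smul]; abel
  rwa [e1]

end Pool.Agent.MP_92f1cb_al.H21T.H22
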