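import Pool.Agent.MP_92f1cb_al.H21T.Spec

set_option autoImplicit false

namespace Pool.Agent.MP_92f1cb_al.H21T.H42

open Pool.Agent.MP_92f1cb_al.H14 Pool.Agent.MP_92f1cb_al.H14C Module

/-- A multiplicatively closed subspace with a unit. -/
structure Dat (k G : Type) [Field k] [Ring G] [Algebra k G] where
  V : Submodule k G
  u : G
  hu : u ∈ V
  hm : ∀ a ∈ V, ∀ c ∈ V, a * c ∈ V
  h1 : ∀ a ∈ V, u * a = a ∧ a * u = a

namespace Dat

variable {k G : Type} [Field k] [Ring G] [Algebra k G] (D : Dat k G)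

/-- The ring. -/
def R : Type := D.V

instance : Ring D.R :=
  { (inferInstance : AddCommGroup D.V) with
    mul := fun a c => ⟨a.1 * c.1, D.hm _ a.2 _ c.2⟩
    one := ⟨D.u, D.hu⟩
    mul_assoc := fun a c e => Subtype.ext (mul_assoc a.1 c.1 e.1)
    one_mul := fun a => Subtype.ext (D.h1 _ a.2).1
    mul_one := fun a => Subtype.ext (D.h1 _ a.2).2
    left_distrib := fun a c e => Subtype.ext (mul_add a.1 c.1 e.1)
    right_distrib := fun a c e => Subtype.ext (add_mul a.1 c.1 e.1)
    zero_mul := fun a => Subtype.ext (zero_mul a.1)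
    mul_zero := fun a => Subtype.ext (mul_zero a.1) }

instance : Module k D.R := (inferInstance : Module k D.V)

instance : Algebra k D.R :=
  Algebra.ofModule (fun r a c => Subtype.ext (smul_mul_assoc r a.1 c.1))
    (fun r a c => Subtype.ext (mul_smul_comm r a.1 c.1))

/-- The inclusion. -/
def ι : D.R →ₗ[k] G where
  toFun a := a.1
  map_add' _ _ := rfl
  map_smul' _ _ := rfl

theorem emb : Emb D.ι D.V D.u where
  inj := fun _ _ h => Subtype.ext h
  mul := fun _ _ => rfl
  one := rfl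
  range := Submodule.ext fun x => ⟨fun ⟨y, h⟩ => h ▸ y.2, fun h => ⟨⟨x, h⟩, rfl⟩⟩

/-- Linear maps into the ring. -/
def co {X : Type} [AddCommGroup X] [Module k X] (f : X →ₗ[k] G) (h : ∀ x, f x ∈ D.V) :
    X →ₗ[k] D.R where
  toFun x := ⟨f x, h x⟩
  map_add' x y := Subtype.ext (f.map_add x y)
  map_smul' c x := Subtype.ext (f.map_smul c x)

end Dat

theorem sSub : SSub := fun k G _ _ _ V u hu hm h1 =>
  let D : Dat k G := ⟨V, u, hu, hm, h1⟩
  ⟨D.R, inferInstance, inferInstance, D.ι, D.emb⟩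

variable {k A : Type} [Field k] [Ring A] [Algebra k A] (b : Base k A)

theorem ee (i : Fin 3) : b.ε i * b.ε i = b.ε i := (b.tri.coi.idem i).eq

/-- The corner of the matrix ring. -/
def cd : Dat k (Matrix (CC b) (CC b) A) where
  V :=
    { carrier := {x | ∀ c c', b.ε (ty c) * x c c' = x c c' ∧ x c c' * b.ε (ty c') = x c c'}
      add_mem' := fun {x y} hx hy c c' => by
        rw [Matrix.add_apply, mul_add, add_mul, (hx c c').1, (hx c c').2, (hy c c').1, (hy c c').2]
        exact ⟨rfl, rfl⟩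
      zero_mem' := fun c c' => by simp
      smul_mem' := fun r x hx c c' => by
        rw [Matrix.smul_apply, mul_smul_comm, smul_mul_assoc, (hx c c').1, (hx c c').2]
        exact ⟨rfl, rfl⟩ }
  u := Matrix.diagonal fun c => b.ε (ty c)
  hu := fun c c' => by
    rw [Matrix.diagonal_apply]
    split_ifs with h
    · subst h
      exact ⟨ee b _, ee b _⟩
    · simp
  hm := fun x hx z hz c c' => by
    rw [Matrix.mul_apply, Finset.mul_sum, Finset.sum_mul]
    exact ⟨Finset.sum_congr rfl fun e _ => by rw [← mul_assoc, (hx c e).1],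
      Finset.sum_congr rfl fun e _ => by rw [mul_assoc, (hz e c').2]⟩
  h1 := fun x hx => ⟨Matrix.ext fun c c' => by rw [Matrix.diagonal_mul, (hx c c').1],
    Matrix.ext fun c c' => by rw [Matrix.mul_diagonal, (hx c c').2]⟩

/-- Entrywise maps that depend on the position. -/
def ew {X : Type} [AddCommGroup X] [Module k X] (f : CC b → CC b → A →ₗ[k] X) :
    Matrix (CC b) (CC b) A →ₗ[k] Matrix (CC b) (CC b) X where
  toFun x := Matrix.of fun c c' => f c c' (x c c')
  map_add' x y := Matrix.ext fun c c' => (f c c').map_add _ _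
  map_smul' r x := Matrix.ext fun c c' => (f c c').map_smul _ _

/-- The entry of a matrix valued map. -/
def en (ψ : A →ₗ[k] Matrix (Fin 3) (Fin 3) k) (i j : Fin 3) : A →ₗ[k] k where
  toFun a := ψ a i j
  map_add' x y := by rw [map_add, Matrix.add_apply]
  map_smul' r x := by rw [map_smul, Matrix.smul_apply]; rfl

theorem σε (i : Fin 3) : b.σ (b.ε i) = b.ε i := by rw [← b.tri.fix i, b.στ]

theorem mem_ew (f : CC b → CC b → A →ₗ[k] A)
    (h : ∀ c c' i a, f c c' (b.ε i * a) = b.ε i * f c c' a ∧ f c c' (a * b.ε i) = f c c' a * b.ε i)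
    (x : (cd b).R) : (ew b f ∘ₗ (cd b).ι) x ∈ (cd b).V := fun c c' => by
  show b.ε (ty c) * f c c' (x.1 c c') = f c c' (x.1 c c') ∧
    f c c' (x.1 c c') * b.ε (ty c') = f c c' (x.1 c c')
  rw [← (h c c' _ _).1, ← (h c c' _ _).2, (x.2 c c').1, (x.2 c c').2]
  exact ⟨rfl, rfl⟩

theorem φ_mul (m : ℕ) {a : A} {j : Fin 3} (h : a * b.ε j = a) (c : A) (i l : Fin 3) :
    b.φ m (a * c) i l = b.φ m a i j * b.φ m c j l := by
  rw [map_mul, Matrix.mul_apply]
  refine Finset.sum_eq_single j (fun t _ ht => ?_) (by simp)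
  rw [← h, map_mul, b.φε, Matrix.mul_single_apply_of_ne _ _ _ _ _ ht, zero_mul]

/-- The part of degree `n`. -/
noncomputable def gw (n : ℕ) (c c' : CC b) : A →ₗ[k] A :=
  (if dg c c' = n then b.τ.toLinearMap else 0) +
    if dg c c' + 2 = n then LinearMap.id - b.τ.toLinearMap else 0

theorem gw_apply (n : ℕ) (c c' : CC b) (a : A) :
    gw b n c c' a = (if dg c c' = n then b.τ a else 0) +
      if dg c c' + 2 = n then a - b.τ a else 0 := by
  unfold gw
  split_ifs <;> rfl

/-- The generalised matrices. -/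
noncomputable def mx : Mx b (cd b).R where
  ent := (cd b).ι
  mat := (cd b).co (ew b fun c c' =>
      LinearMap.mulRight k (b.ε (ty c')) ∘ₗ LinearMap.mulLeft k (b.ε (ty c))) fun x c c' => by
    show b.ε (ty c) * (b.ε (ty c) * x c c' * b.ε (ty c')) = b.ε (ty c) * x c c' * b.ε (ty c') ∧
      b.ε (ty c) * x c c' * b.ε (ty c') * b.ε (ty c') = b.ε (ty c) * x c c' * b.ε (ty c')
    exact ⟨by rw [← mul_assoc, ← mul_assoc, ee], by rw [mul_assoc _ (b.ε (ty c')), ee]⟩
  σ := AlgHom.ofLinearMap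
    ((cd b).co _ (mem_ew b (fun _ _ => b.σ.toLinearMap) fun _ _ i a => by
      simp only [AlgHom.toLinearMap_apply, map_mul, σε, and_self]))
    (Subtype.ext (Matrix.ext fun c c' => by
      show b.σ (Matrix.diagonal (fun c => b.ε (ty c)) c c') =
        Matrix.diagonal (fun c => b.ε (ty c)) c c'
      rw [Matrix.diagonal_apply]
      split_ifs
      · exact σε b _
      · exact map_zero _))
    (fun x z => Subtype.ext (Matrix.ext fun c c' => by
      show b.σ (∑ e, x.1 c e * z.1 e c') = ∑ e, b.σ (x.1 c e) * b.σ (z.1 e c')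
      simp only [map_sum, map_mul]))
  φ m := AlgHom.ofLinearMap
    ((ew b fun c c' => en (b.φ m).toLinearMap (ty c) (ty c')) ∘ₗ (cd b).ι)
    (Matrix.ext fun c c' => by
      show b.φ m (Matrix.diagonal (fun c => b.ε (ty c)) c c') (ty c) (ty c') =
        (1 : Matrix (CC b) (CC b) k) c c'
      rw [Matrix.diagonal_apply, Matrix.one_apply]
      split_ifs with h
      · subst h
        rw [b.φε, Matrix.single_apply_same]
      · rw [map_zero, Matrix.zero_apply])
    (fun x z => Matrix.ext fun c c' => by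
      show b.φ m (∑ e, x.1 c e * z.1 e c') (ty c) (ty c') =
        ∑ e, b.φ m (x.1 c e) (ty c) (ty e) * b.φ m (z.1 e c') (ty e) (ty c')
      rw [map_sum, Matrix.sum_apply]
      exact Finset.sum_congr rfl fun e _ => φ_mul b m (x.2 c e).2 _ _ _)
  ρ m := (ew b fun c c' => en (b.ρ m) (ty c) (ty c')) ∘ₗ (cd b).ι
  ν m := (ew b fun c c' => en (b.ν m) (ty c) (ty c')) ∘ₗ (cd b).ι
  gr n := (cd b).co _ (mem_ew b (gw b n) fun c c' i a => by
    simp only [gw_apply, map_mul, b.tri.fix]
    constructor <;> split_ifs <;> simp [mul_add, add_mul, mul_sub, sub_mul])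
  mat_ent x := Subtype.ext (Matrix.ext fun c c' => by
    show b.ε (ty c) * x.1 c c' * b.ε (ty c') = x.1 c c'
    rw [(x.2 c c').1, (x.2 c c').2])
  ent_mat _ _ _ := rfl
  ent_mul _ _ := rfl
  ent_one := rfl
  ent_σ _ _ _ := rfl
  φ_apply _ _ _ _ := rfl
  ρ_apply _ _ _ _ := rfl
  ν_apply _ _ _ _ := rfl
  ent_gr n x c c' := gw_apply b n c c' _

theorem sMx : SMx := fun _ _ _ _ _ b => ⟨(cd b).R, inferInstance, inferInstance, ⟨mx b⟩⟩

end Pool.Agent.MP_92f1cb_al.H21T.H42
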