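import Pool.Agent.MP_92f1cb_al.H21T.Spec
import Pool.Agent.MP_92f1cb_al.H14C.W0

set_option autoImplicit false

namespace Pool.Agent.MP_92f1cb_al.H21T.H42

open Pool.Agent.MP_92f1cb_al.H14 Pool.Agent.MP_92f1cb_al.H14C Module

section Lin

variable {k X : Type} [Field k] [AddCommGroup X] [Module k X]

theorem ex_change {b b' : End k X} {C S : Submodule k X} (hSC : S ≤ C)
    (hbb : ∀ x, b (b x) = 0) (hbb' : ∀ x, b' (b' x) = 0) (hS : Ex b S) (hC : Ex b C)
    (h1 : ∀ x ∈ S, b' x = b x) (h2 : ∀ x ∈ C, b' x - b x ∈ S) : Ex b' C := by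
  intro z hz h0
  have h3 : b z ∈ S := by simpa [h0] using h2 z hz
  obtain ⟨s, hs, h4⟩ := hS _ h3 (hbb z)
  obtain ⟨v, hv, h5⟩ := hC (z - s) (C.sub_mem hz (hSC hs)) (by rw [map_sub, h4, sub_self])
  have h6 : z - b' v ∈ S := by
    have e : z - b' v = s - (b' v - b v) := by rw [h5]; abel
    rw [e]
    exact S.sub_mem hs (h2 v hv)
  obtain ⟨s', hs', h7⟩ := hS _ h6 (by rw [← h1 _ h6, map_sub, h0, hbb', sub_zero])
  exact ⟨v + s', C.add_mem hv (hSC hs'), by rw [map_add, h1 s' hs', h7]; abel⟩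

theorem ex_total {b d : End k X} {C : Submodule k X} (Q : ℕ → End k X) (V : ℕ → Submodule k X)
    (N : ℕ) (hQC : ∀ q, ∀ z ∈ C, Q q z ∈ C) (hQV : ∀ q z, Q q z ∈ V q)
    (hsum : ∀ z ∈ C, ∑ q ∈ Finset.range N, Q q z = z)
    (hQ : ∀ q j, ∀ z ∈ V j, Q q z = if j = q then z else 0)
    (hb : ∀ j, ∀ z ∈ V j, b z ∈ V j) (hd : ∀ j, ∀ z ∈ V j, d z ∈ V (j + 1))
    (hDC : ∀ z ∈ C, (b + d) z ∈ C) (hDD : ∀ z, (b + d) ((b + d) z) = 0) (hex : Ex b C) :
    Ex (b + d) C := by
  have hcb : ∀ q < N, ∀ z ∈ C, Q q (b z) = b (Q q z) := fun q hq z hz => by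
    conv_lhs => rw [← hsum z hz]
    rw [map_sum, map_sum, Finset.sum_eq_single q]
    · rw [hQ q q _ (hb _ _ (hQV q z)), if_pos rfl]
    · intro j _ hj
      rw [hQ q j _ (hb _ _ (hQV j z)), if_neg hj]
    · intro h
      exact absurd (Finset.mem_range.2 hq) h
  have key : ∀ i q : ℕ, q + i = N → ∀ z ∈ C, (∀ j < q, Q j z = 0) → (b + d) z = 0 →
      ∃ u ∈ C, (b + d) u = z := by
    intro i
    induction i with
    | zero =>
      intro q hq z hz h0 _
      refine ⟨0, C.zero_mem, ?_⟩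
      rw [map_zero, ← hsum z hz]
      exact (Finset.sum_eq_zero fun j hj => h0 j (by have := Finset.mem_range.1 hj; omega)).symm
    | succ i ih =>
      intro q hq z hz h0 hD
      have hqN : q < N := by omega
      have h1 : Q q (d z) = 0 := by
        conv_lhs => rw [← hsum z hz]
        rw [map_sum, map_sum]
        refine Finset.sum_eq_zero fun j _ => ?_
        rw [hQ q (j + 1) _ (hd _ _ (hQV j z))]
        split_ifs with h
        · rw [h0 j (by omega), map_zero]
        · rfl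
      have h2 : b (Q q z) = 0 := by
        have := congrArg (Q q) hD
        rwa [LinearMap.add_apply, map_add, h1, add_zero, map_zero, hcb q hqN z hz] at this
      obtain ⟨v, hv, h3⟩ := hex _ (hQC q z hz) h2
      have h4 : b (Q q v) = Q q z := by
        rw [← hcb q hqN v hv, h3, hQ q q _ (hQV q z), if_pos rfl]
      obtain ⟨u, hu, h5⟩ := ih (q + 1) (by omega) (z - (b + d) (Q q v))
        (C.sub_mem hz (hDC _ (hQC q v hv))) (fun j hj => by
          rw [LinearMap.add_apply, h4, map_sub, map_add, hQ j q _ (hQV q z),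
            hQ j (q + 1) _ (hd _ _ (hQV q v)), if_neg (show ¬ q + 1 = j by omega), add_zero]
          split_ifs with h
          · rw [h, sub_self]
          · rw [h0 j (by omega), sub_zero]) (by rw [map_sub, hD, hDD, sub_zero])
      exact ⟨u + Q q v, C.add_mem hu (hQC q v hv), by rw [map_add, h5]; abel⟩
  exact fun z hz hD => key N 0 (by omega) z hz (fun j hj => absurd hj (by omega)) hD

end Lin

variable {k A B : Type} [Field k] [Ring A] [Algebra k A] (β : Basis B k A)

theorem eps_apply (σ : A →ₐ[k] A) (a : A) : eps σ a = σ a - (a - σ a) := rfl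

theorem sum_Op {σ : A →ₐ[k] A} {Ys : List (Submodule k A)} {l : List A} (h : Shape σ Ys l) :
    ∀ N, Ys.length < N →
      ∑ q ∈ Finset.range N, Op β σ (List.replicate q 1) (ww β l) = ww β l := by
  induction h with
  | nil =>
    intro N hN
    obtain ⟨N, rfl⟩ : ∃ N', N = N' + 1 := ⟨N - 1, by omega⟩
    rw [Finset.sum_range_succ']
    simp only [List.replicate_succ, Op_cons_nil, Finset.sum_const_zero, zero_add,
      List.replicate_zero, Op_nil_nil]
  | consL ha _ ih =>
    intro N hN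
    simp only [ww_cons, Op_cons_L β σ _ ha]
    rw [← map_sum, ih N hN]
  | @consM Ys l Y y hy _ ih =>
    intro N hN
    rw [List.length_cons] at hN
    obtain ⟨N, rfl⟩ : ∃ N', N = N' + 1 := ⟨N - 1, by omega⟩
    have h1 := ih N (by omega)
    have h2 := ih (N + 1) (by omega)
    rw [Finset.sum_range_succ'] at h2 ⊢
    simp only [List.replicate_succ, List.replicate_zero] at h2
    simp only [ww_cons, List.replicate_succ, List.replicate_zero, Op_cons_cons, Op_nil_cons,
      Finset.sum_add_distrib, End.one_apply]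
    rw [← map_sum, ← map_sum, h1, add_assoc, ← map_add, h2, ← LinearMap.add_apply, ← map_add,
      sub_add_cancel]

theorem shape_top (σ : A →ₐ[k] A) (l : List A) :
    Shape σ (List.replicate l.length (⊤ : Submodule k A)) l := by
  induction l with
  | nil => exact Shape.nil
  | cons a l ih => exact Shape.consM trivial ih

theorem ev_sum {P : ℕ → End k (WW k B)}
    (h : ∀ l : List A, ∀ N, l.length < N → ∑ q ∈ Finset.range N, P q (ww β l) = ww β l)
    (z : WW k B) : ∃ N, ∀ N', N ≤ N' → ∑ q ∈ Finset.range N', P q z = z := by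
  induction z using ww_ind β with
  | hb l => exact ⟨l.length + 1, fun N' hN => h l N' (by omega)⟩
  | h0 => exact ⟨0, fun _ _ => by simp⟩
  | hadd x y hx hy =>
    obtain ⟨N, hx⟩ := hx
    obtain ⟨M, hy⟩ := hy
    exact ⟨N + M, fun N' hN => by
      simp only [map_add, Finset.sum_add_distrib, hx N' (by omega), hy N' (by omega)]⟩
  | hsmul c x hx =>
    obtain ⟨N, hx⟩ := hx
    exact ⟨N, fun N' hN => by simp only [map_smul, ← Finset.smul_sum, hx N' hN]⟩

theorem Op_mem {σ : A →ₐ[k] A} (hσ : Split σ) {Y : Submodule k A} (l : List A)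
    (h : ∀ a ∈ l, a - σ a ∈ Y) (m : ℕ) :
    Op β σ (List.replicate m 1) (ww β l) ∈ CW β σ (List.replicate m Y) := by
  induction l generalizing m with
  | nil =>
    cases m with
    | zero => rw [List.replicate_zero, List.replicate_zero, Op_nil_nil]; exact ww_mem_CW Shape.nil
    | succ m => rw [List.replicate_succ (a := (1 : End k A)), Op_cons_nil]; exact Submodule.zero_mem _
  | cons a l ih =>
    have ih' := ih fun c hc => h c (by simp [hc])
    cases m with
    | zero =>
      rw [List.replicate_zero, List.replicate_zero, ww_cons, Op_nil_cons]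
      exact cons_mem_CW (hσ.idem a) (ih' 0)
    | succ m =>
      rw [List.replicate_succ, List.replicate_succ, ww_cons, Op_cons_cons]
      exact Submodule.add_mem _ (SW_le_CW _ (cons_mem_SW (h a (by simp)) (ih' m)))
        (cons_mem_CW (hσ.idem a) (ih' (m + 1)))

theorem Op_delta {σ : A →ₐ[k] A} {Y : Submodule k A} (hY : ∀ y ∈ Y, σ y = 0) (q j : ℕ)
    {z : WW k B} (hz : z ∈ CW β σ (List.replicate j Y)) :
    Op β σ (List.replicate q 1) z = if j = q then z else 0 := by
  have h0 : ∀ Z ∈ List.replicate j Y, ∀ y ∈ Z, σ y = 0 := fun Z hZ => by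
    rw [List.eq_of_mem_replicate hZ]; exact hY
  split_ifs with h
  · have := Op_one h0 hz
    rwa [List.length_replicate, h] at this
  · exact Op_eq_zero h0 (by simpa using fun e => h e.symm) hz

theorem shape_rep {ρ : A →ₐ[k] A} {Y : Submodule k A} {m : ℕ} {l : List A} {a : A}
    (h : Shape ρ (List.replicate m Y) (l ++ [a])) :
    (ρ a = a ∧ Shape ρ (List.replicate m Y) l) ∨
      ∃ n, m = n + 1 ∧ a ∈ Y ∧ Shape ρ (List.replicate n Y) l := by
  rcases h.of_concat with h | ⟨Zs, Z, he, ha, hl⟩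
  · exact Or.inl h
  · cases m with
    | zero => simp at he
    | succ m =>
      rw [List.replicate_succ'] at he
      obtain ⟨rfl, rfl⟩ := List.append_singleton_inj.1 he
      exact Or.inr ⟨m, rfl, ha, hl⟩

section Two

variable {β} {ρ σ : A →ₐ[k] A} {δ : End k A} {Y : Submodule k A}

theorem E_mem (hc : Calc β σ δ) (hf : ∀ a, ρ a = a → σ a = a) (hs : ∀ y ∈ Y, σ y ∈ Y)
    {Ys : List (Submodule k A)} (hYs : ∀ Z ∈ Ys, Z = Y) {W : WW k B} (hW : W ∈ CW β ρ Ys) :
    wm β β (eps σ) W ∈ CW β ρ Ys := by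
  refine CW_map (wm β β (eps σ)) _ (fun l hl => ?_) hW
  clear hW
  induction hl with
  | nil => rw [hc.E_nil]; exact ww_mem_CW Shape.nil
  | consL ha _ ih =>
    rw [ww_cons, hc.E_cons, eps_apply, hf _ ha, sub_self, sub_zero]
    exact cons_mem_CW ha (ih hYs)
  | @consM Ys l Z y hy _ ih =>
    obtain rfl := hYs Z (by simp)
    rw [ww_cons, hc.E_cons, eps_apply]
    exact SW_le_CW _ (cons_mem_SW (Z.sub_mem (hs y hy) (Z.sub_mem hy (hs y hy)))
      (ih fun Z' hZ' => hYs Z' (by simp [hZ'])))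

theorem Q_mem (hf : ∀ a, ρ a = a → σ a = a) (hs : ∀ y ∈ Y, σ y ∈ Y)
    {Ys : List (Submodule k A)} (hYs : ∀ Z ∈ Ys, Z = Y) (q : ℕ) {W : WW k B}
    (hW : W ∈ CW β ρ Ys) : Op β σ (List.replicate q 1) W ∈ CW β ρ Ys := by
  refine CW_map (Op β σ (List.replicate q 1)) _ (fun l hl => ?_) hW
  clear hW
  induction hl generalizing q with
  | nil =>
    cases q with
    | zero => rw [List.replicate_zero, Op_nil_nil]; exact ww_mem_CW Shape.nil
    | succ q => rw [List.replicate_succ, Op_cons_nil]; exact Submodule.zero_mem _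
  | consL ha _ ih =>
    rw [ww_cons, Op_cons_L β σ _ (hf _ ha)]
    exact cons_mem_CW ha (ih hYs q)
  | @consM Ys l Z y hy _ ih =>
    obtain rfl := hYs Z (by simp)
    have ih' := ih fun Z' hZ' => hYs Z' (by simp [hZ'])
    cases q with
    | zero =>
      rw [List.replicate_zero, ww_cons, Op_nil_cons]
      exact SW_le_CW _ (cons_mem_SW (hs y hy) (ih' 0))
    | succ q =>
      rw [List.replicate_succ, ww_cons, Op_cons_cons]
      exact SW_le_CW _ (Submodule.add_mem _ (cons_mem_SW (Z.sub_mem hy (hs y hy)) (ih' q))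
        (cons_mem_SW (hs y hy) (ih' (q + 1))))

theorem shape_le (hf : ∀ a, ρ a = a → σ a = a) {Ys : List (Submodule k A)} {l : List A}
    (h : Shape ρ Ys l) : Shape σ Ys l := by
  induction h with
  | nil => exact Shape.nil
  | consL ha _ ih => exact Shape.consL (hf _ ha) ih
  | consM hy _ ih => exact Shape.consM hy ih

theorem TS_split (hc : Calc β σ δ) (hσ : Split σ) (a : A) (W : WW k B) :
    TS β σ (snoc β a W) = cons β (σ a) (om W) + cons β (a - σ a) (om (wm β β (eps σ) W)) := by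
  rw [← hc.TS_L _ _ (hσ.idem a), ← hc.TS_M _ _ (hσ.sub a), ← map_add, ← LinearMap.add_apply,
    ← map_add, add_sub_cancel]

theorem bT_apply (W : WW k B) : bT β σ W = bp β W + d0 β (TS β σ W) := rfl

theorem bT_mem (hc : Calc β σ δ) (hσ : Split σ) (hρ : Split ρ) (hY : Bim ρ Y)
    (hf : ∀ a, ρ a = a → σ a = a) (hs : ∀ y ∈ Y, σ y ∈ Y) {m : ℕ} {W : WW k B}
    (hW : W ∈ CW β ρ (List.replicate m Y)) : bT β σ W ∈ CW β ρ (List.replicate m Y) := by
  have hr : ∀ Z ∈ List.replicate m Y, Bim ρ Z := fun Z hZ => by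
    rw [List.eq_of_mem_replicate hZ]; exact hY
  refine Submodule.add_mem _ (bp_mem_CW hρ hr hW) (CW_map (d0 β ∘ₗ TS β σ) _ (fun l hl => ?_) hW)
  rw [LinearMap.comp_apply]
  induction l using List.reverseRecOn with
  | nil => rw [hc.d0_TS_nil]; exact Submodule.zero_mem _
  | append_singleton l a _ =>
    refine d0_mem_CW hρ hr ?_
    rw [ww_concat]
    rcases shape_rep hl with ⟨ha, hl⟩ | ⟨n, rfl, ha, hl⟩
    · rw [hc.TS_L _ _ (hf a ha)]
      exact cons_mem_CW ha (om_mem_CW (ww_mem_CW hl))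
    · rw [TS_split hc hσ]
      exact SW_le_CW _ (Submodule.add_mem _ (cons_mem_SW (hs a ha) (om_mem_CW (ww_mem_CW hl)))
        (cons_mem_SW (Y.sub_mem ha (hs a ha)) (om_mem_CW (E_mem hc hf hs
          (fun _ h => List.eq_of_mem_replicate h) (ww_mem_CW hl)))))

theorem diff_snoc (hc : Calc β σ δ) (hσ : Split σ) (a : A) (W : WW k B) :
    bT β σ (snoc β a W) - bH β (snoc β a W) =
      d0 β (cons β (a - σ a) (om (wm β β (eps σ) W) - om W)) := by
  rw [bT_apply, bH_apply, add_sub_add_left_eq_sub, ← map_sub, TS_split hc hσ, TH_snoc]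
  congr 1
  simp only [map_sub, LinearMap.sub_apply]
  abel

theorem ex_bT (hc : Calc β σ δ) (hσ : Split σ) (hρ : Split ρ) (hY : Bim ρ Y)
    (hf : ∀ a, ρ a = a → σ a = a) (hs : ∀ y ∈ Y, σ y ∈ Y) (hk : ∀ a, ρ (σ a) = ρ a) (m : ℕ)
    (h : Ex (bH β) (SW β ρ (List.replicate (m + 1) Y))) :
    Ex (bT β σ) (CW β ρ (List.replicate (m + 1) Y)) := by
  have hr : ∀ Z ∈ List.replicate m Y, Bim ρ Z := fun Z hZ => by
    rw [List.eq_of_mem_replicate hZ]; exact hY
  refine ex_change (SW_le_CW _) (bH_bH β) hc.bT_bT h (h1 k A B β ρ hρ Y m hY h)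
    (fun x hx => ?_) (fun x hx => ?_)
  · refine SW_ext (Y := Y) (Ys := List.replicate m Y) (bT β σ) (bH β) (fun y hy l _ => ?_) hx
    rw [← sub_eq_zero]
    induction l using List.reverseRecOn with
    | nil =>
      rw [cons_nil, diff_snoc hc hσ, hc.E_nil, sub_self, map_zero, map_zero]
    | append_singleton l a _ =>
      have h1 : ρ (a - σ a) = 0 := by rw [map_sub, hk, sub_self]
      have h2 : ρ (eps σ y) = 0 := by
        rw [eps_apply, map_sub, map_sub, hk, (hY y hy).1]; simp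
      rw [ww_concat, cons_snoc, diff_snoc hc hσ, hc.E_cons, om_cons, om_cons]
      simp only [map_sub (cons β (a - σ a)), map_neg, map_sub (d0 β), d0_cons_cons]
      rw [hρ.sq _ _ h1 h2, hρ.sq _ _ h1 (hY y hy).1]
      simp
  · refine CW_map (bT β σ - bH β) _ (fun l hl => ?_) hx
    rw [LinearMap.sub_apply]
    induction l using List.reverseRecOn with
    | nil => simpa using hl.eq_nil
    | append_singleton l a _ =>
      rw [ww_concat, diff_snoc hc hσ]
      rcases shape_rep hl with ⟨ha, -⟩ | ⟨n, hn, ha, hl⟩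
      · rw [hf a ha, sub_self, map_zero, LinearMap.zero_apply, map_zero]
        exact Submodule.zero_mem _
      · obtain rfl : m = n := by omega
        exact d0_cons_mem_SW hρ hY hr (Y.sub_mem ha (hs a ha)) (Submodule.sub_mem _
          (om_mem_CW (E_mem hc hf hs (fun _ h => List.eq_of_mem_replicate h) (ww_mem_CW hl)))
          (om_mem_CW (ww_mem_CW hl)))

theorem dW_mem (hc : Calc β σ δ) (hf : ∀ a, ρ a = a → σ a = a) (hs : ∀ y ∈ Y, σ y ∈ Y)
    (h0 : ∀ a, ρ a = a → δ a = 0) (hd : ∀ a, δ a ∈ Y)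
    {Ys : List (Submodule k A)} (hYs : ∀ Z ∈ Ys, Z = Y) {W : WW k B} (hW : W ∈ CW β ρ Ys) :
    dW β σ δ W ∈ CW β ρ Ys := by
  refine CW_map (dW β σ δ) _ (fun l hl => ?_) hW
  clear hW
  induction hl with
  | nil => rw [hc.dW_nil]; exact Submodule.zero_mem _
  | consL ha _ ih =>
    rw [ww_cons, hc.dW_cons, eps_apply, hf _ ha, sub_self, sub_zero, h0 _ ha, map_zero,
      LinearMap.zero_apply, zero_add]
    exact cons_mem_CW ha (ih hYs)
  | @consM Ys l Z y hy hl ih =>
    obtain rfl := hYs Z (by simp)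
    rw [ww_cons, hc.dW_cons, eps_apply]
    exact SW_le_CW _ (Submodule.add_mem _ (cons_mem_SW (hd y) (ww_mem_CW hl))
      (cons_mem_SW (Z.sub_mem (hs y hy) (Z.sub_mem hy (hs y hy)))
        (ih fun Z' hZ' => hYs Z' (by simp [hZ']))))

theorem dW_up (hc : Calc β σ δ) (hg : DG σ δ) {Ys : List (Submodule k A)}
    (hYs : ∀ Z ∈ Ys, Z = LinearMap.ker σ.toLinearMap) {W : WW k B} (hW : W ∈ CW β σ Ys) :
    dW β σ δ W ∈ CW β σ (LinearMap.ker σ.toLinearMap :: Ys) := by
  refine CW_map (dW β σ δ) _ (fun l hl => ?_) hW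
  clear hW
  induction hl with
  | nil => rw [hc.dW_nil]; exact Submodule.zero_mem _
  | @consL Ys l a ha hl ih =>
    rw [ww_cons, hc.dW_cons, eps_apply, ha, sub_self, sub_zero]
    exact Submodule.add_mem _ (SW_le_CW _ (cons_mem_SW (Y := LinearMap.ker σ.toLinearMap)
      (hg.σδ a) (ww_mem_CW hl))) (cons_mem_CW ha (ih hYs))
  | @consM Ys l Z y hy hl ih =>
    obtain rfl := hYs Z (by simp)
    have h1 : σ y = 0 := hy
    have h2 : δ y = 0 := by rw [← hg.δσ, h1, map_zero]
    rw [ww_cons, hc.dW_cons, eps_apply, h1, h2, map_zero, LinearMap.zero_apply, zero_add]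
    refine SW_le_CW _ (cons_mem_SW ?_ (ih fun Z' hZ' => hYs Z' (by simp [hZ'])))
    simpa using hy

theorem ex_DD (hc : Calc β σ δ) (hg : DG σ δ) (hρ : Split ρ) (hY : Bim ρ Y)
    (hf : ∀ a, ρ a = a → σ a = a) (hs : ∀ y ∈ Y, σ y ∈ Y) (hk : ∀ a, ρ (σ a) = ρ a)
    (h0 : ∀ a, ρ a = a → δ a = 0) (hd : ∀ a, δ a ∈ Y) (m : ℕ)
    (h : Ex (bH β) (SW β ρ (List.replicate (m + 1) Y))) :
    Ex (DD β σ δ) (CW β ρ (List.replicate (m + 1) Y)) := by
  have hK : Bim σ (LinearMap.ker σ.toLinearMap) := fun y hy => by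
    have h1 : σ y = 0 := hy
    refine ⟨h1, fun a => ⟨?_, ?_⟩⟩
    · show σ (a * y) = 0
      rw [map_mul, h1, mul_zero]
    · show σ (y * a) = 0
      rw [map_mul, h1, zero_mul]
  refine ex_total (fun q => Op β σ (List.replicate q 1))
    (fun q => CW β σ (List.replicate q (LinearMap.ker σ.toLinearMap))) (m + 2)
    (fun q z hz => Q_mem hf hs (fun _ h => List.eq_of_mem_replicate h) q hz) (fun q z => ?_)
    (fun z hz => ?_) (fun q j z hz => Op_delta β (fun y hy => hy) q j hz)
    (fun j z hz => bT_mem hc hg.split hg.split hK (fun _ h => h) (fun y hy => ?_) hz)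
    (fun j z hz => om_mem_CW (dW_up hc hg (fun _ h => List.eq_of_mem_replicate h) hz))
    (fun z hz => Submodule.add_mem _ (bT_mem hc hg.split hρ hY hf hs hz)
      (om_mem_CW (dW_mem hc hf hs h0 hd (fun _ h => List.eq_of_mem_replicate h) hz)))
    hc.DD_DD (ex_bT hc hg.split hρ hY hf hs hk m h)
  · induction z using ww_ind β with
    | hb l => exact Op_mem β hg.split l (fun a _ => hg.split.sub a) q
    | h0 => rw [map_zero]; exact Submodule.zero_mem _
    | hadd x y hx hy => rw [map_add]; exact Submodule.add_mem _ hx hy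
    | hsmul c x hx => rw [map_smul]; exact Submodule.smul_mem _ c hx
  · have := CW_ext (∑ q ∈ Finset.range (m + 2), Op β σ (List.replicate q 1)) LinearMap.id
      (fun l hl => by
        rw [LinearMap.sum_apply]
        exact sum_Op β (shape_le hf hl) _ (by simp)) hz
    rwa [LinearMap.sum_apply] at this
  · have h1 : σ y = 0 := hy
    rw [h1]
    exact Submodule.zero_mem _

theorem shape_mem {L : Submodule k A} (hL : ∀ a, ρ a = a → a ∈ L) {Ys : List (Submodule k A)}
    (hYs : ∀ Z ∈ Ys, Z ≤ L) {l : List A} (h : Shape ρ Ys l) : ∀ a ∈ l, a ∈ L := by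
  induction h with
  | nil => simp
  | consL ha _ ih => exact List.forall_mem_cons.2 ⟨hL _ ha, ih hYs⟩
  | consM hy _ ih =>
    exact List.forall_mem_cons.2 ⟨hYs _ (by simp) hy, ih fun Z hZ => hYs Z (by simp [hZ])⟩

theorem mem_XW {L : Submodule k A} {l : List A} (h : ∀ a ∈ l, a ∈ L) (hl : l ≠ []) :
    ww β l ∈ XW β L L := by
  cases l with
  | nil => exact absurd rfl hl
  | cons a l =>
    exact Submodule.subset_span ⟨a, h a (by simp), l, fun c hc => h c (by simp [hc]), rfl⟩

theorem piL_zero_cons (a : A) (W : WW k B) : piL k B 0 (cons β a W) = 0 :=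
  ww_ext β (f := piL k B 0 ∘ₗ cons β a) (g := 0) (fun l => by
    rw [LinearMap.comp_apply, ← ww_cons, piL_ww, if_neg (by simp)]; rfl) W

end Two

theorem sA : SA := by
  intro k A B _ _ _ b β hc z hz hD
  set M : Submodule k A := fx b.p ⊓ LinearMap.ker b.τ.toLinearMap with hM
  have hmem : ∀ y, y ∈ M ↔ b.p y = y ∧ b.τ y = 0 := fun y => Iff.rfl
  have hY : Bim b.τ M := fun y hy => by
    obtain ⟨h1, h2⟩ := (hmem y).1 hy
    refine ⟨h2, fun a => ⟨(hmem _).2 ⟨?_, by rw [map_mul, h2, mul_zero]⟩,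
      (hmem _).2 ⟨?_, by rw [map_mul, h2, zero_mul]⟩⟩⟩
    · have e : a * y = b.τ a * y := by
        rw [← sub_eq_zero, ← sub_mul, b.split.sq _ _ (b.split.sub a) h2]
      rw [e]
      exact b.pmul _ _ (b.pτ a) h1
    · have e : y * a = y * b.τ a := by
        rw [← sub_eq_zero, ← mul_sub, b.split.sq _ _ h2 (b.split.sub a)]
      rw [e]
      exact b.pmul _ _ h1 (b.pτ a)
  have hf : ∀ a, b.τ a = a → b.σ a = a := fun a ha => by rw [← ha, b.στ]
  have hs : ∀ y ∈ M, b.σ y ∈ M := fun y hy => by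
    obtain ⟨h1, h2⟩ := (hmem y).1 hy
    exact (hmem _).2 ⟨by rw [b.pσ, h1], by rw [b.τσ, h2]⟩
  have h0 : ∀ a, b.τ a = a → b.d a = 0 := fun a ha => by rw [← ha, b.dτ]
  have hd : ∀ a, b.d a ∈ M := fun a =>
    (hmem _).2 ⟨b.pO _ (b.dg.σδ a), by rw [← b.τσ, b.dg.σδ, map_zero]⟩
  have hL : ∀ a, b.τ a = a → a ∈ fx b.p := fun a ha => mem_fx.2 (by rw [← ha, b.pτ])
  set T : Submodule k (WW k B) :=
    (XW β (fx b.p) (fx b.p)).map (DD β b.σ b.d) ⊔ LL k 1 B 1 with hT
  suffices h : z ∈ T by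
    obtain ⟨_, ⟨u, hu, rfl⟩, w, hw, rfl⟩ := Submodule.mem_sup.1 h
    exact ⟨u, hu, by rwa [add_sub_cancel_left]⟩
  have hP : ∀ m, Op β b.τ (List.replicate m 1) z ∈ CW β b.τ (List.replicate m M) := fun m =>
    (Submodule.span_le (p := (CW β b.τ (List.replicate m M)).comap
      (Op β b.τ (List.replicate m 1)))).2 (by
        rintro _ ⟨n, hn, l, hl, rfl⟩
        refine Op_mem β b.split _ (fun a ha => ?_) m
        have h1 : b.p a = a := List.forall_mem_cons.2 ⟨hn, hl⟩ a ha
        exact (hmem _).2 ⟨by rw [map_sub, h1, b.pτ], b.split.sub a⟩) hz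
  have hz0 : piL k B 0 (Op β b.τ [] z) = 0 :=
    (Submodule.span_le (p := LinearMap.ker (piL k B 0 ∘ₗ Op β b.τ []))).2 (by
      rintro _ ⟨n, hn, l, hl, rfl⟩
      show piL k B 0 (Op β b.τ [] (ww β (n :: l))) = 0
      rw [ww_cons, Op_nil_cons, piL_zero_cons]) hz
  obtain ⟨N, hN⟩ := ev_sum β (P := fun q => Op β b.τ (List.replicate q 1))
    (fun l N h => sum_Op β (shape_top b.τ l) N (by simpa using h)) z
  have hN := hN N le_rfl
  have hcyc : ∀ m ∈ Finset.range N, DD β b.σ b.d (Op β b.τ (List.replicate m 1) z) = 0 := by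
    intro m hm
    have hDm : ∀ j, DD β b.σ b.d (Op β b.τ (List.replicate j 1) z) ∈
        CW β b.τ (List.replicate j M) := fun j =>
      Submodule.add_mem _ (bT_mem hc b.dg.split b.split hY hf hs (hP j))
        (om_mem_CW (dW_mem hc hf hs h0 hd (fun _ h => List.eq_of_mem_replicate h) (hP j)))
    have h1 := congrArg (Op β b.τ (List.replicate m 1)) hD
    rw [← hN, map_sum, map_sum, map_zero, Finset.sum_eq_single m] at h1
    · rwa [Op_delta β (fun y hy => (hY y hy).1) m m (hDm m), if_pos rfl] at h1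
    · intro j _ hj
      rw [Op_delta β (fun y hy => (hY y hy).1) m j (hDm j), if_neg hj]
    · intro h
      exact absurd hm h
  rw [← hN]
  refine T.sum_mem fun m hm => ?_
  have h1 := hcyc m hm
  have h2 := hP m
  cases m with
  | succ m =>
    obtain ⟨u, hu, h3⟩ := ex_DD hc b.dg b.split hY hf hs b.τσ h0 hd m (b.exM B β m) _ h2 h1
    refine Submodule.mem_sup_left ⟨u, CW_map LinearMap.id _ (fun l hl => ?_) hu, h3⟩
    refine mem_XW (shape_mem hL (fun Z hZ => ?_) hl) ?_
    · rw [List.eq_of_mem_replicate hZ]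
      exact inf_le_left
    · rintro rfl
      simpa using hl.eq_nil
  | zero =>
    simp only [List.replicate_zero] at h1 h2 ⊢
    have hb : ∀ x ∈ CW β b.τ [], DD β b.σ b.d x = bH β x := fun x hx =>
      CW_ext (DD β b.σ b.d) (bH β) (fun l hl => by
        cases l with
        | nil =>
          show bp β _ + d0 β (TS β b.σ _) + om (dW β b.σ b.d _) = _
          rw [bp_ww_nil, hc.d0_TS_nil, hc.dW_nil, bH_nil]
          simp
        | cons a l =>
          exact hc.DD_eq ⊤ ⊤ _ (mem_XW (fun c hc' => by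
            have := shape_nil_iff.1 hl c hc'
            exact mem_zc.2 ⟨⟨trivial, hf c this⟩, h0 c this⟩) (by simp))) hx
    generalize Op β b.τ [] z = x at h1 h2 hz0
    rw [hb x h2] at h1
    obtain ⟨N', hN'⟩ := ev_sum β (P := fun q => piL k B q) (fun l N h => by
      simp only [piL_ww]
      rw [Finset.sum_ite_eq, if_pos (Finset.mem_range.2 h)]) x
    rw [← hN' N' le_rfl]
    refine T.sum_mem fun n _ => ?_
    match n with
    | 0 => rw [hz0]; exact T.zero_mem
    | 1 => exact Submodule.mem_sup_right (piL_mem_LL 1 x)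
    | n + 2 =>
      obtain ⟨u, hu, h3⟩ := w0 k A B β b.τ b.ε b.tri n _ (piL_mem_CW (n + 2) h2)
        (piL_mem_LL _ x) (by rw [← piL_bH, h1, map_zero])
      refine Submodule.mem_sup_left ⟨piL k B (n + 3) u, CW_map (piL k B (n + 3)) _
        (fun l hl => ?_) hu, ?_⟩
      · rw [piL_ww]
        split_ifs with h
        · refine mem_XW (fun a ha => hL a (shape_nil_iff.1 hl a ha)) ?_
          rintro rfl
          simp at h
        · exact Submodule.zero_mem _
      · rw [hb _ (piL_mem_CW _ hu), ← piL_bH, h3, piL_of_mem (piL_mem_LL _ x)]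

end Pool.Agent.MP_92f1cb_al.H21T.H42
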