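import Pool.Agent.MP_92f1cb_al.H21T.Spec

set_option autoImplicit false

namespace Pool.Agent.MP_92f1cb_al.H21T

open Pool.Agent.MP_92f1cb_al.H14 Pool.Agent.MP_92f1cb_al.H14C Module

namespace KR

variable {k G B : Type} [Field k] [Ring G] [Algebra k G] (β : Basis B k G)

/-- Multiply the last letter from the right. -/
noncomputable def Tl (x : G) : End k (WW k B) :=
  HdT β (LinearMap.mulRight k (om : End k (WW k B)) ∘ₗ snoc β ∘ₗ LinearMap.mulRight k x) * TH k B

theorem Tl_snoc (x a : G) (W : WW k B) : Tl β x (snoc β a W) = snoc β (a * x) W := by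
  rw [Tl, End.mul_apply, TH_snoc, HdT_cons]
  simp only [LinearMap.comp_apply, LinearMap.mulRight_apply, End.mul_apply, om_om]

theorem Tl_nil (x : G) : Tl β x (ww β []) = 0 := by
  rw [Tl, End.mul_apply, TH_nil, map_neg, HdT_nil, neg_zero]

theorem snoc_ext {f g : End k (WW k B)} (h0 : f (ww β []) = g (ww β []))
    (h : ∀ a l, f (snoc β a (ww β l)) = g (snoc β a (ww β l))) (W : WW k B) : f W = g W := by
  refine ww_ext β (fun l => ?_) W
  induction l using List.reverseRecOn with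
  | nil => exact h0
  | append_singleton l a _ => rw [ww_concat]; exact h a l

theorem Tl_Tl (x x' : G) (W : WW k B) : Tl β x (Tl β x' W) = Tl β (x' * x) W := by
  refine snoc_ext β (f := Tl β x * Tl β x') ?_ (fun a l => ?_) W
  · rw [End.mul_apply, Tl_nil, Tl_nil, map_zero]
  · rw [End.mul_apply, Tl_snoc, Tl_snoc, Tl_snoc, mul_assoc]

theorem Tl_zero (W : WW k B) : Tl β 0 W = 0 := by
  refine snoc_ext β (g := 0) ?_ (fun a l => ?_) W
  · rw [Tl_nil, LinearMap.zero_apply]
  · rw [Tl_snoc, mul_zero, map_zero, LinearMap.zero_apply, LinearMap.zero_apply]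

theorem Tl_add (x x' : G) (W : WW k B) : Tl β (x + x') W = Tl β x W + Tl β x' W := by
  refine snoc_ext β (g := Tl β x + Tl β x') ?_ (fun a l => ?_) W
  · rw [LinearMap.add_apply, Tl_nil, Tl_nil, Tl_nil, add_zero]
  · rw [LinearMap.add_apply, Tl_snoc, Tl_snoc, Tl_snoc, mul_add, map_add, LinearMap.add_apply]

theorem Tl_sum {I : Type} (s : Finset I) (x : I → G) (W : WW k B) :
    Tl β (∑ i ∈ s, x i) W = ∑ i ∈ s, Tl β (x i) W := by
  classical
  induction s using Finset.induction_on with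
  | empty => rw [Finset.sum_empty, Finset.sum_empty, Tl_zero]
  | insert i s hi ih => rw [Finset.sum_insert hi, Finset.sum_insert hi, Tl_add, ih]

theorem bp_snoc_nil (a : G) : bp β (snoc β a (ww β [])) = 0 := by rw [← cons_nil, bp_one]

theorem Tl_bp (x : G) (W : WW k B) : bp β (Tl β x W) = Tl β x (bp β W) := by
  refine snoc_ext β (f := bp β * Tl β x) (g := Tl β x * bp β) ?_ (fun a l => ?_) W
  · rw [End.mul_apply, End.mul_apply, Tl_nil, bp_ww_nil, map_zero, map_zero]
  · rw [End.mul_apply, End.mul_apply, Tl_snoc]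
    induction l using List.reverseRecOn with
    | nil => rw [bp_snoc_nil, bp_snoc_nil, map_zero]
    | append_singleton l c _ =>
      rw [ww_concat, bp_snoc_snoc, bp_snoc_snoc, map_add, Tl_snoc, Tl_snoc, mul_assoc]

theorem Tl_om (x : G) (W : WW k B) : om (Tl β x W) = Tl β x (om W) := by
  refine snoc_ext β (f := om * Tl β x) (g := Tl β x * om) ?_ (fun a l => ?_) W
  · rw [End.mul_apply, End.mul_apply, Tl_nil, om_ww, map_smul, Tl_nil, map_zero, smul_zero]
  · rw [End.mul_apply, End.mul_apply, Tl_snoc, om_snoc, om_snoc, map_neg, Tl_snoc]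

variable {β} {σ : G →ₐ[k] G} {δ : End k G} {N L : Submodule k G} {e y y' : G}

theorem DK_apply (c : k) (W : WW k B) :
    DK β σ δ c W = bp β W + c • om (dW β σ δ W) := rfl

theorem Tl_dW (hd : DG σ δ) (hc : Calc β σ δ) {x : G} (hx : δ x = 0) (W : WW k B) :
    dW β σ δ (Tl β x W) = Tl β x (dW β σ δ W) := by
  refine snoc_ext β (f := dW β σ δ * Tl β x) (g := Tl β x * dW β σ δ) ?_ (fun a l => ?_) W
  · rw [End.mul_apply, End.mul_apply, Tl_nil, hc.dW_nil, map_zero, map_zero]
  · rw [End.mul_apply, End.mul_apply, Tl_snoc, hc.dW_snoc, hc.dW_snoc, map_add, Tl_snoc, Tl_snoc,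
      hd.leib, hx, mul_zero, add_zero]

theorem Tl_DK (hd : DG σ δ) (hc : Calc β σ δ) (c : k) {x : G} (hx : δ x = 0) (W : WW k B) :
    DK β σ δ c (Tl β x W) = Tl β x (DK β σ δ c W) := by
  rw [DK_apply, DK_apply, Tl_bp, Tl_dW hd hc hx, Tl_om, map_add, map_smul]

theorem one_mem {n : G} (hn : n ∈ N) (hy : n * y = n) : snoc β n (ww β []) ∈ KW β N L e y := by
  rw [← cons_nil]
  exact Submodule.subset_span (Or.inl ⟨n, hn, hy, rfl⟩)

theorem gen_mem {n a : G} {l : List G} (hn : n ∈ N) (hne : n * e = n) (hl : ∀ c ∈ l, c ∈ cor e L)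
    (ha : a ∈ L) (hea : e * a = a) (hay : a * y = a) :
    snoc β a (ww β (n :: l)) ∈ KW β N L e y := by
  rw [← ww_concat]
  exact Submodule.subset_span (Or.inr ⟨n, hn, l, a, ha, hne, hl, hea, hay, rfl⟩)

theorem KW_map (f : End k (WW k B)) (V : Submodule k (WW k B))
    (h1 : ∀ n ∈ N, n * y = n → f (snoc β n (ww β [])) ∈ V)
    (h2 : ∀ n ∈ N, n * e = n → ∀ l : List G, (∀ c ∈ l, c ∈ cor e L) → ∀ a ∈ L, e * a = a →
      a * y = a → f (snoc β a (ww β (n :: l))) ∈ V)
    {W : WW k B} (hW : W ∈ KW β N L e y) : f W ∈ V := by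
  refine (Submodule.span_le (p := V.comap f)).2 ?_ hW
  rintro _ (⟨n, hn, hy, rfl⟩ | ⟨n, hn, l, a, ha, hne, hl, hea, hay, rfl⟩)
  · have := h1 n hn hy
    rw [← cons_nil] at this
    exact this
  · have := h2 n hn hne l hl a ha hea hay
    rw [← ww_concat] at this
    exact this

theorem KW_ext (f g : End k (WW k B))
    (h : ∀ a W, a * y = a → f (snoc β a W) = g (snoc β a W))
    {W : WW k B} (hW : W ∈ KW β N L e y) : f W = g W := by
  have := KW_map (f - g) ⊥
    (fun n _ hy => by rw [LinearMap.sub_apply, h n _ hy, sub_self]; exact Submodule.zero_mem _)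
    (fun n _ _ l _ a _ _ hy => by
      rw [LinearMap.sub_apply, h a _ hy, sub_self]; exact Submodule.zero_mem _) hW
  rw [Submodule.mem_bot, LinearMap.sub_apply, sub_eq_zero] at this
  exact this

theorem Tl_fix {W : WW k B} (hW : W ∈ KW β N L e y) : Tl β y W = W :=
  KW_ext (Tl β y) 1 (fun a W h => by rw [Tl_snoc, h, End.one_apply]) hW

theorem KW_mono (h : y * y' = y) {W : WW k B} (hW : W ∈ KW β N L e y) : W ∈ KW β N L e y' :=
  KW_map 1 _ (fun n hn hy => one_mem hn (by rw [← hy, mul_assoc, h]))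
    (fun n hn hne l hl a ha hea hay => gen_mem hn hne hl ha hea (by rw [← hay, mul_assoc, h])) hW

theorem Tl_mem (hp : Pair σ δ N L) {x : G} (hx : x ∈ L) (hxy : x * y' = x) {W : WW k B}
    (hW : W ∈ KW β N L e y) : Tl β x W ∈ KW β N L e y' :=
  KW_map (Tl β x) _
    (fun n hn _ => by
      rw [Tl_snoc]; exact one_mem (hp.NL n hn x hx) (by rw [mul_assoc, hxy]))
    (fun n hn hne l hl a ha hea _ => by
      rw [Tl_snoc]
      exact gen_mem hn hne hl (hp.LL a ha x hx) (by rw [← mul_assoc, hea])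
        (by rw [mul_assoc, hxy])) hW

theorem snoc_mem {a : G} (ha : a ∈ L) (hea : e * a = a) (hay : a * y = a) {W : WW k B}
    (hW : W ∈ KW β N L e e) : snoc β a W ∈ KW β N L e y :=
  KW_map (snoc β a) _
    (fun n hn hne => by
      rw [← cons_nil, ← ww_cons]
      exact gen_mem hn hne (fun _ h => absurd h List.not_mem_nil) ha hea hay)
    (fun n hn hne l hl c hc hec hce => by
      rw [← ww_concat, List.cons_append]
      refine gen_mem hn hne (fun x hx => ?_) ha hea hay
      rcases List.mem_append.1 hx with h | h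
      · exact hl x h
      · rw [List.mem_singleton.1 h]; exact mem_cor.2 ⟨⟨hc, hec⟩, hce⟩) hW

theorem om_mem {W : WW k B} (hW : W ∈ KW β N L e y) : om W ∈ KW β N L e y :=
  KW_map om _
    (fun n hn hy => by
      rw [om_snoc, om_ww, map_smul]
      exact Submodule.neg_mem _ (Submodule.smul_mem _ _ (one_mem hn hy)))
    (fun n hn hne l hl a ha hea hay => by
      rw [om_snoc, om_ww, map_smul]
      exact Submodule.neg_mem _ (Submodule.smul_mem _ _ (gen_mem hn hne hl ha hea hay))) hW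

theorem eps_apply (a : G) : eps σ a = σ a - (a - σ a) := rfl

theorem eps_mem {V : Submodule k G} (hV : ∀ a ∈ V, σ a ∈ V) {a : G} (ha : a ∈ V) : eps σ a ∈ V :=
  V.sub_mem (hV a ha) (V.sub_mem ha (hV a ha))

theorem eps_left (he : σ e = e) {a : G} (h : e * a = a) : e * eps σ a = eps σ a := by
  have h1 : e * σ a = σ a := by
    have := congrArg σ h
    rwa [map_mul, he] at this
  rw [eps_apply, mul_sub, mul_sub, h1, h]

theorem eps_right (he : σ e = e) {a : G} (h : a * e = a) : eps σ a * e = eps σ a := by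
  have h1 : σ a * e = σ a := by
    have := congrArg σ h
    rwa [map_mul, he] at this
  rw [eps_apply, sub_mul, sub_mul, h1, h]

theorem δ_left (hd : DG σ δ) (he : δ e = 0) {a : G} (h : e * a = a) : e * δ a = δ a := by
  have := hd.leib e a
  rw [h, he, zero_mul, zero_add] at this
  exact this.symm

theorem δ_right (hd : DG σ δ) (he : δ e = 0) {a : G} (h : a * e = a) : δ a * e = δ a := by
  have := hd.leib a e
  rw [h, he, mul_zero, add_zero] at this
  exact this.symm

theorem E_in (hc : Calc β σ δ) (hp : Pair σ δ N L) (he : Cl σ δ L e) {n : G} (hn : n ∈ N)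
    (hne : n * e = n) (l : List G) (hl : ∀ c ∈ l, c ∈ cor e L) :
    wm β β (eps σ) (ww β (n :: l)) ∈ KW β N L e e := by
  induction l using List.reverseRecOn with
  | nil =>
    rw [ww_cons, cons_nil, hc.E_snoc, hc.E_nil]
    exact one_mem (eps_mem hp.σN hn) (eps_right he.fix hne)
  | append_singleton l c ih =>
    have h := mem_cor.1 (hl c (by simp))
    rw [← List.cons_append, ww_concat, hc.E_snoc]
    exact snoc_mem (eps_mem hp.σL h.1.1) (eps_left he.fix h.1.2) (eps_right he.fix h.2)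
      (ih fun x hx => hl x (List.mem_append_left _ hx))

theorem dW_one (hd : DG σ δ) (hc : Calc β σ δ) (hp : Pair σ δ N L) (hy : δ y = 0) {n : G}
    (hn : n ∈ N) (hny : n * y = n) : dW β σ δ (snoc β n (ww β [])) ∈ KW β N L e y := by
  rw [hc.dW_snoc, hc.dW_nil, hc.E_nil, map_zero, zero_add]
  exact one_mem (hp.δN n hn) (δ_right hd hy hny)

theorem dW_step (hd : DG σ δ) (hc : Calc β σ δ) (hp : Pair σ δ N L) (he : Cl σ δ L e)
    (hy : δ y = 0) {a : G} (ha : a ∈ L) (hea : e * a = a) (hay : a * y = a) {W : WW k B}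
    (h1 : dW β σ δ W ∈ KW β N L e e) (h2 : wm β β (eps σ) W ∈ KW β N L e e) :
    dW β σ δ (snoc β a W) ∈ KW β N L e y := by
  rw [hc.dW_snoc]
  exact Submodule.add_mem _ (snoc_mem ha hea hay h1)
    (snoc_mem (hp.δL a ha) (δ_left hd he.cl hea) (δ_right hd hy hay) h2)

theorem dW_in (hd : DG σ δ) (hc : Calc β σ δ) (hp : Pair σ δ N L) (he : Cl σ δ L e) {n : G}
    (hn : n ∈ N) (hne : n * e = n) (l : List G) (hl : ∀ c ∈ l, c ∈ cor e L) :
    dW β σ δ (ww β (n :: l)) ∈ KW β N L e e := by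
  induction l using List.reverseRecOn with
  | nil => rw [ww_cons, cons_nil]; exact dW_one hd hc hp he.cl hn hne
  | append_singleton l c ih =>
    have h := mem_cor.1 (hl c (by simp))
    have hl' : ∀ x ∈ l, x ∈ cor e L := fun x hx => hl x (List.mem_append_left _ hx)
    rw [← List.cons_append, ww_concat]
    exact dW_step hd hc hp he he.cl h.1.1 h.1.2 h.2 (ih hl') (E_in hc hp he hn hne l hl')

theorem dW_mem (hd : DG σ δ) (hc : Calc β σ δ) (hp : Pair σ δ N L) (he : Cl σ δ L e)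
    (hy : δ y = 0) {W : WW k B} (hW : W ∈ KW β N L e y) : dW β σ δ W ∈ KW β N L e y :=
  KW_map (dW β σ δ) _ (fun _ hn hny => dW_one hd hc hp hy hn hny)
    (fun _ hn hne l hl _ ha hea hay => dW_step hd hc hp he hy ha hea hay
      (dW_in hd hc hp he hn hne l hl) (E_in hc hp he hn hne l hl)) hW

theorem bp_gen (hp : Pair σ δ N L) {n : G} (hn : n ∈ N) (hne : n * e = n) (l : List G)
    (hl : ∀ c ∈ l, c ∈ cor e L) (y a : G) (ha : a ∈ L) (hea : e * a = a) (hay : a * y = a) :
    bp β (snoc β a (ww β (n :: l))) ∈ KW β N L e y := by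
  induction l using List.reverseRecOn generalizing y a with
  | nil =>
    rw [ww_cons, cons_nil, bp_snoc_snoc, bp_snoc_nil, map_zero, zero_add, om_ww, map_smul]
    exact Submodule.smul_mem _ _ (one_mem (hp.NL n hn a ha) (by rw [mul_assoc, hay]))
  | append_singleton l c ih =>
    have h := mem_cor.1 (hl c (by simp))
    have hl' : ∀ x ∈ l, x ∈ cor e L := fun x hx => hl x (List.mem_append_left _ hx)
    rw [← List.cons_append, ww_concat, bp_snoc_snoc, om_ww, map_smul]
    refine Submodule.add_mem _ (snoc_mem ha hea hay (ih hl' e c h.1.1 h.1.2 h.2))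
      (Submodule.smul_mem _ _ (gen_mem hn hne hl' (hp.LL c h.1.1 a ha) ?_ ?_))
    · rw [← mul_assoc, h.1.2]
    · rw [mul_assoc, hay]

theorem bp_mem (hp : Pair σ δ N L) {W : WW k B} (hW : W ∈ KW β N L e y) :
    bp β W ∈ KW β N L e y :=
  KW_map (bp β) _ (fun n _ _ => by rw [bp_snoc_nil]; exact Submodule.zero_mem _)
    (fun _ hn hne l hl a ha hea hay => bp_gen hp hn hne l hl y a ha hea hay) hW

theorem DK_mem (hd : DG σ δ) (hc : Calc β σ δ) (hp : Pair σ δ N L) (he : Cl σ δ L e)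
    (hy : δ y = 0) (c : k) {W : WW k B} (hW : W ∈ KW β N L e y) :
    DK β σ δ c W ∈ KW β N L e y := by
  rw [DK_apply]
  exact Submodule.add_mem _ (bp_mem hp hW)
    (Submodule.smul_mem _ _ (om_mem (dW_mem hd hc hp he hy hW)))

theorem contr (hc : Calc β σ δ) (hy : δ y = 0) (c : k) {W : WW k B} (hW : W ∈ KW β N L e y) :
    DK β σ δ c (snoc β y (om W)) + snoc β y (om (DK β σ δ c W)) = - W := by
  have h1 : bp β (snoc β y (om W)) + snoc β y (om (bp β W)) = - W :=
    KW_ext (bp β * snoc β y * om + snoc β y * om * bp β) (-LinearMap.id) (fun a W h => by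
      simp only [LinearMap.add_apply, End.mul_apply, LinearMap.neg_apply, LinearMap.id_apply]
      rw [om_bp, om_snoc, map_neg, map_neg, map_neg, map_neg, map_neg, bp_snoc_snoc, om_om, h]
      abel) hW
  have h2 : om (dW β σ δ (snoc β y (om W))) = - snoc β y (dW β σ δ W) := by
    rw [hc.dW_snoc, hy, map_zero, LinearMap.zero_apply, add_zero, om_snoc, hc.om_dW, om_om]
  rw [DK_apply, DK_apply, h2, map_add, map_add, map_smul, map_smul, om_om, ← h1, smul_neg]
  abel

end KR

open KR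

theorem sK1 : SK1 := by
  intro k G B _ _ _ β σ δ N L e y c _ hc hy hey hye z hz hD
  have h := contr hc hy.cl c hz
  rw [hD, map_zero, map_zero, add_zero] at h
  refine ⟨- snoc β y (om z), Submodule.neg_mem _ ?_, by rw [map_neg, h, neg_neg]⟩
  exact snoc_mem hy.mem hey hy.idem (KW_mono hye (om_mem hz))

theorem sK3 : SK3 := by
  intro k G B I _ _ _ _ β σ δ N L e y c hd hc hp hy hs hex z hz hD
  have h : ∀ i, ∃ u ∈ KW β N L e (y i), DK β σ δ c u = Tl β (y i) z := fun i =>
    hex i _ (Tl_mem hp (hy i).mem (hy i).idem hz) (by rw [Tl_DK hd hc c (hy i).cl, hD, map_zero])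
  choose u hu hDu using h
  refine ⟨∑ i, u i, Submodule.sum_mem _ fun i _ => KW_mono (mul_one _) (hu i), ?_⟩
  rw [map_sum, Finset.sum_congr rfl fun i _ => hDu i, ← Tl_sum, hs, Tl_fix hz]

theorem sK2 : SK2 := by
  intro k G B Z _ _ _ _ _ β σ δ N L e y y₁ y₀ t t' u u' c hd hc hp he hy hy₁ hy₀ hU h0
  obtain ⟨⟨ht, ht', hu⟩, ⟨ct', cu⟩, ⟨rt, rt', ru⟩, tt, uu, tu, hsum⟩ := hU
  have hdec : ∀ w ∈ KW β N L e y,
      Tl β t' (Tl β t w) + ∑ z, Tl β (u' z) (Tl β (u z) w) = w := fun w hw => by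
    rw [Tl_Tl, Finset.sum_congr rfl fun z _ => Tl_Tl β (u' z) (u z) w, ← Tl_sum, ← Tl_add, hsum,
      Tl_fix hw]
  have hQS : ∀ v : Z → WW k B, (∀ z, v z ∈ KW β N L e y₀) → ∀ z',
      Tl β (u z') (∑ z, Tl β (u' z) (v z)) = v z' := fun v hv z' => by
    rw [map_sum, Finset.sum_eq_single z']
    · rw [Tl_Tl, uu, if_pos rfl, Tl_fix (hv z')]
    · intro z _ hz
      rw [Tl_Tl, uu, if_neg hz, Tl_zero]
    · intro h
      exact absurd (Finset.mem_univ _) h
  have hS : ∀ v : Z → WW k B, (∀ z, v z ∈ KW β N L e y₀) →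
      ∑ z, Tl β (u' z) (v z) ∈ KW β N L e y := fun v hv =>
    Submodule.sum_mem _ fun z _ => Tl_mem hp (hu z).2 (ru z).2 (hv z)
  -- injectivity of the inclusion on boundaries
  have hinj : ∀ x ∈ KW β N L e y₁, ∀ x' ∈ KW β N L e y₁, Tl β t' x = Tl β t' x' → x = x' :=
    fun x hx x' hx' h => by
      have := congrArg (Tl β t) h
      rwa [Tl_Tl, Tl_Tl, tt, Tl_fix hx, Tl_fix hx'] at this
  -- a chain whose boundary is killed by all `u z` can be corrected into the image
  have hcorr : ∀ w ∈ KW β N L e y, (∀ z, Tl β (u z) (DK β σ δ c w) = 0) →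
      ∃ s ∈ KW β N L e y, ∃ x ∈ KW β N L e y₁, w = DK β σ δ c s + Tl β t' x := fun w hw hD => by
    have h : ∀ z, ∃ v ∈ KW β N L e y₀, DK β σ δ c v = Tl β (u z) w := fun z =>
      h0 _ (Tl_mem hp (hu z).1 (ru z).1 hw) (by rw [Tl_DK hd hc c (cu z), hD])
    choose v hv hDv using h
    have hs := hS v hv
    have hw' := Submodule.sub_mem _ hw (DK_mem hd hc hp he hy.cl c hs)
    refine ⟨_, hs, _, Tl_mem hp ht rt hw', ?_⟩
    have h1 := hdec _ hw'
    have h2 : ∑ z, Tl β (u' z) (Tl β (u z) (w - DK β σ δ c (∑ z, Tl β (u' z) (v z)))) = 0 :=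
      Finset.sum_eq_zero fun z _ => by
        rw [map_sub, ← Tl_DK hd hc c (cu z), hQS v hv, hDv, sub_self, map_zero]
    rw [h2, add_zero] at h1
    rw [h1]
    abel
  constructor
  · intro h1 w hw hD
    obtain ⟨s, hs, x, hx, hwx⟩ := hcorr w hw fun z => by rw [hD, map_zero]
    have hDx : DK β σ δ c x = 0 := by
      refine hinj _ (DK_mem hd hc hp he hy₁.cl c hx) 0 (Submodule.zero_mem _) ?_
      rw [hwx, map_add, hc.DK_DK, zero_add, Tl_DK hd hc c ct'] at hD
      rw [hD, map_zero]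
    obtain ⟨r, hr, hDr⟩ := h1 x hx hDx
    refine ⟨s + Tl β t' r, Submodule.add_mem _ hs (Tl_mem hp ht' rt' hr), ?_⟩
    rw [map_add, Tl_DK hd hc c ct', hDr, ← hwx]
  · intro h1 x hx hD
    obtain ⟨w, hw, hDw⟩ := h1 (Tl β t' x) (Tl_mem hp ht' rt' hx)
      (by rw [Tl_DK hd hc c ct', hD, map_zero])
    obtain ⟨s, _, r, hr, hwr⟩ := hcorr w hw fun z => by rw [hDw, Tl_Tl, (tu z).1, Tl_zero]
    refine ⟨r, hr, hinj _ (DK_mem hd hc hp he hy₁.cl c hr) x hx ?_⟩
    rw [← hDw, hwr, map_add, hc.DK_DK, zero_add, Tl_DK hd hc c ct']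

end Pool.Agent.MP_92f1cb_al.H21T
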