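import Pool.Agent.MP_92f1cb_al.H21T.Spec

set_option autoImplicit false

namespace Pool.Agent.MP_92f1cb_al.H21T

open Pool.Agent.MP_92f1cb_al.H14 Pool.Agent.MP_92f1cb_al.H14C Module

namespace MxX

section Sub

variable {k G : Type} [Field k] [Ring G] [Algebra k G]

/-- A subspace closed under products, with a unit of its own. -/
structure Dat (V : Submodule k G) (u : G) : Prop where
  mem : u ∈ V
  mul : ∀ a ∈ V, ∀ c ∈ V, a * c ∈ V
  one : ∀ a ∈ V, u * a = a ∧ a * u = a

/-- The subspace as a ring. -/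
def Cr {V : Submodule k G} {u : G} (_ : Dat V u) : Type := V

variable {V : Submodule k G} {u : G} (h : Dat V u)

instance : AddCommGroup (Cr h) := inferInstanceAs (AddCommGroup V)

instance : Module k (Cr h) := inferInstanceAs (Module k V)

/-- The inclusion. -/
def vl : Cr h →ₗ[k] G := V.subtype

theorem vl_inj : Function.Injective (vl h) := Subtype.val_injective

theorem vl_mem (a : Cr h) : vl h a ∈ V := Subtype.property (p := fun x => x ∈ V) a

instance : Mul (Cr h) :=
  ⟨fun a c => (⟨vl h a * vl h c, h.mul _ (vl_mem h a) _ (vl_mem h c)⟩ : V)⟩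

instance : One (Cr h) := ⟨(⟨u, h.mem⟩ : V)⟩

theorem vl_mul (a c : Cr h) : vl h (a * c) = vl h a * vl h c := rfl

theorem vl_one : vl h 1 = u := rfl

instance : Ring (Cr h) where
  __ := (inferInstance : AddCommGroup (Cr h))
  mul := (· * ·)
  one := 1
  left_distrib a b c := vl_inj h (by simp only [vl_mul, map_add, mul_add])
  right_distrib a b c := vl_inj h (by simp only [vl_mul, map_add, add_mul])
  zero_mul a := vl_inj h (by simp only [vl_mul, map_zero, zero_mul])
  mul_zero a := vl_inj h (by simp only [vl_mul, map_zero, mul_zero])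
  mul_assoc a b c := vl_inj h (by simp only [vl_mul, mul_assoc])
  one_mul a := vl_inj h (by rw [vl_mul, vl_one]; exact (h.one _ (vl_mem h a)).1)
  mul_one a := vl_inj h (by rw [vl_mul, vl_one]; exact (h.one _ (vl_mem h a)).2)

noncomputable instance : Algebra k (Cr h) :=
  Algebra.ofModule
    (fun r x y => vl_inj h (by simp only [vl_mul, map_smul, smul_mul_assoc]))
    (fun r x y => vl_inj h (by simp only [vl_mul, map_smul, mul_smul_comm]))

theorem vl_range : LinearMap.range (vl h) = V := V.range_subtype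

end Sub

end MxX

theorem sSub : SSub := by
  intro k G _ _ _ V u h1 h2 h3
  have h : MxX.Dat V u := ⟨h1, h2, h3⟩
  exact ⟨MxX.Cr h, inferInstance, inferInstance, MxX.vl h,
    ⟨MxX.vl_inj h, MxX.vl_mul h, MxX.vl_one h, MxX.vl_range h⟩⟩

namespace MxX

variable {k A : Type} [Field k] [Ring A] [Algebra k A]

/-- Apply a family of linear maps to the entries. -/
def pw {C X : Type} [AddCommGroup X] [Module k X] (F : C → C → A →ₗ[k] X) :
    Matrix C C A →ₗ[k] Matrix C C X where
  toFun f := Matrix.of fun c c' => F c c' (f c c')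
  map_add' f g := by ext c c'; simp only [Matrix.of_apply, Matrix.add_apply, map_add]
  map_smul' r f := by
    ext c c'; simp only [Matrix.of_apply, Matrix.smul_apply, map_smul, RingHom.id_apply]

theorem pw_apply {C X : Type} [AddCommGroup X] [Module k X] (F : C → C → A →ₗ[k] X)
    (f : Matrix C C A) (c c' : C) : pw F f c c' = F c c' (f c c') := rfl

/-- One entry of a matrix valued map. -/
def en (F : A →ₗ[k] Matrix (Fin 3) (Fin 3) k) (i j : Fin 3) : A →ₗ[k] k where
  toFun a := F a i j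
  map_add' a c := by simp only [map_add, Matrix.add_apply]
  map_smul' r a := by simp only [map_smul, Matrix.smul_apply, RingHom.id_apply]

theorem mid (M N : Matrix (Fin 3) (Fin 3) k) (i j l : Fin 3) :
    (M * Matrix.single j j (1 : k) * N) i l = M i j * N j l := by
  rw [Matrix.mul_apply, Finset.sum_eq_single j]
  · rw [Matrix.mul_single_apply_same, mul_one]
  · intro x _ hx
    rw [Matrix.mul_single_apply_of_ne _ _ _ _ _ hx, zero_mul]
  · intro hj; exact absurd (Finset.mem_univ j) hj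

/-- The unit of the generalised matrices. -/
def uu (b : Base k A) : Matrix (CC b) (CC b) A := Matrix.diagonal fun c => b.ε (ty c)

theorem uu_idem (b : Base k A) : uu b * uu b = uu b := by
  unfold uu
  rw [Matrix.diagonal_mul_diagonal]
  exact congrArg Matrix.diagonal (funext fun c => (b.tri.coi.idem (ty c)).eq)

theorem uu_apply (b : Base k A) (f : Matrix (CC b) (CC b) A) (c c' : CC b) :
    (uu b * f * uu b) c c' = b.ε (ty c) * f c c' * b.ε (ty c') := by
  unfold uu
  rw [Matrix.mul_diagonal, Matrix.diagonal_mul]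

theorem σε (b : Base k A) (i : Fin 3) : b.σ (b.ε i) = b.ε i := by
  have h := b.στ (b.ε i)
  rwa [b.tri.fix i] at h

variable {b : Base k A} {R : Type} [Ring R] [Algebra k R]
  {ι : R →ₗ[k] Matrix (CC b) (CC b) A}

theorem mem_range (h : Emb ι (cor (uu b) ⊤) (uu b)) (f : Matrix (CC b) (CC b) A) :
    (LinearMap.mulRight k (uu b) ∘ₗ LinearMap.mulLeft k (uu b)) f ∈ LinearMap.range ι := by
  rw [h.range, mem_cor]
  change (_ ∧ uu b * (uu b * f * uu b) = uu b * f * uu b) ∧
    uu b * f * uu b * uu b = uu b * f * uu b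
  refine ⟨⟨trivial, ?_⟩, ?_⟩
  · rw [← mul_assoc, ← mul_assoc, uu_idem]
  · rw [mul_assoc _ (uu b), uu_idem]

/-- The element with given entries. -/
noncomputable def mt (h : Emb ι (cor (uu b) ⊤) (uu b)) : Matrix (CC b) (CC b) A →ₗ[k] R :=
  (LinearEquiv.ofInjective ι h.inj).symm.toLinearMap ∘ₗ
    LinearMap.codRestrict (LinearMap.range ι) _ (mem_range h)

theorem ι_mt (h : Emb ι (cor (uu b) ⊤) (uu b)) (f : Matrix (CC b) (CC b) A) :
    ι (mt h f) = uu b * f * uu b := by
  have h1 := (LinearEquiv.ofInjective ι h.inj).apply_symm_apply ⟨_, mem_range h f⟩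
  exact congrArg Subtype.val h1

theorem ι_fix (h : Emb ι (cor (uu b) ⊤) (uu b)) (x : R) : uu b * ι x * uu b = ι x := by
  have h1 := h.mul (1 * x) 1
  rw [mul_one, h.mul, h.one] at h1
  rw [← h1, ← h.one, ← h.mul, one_mul]

theorem ι_ent (h : Emb ι (cor (uu b) ⊤) (uu b)) (x : R) (c c' : CC b) :
    b.ε (ty c) * ι x c c' * b.ε (ty c') = ι x c c' := by
  rw [← uu_apply, ι_fix h]

theorem ι_right (h : Emb ι (cor (uu b) ⊤) (uu b)) (x : R) (c c' : CC b) :
    ι x c c' * b.ε (ty c') = ι x c c' := by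
  rw [← ι_ent h x c c', mul_assoc _ (b.ε _) (b.ε _), (b.tri.coi.idem (ty c')).eq]

theorem alg_ent (h : Emb ι (cor (uu b) ⊤) (uu b)) (s : A →ₐ[k] A) (hs : ∀ i, s (b.ε i) = b.ε i)
    (x : R) (c c' : CC b) : b.ε (ty c) * s (ι x c c') * b.ε (ty c') = s (ι x c c') := by
  have h1 := congrArg s (ι_ent h x c c')
  rwa [map_mul, map_mul, hs, hs] at h1

/-- The entrywise retraction as a linear map. -/
noncomputable def sl (h : Emb ι (cor (uu b) ⊤) (uu b)) : End k R :=
  mt h ∘ₗ pw (fun _ _ => b.σ.toLinearMap) ∘ₗ ι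

theorem ι_sl (h : Emb ι (cor (uu b) ⊤) (uu b)) (x : R) (c c' : CC b) :
    ι (sl h x) c c' = b.σ (ι x c c') := by
  change ι (mt h _) c c' = _
  rw [ι_mt, uu_apply]
  exact alg_ent h b.σ (σε b) x c c'

/-- The entrywise retraction. -/
noncomputable def sa (h : Emb ι (cor (uu b) ⊤) (uu b)) : R →ₐ[k] R :=
  AlgHom.ofLinearMap (sl h)
    (h.inj (by
      ext c c'
      rw [ι_sl, h.one]
      unfold uu
      rw [Matrix.diagonal_apply]
      split_ifs
      · exact σε b _
      · exact map_zero _))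
    (fun x z => h.inj (by
      ext c c'
      rw [ι_sl, h.mul, h.mul, Matrix.mul_apply, Matrix.mul_apply, map_sum]
      exact Finset.sum_congr rfl fun c'' _ => by rw [map_mul, ι_sl, ι_sl]))

/-- Entrywise evaluation. -/
def ev (ι : R →ₗ[k] Matrix (CC b) (CC b) A) (F : A →ₗ[k] Matrix (Fin 3) (Fin 3) k) :
    R →ₗ[k] Matrix (CC b) (CC b) k :=
  pw (fun c c' => en F (ty c) (ty c')) ∘ₗ ι

theorem ev_apply (F : A →ₗ[k] Matrix (Fin 3) (Fin 3) k) (x : R) (c c' : CC b) :
    ev ι F x c c' = F (ι x c c') (ty c) (ty c') := rfl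

/-- The representations. -/
noncomputable def ph (h : Emb ι (cor (uu b) ⊤) (uu b)) (m : ℕ) :
    R →ₐ[k] Matrix (CC b) (CC b) k :=
  AlgHom.ofLinearMap (ev ι (b.φ m).toLinearMap)
    (by
      ext c c'
      rw [ev_apply, h.one, Matrix.one_apply]
      unfold uu
      rw [Matrix.diagonal_apply]
      split_ifs with hc
      · subst hc
        rw [AlgHom.toLinearMap_apply, b.φε, Matrix.single_apply_same]
      · rw [map_zero, Matrix.zero_apply])
    (fun x z => by
      ext c c'
      rw [ev_apply, h.mul, Matrix.mul_apply, Matrix.mul_apply, map_sum, Matrix.sum_apply]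
      refine Finset.sum_congr rfl fun c'' _ => ?_
      rw [ev_apply, ev_apply, ← mid, ← b.φε m]
      simp only [AlgHom.toLinearMap_apply]
      rw [← map_mul, ← map_mul, ι_right h])

/-- The grading. -/
noncomputable def grd (h : Emb ι (cor (uu b) ⊤) (uu b)) (n : ℕ) : End k R :=
  mt h ∘ₗ pw (fun c c' => (if dg c c' = n then b.τ.toLinearMap else 0) +
    if dg c c' + 2 = n then LinearMap.id - b.τ.toLinearMap else 0) ∘ₗ ι

theorem ι_grd (h : Emb ι (cor (uu b) ⊤) (uu b)) (n : ℕ) (x : R) (c c' : CC b) :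
    ι (grd h n x) c c' = (if dg c c' = n then b.τ (ι x c c') else 0) +
      if dg c c' + 2 = n then ι x c c' - b.τ (ι x c c') else 0 := by
  change ι (mt h _) c c' = _
  rw [ι_mt, uu_apply]
  have h1 := alg_ent h b.τ b.tri.fix x c c'
  have h2 := ι_ent h x c c'
  simp only [LinearMap.comp_apply, pw_apply, LinearMap.add_apply, mul_add, add_mul]
  split_ifs <;>
    simp only [LinearMap.sub_apply, LinearMap.id_apply, AlgHom.toLinearMap_apply,
      LinearMap.zero_apply, mul_zero, zero_mul, mul_sub, sub_mul, h1, h2]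

end MxX

theorem sMx : SMx := by
  intro k A _ _ _ b
  obtain ⟨R, _, _, ι, h⟩ := sSub k (Matrix (CC b) (CC b) A) (cor (MxX.uu b) ⊤) (MxX.uu b)
    (mem_cor.2 ⟨⟨trivial, MxX.uu_idem b⟩, MxX.uu_idem b⟩)
    (fun a ha c hc => mem_cor.2 ⟨⟨trivial, by rw [← mul_assoc, (mem_cor.1 ha).1.2]⟩,
      by rw [mul_assoc, (mem_cor.1 hc).2]⟩)
    (fun a ha => ⟨(mem_cor.1 ha).1.2, (mem_cor.1 ha).2⟩)
  exact ⟨R, inferInstance, inferInstance, ⟨
    { ent := ι
      mat := MxX.mt h
      σ := MxX.sa h
      φ := MxX.ph h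
      ρ := fun m => MxX.ev ι (b.ρ m)
      ν := fun m => MxX.ev ι (b.ν m)
      gr := MxX.grd h
      mat_ent := fun x => h.inj (by rw [MxX.ι_mt, MxX.ι_fix h])
      ent_mat := fun f c c' => by rw [MxX.ι_mt, MxX.uu_apply]
      ent_mul := h.mul
      ent_one := h.one
      ent_σ := MxX.ι_sl h
      φ_apply := fun _ _ _ _ => rfl
      ρ_apply := fun _ _ _ _ => rfl
      ν_apply := fun _ _ _ _ => rfl
      ent_gr := MxX.ι_grd h }⟩⟩

end Pool.Agent.MP_92f1cb_al.H21T
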