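import Pool.Agent.MP_92f1cb_al.H21T.Spec

set_option autoImplicit false

namespace Pool.Agent.MP_92f1cb_al.H21T

open Pool.Agent.MP_92f1cb_al.H14 Pool.Agent.MP_92f1cb_al.H14C Module

namespace PfA

variable {k G B C : Type} [Field k] [Ring G] [Algebra k G] [Fintype C] [DecidableEq C]

/-- The product along a list of the right length. -/
noncomputable def qf (ρ : ℕ → G →ₗ[k] Matrix C C k) (m D : ℕ) (l : List G) : Matrix C C k :=
  if l.length = D then prodR (fun m a => ρ m a) m l else 0

/-- The same on words. -/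
noncomputable def Q (β : Basis B k G) (ρ : ℕ → G →ₗ[k] Matrix C C k) (m D : ℕ) :
    WW k B →ₗ[k] Matrix C C k :=
  Finsupp.linearCombination k fun p => qf ρ m D (p.2.map β)

variable (β : Basis B k G) (ρ : ℕ → G →ₗ[k] Matrix C C k)

theorem qf_cons_zero (m : ℕ) (a : G) (l : List G) : qf ρ m 0 (a :: l) = 0 := by simp [qf]

theorem qf_cons_succ (m D : ℕ) (a : G) (l : List G) :
    qf ρ m (D + 1) (a :: l) = ρ m a * qf ρ (m + 1) D l := by
  by_cases h : l.length = D <;> simp [qf, prodR, h]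

theorem qf_nil_zero (m : ℕ) : qf ρ m 0 [] = 1 := by simp [qf, prodR]

theorem qf_nil_succ (m D : ℕ) : qf ρ m (D + 1) [] = 0 := by simp [qf]

theorem pf_cons (ν : G →ₗ[k] Matrix C C k) (D : ℕ) (n : G) (l : List G) :
    pf ν ρ D (n :: l) = (ν n * qf ρ 0 D l).trace := by
  by_cases h : l.length = D <;> simp [qf, pf, h]

theorem Q_ee (m D : ℕ) (c : ZMod 1) (w : List B) :
    Q β ρ m D (ee (c, w)) = qf ρ m D (w.map β) := by simp [Q, ee]

theorem PW_ee (ν : G →ₗ[k] Matrix C C k) (D : ℕ) (c : ZMod 1) (w : List B) :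
    PW β ν ρ D (ee (c, w)) = pf ν ρ D (w.map β) := by simp [PW, ee]

theorem Q_cons_zero (m : ℕ) (a : G) (W : WW k B) : Q β ρ m 0 (cons β a W) = 0 := by
  induction a using basis_ind' β with
  | hb x =>
    induction W using ee_ind with
    | hb c w => rw [← ee_cons, Q_ee, List.map_cons, qf_cons_zero]
    | h0 => simp
    | hadd x y hx hy => simp only [map_add, hx, hy, add_zero]
    | hsmul c x hx => simp only [map_smul, hx, smul_zero]
  | h0 => simp
  | hadd x y hx hy => simp only [map_add, LinearMap.add_apply, hx, hy, add_zero]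
  | hsmul c x hx => simp only [map_smul, LinearMap.smul_apply, hx, smul_zero]

theorem Q_cons_succ (m D : ℕ) (a : G) (W : WW k B) :
    Q β ρ m (D + 1) (cons β a W) = ρ m a * Q β ρ (m + 1) D W := by
  induction a using basis_ind' β with
  | hb x =>
    induction W using ee_ind with
    | hb c w => rw [← ee_cons, Q_ee, Q_ee, List.map_cons, qf_cons_succ]
    | h0 => simp
    | hadd x y hx hy => simp only [map_add, hx, hy, mul_add]
    | hsmul c x hx => simp only [map_smul, hx, mul_smul_comm]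
  | h0 => simp
  | hadd x y hx hy => simp only [map_add, LinearMap.add_apply, hx, hy, add_mul]
  | hsmul c x hx => simp only [map_smul, LinearMap.smul_apply, hx, smul_mul_assoc]

theorem PW_cons (ν : G →ₗ[k] Matrix C C k) (D : ℕ) (a : G) (W : WW k B) :
    PW β ν ρ D (cons β a W) = (ν a * Q β ρ 0 D W).trace := by
  induction a using basis_ind' β with
  | hb x =>
    induction W using ee_ind with
    | hb c w => rw [← ee_cons, PW_ee, Q_ee, List.map_cons, pf_cons]
    | h0 => simp
    | hadd x y hx hy => simp only [map_add, hx, hy, mul_add, Matrix.trace_add]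
    | hsmul c x hx => simp only [map_smul, hx, mul_smul_comm, Matrix.trace_smul]
  | h0 => simp
  | hadd x y hx hy => simp only [map_add, LinearMap.add_apply, hx, hy, add_mul, Matrix.trace_add]
  | hsmul c x hx =>
    simp only [map_smul, LinearMap.smul_apply, hx, smul_mul_assoc, Matrix.trace_smul]

theorem Q_ww (m D : ℕ) (l : List G) : Q β ρ m D (ww β l) = qf ρ m D l := by
  induction l generalizing m D with
  | nil => rw [ww_nil, Q_ee, List.map_nil]
  | cons a l ih =>
    cases D with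
    | zero => rw [ww_cons, Q_cons_zero, qf_cons_zero]
    | succ D => rw [ww_cons, Q_cons_succ, qf_cons_succ, ih]

theorem PW_ww (ν : G →ₗ[k] Matrix C C k) (D : ℕ) (l : List G) :
    PW β ν ρ D (ww β l) = pf ν ρ D l := by
  cases l with
  | nil => rw [ww_nil, PW_ee, List.map_nil]
  | cons a l => rw [ww_cons, PW_cons, Q_ww, pf_cons]

theorem qf_zero (l : List G) (h : ∃ a ∈ l, ∀ m, ρ m a = 0) (m D : ℕ) : qf ρ m D l = 0 := by
  induction l generalizing m D with
  | nil => simp at h
  | cons x l ih =>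
    cases D with
    | zero => exact qf_cons_zero ρ m x l
    | succ D =>
      rw [qf_cons_succ]
      obtain ⟨a, ha, h0⟩ := h
      rcases List.mem_cons.1 ha with rfl | ha
      · rw [h0, zero_mul]
      · rw [ih ⟨a, ha, h0⟩, mul_zero]

variable {β ρ} {σ : G →ₐ[k] G} {δ : End k G} {φ : ℕ → G →ₐ[k] Matrix C C k}
  {ν : ℕ → G →ₗ[k] Matrix C C k}

theorem ρ_ker (hr : Reps σ φ ρ ν) {a : G} (ha : σ a = 0) (m : ℕ) : ρ m a = 0 := by
  rw [← hr.ρσ, ha, map_zero]

theorem ν_ker (hr : Reps σ φ ρ ν) {a : G} (ha : σ a = 0) (m : ℕ) : ν m a = 0 := by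
  rw [← hr.νσ, ha, map_zero]

theorem Q_dW (hd : DG σ δ) (hc : Calc β σ δ) (hr : Reps σ φ ρ ν) (l : List G) (m D : ℕ) :
    Q β ρ m D (dW β σ δ (ww β l)) = 0 := by
  induction l generalizing m D with
  | nil => rw [hc.dW_nil, map_zero]
  | cons a l ih =>
    rw [ww_cons, hc.dW_cons, map_add]
    cases D with
    | zero => rw [Q_cons_zero, Q_cons_zero, add_zero]
    | succ D => rw [Q_cons_succ, Q_cons_succ, ih, ρ_ker hr (hd.σδ a), zero_mul, mul_zero, add_zero]

theorem PW_dW (hd : DG σ δ) (hc : Calc β σ δ) (hr : Reps σ φ ρ ν) (D : ℕ) (n : G) (l : List G) :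
    PW β (ν D) ρ D (om (dW β σ δ (ww β (n :: l)))) = 0 := by
  rw [hc.om_dW, om_ww, map_smul, map_smul, ww_cons, hc.dW_cons, map_add, PW_cons, PW_cons,
    Q_dW hd hc hr, ν_ker hr (hd.σδ n)]
  simp

/-- The head term of the telescoping sum. -/
noncomputable def hd (φ : ℕ → G →ₐ[k] Matrix C C k) (ρ : ℕ → G →ₗ[k] Matrix C C k) (m D : ℕ) :
    List G → Matrix C C k
  | [] => 0
  | a :: l => φ m a * qf ρ m D l

theorem Q_d0 (hr : Reps σ φ ρ ν) (m D : ℕ) (a : G) (l : List G) (hl : l ≠ []) :
    Q β ρ m (D + 1) (d0 β (cons β a (ww β l))) =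
      φ m a * qf ρ m (D + 1) l + ρ m a * hd φ ρ (m + 1) D l := by
  cases l with
  | nil => exact absurd rfl hl
  | cons x l =>
    rw [ww_cons, d0_cons_cons, Q_cons_succ, Q_ww, hr.ρmul, qf_cons_succ, hd, add_mul, mul_assoc,
      mul_assoc]

theorem Q_d0_zero (m : ℕ) (a : G) (l : List G) : Q β ρ m 0 (d0 β (cons β a (ww β l))) = 0 := by
  cases l with
  | nil => rw [d0_ww_one, map_zero]
  | cons x l => rw [ww_cons, d0_cons_cons, Q_cons_zero]

theorem Q_bp (hr : Reps σ φ ρ ν) (c : G) (l : List G) (m D : ℕ) :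
    Q β ρ m D (bp β (ww β (l ++ [c]))) =
      hd φ ρ m D (l ++ [c]) - (-1 : k) ^ D • (qf ρ m D l * φ (m + D) c) := by
  induction l generalizing m D with
  | nil =>
    rw [List.nil_append, ww_cons, bp_one, map_zero, hd]
    cases D with
    | zero => simp [qf_nil_zero]
    | succ D => simp [qf_nil_succ]
  | cons a l ih =>
    rw [List.cons_append, ww_cons, bp_cons, map_sub, hd]
    cases D with
    | zero =>
      have : qf ρ m 0 (l ++ [c]) = 0 := by simp [qf]
      rw [Q_d0_zero, Q_cons_zero, this, qf_cons_zero]; simp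
    | succ D =>
      rw [Q_d0 hr m D a _ (by simp), Q_cons_succ, ih, qf_cons_succ, mul_sub, mul_smul_comm,
        pow_succ, mul_neg_one, neg_smul, mul_assoc, Nat.add_right_comm m 1 D, Nat.add_assoc]
      abel

theorem PW_d0 (hr : Reps σ φ ρ ν) (D : ℕ) {n : G} (hn : ∀ m, φ m n = 0) (l : List G) :
    PW β (ν D) ρ D (d0 β (cons β n (ww β l))) = (ν D n * hd φ ρ 0 D l).trace := by
  cases l with
  | nil => rw [d0_ww_one, map_zero, hd]; simp
  | cons x l =>
    rw [ww_cons, d0_cons_cons, PW_cons, Q_ww, hr.νmul, hn, zero_mul, zero_add, hd, mul_assoc]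

theorem TS_split (hd : DG σ δ) (hc : Calc β σ δ) (c : G) (W : WW k B) :
    TS β σ (snoc β c W) =
      cons β (σ c) (om W) + cons β (c - σ c) (om (wm β β (eps σ) W)) := by
  rw [← hc.TS_L _ _ (hd.split.idem c), ← hc.TS_M _ _ (hd.split.sub c), ← map_add,
    ← LinearMap.add_apply, ← map_add, add_sub_cancel]

theorem PW_bT (hd : DG σ δ) (hc : Calc β σ δ) (hr : Reps σ φ ρ ν) (D : ℕ) {n : G}
    (hn : ∀ m, φ m n = 0) (l : List G) :
    PW β (ν D) ρ D (bp β (ww β (n :: l))) + PW β (ν D) ρ D (d0 β (TS β σ (ww β (n :: l)))) = 0 := by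
  induction l using List.reverseRecOn with
  | nil =>
    rw [ww_cons, bp_one, cons_nil, TS_split hd hc, hc.E_nil, om_ww]
    simp only [map_add, map_smul, d0_ww_one, smul_zero, map_zero, add_zero]
  | append_singleton l c _ =>
    have h1 : ν D (σ c * n) = φ D c * ν D n := by
      rw [hr.νmul, hn, mul_zero, add_zero, hr.φσ]
    have h2 : ν D ((c - σ c) * eps σ n) = 0 :=
      ν_ker hr (by rw [map_mul, hd.split.sub, zero_mul]) D
    have h3 : (-1 : k) ^ l.length • qf ρ 0 D l = (-1 : k) ^ D • qf ρ 0 D l := by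
      by_cases h : l.length = D <;> simp [qf, h]
    rw [ww_cons, bp_cons, map_sub, PW_d0 hr D hn, PW_cons, Q_bp hr, ww_concat, cons_snoc,
      TS_split hd hc, hc.E_cons, om_cons, om_cons, map_neg, map_neg, map_add, map_neg, map_neg,
      d0_cons_cons, d0_cons_cons, map_add, map_neg, map_neg, PW_cons, PW_cons, h1, h2, om_ww,
      map_smul, Q_ww, h3, zero_add, mul_sub, Matrix.trace_sub, mul_smul_comm, mul_smul_comm,
      Matrix.trace_smul, Matrix.trace_smul, ← mul_assoc, Matrix.trace_mul_comm (_ * _) (φ D c),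
      mul_assoc (φ D c)]
    simp

end PfA

theorem sPf : SPf := by
  intro k G B C _ _ _ _ _ β σ δ φ ρ ν D N L
  refine ⟨PfA.PW_ww β ρ (ν D) D, fun hr z hz => ?_, fun hd hc hr hN z hz => ?_⟩
  · induction hz using Submodule.span_induction with
    | mem x hx =>
      obtain ⟨n, -, l, -, ⟨a, ha, h0⟩, rfl⟩ := hx
      rw [PfA.PW_ww, PfA.pf_cons, PfA.qf_zero ρ l ⟨a, ha, PfA.ρ_ker hr h0⟩]; simp
    | zero => simp
    | add x y _ _ hx hy => rw [map_add, hx, hy, add_zero]
    | smul c x _ hx => rw [map_smul, hx, smul_zero]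
  · induction hz using Submodule.span_induction with
    | mem x hx =>
      obtain ⟨n, hn, l, -, rfl⟩ := hx
      have h1 := PfA.PW_bT hd hc hr D (hN n hn) l
      have h2 := PfA.PW_dW hd hc hr D n l
      simp only [DD, bT, LinearMap.add_apply, End.mul_apply, map_add]
      rw [h1, h2, add_zero]
    | zero => simp
    | add x y _ _ hx hy => rw [map_add, map_add, hx, hy, add_zero]
    | smul c x _ hx => rw [map_smul, map_smul, hx, smul_zero]

end Pool.Agent.MP_92f1cb_al.H21T
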