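import Pool.Agent.MP_92f1cb_al.H21T.Spec

set_option autoImplicit false

namespace Pool.Agent.MP_92f1cb_al.H21T

open Pool.Agent.MP_92f1cb_al.H14 Pool.Agent.MP_92f1cb_al.H14C Module

namespace Qx

variable {k G B : Type} [Field k] [Ring G] [Algebra k G]

theorem span_map {S : Set (WW k B)} (φ : End k (WW k B)) (V : Submodule k (WW k B))
    (h : ∀ W ∈ S, φ W ∈ V) {z : WW k B} (hz : z ∈ Submodule.span k S) : φ z ∈ V :=
  (Submodule.span_le.2 (show S ⊆ V.comap φ from h)) hz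

/-- A section of the derivation on a subspace. -/
structure Sec (σ : G →ₐ[k] G) (δ : End k G) (V : Submodule k G) (s : End k G) : Prop where
  mem : ∀ a ∈ V, s a ∈ V
  fix : ∀ a ∈ V, σ (s a) = s a
  inv : ∀ a ∈ V, δ (s a) = a - σ a
  kill : ∀ a, s (σ a) = 0

theorem exists_sec {σ : G →ₐ[k] G} {δ : End k G} (h : DG σ δ) (V : Submodule k G)
    (hσ : ∀ a ∈ V, σ a ∈ V) (hδ : ∀ a ∈ V, δ a ∈ V) (ho : Onto σ δ V) :
    ∃ s : End k G, Sec σ δ V s := by
  let V₀ : Submodule k G := V ⊓ fx σ.toLinearMap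
  let V₁ : Submodule k G := V ⊓ LinearMap.ker σ.toLinearMap
  let f : V₀ →ₗ[k] V₁ := LinearMap.restrict δ fun a ha => ⟨hδ a ha.1, h.σδ a⟩
  have hf : LinearMap.range f = ⊤ := by
    rw [LinearMap.range_eq_top]
    rintro ⟨w, hw, hw'⟩
    obtain ⟨r, hr, h1, h2⟩ := ho w hw hw'
    exact ⟨⟨r, hr, h1⟩, Subtype.ext h2⟩
  obtain ⟨g, hg⟩ := f.exists_rightInverse_of_surjective hf
  obtain ⟨t, ht⟩ := LinearMap.exists_extend (V₀.subtype ∘ₗ g)
  have hm : ∀ a ∈ V, a - σ a ∈ V₁ := fun a ha => ⟨V.sub_mem ha (hσ a ha), h.split.sub a⟩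
  have e : ∀ a (ha : a ∈ V), t (a - σ a) = (g ⟨a - σ a, hm a ha⟩ : G) := fun a ha =>
    LinearMap.congr_fun ht ⟨a - σ a, hm a ha⟩
  refine ⟨t ∘ₗ (LinearMap.id - σ.toLinearMap), fun a ha => ?_, fun a ha => ?_, fun a ha => ?_,
    fun a => ?_⟩
  · change t (a - σ a) ∈ V
    rw [e a ha]; exact (g _).2.1
  · change σ (t (a - σ a)) = t (a - σ a)
    rw [e a ha]; exact (g _).2.2
  · change δ (t (a - σ a)) = a - σ a
    rw [e a ha]
    exact congrArg Subtype.val (LinearMap.congr_fun hg ⟨a - σ a, hm a ha⟩)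
  · change t (σ a - σ (σ a)) = 0
    rw [h.split.idem, sub_self, map_zero]

/-- The projection onto the cycles. -/
def pj (σ : G →ₐ[k] G) (δ s : End k G) : End k G := σ.toLinearMap - s ∘ₗ δ

theorem pj_apply (σ : G →ₐ[k] G) (δ s : End k G) (a : G) : pj σ δ s a = σ a - s (δ a) := rfl

theorem eps_apply (σ : G →ₐ[k] G) (a : G) : eps σ a = σ a - (a - σ a) := rfl

section Pj

variable {σ : G →ₐ[k] G} {δ s : End k G} {V : Submodule k G}

theorem pj_mem (h : DG σ δ) (hs : Sec σ δ V s) (hσ : ∀ a ∈ V, σ a ∈ V) (hδ : ∀ a ∈ V, δ a ∈ V)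
    {a : G} (ha : a ∈ V) : pj σ δ s a ∈ zc σ δ V := by
  rw [mem_zc, pj_apply]
  refine ⟨⟨V.sub_mem (hσ a ha) (hs.mem _ (hδ a ha)), ?_⟩, ?_⟩
  · rw [map_sub, h.split.idem, hs.fix _ (hδ a ha)]
  · rw [map_sub, h.δσ, hs.inv _ (hδ a ha), h.σδ]; simp

theorem sec_zero (hs : Sec σ δ V s) {a : G} (ha : σ a = a) : s a = 0 := by
  rw [← ha]; exact hs.kill a

theorem dd (h : DG σ δ) (a : G) : δ (δ a) = 0 := by rw [← h.δσ, h.σδ, map_zero]

theorem step {β : Basis B k G} (h : DG σ δ) (c : Calc β σ δ) (hs : Sec σ δ V s)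
    (hσ : ∀ a ∈ V, σ a ∈ V) (hδ : ∀ a ∈ V, δ a ∈ V) (H R : End k (WW k B))
    (hH : ∀ a W, H (cons β a W) = cons β (s a) W + cons β (pj σ δ s a) (R W)) {a : G}
    (ha : a ∈ V) (W : WW k B) :
    dW β σ δ (H (cons β a W)) + H (dW β σ δ (cons β a W)) =
      cons β a W - cons β (pj σ δ s a) W +
        cons β (pj σ δ s a) (dW β σ δ (R W) + R (dW β σ δ W)) := by
  have hp := mem_zc.1 (pj_mem h hs hσ hδ ha)
  have e1 : eps σ (s a) = s a := by rw [eps_apply, hs.fix a ha]; simp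
  have e2 : eps σ (pj σ δ s a) = pj σ δ s a := by rw [eps_apply, hp.1.2]; simp
  have e3 : pj σ δ s (δ a) = 0 := by rw [pj_apply, h.σδ, dd h]; simp
  have e4 : s (eps σ a) = -s a := by rw [eps_apply, map_sub, map_sub, hs.kill]; simp
  have e5 : pj σ δ s (eps σ a) = pj σ δ s a := by
    simp only [pj_apply, eps_apply, map_sub, h.split.idem, h.δσ]; simp
  have e6 : s (δ a) = σ a - pj σ δ s a := by rw [pj_apply]; simp
  rw [hH, map_add, c.dW_cons, c.dW_cons, c.dW_cons, map_add, hH, hH, e1, e2, e3, e4, e5, hp.2,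
    hs.inv a ha, e6]
  simp only [map_sub, map_add, map_neg, map_zero, LinearMap.sub_apply, LinearMap.neg_apply,
    LinearMap.zero_apply]
  abel

end Pj

variable (β : Basis B k G)

/-- The recursion on lists. -/
noncomputable def rl (w₀ : WW k B) (s p : End k G) : List G → WW k B
  | [] => w₀
  | a :: l => cons β (s a) (ww β l) + cons β (p a) (rl w₀ s p l)

theorem exR (w₀ : WW k B) (s p : End k G) : ∃ R : End k (WW k B), R (ww β []) = w₀ ∧
    ∀ a W, R (cons β a W) = cons β (s a) W + cons β (p a) (R W) := by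
  refine ⟨mk fun q => rl β w₀ s p (q.2.map β), by simp [ww_nil, rl], fun a W => ?_⟩
  induction a using basis_ind' β with
  | hb x =>
    induction W using ee_ind with
    | hb c w => rw [← ee_cons, mk_ee, mk_ee, ee_eq_ww β c w]; rfl
    | h0 => simp
    | hadd x y hx hy => simp only [map_add, hx, hy]; abel
    | hsmul c x hx => simp only [map_smul, hx, smul_add]
  | h0 => simp
  | hadd x y hx hy => simp only [map_add, LinearMap.add_apply, hx, hy]; abel
  | hsmul c x hx => simp only [map_smul, LinearMap.smul_apply, hx, smul_add]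

theorem exH (s p : End k G) (R : End k (WW k B)) : ∃ H : End k (WW k B), H (ww β []) = 0 ∧
    ∀ a W, H (cons β a W) = cons β (s a) W + cons β (p a) (R W) :=
  ⟨HdT β (cons β ∘ₗ s + LinearMap.mulRight k R ∘ₗ cons β ∘ₗ p), HdT_nil β _, fun a W => by
    rw [HdT_cons]; rfl⟩

/-- Words of length less than `n`. -/
noncomputable def FL (n : ℕ) : Submodule k (WW k B) :=
  Submodule.span k {W | ∃ l : List G, l.length < n ∧ W = ww β l}

theorem ww_FL {n : ℕ} {l : List G} (h : l.length < n) : ww β l ∈ FL β n :=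
  Submodule.subset_span ⟨l, h, rfl⟩

theorem FL_mono {n m : ℕ} (h : n ≤ m) : FL β n ≤ FL β m :=
  Submodule.span_mono fun _ ⟨l, hl, e⟩ => ⟨l, hl.trans_le h, e⟩

theorem FL_zero {z : WW k B} (h : z ∈ FL β 0) : z = 0 := by
  have := span_map (LinearMap.id) ⊥ (fun W hW => by
    obtain ⟨l, hl, -⟩ := hW
    exact absurd hl (Nat.not_lt_zero _)) h
  simpa using this

theorem exists_FL (z : WW k B) : ∃ n, z ∈ FL β n := by
  induction z using ww_ind β with
  | hb l => exact ⟨_, ww_FL β (Nat.lt_succ_self _)⟩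
  | h0 => exact ⟨0, zero_mem _⟩
  | hadd x y hx hy =>
    obtain ⟨n, hn⟩ := hx
    obtain ⟨m, hm⟩ := hy
    exact ⟨max n m, add_mem (FL_mono β (le_max_left _ _) hn) (FL_mono β (le_max_right _ _) hm)⟩
  | hsmul c x hx => obtain ⟨n, hn⟩ := hx; exact ⟨n, Submodule.smul_mem _ _ hn⟩

theorem cons_FL {n : ℕ} (a : G) {z : WW k B} (h : z ∈ FL β n) : cons β a z ∈ FL β (n + 1) :=
  span_map (cons β a) _ (fun W hW => by
    obtain ⟨l, hl, rfl⟩ := hW
    rw [← ww_cons]
    exact ww_FL β (by simpa using hl)) h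

theorem d0_FL (a : G) (l : List G) : d0 β (cons β a (ww β l)) ∈ FL β (l.length + 1) := by
  cases l with
  | nil => rw [d0_ww_one]; exact zero_mem _
  | cons c l =>
    rw [ww_cons, d0_cons_cons, ← ww_cons]
    exact ww_FL β (by simp)

theorem bp_FL (l : List G) : bp β (ww β l) ∈ FL β l.length := by
  induction l with
  | nil => rw [bp_ww_nil]; exact zero_mem _
  | cons a l ih =>
    rw [ww_cons, bp_cons]
    exact sub_mem (d0_FL β a l) (cons_FL β a ih)

theorem bT_FL {σ : G →ₐ[k] G} {δ : End k G} (h : DG σ δ) (c : Calc β σ δ) {n : ℕ}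
    {z : WW k B} (hz : z ∈ FL β (n + 1)) : bT β σ z ∈ FL β n := by
  have hE : ∀ l : List G, wm β β (eps σ) (ww β l) = ww β (l.map (eps σ)) := by
    intro l
    induction l with
    | nil => exact c.E_nil
    | cons a l ih => rw [ww_cons, c.E_cons, ih]; rfl
  refine span_map _ _ (fun W hW => ?_) hz
  obtain ⟨l, hl, rfl⟩ := hW
  refine FL_mono β (Nat.lt_succ_iff.1 hl) ?_
  change bp β (ww β l) + d0 β (TS β σ (ww β l)) ∈ _
  refine add_mem (bp_FL β l) ?_
  induction l using List.reverseRecOn with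
  | nil => rw [c.d0_TS_nil]; exact zero_mem _
  | append_singleton l a _ =>
    have e : snoc β a (ww β l) = snoc β (σ a) (ww β l) + snoc β (a - σ a) (ww β l) := by
      simp
    rw [ww_concat, e, map_add, c.TS_L _ _ (h.split.idem a), c.TS_M _ _ (h.split.sub a), hE,
      om_ww, om_ww, map_smul, map_smul, map_add, map_smul, map_smul, List.length_append]
    refine add_mem (Submodule.smul_mem _ _ (d0_FL β _ l)) (Submodule.smul_mem _ _ ?_)
    have := d0_FL β (a - σ a) (l.map (eps σ))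
    rwa [List.length_map] at this

section Rec

variable {β} {s p s' p' : End k G} {R H : End k (WW k B)}

theorem R_FL (h0 : R (ww β []) = 0)
    (hR : ∀ a W, R (cons β a W) = cons β (s a) W + cons β (p a) (R W)) (l : List G) :
    R (ww β l) ∈ FL β (l.length + 1) := by
  induction l with
  | nil => rw [h0]; exact zero_mem _
  | cons a l ih =>
    rw [ww_cons, hR]
    exact add_mem (cons_FL β _ (ww_FL β (Nat.lt_succ_self _))) (cons_FL β _ ih)

theorem R_om (h0 : R (ww β []) = 0)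
    (hR : ∀ a W, R (cons β a W) = cons β (s a) W + cons β (p a) (R W)) (W : WW k B) :
    om (R W) = R (om W) := by
  refine ww_ext β (f := om ∘ₗ R) (g := R ∘ₗ om) (fun l => ?_) W
  simp only [LinearMap.comp_apply]
  induction l with
  | nil => simp [om_ww, h0]
  | cons a l ih =>
    rw [ww_cons, hR, map_add, om_cons, om_cons, om_cons, map_neg, hR, ih]; abel

theorem H_om (hR : ∀ W, om (R W) = R (om W)) (h0 : H (ww β []) = 0)
    (hH : ∀ a W, H (cons β a W) = cons β (s' a) W + cons β (p' a) (R W)) (W : WW k B) :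
    om (H W) = H (om W) := by
  refine ww_ext β (f := om ∘ₗ H) (g := H ∘ₗ om) (fun l => ?_) W
  simp only [LinearMap.comp_apply]
  cases l with
  | nil => simp [om_ww, h0]
  | cons a l => rw [ww_cons, hH, map_add, om_cons, om_cons, om_cons, map_neg, hH, hR]; abel

end Rec

/-- Words with letters in `L`. -/
noncomputable def TW (L : Submodule k G) : Submodule k (WW k B) :=
  Submodule.span k {W | ∃ l : List G, (∀ a ∈ l, a ∈ L) ∧ W = ww β l}

theorem cons_TW {L : Submodule k G} {a : G} (ha : a ∈ L) {z : WW k B} (h : z ∈ TW β L) :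
    cons β a z ∈ TW β L :=
  span_map (cons β a) _ (fun W hW => by
    obtain ⟨l, hl, rfl⟩ := hW
    exact Submodule.subset_span ⟨a :: l, List.forall_mem_cons.2 ⟨ha, hl⟩, rfl⟩) h

theorem cons_XW {N L : Submodule k G} {a : G} (ha : a ∈ N) {z : WW k B} (h : z ∈ TW β L) :
    cons β a z ∈ XW β N L :=
  span_map (cons β a) _ (fun W hW => by
    obtain ⟨l, hl, rfl⟩ := hW
    exact Submodule.subset_span ⟨a, ha, l, hl, rfl⟩) h

theorem pair_zc {σ : G →ₐ[k] G} {δ : End k G} {N L : Submodule k G} (h : DG σ δ)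
    (hp : Pair σ δ N L) : Pair σ δ (zc σ δ N) (zc σ δ L) := by
  have m : ∀ {U V W : Submodule k G}, (∀ a ∈ U, ∀ c ∈ V, a * c ∈ W) →
      ∀ a ∈ zc σ δ U, ∀ c ∈ zc σ δ V, a * c ∈ zc σ δ W := by
    intro U V W hm a ha c hc
    rw [mem_zc] at ha hc ⊢
    refine ⟨⟨hm a ha.1.1 c hc.1.1, by rw [map_mul, ha.1.2, hc.1.2]⟩, ?_⟩
    rw [h.leib, ha.2, hc.2]; simp
  have s : ∀ {U : Submodule k G}, ∀ a ∈ zc σ δ U, σ a ∈ zc σ δ U := fun a ha => by
    rw [(mem_zc.1 ha).1.2]; exact ha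
  have d : ∀ {U : Submodule k G}, ∀ a ∈ zc σ δ U, δ a ∈ zc σ δ U := fun a ha => by
    rw [(mem_zc.1 ha).2]; exact zero_mem _
  exact ⟨m hp.LL, m hp.LN, m hp.NL, s, s, d, d⟩

end Qx

open Qx in
theorem sQ : SQ := by
  intro k G B _ _ _ β σ δ N L h c hp hN hL
  obtain ⟨sN, hsN⟩ := exists_sec h N hp.σN hp.δN hN
  obtain ⟨sL, hsL⟩ := exists_sec h L hp.σL hp.δL hL
  obtain ⟨R, R0, hR⟩ := exR β 0 sL (pj σ δ sL)
  obtain ⟨P, P0, hP⟩ := exR β (ww β []) 0 (pj σ δ sL)
  obtain ⟨H, H0, hH⟩ := exH β sN (pj σ δ sN) R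
  obtain ⟨Q, -, hQ⟩ := exH β 0 (pj σ δ sN) P
  simp only [LinearMap.zero_apply, map_zero, zero_add] at hP hQ
  have zL : ∀ a ∈ L, pj σ δ sL a ∈ zc σ δ L := fun a ha => pj_mem h hsL hp.σL hp.δL ha
  have zN : ∀ a ∈ N, pj σ δ sN a ∈ zc σ δ N := fun a ha => pj_mem h hsN hp.σN hp.δN ha
  have hom := H_om (R_om R0 hR) H0 hH
  have t1 : ∀ l : List G, (∀ a ∈ l, a ∈ L) →
      dW β σ δ (R (ww β l)) + R (dW β σ δ (ww β l)) = ww β l - P (ww β l) ∧
      R (ww β l) ∈ TW β L ∧ P (ww β l) ∈ TW β (zc σ δ L) := by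
    intro l hl
    induction l with
    | nil =>
      rw [R0, c.dW_nil, P0]
      exact ⟨by simp, zero_mem _, Submodule.subset_span ⟨[], by simp, rfl⟩⟩
    | cons a l ih =>
      obtain ⟨ha, hl'⟩ := List.forall_mem_cons.1 hl
      obtain ⟨i1, i2, i3⟩ := ih hl'
      rw [ww_cons, step h c hsL hp.σL hp.δL R R hR ha, i1, hP, hR]
      refine ⟨by rw [map_sub]; abel, add_mem (cons_TW β (hsL.mem a ha)
        (Submodule.subset_span ⟨l, hl', rfl⟩)) (cons_TW β (mem_zc.1 (zL a ha)).1.1 i2),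
        cons_TW β (zL a ha) i3⟩
  have t2 : ∀ l : List G, (∀ a ∈ l, a ∈ zc σ δ L) → R (ww β l) = 0 := by
    intro l hl
    induction l with
    | nil => exact R0
    | cons a l ih =>
      obtain ⟨ha, hl'⟩ := List.forall_mem_cons.1 hl
      rw [ww_cons, hR, ih hl', sec_zero hsL (mem_zc.1 ha).1.2]; simp
  have x1 : ∀ z ∈ XW β N L, dW β σ δ (H z) + H (dW β σ δ z) = z - Q z := by
    intro z hz
    have := span_map (dW β σ δ * H + H * dW β σ δ - (1 - Q)) ⊥ (fun W hW => by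
      obtain ⟨n, hn, l, hl, rfl⟩ := hW
      change dW β σ δ (H _) + H (dW β σ δ _) - (_ - Q _) ∈ _
      rw [ww_cons, step h c hsN hp.σN hp.δN H R hH hn, (t1 l hl).1, hQ, map_sub,
        Submodule.mem_bot, End.one_apply]
      abel) hz
    exact sub_eq_zero.1 ((Submodule.mem_bot k).1 this)
  have x2 : ∀ z ∈ XW β N L, H (om z) ∈ XW β N L := fun z hz =>
    span_map (H * om) _ (fun W hW => by
      obtain ⟨n, hn, l, hl, rfl⟩ := hW
      rw [End.mul_apply, om_ww, map_smul, ww_cons, hH]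
      exact Submodule.smul_mem _ _ (add_mem (cons_XW β (hsN.mem n hn)
        (Submodule.subset_span ⟨l, hl, rfl⟩))
        (cons_XW β (mem_zc.1 (zN n hn)).1.1 (t1 l hl).2.1))) hz
  have x3 : ∀ z ∈ XW β N L, Q z ∈ XW β (zc σ δ N) (zc σ δ L) := fun z hz =>
    span_map Q _ (fun W hW => by
      obtain ⟨n, hn, l, hl, rfl⟩ := hW
      rw [ww_cons, hQ]
      exact cons_XW β (zN n hn) (t1 l hl).2.2) hz
  have x4 : ∀ z ∈ XW β (zc σ δ N) (zc σ δ L), H (om z) = 0 := fun z hz =>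
    (Submodule.mem_bot k).1 (span_map (H * om) ⊥ (fun W hW => by
      obtain ⟨n, hn, l, hl, rfl⟩ := hW
      rw [End.mul_apply, om_ww, map_smul, ww_cons, hH, t2 l hl,
        sec_zero hsN (mem_zc.1 hn).1.2]
      simp) hz)
  have x5 : ∀ n, ∀ z ∈ FL β n, H (om z) ∈ FL β n := fun n z hz =>
    span_map (H * om) _ (fun W hW => by
      obtain ⟨l, hl, rfl⟩ := hW
      rw [End.mul_apply, om_ww, map_smul]
      refine Submodule.smul_mem _ _ (FL_mono β (Nat.succ_le_of_lt hl) ?_)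
      cases l with
      | nil => rw [H0]; exact zero_mem _
      | cons a l =>
        rw [ww_cons, hH]
        exact add_mem (cons_FL β _ (ww_FL β (Nat.lt_succ_self _)))
          (cons_FL β _ (R_FL R0 hR l))) hz
  have x6 : XW β (zc σ δ N) (zc σ δ L) ≤ XW β N L :=
    Submodule.span_mono fun _ ⟨n, hn, l, hl, e⟩ =>
      ⟨n, (mem_zc.1 hn).1.1, l, fun a ha => (mem_zc.1 (hl a ha)).1.1, e⟩
  have hD : ∀ W, DD β σ δ W = bT β σ W + om (dW β σ δ W) := fun _ => rfl
  have key : ∀ n, ∀ z ∈ FL β n, z ∈ XW β N L → DD β σ δ z ∈ XW β (zc σ δ N) (zc σ δ L) →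
      ∃ u ∈ XW β N L, z - DD β σ δ u ∈ XW β (zc σ δ N) (zc σ δ L) := by
    intro n
    induction n with
    | zero =>
      intro z hz _ _
      exact ⟨0, zero_mem _, by rw [FL_zero β hz]; simp⟩
    | succ n ih =>
      intro z hz hX hz0
      have e0 := x4 _ hz0
      rw [hD, map_add, map_add, om_om] at e0
      have e1 : z - DD β σ δ (H (om z)) - Q z =
          -(bT β σ (H (om z)) + H (om (bT β σ z))) := by
        rw [hD, c.om_dW, hom, om_om]
        have := x1 z hX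
        linear_combination (norm := abel) e0 - this
      obtain ⟨u, hu, hu'⟩ := ih (z - DD β σ δ (H (om z)) - Q z)
        (by rw [e1]; exact neg_mem (add_mem (bT_FL β h c (x5 _ z hz)) (x5 _ _ (bT_FL β h c hz))))
        (sub_mem (sub_mem hX (c.DD_mem N L hp _ (x2 z hX))) (x6 (x3 z hX)))
        (by
          rw [map_sub, map_sub, c.DD_DD, sub_zero]
          exact sub_mem hz0 (c.DD_mem _ _ (pair_zc h hp) _ (x3 z hX)))
      refine ⟨H (om z) + u, add_mem (x2 z hX) hu, ?_⟩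
      have e2 : z - DD β σ δ (H (om z) + u) =
          z - DD β σ δ (H (om z)) - Q z - DD β σ δ u + Q z := by rw [map_add]; abel
      rw [e2]
      exact add_mem hu' (x3 z hX)
  intro z hz hz0
  obtain ⟨n, hn⟩ := exists_FL β z
  exact key n z hn hz hz0

end Pool.Agent.MP_92f1cb_al.H21T
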