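import Pool.Agent.MP_92f1cb_al.H14C.Base2
import Pool.Agent.MP_92f1cb_al.H14C.H1

set_option autoImplicit false

namespace Pool.Agent.MP_92f1cb_al.H21T

open Pool.Agent.MP_92f1cb_al.H14 Pool.Agent.MP_92f1cb_al.H14C Module

section Words

variable {k G B : Type} [Field k] [Ring G] [Algebra k G]

/-- A derivation with values in the square zero kernel of `σ` that kills this kernel. -/
structure DG (σ : G →ₐ[k] G) (δ : End k G) : Prop where
  split : Split σ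
  leib : ∀ a c, δ (a * c) = δ a * c + a * δ c
  σδ : ∀ a, σ (δ a) = 0
  δσ : ∀ a, δ (σ a) = δ a

/-- The sign of the degree. -/
def eps (σ : G →ₐ[k] G) : End k G := σ.toLinearMap - (1 - σ.toLinearMap)

/-- Apply a linear map to all letters. -/
noncomputable def wm {G' B' : Type} [Ring G'] [Algebra k G'] (β : Basis B k G)
    (β' : Basis B' k G') (φ : G →ₗ[k] G') : WW k B →ₗ[k] WW k B' :=
  Finsupp.linearCombination k fun p => ww β' (p.2.map fun x => φ (β x))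

/-- The derivation on lists. -/
noncomputable def dl (β : Basis B k G) (σ : G →ₐ[k] G) (δ : End k G) : List G → WW k B
  | [] => 0
  | a :: l => cons β (δ a) (ww β l) + cons β (eps σ a) (dl β σ δ l)

/-- The derivation on words. -/
noncomputable def dW (β : Basis B k G) (σ : G →ₐ[k] G) (δ : End k G) : End k (WW k B) :=
  mk fun p => dl β σ δ (p.2.map β)

/-- The rotation with the sign of the degrees. -/
noncomputable def TS (β : Basis B k G) (σ : G →ₐ[k] G) : End k (WW k B) :=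
  H1R.Tt β σ - (TH k B - H1R.Tt β σ) * wm β β (eps σ)

/-- The signed Hochschild differential. -/
noncomputable def bT (β : Basis B k G) (σ : G →ₐ[k] G) : End k (WW k B) := bp β + d0 β * TS β σ

/-- The total differential. -/
noncomputable def DD (β : Basis B k G) (σ : G →ₐ[k] G) (δ : End k G) : End k (WW k B) :=
  bT β σ + om * dW β σ δ

/-- The total bar differential. -/
noncomputable def DK (β : Basis B k G) (σ : G →ₐ[k] G) (δ : End k G) (c : k) : End k (WW k B) :=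
  bp β + c • (om * dW β σ δ)

/-- Words with head in `N` and the other letters in `L`. -/
noncomputable def XW (β : Basis B k G) (N L : Submodule k G) : Submodule k (WW k B) :=
  Submodule.span k {W | ∃ n ∈ N, ∃ l : List G, (∀ a ∈ l, a ∈ L) ∧ W = ww β (n :: l)}

/-- The same with at least one letter behind the head in the kernel of `σ`. -/
noncomputable def XO (β : Basis B k G) (σ : G →ₐ[k] G) (N L : Submodule k G) :
    Submodule k (WW k B) :=
  Submodule.span k {W | ∃ n ∈ N, ∃ l : List G, (∀ a ∈ l, a ∈ L) ∧ (∃ a ∈ l, σ a = 0) ∧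
    W = ww β (n :: l)}

/-- The fixed vectors. -/
def fx (P : End k G) : Submodule k G := LinearMap.eqLocus P LinearMap.id

/-- The corner of a subspace. -/
def cor (e : G) (V : Submodule k G) : Submodule k G :=
  V ⊓ fx (LinearMap.mulLeft k e) ⊓ fx (LinearMap.mulRight k e)

/-- The cycles of degree zero of a subspace. -/
def zc (σ : G →ₐ[k] G) (δ : End k G) (V : Submodule k G) : Submodule k G :=
  V ⊓ fx σ.toLinearMap ⊓ LinearMap.ker δ

theorem mem_fx {P : End k G} {a : G} : a ∈ fx P ↔ P a = a := Iff.rfl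

theorem mem_cor {e a : G} {V : Submodule k G} : a ∈ cor e V ↔ (a ∈ V ∧ e * a = a) ∧ a * e = a :=
  Iff.rfl

theorem mem_zc {σ : G →ₐ[k] G} {δ : End k G} {a : G} {V : Submodule k G} :
    a ∈ zc σ δ V ↔ (a ∈ V ∧ σ a = a) ∧ δ a = 0 := Iff.rfl

/-- Words all of whose inner junctions are of type `e`, with last letter fixed by `y`. -/
noncomputable def KW (β : Basis B k G) (N L : Submodule k G) (e y : G) : Submodule k (WW k B) :=
  Submodule.span k ({W | ∃ n ∈ N, n * y = n ∧ W = ww β [n]} ∪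
    {W | ∃ n ∈ N, ∃ l : List G, ∃ a ∈ L, n * e = n ∧ (∀ c ∈ l, c ∈ cor e L) ∧ e * a = a ∧
      a * y = a ∧ W = ww β (n :: (l ++ [a]))})

/-- `L` is closed under products, `N` is a bimodule over it, both are stable. -/
structure Pair (σ : G →ₐ[k] G) (δ : End k G) (N L : Submodule k G) : Prop where
  LL : ∀ a ∈ L, ∀ c ∈ L, a * c ∈ L
  LN : ∀ a ∈ L, ∀ n ∈ N, a * n ∈ N
  NL : ∀ n ∈ N, ∀ a ∈ L, n * a ∈ N
  σL : ∀ a ∈ L, σ a ∈ L
  σN : ∀ a ∈ N, σ a ∈ N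
  δL : ∀ a ∈ L, δ a ∈ L
  δN : ∀ a ∈ N, δ a ∈ N

/-- A closed idempotent of degree zero in `L`. -/
structure Cl (σ : G →ₐ[k] G) (δ : End k G) (L : Submodule k G) (e : G) : Prop where
  mem : e ∈ L
  idem : e * e = e
  fix : σ e = e
  cl : δ e = 0

/-- The basis consists of vectors fixed or killed by `P`. -/
def Adp (β : Basis B k G) (P : End k G) : Prop := ∀ x, P (β x) = β x ∨ P (β x) = 0

/-- The quotient of `S` by `S'` is exact. -/
def QEx {X : Type} [AddCommGroup X] [Module k X] (D : End k X) (S S' : Submodule k X) : Prop :=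
  ∀ z ∈ S, D z ∈ S' → ∃ u ∈ S, z - D u ∈ S'

/-- `δ` maps the degree zero part of `V` onto the degree one part. -/
def Onto (σ : G →ₐ[k] G) (δ : End k G) (V : Submodule k G) : Prop :=
  ∀ w ∈ V, σ w = 0 → ∃ r ∈ V, σ r = r ∧ δ r = w

/-- Matrix units that present `y` as an extension of copies of `y₀` by `y₁`. -/
structure Units (δ : End k G) (L : Submodule k G) {Z : Type} [Fintype Z] [DecidableEq Z]
    (y y₁ y₀ t t' : G) (u u' : Z → G) : Prop where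
  mem : t ∈ L ∧ t' ∈ L ∧ ∀ z, u z ∈ L ∧ u' z ∈ L
  cl : δ t' = 0 ∧ ∀ z, δ (u z) = 0
  right : t * y₁ = t ∧ t' * y = t' ∧ ∀ z, u z * y₀ = u z ∧ u' z * y = u' z
  tt : t' * t = y₁
  uu : ∀ z z', u' z * u z' = if z = z' then y₀ else 0
  tu : ∀ z, t' * u z = 0 ∧ u' z * t = 0
  sum : t * t' + ∑ z, u z * u' z = y

/-- The product of the derivations along a list. -/
def prodR {R M : Type} [Monoid M] (ρ : ℕ → R → M) : ℕ → List R → M
  | _, [] => 1
  | m, a :: l => ρ m a * prodR ρ (m + 1) l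

/-- The pairing on lists. -/
noncomputable def pf {C : Type} [Fintype C] [DecidableEq C] (ν : G →ₗ[k] Matrix C C k)
    (ρ : ℕ → G →ₗ[k] Matrix C C k) (D : ℕ) : List G → k
  | [] => 0
  | n :: l => if l.length = D then (ν n * prodR (fun m a => ρ m a) 0 l).trace else 0

/-- The pairing on words. -/
noncomputable def PW {C : Type} [Fintype C] [DecidableEq C] (β : Basis B k G)
    (ν : G →ₗ[k] Matrix C C k) (ρ : ℕ → G →ₗ[k] Matrix C C k) (D : ℕ) : WW k B →ₗ[k] k :=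
  Finsupp.linearCombination k fun p => pf ν ρ D (p.2.map β)

/-- Representations with a chain of derivations. -/
structure Reps {C : Type} [Fintype C] [DecidableEq C] (σ : G →ₐ[k] G)
    (φ : ℕ → G →ₐ[k] Matrix C C k) (ρ ν : ℕ → G →ₗ[k] Matrix C C k) : Prop where
  φσ : ∀ n a, φ n (σ a) = φ n a
  ρσ : ∀ n a, ρ n (σ a) = ρ n a
  νσ : ∀ n a, ν n (σ a) = ν n a
  ρmul : ∀ n a c, ρ n (a * c) = φ n a * ρ n c + ρ n a * φ (n + 1) c
  νmul : ∀ n a c, ν n (a * c) = φ n a * ν n c + ν n a * φ 0 c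

/-- `ι` identifies the ring `R` with the subspace `V`, with unit `u`. -/
structure Emb {R : Type} [Ring R] [Algebra k R] (ι : R →ₗ[k] G) (V : Submodule k G) (u : G) :
    Prop where
  inj : Function.Injective ι
  mul : ∀ a c, ι (a * c) = ι a * ι c
  one : ι 1 = u
  range : LinearMap.range ι = V

end Words

/-- Projective dimension at most `n`. -/
def PD (R : Type) [Ring R] : ℕ → (X : Type) → [AddCommGroup X] → [Module R X] → Prop
  | 0, X, _, _ => Module.Projective R X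
  | n + 1, X, _, _ => ∃ (P : Type) (_ : AddCommGroup P) (_ : Module R P) (π : P →ₗ[R] X),
      Module.Projective R P ∧ Function.Surjective π ∧ PD R n (LinearMap.ker π)

/-! ### Rows on words -/

def SWM : Prop :=
  ∀ (k G B G' B' : Type) [Field k] [Ring G] [Algebra k G] [Ring G'] [Algebra k G']
    (β : Basis B k G) (β' : Basis B' k G') (φ : G →ₗ[k] G'),
    (∀ l, wm β β' φ (ww β l) = ww β' (l.map φ)) ∧
    (∀ V : Submodule k G, (∀ a ∈ V, ∀ c ∈ V, a * c ∈ V ∧ φ (a * c) = φ a * φ c) →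
      ∀ z ∈ XW β V V, wm β β' φ (bH β z) = bH β' (wm β β' φ z) ∧
        wm β β' φ (bp β z) = bp β' (wm β β' φ z)) ∧
    ∀ (σ : G →ₐ[k] G) (δ : End k G) (σ' : G' →ₐ[k] G') (δ' : End k G'),
      (∀ a c, φ (a * c) = φ a * φ c) → (∀ a, φ (σ a) = σ' (φ a)) → (∀ a, φ (δ a) = δ' (φ a)) →
      ∀ z, wm β β' φ (DD β σ δ z) = DD β' σ' δ' (wm β β' φ z)

/-- The calculus of the differentials. -/
structure Calc {k G B : Type} [Field k] [Ring G] [Algebra k G] (β : Basis B k G)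
    (σ : G →ₐ[k] G) (δ : End k G) : Prop where
  E_nil : wm β β (eps σ) (ww β []) = ww β []
  E_cons : ∀ a W, wm β β (eps σ) (cons β a W) = cons β (eps σ a) (wm β β (eps σ) W)
  E_snoc : ∀ a W, wm β β (eps σ) (snoc β a W) = snoc β (eps σ a) (wm β β (eps σ) W)
  dW_nil : dW β σ δ (ww β []) = 0
  dW_cons : ∀ a W, dW β σ δ (cons β a W) = cons β (δ a) W + cons β (eps σ a) (dW β σ δ W)
  dW_snoc : ∀ a W, dW β σ δ (snoc β a W) =
    snoc β a (dW β σ δ W) + snoc β (δ a) (wm β β (eps σ) W)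
  TS_L : ∀ a W, σ a = a → TS β σ (snoc β a W) = cons β a (om W)
  TS_M : ∀ a W, σ a = 0 → TS β σ (snoc β a W) = cons β a (om (wm β β (eps σ) W))
  d0_TS_nil : d0 β (TS β σ (ww β [])) = 0
  om_dW : ∀ W, om (dW β σ δ W) = dW β σ δ (om W)
  bT_bT : ∀ W, bT β σ (bT β σ W) = 0
  DD_DD : ∀ W, DD β σ δ (DD β σ δ W) = 0
  DK_DK : ∀ c W, DK β σ δ c (DK β σ δ c W) = 0
  DD_mem : ∀ N L, Pair σ δ N L → ∀ W ∈ XW β N L, DD β σ δ W ∈ XW β N L
  DD_eq : ∀ N L, ∀ W ∈ XW β (zc σ δ N) (zc σ δ L), DD β σ δ W = bH β W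

def SCalc : Prop :=
  ∀ (k G B : Type) [Field k] [Ring G] [Algebra k G] (β : Basis B k G) (σ : G →ₐ[k] G)
    (δ : End k G), DG σ δ → Calc β σ δ

def SAdp : Prop :=
  ∀ (k G I : Type) [Field k] [Ring G] [Algebra k G] [Fintype I] (P : I → End k G),
    (∀ i a, P i (P i a) = P i a) → (∀ i j a, P i (P j a) = P j (P i a)) →
    ∃ (B : Type) (β : Basis B k G), ∀ i, Adp β (P i)

def SQ : Prop :=
  ∀ (k G B : Type) [Field k] [Ring G] [Algebra k G] (β : Basis B k G) (σ : G →ₐ[k] G)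
    (δ : End k G) (N L : Submodule k G), DG σ δ → Calc β σ δ → Pair σ δ N L → Onto σ δ N →
    Onto σ δ L → QEx (DD β σ δ) (XW β N L) (XW β (zc σ δ N) (zc σ δ L))

def SGen : Prop :=
  ∀ (k G B : Type) [Field k] [Ring G] [Algebra k G] (β : Basis B k G) (σ : G →ₐ[k] G)
    (δ p q : End k G) (e : G), DG σ δ → Calc β σ δ → Pair σ δ (fx q) (fx p) →
    Cl σ δ (fx p) e → Adp β (LinearMap.mulLeft k e) → Adp β (LinearMap.mulRight k e) →
    Adp β σ.toLinearMap → Adp β p → Adp β q →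
    (∀ c : k, c = 1 ∨ c = -1 → Ex (DK β σ δ c) (KW β (fx q) (fx p) e 1)) →
    QEx (DD β σ δ) (XW β (fx q) (fx p)) (XW β (cor e (fx q)) (cor e (fx p)))

def SK1 : Prop :=
  ∀ (k G B : Type) [Field k] [Ring G] [Algebra k G] (β : Basis B k G) (σ : G →ₐ[k] G)
    (δ : End k G) (N L : Submodule k G) (e y : G) (c : k), DG σ δ → Calc β σ δ →
    Cl σ δ L y → e * y = y → y * e = y → Ex (DK β σ δ c) (KW β N L e y)

def SK2 : Prop :=
  ∀ (k G B Z : Type) [Field k] [Ring G] [Algebra k G] [Fintype Z] [DecidableEq Z]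
    (β : Basis B k G) (σ : G →ₐ[k] G) (δ : End k G) (N L : Submodule k G)
    (e y y₁ y₀ t t' : G) (u u' : Z → G) (c : k), DG σ δ → Calc β σ δ → Pair σ δ N L →
    Cl σ δ L e → Cl σ δ L y → Cl σ δ L y₁ → Cl σ δ L y₀ → Units δ L y y₁ y₀ t t' u u' →
    Ex (DK β σ δ c) (KW β N L e y₀) →
    (Ex (DK β σ δ c) (KW β N L e y₁) ↔ Ex (DK β σ δ c) (KW β N L e y))

def SK3 : Prop :=
  ∀ (k G B I : Type) [Field k] [Ring G] [Algebra k G] [Fintype I]
    (β : Basis B k G) (σ : G →ₐ[k] G) (δ : End k G) (N L : Submodule k G)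
    (e : G) (y : I → G) (c : k), DG σ δ → Calc β σ δ → Pair σ δ N L →
    (∀ i, Cl σ δ L (y i)) → ∑ i, y i = 1 → (∀ i, Ex (DK β σ δ c) (KW β N L e (y i))) →
    Ex (DK β σ δ c) (KW β N L e 1)

def STot : Prop :=
  ∀ (k G B : Type) [Field k] [Ring G] [Algebra k G] (β : Basis B k G) (σ : G →ₐ[k] G)
    (δ : End k G) (N L : Submodule k G), DG σ δ → Calc β σ δ → Pair σ δ N L →
    Adp β σ.toLinearMap → ∀ (n : ℕ) (z w u : WW k B), z ∈ LL k 1 B (n + 2) →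
    z ∈ XW β (fx σ.toLinearMap) (fx σ.toLinearMap) → w ∈ LL k 1 B 1 → u ∈ XW β N L →
    z = w + DD β σ δ u → ∃ u' ∈ XW β N L, z = DD β σ δ u'

def SPf : Prop :=
  ∀ (k G B C : Type) [Field k] [Ring G] [Algebra k G] [Fintype C] [DecidableEq C]
    (β : Basis B k G) (σ : G →ₐ[k] G) (δ : End k G) (φ : ℕ → G →ₐ[k] Matrix C C k)
    (ρ ν : ℕ → G →ₗ[k] Matrix C C k) (D : ℕ) (N L : Submodule k G),
    (∀ l, PW β (ν D) ρ D (ww β l) = pf (ν D) ρ D l) ∧
    (Reps σ φ ρ ν → ∀ z ∈ XO β σ N L, PW β (ν D) ρ D z = 0) ∧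
    (DG σ δ → Calc β σ δ → Reps σ φ ρ ν → (∀ n ∈ N, ∀ m, φ m n = 0) →
      ∀ z ∈ XW β N L, PW β (ν D) ρ D (DD β σ δ z) = 0)

/-! ### Rows on rings -/

def SSub : Prop :=
  ∀ (k G : Type) [Field k] [Ring G] [Algebra k G] (V : Submodule k G) (u : G), u ∈ V →
    (∀ a ∈ V, ∀ c ∈ V, a * c ∈ V) → (∀ a ∈ V, u * a = a ∧ a * u = a) →
    ∃ (R : Type) (_ : Ring R) (_ : Algebra k R) (ι : R →ₗ[k] G), Emb ι V u

def STr2 : Prop :=
  ∀ (k G B R : Type) [Field k] [Ring G] [Algebra k G] [Ring R] [Algebra k R] (β : Basis B k G)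
    (ι : R →ₗ[k] G) (V : Submodule k G) (u : G), Emb ι V u →
    (∀ n, ∀ z ∈ XW β V V, z ∈ LL k 1 B (n + 2) → bH β z = 0 → ∃ w ∈ XW β V V, bH β w = z) →
    HHVanishesAbove k R 0

def SGr2 : Prop :=
  ∀ (k G R : Type) [Field k] [Ring G] [Algebra k G] [Ring R] [Algebra k R]
    (ι : R →ₗ[k] G) (V : Submodule k G) (y : Fin 2 → G) (gr : ℕ → End k G) (N : ℕ),
    Emb ι V (y 0 + y 1) → (∀ n, ∀ x ∈ V, gr n x ∈ V) →
    (∀ x ∈ V, ∑ n ∈ Finset.range N, gr n x = x) →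
    (∀ n m x, gr n (gr m x) = if n = m then gr m x else 0) →
    (∀ n m, ∀ x ∈ V, ∀ z ∈ V, gr n x = x → gr m z = z → gr (n + m) (x * z) = x * z) →
    (∀ i, y i ∈ V ∧ y i ≠ 0 ∧ y i * y i = y i ∧ gr 0 (y i) = y i) →
    y 0 * y 1 = 0 → y 1 * y 0 = 0 → (∀ x ∈ V, ∃ c c' : k, gr 0 x = c • y 0 + c' • y 1) →
    ∃ (𝒜 : ℕ → Submodule k R) (_ : GradedAlgebra 𝒜) (e : Fin 2 → R), DegreeZeroSplit 𝒜 e

def SPd : Prop :=
  ∀ (R : Type) [Ring R] (D : ℕ), GlDimLE R D →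
    ∀ (X : Type) [AddCommGroup X] [Module R X], PD R D X

def STri : Prop :=
  ∀ (k R R' : Type) [Field k] [Ring R] [Algebra k R] [Ring R'] [Algebra k R'] (j : R →ₗ[k] R')
    (e f : R') (D : ℕ), e * e = e → e + f = 1 → (∀ a, e * a * f = 0) →
    (∀ a, ∃ c : k, e * a * e = c • e) → Emb j (cor f ⊤) f →
    (∀ (X : Type) [AddCommGroup X] [Module R X], PD R D X) →
    ∀ (X : Type) [AddCommGroup X] [Module R' X], PD R' (D + 1) X

def SCob : Prop :=
  ∀ (k R B V : Type) [Field k] [Ring R] [Algebra k R] [AddCommGroup V] [Module k V]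
    (β : Basis B k R) (φ : ℕ → R →ₐ[k] End k V) (ρ : ℕ → R →ₗ[k] End k V) (n D : ℕ),
    (∀ m a c, ρ m (a * c) = φ m a * ρ m c + ρ m a * φ (m + 1) c) →
    (∀ (X : Type) [AddCommGroup X] [Module R X], PD R n X) → n < D →
    ∃ ψ : WW k B →ₗ[k] End k V, ∀ (a a' : R) (l l' : List R), a :: l = l' ++ [a'] →
      l.length + 1 = D → prodR (fun m x => ρ m x) 0 (a :: l) =
        φ 0 a * ψ (ww β l) - ψ (bp β (ww β (a :: l))) + (-1 : k) ^ D • (ψ (ww β l') * φ D a')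

def SGl2 : Prop :=
  ∀ (k G B C R : Type) [Field k] [Ring G] [Algebra k G] [Fintype C] [DecidableEq C] [Ring R]
    [Algebra k R] (β : Basis B k G) (σ : G →ₐ[k] G) (φ : ℕ → G →ₐ[k] Matrix C C k)
    (ρ ν : ℕ → G →ₗ[k] Matrix C C k) (N V : Submodule k G) (e f : G) (ι : R →ₗ[k] G)
    (D₀ D : ℕ), Reps σ φ ρ ν → (∀ n ∈ N, ∀ m, φ m n = 0) → (∀ a ∈ V, ∀ c ∈ V, a * c ∈ V) →
    e ∈ V → f ∈ V → e * e = e → e * f = 0 → f * e = 0 →
    (∀ a ∈ V, (e + f) * a = a ∧ a * (e + f) = a) → (∀ a ∈ V, e * a * f = 0) →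
    (∀ a ∈ V, ∃ c : k, e * a * e = c • e) → e ≠ 0 → (∀ m, φ m (e + f) = φ 0 (e + f)) →
    (∀ m, ρ m (e + f) = 0) → Emb ι (cor f V) f → GlDimLE R D₀ → D₀ + 1 < D →
    ∀ z ∈ XW β N V, bH β z = 0 → PW β (ν D) ρ D z = 0

/-! ### The base algebra -/

/-- The data on the algebra with three vertices. -/
structure Base (k A : Type) [Field k] [Ring A] [Algebra k A] where
  τ : A →ₐ[k] A
  σ : A →ₐ[k] A
  d : End k A
  p : End k A
  q : ℕ → End k A
  ε : Fin 3 → A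
  Z : Fin 2 → ℕ
  dl : ∀ j : Fin 2, Fin (Z j) → A
  φ : ℕ → A →ₐ[k] Matrix (Fin 3) (Fin 3) k
  ρ : ℕ → A →ₗ[k] Matrix (Fin 3) (Fin 3) k
  ν : ℕ → A →ₗ[k] Matrix (Fin 3) (Fin 3) k
  μ : ℕ → A
  n : ℕ → A
  split : Split τ
  tri : Tri τ ε
  dg : DG σ d
  στ : ∀ a, σ (τ a) = τ a
  τσ : ∀ a, τ (σ a) = τ a
  dτ : ∀ a, d (τ a) = 0
  pp : ∀ a, p (p a) = p a
  pτ : ∀ a, p (τ a) = τ a
  τp : ∀ a, τ (p a) = τ a
  pσ : ∀ a, p (σ a) = σ (p a)
  pO : ∀ a, σ a = 0 → p a = a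
  pε : ∀ i a, p (ε i * a) = ε i * p a ∧ p (a * ε i) = p a * ε i
  pmul : ∀ a c, p a = a → p c = c → p (a * c) = a * c
  qq : ∀ D a, q D (q D a) = q D a
  qp : ∀ D a, q D (p a) = 0 ∧ p (q D a) = 0
  qτ : ∀ D a, τ (q D a) = 0 ∧ q D (τ a) = 0
  qσ : ∀ D a, σ (q D a) = q D a ∧ q D (σ a) = q D a
  dq : ∀ D a, d (q D a) = 0
  qmul : ∀ D a c, q D (τ a * c) = τ a * q D c ∧ q D (c * τ a) = q D c * τ a
  fin : FiniteDimensional k (fx p)
  dl_mem : ∀ j z, σ (dl j z) = 0 ∧ ε 0 * dl j z * ε j.succ = dl j z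
  inj0 : ∀ m, p m = m → τ m = 0 → σ m = m → ε 0 * m = m → d m = 0 → m = 0
  indep : ∀ j m (c : Fin (Z j) → k), p m = m → τ m = 0 → σ m = m →
    d m = ∑ z, c z • dl j z → ∀ z, c z = 0
  col0 : ∀ w, σ w = 0 → w * ε 0 = w → ∃ m, p m = m ∧ τ m = 0 ∧ σ m = m ∧ d m = w
  colj : ∀ (j : Fin 2) w, σ w = 0 → w * ε j.succ = w → ∃ (m : A) (l : Fin (Z j) → A),
    p m = m ∧ τ m = 0 ∧ σ m = m ∧ (∀ z, τ (l z) = l z) ∧ w = d m + ∑ z, l z * dl j z
  reps : Reps σ φ ρ ν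
  φτ : ∀ m a, φ m (τ a) = φ m a
  φε : ∀ m i, φ m (ε i) = Matrix.single i i 1
  ρτ : ∀ m a, ρ m (τ a) = 0
  ντ : ∀ m a, ν m (τ a) = 0
  μ_mem : ∀ m, p (μ m) = μ m ∧ τ (μ m) = 0 ∧ σ (μ m) = μ m
  n_mem : ∀ D, q D (n D) = n D
  ρμ : ∀ m, ∃ c : k, c ≠ 0 ∧ ρ m (μ m) = c • Matrix.single 0 0 1
  νn : ∀ D, ν D (n D) = Matrix.single 0 0 1
  exM : ∀ (B : Type) (β : Basis B k A) (m : ℕ),
    Ex (bH β) (SW β τ (List.replicate (m + 1) (fx p ⊓ LinearMap.ker τ.toLinearMap)))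
  exN : ∀ (B : Type) (β : Basis B k A) (Ys : List (Submodule k A)),
    (∀ Y ∈ Ys, Y = fx p ⊓ LinearMap.ker τ.toLinearMap ⊓ fx σ.toLinearMap ∨
      Y = LinearMap.ker σ.toLinearMap) → LinearMap.ker σ.toLinearMap ∈ Ys →
    Ex (bH β) (SW β τ (fx (q Ys.length) :: Ys))

def SBase : Prop :=
  ∀ (k : Type) [Field k], NonRoot k →
    ∃ (A : Type) (_ : Ring A) (_ : Algebra k A), Nonempty (Base k A)

def SA : Prop :=
  ∀ (k A B : Type) [Field k] [Ring A] [Algebra k A] (b : Base k A) (β : Basis B k A),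
    Calc β b.σ b.d → ∀ z ∈ XW β (fx b.p) (fx b.p), DD β b.σ b.d z = 0 →
    ∃ u ∈ XW β (fx b.p) (fx b.p), z - DD β b.σ b.d u ∈ LL k 1 B 1

def SAs : Prop :=
  ∀ (k A B : Type) [Field k] [Ring A] [Algebra k A] (b : Base k A) (β : Basis B k A),
    Calc β b.σ b.d → ∀ D : ℕ, ∃ z ∈ XO β b.σ (fx (b.q D)) (fx b.p),
      DD β b.σ b.d (ww β (b.n D :: (List.range D).map b.μ) + z) = 0

/-! ### The matrix algebra -/

section Mx

variable {k A : Type} [Field k] [Ring A] [Algebra k A]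

/-- The components. -/
abbrev CC (b : Base k A) : Type := Fin 3 ⊕ (j : Fin 2) × Option (Fin (b.Z j))

/-- The vertex of a component. -/
def ty {b : Base k A} : CC b → Fin 3
  | Sum.inl i => i
  | Sum.inr ⟨j, none⟩ => j.succ
  | Sum.inr ⟨_, some _⟩ => 0

/-- The height of a component. -/
def ht {b : Base k A} : CC b → ℤ
  | Sum.inr ⟨j, some _⟩ => 1 - (j : ℕ)
  | _ => 0

/-- The twisting matrix. -/
def dm (b : Base k A) : Matrix (CC b) (CC b) A
  | Sum.inr ⟨j, some z⟩, Sum.inr ⟨j', none⟩ => if j = j' then b.dl j z else 0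
  | _, _ => 0

/-- The matrix of an element of the base algebra. -/
def im (b : Base k A) : A →ₗ[k] Matrix (CC b) (CC b) A where
  toFun a := Matrix.of fun c c' => if c.isLeft ∧ c'.isLeft then a else 0
  map_add' a a' := by ext c c'; simp only [Matrix.of_apply, Matrix.add_apply]; split_ifs <;> simp
  map_smul' r a := by ext c c'; simp only [Matrix.of_apply, Matrix.smul_apply]; split_ifs <;> simp

/-- The degree of the entries that lie in the image of `τ`. -/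
def dg {b : Base k A} (c c' : CC b) : ℤ := ((ty c : ℕ) : ℤ) - (ty c' : ℕ) - ht c + ht c'

/-- Generalised matrices over the base algebra. -/
structure Mx (b : Base k A) (G : Type) [Ring G] [Algebra k G] where
  ent : G →ₗ[k] Matrix (CC b) (CC b) A
  mat : Matrix (CC b) (CC b) A →ₗ[k] G
  σ : G →ₐ[k] G
  φ : ℕ → G →ₐ[k] Matrix (CC b) (CC b) k
  ρ : ℕ → G →ₗ[k] Matrix (CC b) (CC b) k
  ν : ℕ → G →ₗ[k] Matrix (CC b) (CC b) k
  gr : ℕ → End k G
  mat_ent : ∀ x, mat (ent x) = x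
  ent_mat : ∀ f c c', ent (mat f) c c' = b.ε (ty c) * f c c' * b.ε (ty c')
  ent_mul : ∀ x z, ent (x * z) = ent x * ent z
  ent_one : ent 1 = Matrix.diagonal fun c => b.ε (ty c)
  ent_σ : ∀ x c c', ent (σ x) c c' = b.σ (ent x c c')
  φ_apply : ∀ m x c c', φ m x c c' = b.φ m (ent x c c') (ty c) (ty c')
  ρ_apply : ∀ m x c c', ρ m x c c' = b.ρ m (ent x c c') (ty c) (ty c')
  ν_apply : ∀ m x c c', ν m x c c' = b.ν m (ent x c c') (ty c) (ty c')
  ent_gr : ∀ n x c c', ent (gr n x) c c' =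
    (if dg c c' = n then b.τ (ent x c c') else 0) +
      if dg c c' + 2 = n then ent x c c' - b.τ (ent x c c') else 0

namespace Mx

variable {b : Base k A} {G : Type} [Ring G] [Algebra k G] (m : Mx b G)

/-- Apply a map to all entries. -/
noncomputable def lift (f : End k A) : End k G := m.mat ∘ₗ f.mapMatrix ∘ₗ m.ent

/-- The twisted differential. -/
noncomputable def δ : End k G :=
  m.lift b.d + LinearMap.mulLeft k (m.mat (dm b)) - LinearMap.mulRight k (m.mat (dm b))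

noncomputable def p : End k G := m.lift b.p

noncomputable def q (D : ℕ) : End k G := m.lift (b.q D)

/-- Matrix units. -/
noncomputable def un (c c' : CC b) : G := m.mat (Matrix.single c c' 1)

noncomputable def E (i : Fin 3) : G := m.un (Sum.inl i) (Sum.inl i)

noncomputable def y (j : Fin 2) : G := ∑ o, m.un (Sum.inr ⟨j, o⟩) (Sum.inr ⟨j, o⟩)

noncomputable def e : G := m.E 0 + m.E 1 + m.E 2

noncomputable def f : G := m.y 0 + m.y 1

noncomputable def e' : G := m.E 0 + m.f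

noncomputable def ι : A →ₗ[k] G := m.mat ∘ₗ im b

/-- The algebra with three vertices. -/
noncomputable def VA : Submodule k G := zc m.σ m.δ (cor m.e' (fx m.p))

/-- The algebra with two vertices. -/
noncomputable def VB : Submodule k G := cor m.f m.VA

end Mx

end Mx

def SMx : Prop :=
  ∀ (k A : Type) [Field k] [Ring A] [Algebra k A] (b : Base k A),
    ∃ (G : Type) (_ : Ring G) (_ : Algebra k G), Nonempty (Mx b G)

def SG1 : Prop :=
  ∀ (k A G : Type) [Field k] [Ring A] [Algebra k A] [Ring G] [Algebra k G] (b : Base k A)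
    (m : Mx b G), DG m.σ m.δ ∧ Pair m.σ m.δ (fx m.p) (fx m.p) ∧
    (∀ D, Pair m.σ m.δ (fx (m.q D)) (fx m.p)) ∧
    (∀ D, ∀ n ∈ fx (m.q D), m.σ n = n ∧ m.δ n = 0 ∧ ∀ i, m.φ i n = 0) ∧
    FiniteDimensional k (fx m.p)

def SG2 : Prop :=
  ∀ (k A G : Type) [Field k] [Ring A] [Algebra k A] [Ring G] [Algebra k G] (b : Base k A)
    (m : Mx b G), (∀ i, Cl m.σ m.δ (fx m.p) (m.E i)) ∧ (∀ j, Cl m.σ m.δ (fx m.p) (m.y j)) ∧
    CompleteOrthogonalIdempotents (Sum.elim m.E m.y) ∧ m.E 0 ≠ 0 ∧ (∀ j, m.y j ≠ 0) ∧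
    ∀ j : Fin 2, Units m.δ (fx m.p) (m.y j) (m.E j.succ) (m.E 0)
      (m.un (Sum.inr ⟨j, none⟩) (Sum.inl j.succ)) (m.un (Sum.inl j.succ) (Sum.inr ⟨j, none⟩))
      (fun z => m.un (Sum.inr ⟨j, some z⟩) (Sum.inl 0))
      (fun z => m.un (Sum.inl 0) (Sum.inr ⟨j, some z⟩))

def SG3 : Prop :=
  ∀ (k A G : Type) [Field k] [Ring A] [Algebra k A] [Ring G] [Algebra k G] (b : Base k A)
    (m : Mx b G), Emb m.ι (cor m.e ⊤) m.e ∧ (∀ a, m.ι (b.σ a) = m.σ (m.ι a)) ∧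
    (∀ a, m.ι (b.d a) = m.δ (m.ι a)) ∧ (∀ a, m.ι (b.p a) = m.p (m.ι a)) ∧
    (∀ D a, m.ι (b.q D a) = m.q D (m.ι a)) ∧
    ∀ D, pf (m.ν D) m.ρ D ((b.n D :: (List.range D).map b.μ).map m.ι) ≠ 0

def SG4 : Prop :=
  ∀ (k A G : Type) [Field k] [Ring A] [Algebra k A] [Ring G] [Algebra k G] (b : Base k A)
    (m : Mx b G), Onto m.σ m.δ (cor m.e' (fx m.p))

def SG5 : Prop :=
  ∀ (k A G : Type) [Field k] [Ring A] [Algebra k A] [Ring G] [Algebra k G] (b : Base k A)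
    (m : Mx b G), (∀ a ∈ m.VA, m.E 0 * a * m.f = 0) ∧
    (∀ a ∈ m.VA, ∃ c : k, m.E 0 * a * m.E 0 = c • m.E 0) ∧
    (∀ x ∈ m.VB, ∑ n ∈ Finset.range 6, m.gr n x = x) ∧
    ∀ x ∈ m.VB, ∃ c c' : k, m.gr 0 x = c • m.y 0 + c' • m.y 1

def SG6 : Prop :=
  ∀ (k A G : Type) [Field k] [Ring A] [Algebra k A] [Ring G] [Algebra k G] (b : Base k A)
    (m : Mx b G), (∀ n, ∀ x ∈ m.VB, m.gr n x ∈ m.VB) ∧
    (∀ n n' x, m.gr n (m.gr n' x) = if n = n' then m.gr n' x else 0) ∧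
    (∀ n n' x z, m.gr n x = x → m.gr n' z = z → m.gr (n + n') (x * z) = x * z) ∧
    ∀ j, m.gr 0 (m.y j) = m.y j

def SG7 : Prop :=
  ∀ (k A G : Type) [Field k] [Ring A] [Algebra k A] [Ring G] [Algebra k G] (b : Base k A)
    (m : Mx b G), Reps m.σ m.φ m.ρ m.ν ∧ (∀ n, m.φ n m.e' = m.φ 0 m.e') ∧
    (∀ n, m.ρ n m.e' = 0) ∧
    ∀ D, ∀ P : Fin 7 → End k G, P = ![LinearMap.mulLeft k m.e, LinearMap.mulRight k m.e,
      LinearMap.mulLeft k m.e', LinearMap.mulRight k m.e', m.σ.toLinearMap, m.p, m.q D] →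
      (∀ i a, P i (P i a) = P i a) ∧ ∀ i j a, P i (P j a) = P j (P i a)

end Pool.Agent.MP_92f1cb_al.H21T
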