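import Pool.Agent.MP_92f1cb_al.H21T.Spec

set_option autoImplicit false

namespace Pool.Agent.MP_92f1cb_al.H21T

open Pool.Agent.MP_92f1cb_al.H14 Pool.Agent.MP_92f1cb_al.H14C Module

namespace StepSx

variable {k A B : Type} [Field k] [Ring A] [Algebra k A] (b : Base k A) (β : Basis B k A)

/-- The two kinds of slots. -/
def Yb : Bool → Submodule k A
  | true => LinearMap.ker b.σ.toLinearMap
  | false => fx b.p ⊓ LinearMap.ker b.τ.toLinearMap ⊓ fx b.σ.toLinearMap

/-- The projections onto the two kinds. -/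
def ph : Bool → End k A
  | true => 1 - b.σ.toLinearMap
  | false => b.σ.toLinearMap

/-- Tails with `D` slots, `j` of them of degree one. -/
noncomputable def CJ (D j : ℕ) : Submodule k (WW k B) :=
  Submodule.span k {W | ∃ s : List Bool, ∃ l, s.length = D ∧ s.count true = j ∧
    Shape b.τ (s.map (Yb b)) l ∧ W = ww β l}

/-- Words with a head and such a tail. -/
noncomputable def WJ (D j : ℕ) : Submodule k (WW k B) :=
  Submodule.span k {W | ∃ n, ∃ s : List Bool, ∃ l, b.q D n = n ∧ s.length = D ∧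
    s.count true = j ∧ Shape b.τ (s.map (Yb b)) l ∧ W = cons β n (ww β l)}

/-- The projection onto one pattern. -/
noncomputable def pr (s : List Bool) : End k (WW k B) := Op β b.τ (1 :: s.map (ph b))

variable {b β}

theorem τ_of_σ {a : A} (h : b.σ a = 0) : b.τ a = 0 := by rw [← b.τσ, h, map_zero]

theorem τ_Yb {c : Bool} {a : A} (h : a ∈ Yb b c) : b.τ a = 0 := by
  cases c
  · exact h.1.2
  · exact τ_of_σ h

theorem τ_q {D : ℕ} {n : A} (h : b.q D n = n) : b.τ n = 0 := by rw [← h]; exact (b.qτ D n).1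

theorem σ_q {D : ℕ} {n : A} (h : b.q D n = n) : b.σ n = n := by
  have := (b.qσ D n).1
  rwa [h] at this

theorem eps_fix {a : A} (h : b.σ a = a) : eps b.σ a = a := by simp [eps, h]

theorem eps_ker {a : A} (h : b.σ a = 0) : eps b.σ a = -a := by simp [eps, h]

theorem ph_Yb {c c' : Bool} {a : A} (h : a ∈ Yb b c) : ph b c' a = if c' = c then a else 0 := by
  cases c
  · have h1 : b.σ a = a := h.2
    cases c' <;> simp [ph, h1]
  · have h1 : b.σ a = 0 := h
    cases c' <;> simp [ph, h1]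

theorem bmap_σ : BMap b.τ b.σ.toLinearMap := fun y hy => by
  have h1 : b.τ (b.σ y) = 0 := by rw [b.τσ, hy]
  have h2 : ∀ a, b.τ (a - b.σ a) = 0 := fun a => τ_of_σ (b.dg.split.sub a)
  refine ⟨h1, fun a => ⟨?_, ?_⟩⟩
  · have := b.split.sq _ _ (h2 a) h1
    rw [sub_mul, sub_eq_zero] at this
    exact (map_mul b.σ a y).trans this.symm
  · have := b.split.sq _ _ h1 (h2 a)
    rw [mul_sub, sub_eq_zero] at this
    exact (map_mul b.σ y a).trans this.symm

theorem bmap_ph (c : Bool) : BMap b.τ (ph b c) := by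
  cases c
  · exact bmap_σ
  · intro y hy
    obtain ⟨h1, h2⟩ := bmap_σ y hy
    refine ⟨τ_of_σ (b.dg.split.sub y), fun a => ⟨?_, ?_⟩⟩
    · change a * y - b.σ.toLinearMap (a * y) = a * (y - b.σ.toLinearMap y)
      rw [(h2 a).1, mul_sub]
    · change y * a - b.σ.toLinearMap (y * a) = (y - b.σ.toLinearMap y) * a
      rw [(h2 a).2, sub_mul]

theorem sh_cons {s : List Bool} {a : A} {l : List A} (h : Shape b.τ (s.map (Yb b)) (a :: l)) :
    (b.τ a = a ∧ Shape b.τ (s.map (Yb b)) l) ∨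
      ∃ c t, s = c :: t ∧ a ∈ Yb b c ∧ Shape b.τ (t.map (Yb b)) l := by
  rcases h.of_cons with h | ⟨Y, Zs, e, h1, h2⟩
  · exact Or.inl h
  · obtain ⟨c, t, rfl, rfl, rfl⟩ := List.map_eq_cons_iff.1 e
    exact Or.inr ⟨c, t, rfl, h1, h2⟩

theorem op_sh {l : List A} : ∀ {s : List Bool} (t : List Bool), Shape b.τ (s.map (Yb b)) l →
    Op β b.τ (t.map (ph b)) (ww β l) = if t = s then ww β l else 0 := by
  induction l with
  | nil =>
    intro s t h
    obtain rfl : s = [] := List.map_eq_nil_iff.1 h.eq_nil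
    cases t with
    | nil => simp [Op_nil_nil]
    | cons c t => simp [Op_cons_nil]
  | cons a l ih =>
    intro s t h
    rw [ww_cons]
    rcases sh_cons h with ⟨h1, h2⟩ | ⟨c, s, rfl, h1, h2⟩
    · rw [Op_cons_L β _ _ h1, ih t h2]
      split_ifs <;> simp
    · cases t with
      | nil => simp [Op_nil_M β _ (τ_Yb h1)]
      | cons c' t =>
        rw [List.map_cons, Op_cons_M β _ _ _ (τ_Yb h1), ih t h2, ph_Yb h1]
        by_cases e1 : c' = c <;> by_cases e2 : t = s <;> simp [e1, e2]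

theorem mem_CJ {D j : ℕ} {s : List Bool} {l : List A} (h1 : s.length = D)
    (h2 : s.count true = j) (h3 : Shape b.τ (s.map (Yb b)) l) : ww β l ∈ CJ b β D j :=
  Submodule.subset_span ⟨s, l, h1, h2, h3, rfl⟩

theorem mem_WJ {D j : ℕ} {n : A} {s : List Bool} {l : List A} (h0 : b.q D n = n)
    (h1 : s.length = D) (h2 : s.count true = j) (h3 : Shape b.τ (s.map (Yb b)) l) :
    cons β n (ww β l) ∈ WJ b β D j :=
  Submodule.subset_span ⟨n, s, l, h0, h1, h2, h3, rfl⟩

theorem mem_XO {N L : Submodule k A} {n : A} {l : List A} (h0 : n ∈ N) (h1 : ∀ a ∈ l, a ∈ L)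
    (h2 : ∃ a ∈ l, b.σ a = 0) : cons β n (ww β l) ∈ XO β b.σ N L :=
  Submodule.subset_span ⟨n, h0, l, h1, h2, rfl⟩

theorem WJ_map {X : Type} [AddCommGroup X] [Module k X] {D j : ℕ} (f : WW k B →ₗ[k] X)
    (V : Submodule k X) (h : ∀ n (s : List Bool) l, b.q D n = n → s.length = D →
      s.count true = j → Shape b.τ (s.map (Yb b)) l → f (cons β n (ww β l)) ∈ V)
    {W : WW k B} (hW : W ∈ WJ b β D j) : f W ∈ V :=
  (Submodule.span_le (p := V.comap f)).2
    (by rintro _ ⟨n, s, l, h1, h2, h3, h4, rfl⟩; exact h n s l h1 h2 h3 h4) hW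

theorem CJ_map {X : Type} [AddCommGroup X] [Module k X] {D j : ℕ} (f : WW k B →ₗ[k] X)
    (V : Submodule k X) (h : ∀ (s : List Bool) l, s.length = D →
      s.count true = j → Shape b.τ (s.map (Yb b)) l → f (ww β l) ∈ V)
    {W : WW k B} (hW : W ∈ CJ b β D j) : f W ∈ V :=
  (Submodule.span_le (p := V.comap f)).2
    (by rintro _ ⟨s, l, h2, h3, h4, rfl⟩; exact h s l h2 h3 h4) hW

theorem dW_sh (hc : Calc β b.σ b.d) {l : List A} : ∀ {s : List Bool},
    Shape b.τ (s.map (Yb b)) l →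
      dW β b.σ b.d (ww β l) ∈ CJ b β s.length (s.count true + 1) := by
  induction l with
  | nil =>
    intro s _
    rw [hc.dW_nil]
    exact Submodule.zero_mem _
  | cons a l ih =>
    intro s h
    rw [ww_cons, hc.dW_cons]
    rcases sh_cons h with ⟨h1, h2⟩ | ⟨c, s, rfl, h1, h2⟩
    · have e1 : b.d a = 0 := by rw [← h1, b.dτ]
      have e2 : b.σ a = a := by rw [← h1, b.στ]
      rw [e1, eps_fix e2, map_zero, LinearMap.zero_apply, zero_add]
      exact CJ_map (cons β a) _ (fun t l' g1 g2 g3 =>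
        mem_CJ (l := a :: l') g1 g2 (Shape.consL h1 g3)) (ih h2)
    · have m : ∀ a' ∈ Yb b c, cons β a' (dW β b.σ b.d (ww β l)) ∈
          CJ b β (c :: s).length ((c :: s).count true + 1) := fun a' ha' =>
        CJ_map (cons β a') _ (fun t l' g1 g2 g3 => mem_CJ (s := c :: t) (l := a' :: l')
          (by simp [g1]) (by simp [List.count_cons, g2, Nat.add_right_comm])
          (Shape.consM ha' g3)) (ih h2)
      cases c
      · rw [eps_fix h1.2]
        exact Submodule.add_mem _ (Submodule.subset_span ⟨true :: s, b.d a :: l, by simp,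
          by simp, Shape.consM (b.dg.σδ a) h2, rfl⟩) (m a h1)
      · have e1 : b.d a = 0 := by rw [← b.dg.δσ, show b.σ a = 0 from h1, map_zero]
        rw [e1, eps_ker h1, map_zero, LinearMap.zero_apply, zero_add]
        exact m _ (Submodule.neg_mem _ h1)

theorem omdW_mem (hc : Calc β b.σ b.d) {D j : ℕ} {W : WW k B} (hW : W ∈ WJ b β D j) :
    om (dW β b.σ b.d W) ∈ WJ b β D (j + 1) := by
  refine WJ_map om _ (fun n s l h1 h2 h3 h4 => ?_)
    (WJ_map (dW β b.σ b.d) (WJ b β D (j + 1)) (fun n s l h1 h2 h3 h4 => ?_) hW)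
  · rw [← ww_cons, om_ww]
    exact Submodule.smul_mem _ _ (Submodule.subset_span ⟨n, s, l, h1, h2, h3, h4, rfl⟩)
  · have e1 : b.d n = 0 := by rw [← h1, b.dq]
    rw [hc.dW_cons, e1, eps_fix (σ_q h1), map_zero, LinearMap.zero_apply, zero_add]
    have h5 := dW_sh hc h4
    rw [h2, h3] at h5
    exact CJ_map (cons β n) _ (fun t l' g1 g2 g3 =>
      mem_WJ h1 g1 g2 g3) h5

theorem bT_cons (hc : Calc β b.σ b.d) {n : A} (h1 : b.σ n = n) (h2 : b.τ n = 0) (l : List A) :
    bT β b.σ (cons β n (ww β l)) = bH β (cons β n (ww β l)) := by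
  rw [bH_apply, bT, LinearMap.add_apply, End.mul_apply]
  congr 1
  induction l using List.reverseRecOn with
  | nil => rw [cons_nil, hc.TS_L _ _ h1, TH_snoc]
  | append_singleton l a _ =>
    have e : snoc β a = snoc β (b.σ a) + (snoc β (a - b.σ a) : End k (WW k B)) := by
      rw [← map_add, add_sub_cancel]
    have h3 := b.split.sq _ _ (τ_of_σ (b.dg.split.sub a)) h2
    rw [ww_concat, cons_snoc, e, LinearMap.add_apply, map_add, map_add, map_add, map_add,
      hc.TS_L _ _ (b.dg.split.idem a), hc.TS_M _ _ (b.dg.split.sub a), TH_snoc, TH_snoc,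
      hc.E_cons, eps_fix h1]
    simp only [om_cons, map_neg, d0_cons_cons, h3, map_zero, LinearMap.zero_apply]

theorem DD_WJ (hc : Calc β b.σ b.d) {D j : ℕ} {W : WW k B} (hW : W ∈ WJ b β D j) :
    DD β b.σ b.d W = bH β W + om (dW β b.σ b.d W) := by
  have h := WJ_map (bT β b.σ - bH β) ⊥ (fun n s l h1 _ _ _ => by
    rw [LinearMap.sub_apply, bT_cons hc (σ_q h1) (τ_q h1), sub_self]
    exact Submodule.zero_mem _) hW
  rw [Submodule.mem_bot, LinearMap.sub_apply, sub_eq_zero] at h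
  rw [DD, LinearMap.add_apply, End.mul_apply, h]

theorem pr_cons {D : ℕ} {n : A} (h1 : b.q D n = n) {s : List Bool} {l : List A}
    (h : Shape b.τ (s.map (Yb b)) l) (t : List Bool) :
    pr b β t (cons β n (ww β l)) = if t = s then cons β n (ww β l) else 0 := by
  rw [pr, Op_cons_M β _ _ _ (τ_q h1), op_sh t h, End.one_apply]
  split_ifs <;> simp

theorem sh_mem {l : List A} : ∀ {s : List Bool}, Shape b.τ (s.map (Yb b)) l →
    (∀ a ∈ l, a ∈ fx b.p) ∧ (true ∈ s → ∃ a ∈ l, b.σ a = 0) := by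
  induction l with
  | nil =>
    intro s h
    obtain rfl : s = [] := List.map_eq_nil_iff.1 h.eq_nil
    simp
  | cons a l ih =>
    intro s h
    rcases sh_cons h with ⟨h1, h2⟩ | ⟨c, s, rfl, h1, h2⟩
    · refine ⟨List.forall_mem_cons.2 ⟨?_, (ih h2).1⟩, fun g => ((ih h2).2 g).imp
        fun c hc => ⟨List.mem_cons_of_mem _ hc.1, hc.2⟩⟩
      rw [mem_fx, ← h1, b.pτ]
    · cases c
      · refine ⟨List.forall_mem_cons.2 ⟨h1.1.1, (ih h2).1⟩, fun g => ((ih h2).2
          (by simpa using g)).imp fun c hc => ⟨List.mem_cons_of_mem _ hc.1, hc.2⟩⟩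
      · exact ⟨List.forall_mem_cons.2 ⟨b.pO a h1, (ih h2).1⟩, fun _ => ⟨a, List.mem_cons_self, h1⟩⟩

theorem WJ_XO {D j : ℕ} (hj : 1 ≤ j) {W : WW k B} (hW : W ∈ WJ b β D j) :
    W ∈ XO β b.σ (fx (b.q D)) (fx b.p) :=
  WJ_map LinearMap.id _ (fun _ s _ h1 _ h3 h4 => mem_XO h1 (sh_mem h4).1
    ((sh_mem h4).2 (List.count_pos_iff.1 (by omega)))) hW

theorem step (hc : Calc β b.σ b.d) {D j : ℕ} (hj : 1 ≤ j) {r : WW k B} (hr : r ∈ WJ b β D j)
    (h0 : DD β b.σ b.d r = 0) : ∃ u ∈ WJ b β D j, bH β u = r := by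
  classical
  let T := (List.finite_length_eq Bool D).toFinset.filter fun s => s.count true = j
  have hT : ∀ s, s ∈ T ↔ s.length = D ∧ s.count true = j := fun s => by simp [T]
  have h1 : ∑ t ∈ T, pr b β t r = r := by
    have h := WJ_map (∑ t ∈ T, pr b β t - LinearMap.id) ⊥ (fun n s l g1 g2 g3 g4 => by
      rw [LinearMap.sub_apply, LinearMap.sum_apply, Finset.sum_congr rfl fun t _ => pr_cons g1 g4 t,
        Finset.sum_ite_eq', if_pos ((hT s).2 ⟨g2, g3⟩), LinearMap.id_apply, sub_self]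
      exact Submodule.zero_mem _) hr
    rwa [Submodule.mem_bot, LinearMap.sub_apply, LinearMap.sum_apply, sub_eq_zero] at h
  have h2 : ∀ t ∈ T, ∃ u ∈ WJ b β D j, bH β u = pr b β t r := fun t ht => by
    obtain ⟨t1, t2⟩ := (hT t).1 ht
    have a1 : pr b β t r ∈ SW β b.τ (fx (b.q D) :: t.map (Yb b)) :=
      WJ_map (pr b β t) _ (fun n s l g1 _ _ g4 => by
        rw [pr_cons g1 g4]
        split_ifs with e
        · subst e
          exact ww_mem_SW g1 g4
        · exact Submodule.zero_mem _) hr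
    have a2 := WJ_map (bH β * pr b β t - pr b β t * bH β) ⊥ (fun n s l g1 _ _ _ => by
      rw [LinearMap.sub_apply, End.mul_apply, End.mul_apply, pr,
        Op_bH_cons β b.split _ (List.forall_mem_cons.2 ⟨bmap_one,
          List.forall_mem_map.2 fun c _ => bmap_ph c⟩) (τ_q g1), sub_self]
      exact Submodule.zero_mem _) hr
    have a3 := WJ_map (pr b β t) ⊥ (fun n s l g1 _ g3 g4 => by
      rw [pr_cons g1 g4, if_neg (by rintro rfl; omega)]
      exact Submodule.zero_mem _) (omdW_mem hc hr)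
    rw [Submodule.mem_bot, LinearMap.sub_apply, End.mul_apply, End.mul_apply, sub_eq_zero,
      eq_neg_of_add_eq_zero_left ((DD_WJ hc hr).symm.trans h0), map_neg,
      (Submodule.mem_bot k).1 a3, neg_zero] at a2
    have a4 := b.exN B β (t.map (Yb b)) (List.forall_mem_map.2 fun c _ => by
      cases c
      · exact Or.inl rfl
      · exact Or.inr rfl) (List.mem_map.2 ⟨true, List.count_pos_iff.1 (by omega), rfl⟩)
    rw [List.length_map, t1] at a4
    obtain ⟨u, u1, u2⟩ := a4 _ a1 a2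
    exact ⟨u, SW_map LinearMap.id _ (fun n g1 l g2 => mem_WJ g1 t1 t2 g2) u1, u2⟩
  choose! u u1 u2 using h2
  exact ⟨∑ t ∈ T, u t, Submodule.sum_mem _ u1, by rw [map_sum, Finset.sum_congr rfl u2, h1]⟩

theorem stair (hc : Calc β b.σ b.d) (D m : ℕ) : ∀ j, 1 ≤ j → D + 1 ≤ j + m → ∀ r ∈ WJ b β D j,
    DD β b.σ b.d r = 0 → ∃ u ∈ XO β b.σ (fx (b.q D)) (fx b.p), DD β b.σ b.d u = r := by
  induction m with
  | zero =>
    intro j _ h r hr _
    have := WJ_map LinearMap.id ⊥ (fun n s l _ g2 g3 _ => by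
      have := List.count_le_length (a := true) (l := s)
      omega) hr
    exact ⟨0, Submodule.zero_mem _, by rw [map_zero]; exact ((Submodule.mem_bot k).1 this).symm⟩
  | succ m ih =>
    intro j hj h r hr h0
    obtain ⟨u, u1, u2⟩ := step hc hj hr h0
    have e := DD_WJ hc u1
    rw [u2] at e
    obtain ⟨v, v1, v2⟩ := ih (j + 1) (by omega) (by omega) _ (omdW_mem hc u1) (by
      have := hc.DD_DD u
      rwa [e, map_add, h0, zero_add] at this)
    exact ⟨u - v, Submodule.sub_mem _ (WJ_XO hj u1) v1, by rw [map_sub, e, v2, add_sub_cancel_right]⟩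

theorem bp_ker {l : List A} (h : ∀ a ∈ l, b.τ a = 0) : bp β (ww β l) = 0 := by
  induction l with
  | nil => exact bp_ww_nil β
  | cons a l ih =>
    rw [ww_cons, bp_cons, ih fun c hc => h c (List.mem_cons_of_mem _ hc), map_zero, sub_zero]
    cases l with
    | nil => exact d0_ww_one β a
    | cons c l =>
      rw [ww_cons, d0_cons_cons, b.split.sq _ _ (h a (by simp)) (h c (by simp)), map_zero,
        LinearMap.zero_apply]

theorem bH_ker {n : A} {l : List A} (hn : b.τ n = 0) (h : ∀ a ∈ l, b.τ a = 0) :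
    bH β (cons β n (ww β l)) = 0 := by
  rw [bH_apply, ← ww_cons, bp_ker (List.forall_mem_cons.2 ⟨hn, h⟩), zero_add, ww_cons]
  induction l using List.reverseRecOn with
  | nil => exact d0_TH_one β n
  | append_singleton l a _ =>
    rw [ww_concat, d0_TH_cons_snoc, b.split.sq _ _ (h a (by simp)) hn, map_zero,
      LinearMap.zero_apply, neg_zero]

theorem sh_rep {l : List A} (h : ∀ a ∈ l, a ∈ Yb b false) :
    Shape b.τ ((List.replicate l.length false).map (Yb b)) l := by
  induction l with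
  | nil => exact Shape.nil
  | cons a l ih =>
    exact Shape.consM (h a (by simp)) (ih fun c hc => h c (List.mem_cons_of_mem _ hc))

end StepSx

open StepSx in
theorem sAs : SAs := by
  intro k A B _ _ _ b β hc D
  have h1 : ∀ a ∈ (List.range D).map b.μ, a ∈ Yb b false :=
    List.forall_mem_map.2 fun m _ => ⟨⟨(b.μ_mem m).1, (b.μ_mem m).2.1⟩, (b.μ_mem m).2.2⟩
  have h2 : cons β (b.n D) (ww β ((List.range D).map b.μ)) ∈ WJ b β D 0 :=
    Submodule.subset_span ⟨_, _, _, b.n_mem D, by simp, by simp [List.count_replicate],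
      sh_rep h1, rfl⟩
  have e := DD_WJ hc h2
  rw [bH_ker (τ_q (b.n_mem D)) fun a ha => τ_Yb (h1 a ha), zero_add] at e
  obtain ⟨u, u1, u2⟩ := stair hc D D 1 le_rfl (by omega) _ (omdW_mem hc h2) (by
    rw [← e]
    exact hc.DD_DD _)
  exact ⟨-u, Submodule.neg_mem _ u1, by rw [ww_cons, map_add, map_neg, e, u2, add_neg_cancel]⟩

end Pool.Agent.MP_92f1cb_al.H21T
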