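import Pool.Agent.MP_92f1cb_al.H21T.Spec

set_option autoImplicit false

namespace Pool.Agent.MP_92f1cb_al.H21T

open Pool.Agent.MP_92f1cb_al.H14 Pool.Agent.MP_92f1cb_al.H14C Module

namespace Totx

variable {k G B : Type} [Field k] [Ring G] [Algebra k G] (β : Basis B k G) (σ : G →ₐ[k] G)

open Classical in
/-- The number of fixed letters. -/
noncomputable def cnt (w : List B) : ℤ := (w.countP fun x => decide (σ (β x) = β x) : ℕ)

/-- The projection to the words with `s` fixed letters. -/
noncomputable def Pr (s : ℤ) : End k (WW k B) :=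
  mk fun p => if cnt β σ p.2 = s then ee p else 0

theorem Pr_ee (s : ℤ) (p : ZMod 1 × List B) :
    Pr β σ s (ee p) = if cnt β σ p.2 = s then ee p else 0 := by simp [Pr]

theorem cnt_cons_pos {x : B} (h : σ (β x) = β x) (w : List B) :
    cnt β σ (x :: w) = cnt β σ w + 1 := by simp [cnt, h]

theorem cnt_cons_neg {x : B} (h : σ (β x) = 0) (w : List B) :
    cnt β σ (x :: w) = cnt β σ w := by
  have : ¬ (0 = β x) := fun h' => β.ne_zero x h'.symm
  simp [cnt, h, this]

theorem cnt_concat (x : B) (w : List B) : cnt β σ (w ++ [x]) = cnt β σ (x :: w) := by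
  simp [cnt, List.countP_cons]

theorem cnt_le (w : List B) : cnt β σ w ≤ w.length := by
  simp only [cnt, Nat.cast_le]
  exact List.countP_le_length

theorem Pr_nil (s : ℤ) : Pr β σ s (ww β []) = if s = 0 then ww β [] else 0 := by
  rw [ww_nil, Pr_ee]
  simp [cnt, eq_comm]

theorem Pr_om (s : ℤ) (W : WW k B) : Pr β σ s (om W) = om (Pr β σ s W) := by
  induction W using ee_ind with
  | hb c w =>
    rw [om_ee, map_smul, Pr_ee]
    split_ifs
    · rw [om_ee]
    · simp
  | h0 => simp
  | hadd x y hx hy => simp only [map_add, hx, hy]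
  | hsmul c x hx => simp only [map_smul, hx]

variable {β σ}

theorem Pr_cons (hA : Adp β σ.toLinearMap) (s : ℤ) (a : G) (W : WW k B) :
    Pr β σ s (cons β a W) =
      cons β (σ a) (Pr β σ (s - 1) W) + cons β (a - σ a) (Pr β σ s W) := by
  induction a using basis_ind' β with
  | hb x =>
    induction W using ee_ind with
    | hb c w =>
      rw [← ee_cons, Pr_ee, Pr_ee, Pr_ee]
      rcases hA x with h | h
      · have h : σ (β x) = β x := h
        simp only [cnt_cons_pos β σ h, h, sub_self, map_zero, LinearMap.zero_apply, add_zero,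
          eq_sub_iff_add_eq]
        split_ifs
        · rw [← ee_cons]
        · simp
      · have h : σ (β x) = 0 := h
        simp only [cnt_cons_neg β σ h, h, sub_zero, map_zero, LinearMap.zero_apply, zero_add]
        split_ifs
        · rw [← ee_cons]
        · simp
    | h0 => simp
    | hadd x y hx hy => simp only [map_add, hx, hy]; abel
    | hsmul c x hx => simp only [map_smul, hx, smul_add]
  | h0 => simp
  | hadd x y hx hy =>
    rw [map_add σ, add_sub_add_comm]
    simp only [map_add, LinearMap.add_apply, hx, hy]; abel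
  | hsmul c x hx =>
    rw [map_smul σ, ← smul_sub]
    simp only [map_smul, LinearMap.smul_apply, hx, smul_add]

theorem Pr_snoc (hA : Adp β σ.toLinearMap) (s : ℤ) (a : G) (W : WW k B) :
    Pr β σ s (snoc β a W) =
      snoc β (σ a) (Pr β σ (s - 1) W) + snoc β (a - σ a) (Pr β σ s W) := by
  induction a using basis_ind' β with
  | hb x =>
    induction W using ee_ind with
    | hb c w =>
      rw [← ee_concat, Pr_ee, Pr_ee, Pr_ee]
      rcases hA x with h | h
      · have h : σ (β x) = β x := h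
        simp only [cnt_concat, cnt_cons_pos β σ h, h, sub_self, map_zero, LinearMap.zero_apply,
          add_zero, eq_sub_iff_add_eq]
        split_ifs
        · rw [← ee_concat]
        · simp
      · have h : σ (β x) = 0 := h
        simp only [cnt_concat, cnt_cons_neg β σ h, h, sub_zero, map_zero, LinearMap.zero_apply,
          zero_add]
        split_ifs
        · rw [← ee_concat]
        · simp
    | h0 => simp
    | hadd x y hx hy => simp only [map_add, hx, hy]; abel
    | hsmul c x hx => simp only [map_smul, hx, smul_add]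
  | h0 => simp
  | hadd x y hx hy =>
    rw [map_add σ, add_sub_add_comm]
    simp only [map_add, LinearMap.add_apply, hx, hy]; abel
  | hsmul c x hx =>
    rw [map_smul σ, ← smul_sub]
    simp only [map_smul, LinearMap.smul_apply, hx, smul_add]

theorem Pr_cons_L (hA : Adp β σ.toLinearMap) (s : ℤ) {a : G} (h : σ a = a) (W : WW k B) :
    Pr β σ s (cons β a W) = cons β a (Pr β σ (s - 1) W) := by
  rw [Pr_cons hA, h]; simp

theorem Pr_cons_M (hA : Adp β σ.toLinearMap) (s : ℤ) {a : G} (h : σ a = 0) (W : WW k B) :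
    Pr β σ s (cons β a W) = cons β a (Pr β σ s W) := by
  rw [Pr_cons hA, h]; simp

theorem cons_split (a : G) (W : WW k B) :
    cons β a W = cons β (σ a) W + cons β (a - σ a) W := by
  rw [← LinearMap.add_apply, ← map_add, add_sub_cancel]

theorem snoc_split (a : G) (W : WW k B) :
    snoc β a W = snoc β (σ a) W + snoc β (a - σ a) W := by
  rw [← LinearMap.add_apply, ← map_add, add_sub_cancel]

theorem eps_L {a : G} (h : σ a = a) : eps σ a = a := by simp [eps, h]

theorem eps_M {a : G} (h : σ a = 0) : eps σ a = - a := by simp [eps, h]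

theorem d0_cons_Pr_nil (s : ℤ) (a : G) : d0 β (cons β a (Pr β σ s (ww β []))) = 0 := by
  rw [Pr_nil]
  split_ifs
  · exact d0_ww_one β a
  · simp

theorem Pr_d0 (hA : Adp β σ.toLinearMap) (hσ : Split σ) (s : ℤ) (W : WW k B) :
    Pr β σ s (d0 β W) = d0 β (Pr β σ (s + 1) W) := by
  refine ww_ext β (f := Pr β σ s ∘ₗ d0 β) (g := d0 β ∘ₗ Pr β σ (s + 1)) (fun l => ?_) W
  simp only [LinearMap.comp_apply]
  match l with
  | [] =>
    rw [d0_ww_nil, Pr_nil]
    split_ifs
    · rw [d0_ww_nil, map_zero]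
    · simp
  | [a] =>
    rw [ww_cons, d0_ww_one, Pr_cons hA, map_add, d0_cons_Pr_nil, d0_cons_Pr_nil]
    simp
  | a :: c :: l =>
    have e : a * c - σ (a * c) = σ a * (c - σ c) + (a - σ a) * σ c := by
      have := hσ.sq _ _ (hσ.sub a) (hσ.sub c)
      rw [map_mul, ← sub_eq_zero, ← this]; noncomm_ring
    rw [ww_cons, ww_cons, d0_cons_cons, Pr_cons hA, Pr_cons hA, Pr_cons hA, Pr_cons hA, e]
    simp only [map_add, d0_cons_cons, hσ.sq _ _ (hσ.sub a) (hσ.sub c), add_sub_cancel_right,
      map_mul, map_zero, LinearMap.zero_apply, LinearMap.add_apply]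
    abel

theorem Pr_bp (hA : Adp β σ.toLinearMap) (hσ : Split σ) (s : ℤ) (W : WW k B) :
    Pr β σ s (bp β W) = bp β (Pr β σ (s + 1) W) := by
  refine ww_ext β (f := Pr β σ s ∘ₗ bp β) (g := bp β ∘ₗ Pr β σ (s + 1)) (fun l => ?_) W
  simp only [LinearMap.comp_apply]
  induction l generalizing s with
  | nil =>
    rw [bp_ww_nil, Pr_nil]
    split_ifs
    · rw [bp_ww_nil, map_zero]
    · simp
  | cons a l ih =>
    rw [ww_cons, bp_cons, map_sub, Pr_d0 hA hσ, Pr_cons hA, Pr_cons hA, ih, ih, map_add, map_add,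
      bp_cons, bp_cons, sub_add_cancel, add_sub_cancel_right]
    abel

variable {δ : End k G}

theorem Pr_E (hA : Adp β σ.toLinearMap) (hσ : Split σ) (hC : Calc β σ δ) (s : ℤ) (W : WW k B) :
    Pr β σ s (wm β β (eps σ) W) = wm β β (eps σ) (Pr β σ s W) := by
  refine ww_ext β (f := Pr β σ s ∘ₗ wm β β (eps σ)) (g := wm β β (eps σ) ∘ₗ Pr β σ s)
    (fun l => ?_) W
  simp only [LinearMap.comp_apply]
  induction l generalizing s with
  | nil =>
    rw [hC.E_nil, Pr_nil]
    split_ifs
    · rw [hC.E_nil]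
    · simp
  | cons a l ih =>
    rw [ww_cons, cons_split (σ := σ) a]
    simp only [map_add, hC.E_cons, eps_L (hσ.idem a), eps_M (hσ.sub a), map_neg,
      LinearMap.neg_apply, Pr_cons_L hA _ (hσ.idem a), Pr_cons_M hA _ (hσ.sub a), ih]

theorem Pr_dTS (hA : Adp β σ.toLinearMap) (hσ : Split σ) (hC : Calc β σ δ) (s : ℤ)
    (W : WW k B) :
    Pr β σ s (d0 β (TS β σ W)) = d0 β (TS β σ (Pr β σ (s + 1) W)) := by
  induction W using ww_ind β with
  | hb l =>
    induction l using List.reverseRecOn with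
    | nil =>
      rw [hC.d0_TS_nil, Pr_nil]
      split_ifs
      · rw [hC.d0_TS_nil, map_zero]
      · simp
    | append_singleton l a _ =>
      rw [Pr_d0 hA hσ, ww_concat, Pr_snoc hA, snoc_split (σ := σ) a (ww β l)]
      simp only [map_add, hC.TS_L _ _ (hσ.idem a), hC.TS_M _ _ (hσ.sub a),
        Pr_cons_L hA _ (hσ.idem a), Pr_cons_M hA _ (hσ.sub a), Pr_om, Pr_E hA hσ hC]
  | h0 => simp only [map_zero]
  | hadd x y hx hy => simp only [map_add, hx, hy]
  | hsmul c x hx => simp only [map_smul, hx]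

theorem Pr_dW (hA : Adp β σ.toLinearMap) (hD : DG σ δ) (hC : Calc β σ δ) (s : ℤ)
    (W : WW k B) :
    Pr β σ s (dW β σ δ W) = dW β σ δ (Pr β σ (s + 1) W) := by
  have hσ := hD.split
  refine ww_ext β (f := Pr β σ s ∘ₗ dW β σ δ) (g := dW β σ δ ∘ₗ Pr β σ (s + 1)) (fun l => ?_) W
  simp only [LinearMap.comp_apply]
  induction l generalizing s with
  | nil =>
    rw [hC.dW_nil, Pr_nil]
    split_ifs
    · rw [hC.dW_nil, map_zero]
    · simp
  | cons a l ih =>
    have h0 : δ (a - σ a) = 0 := by rw [map_sub, hD.δσ, sub_self]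
    rw [ww_cons, cons_split (σ := σ) a]
    simp only [map_add, hC.dW_cons, eps_L (hσ.idem a), eps_M (hσ.sub a), map_neg, h0, map_zero,
      LinearMap.zero_apply, LinearMap.neg_apply, Pr_cons_L hA _ (hσ.idem a),
      Pr_cons_M hA _ (hσ.sub a), Pr_cons_M hA _ (hD.σδ (σ a)), ih, sub_add_cancel,
      add_sub_cancel_right]

theorem Pr_DD (hA : Adp β σ.toLinearMap) (hD : DG σ δ) (hC : Calc β σ δ) (s : ℤ)
    (W : WW k B) :
    Pr β σ s (DD β σ δ W) = DD β σ δ (Pr β σ (s + 1) W) := by
  simp only [DD, bT, LinearMap.add_apply, End.mul_apply, map_add, Pr_bp hA hD.split,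
    Pr_dTS hA hD.split hC, Pr_om, Pr_dW hA hD hC]

/-- Words with all letters in `L`. -/
noncomputable def YW (β : Basis B k G) (L : Submodule k G) : Submodule k (WW k B) :=
  Submodule.span k {W | ∃ l : List G, (∀ a ∈ l, a ∈ L) ∧ W = ww β l}

theorem cons_YW {L : Submodule k G} {a : G} (ha : a ∈ L) {W : WW k B} (hW : W ∈ YW β L) :
    cons β a W ∈ YW β L := by
  have : YW β L ≤ (YW β L).comap (cons β a) := by
    refine Submodule.span_le.2 ?_
    rintro _ ⟨l, hl, rfl⟩
    exact Submodule.subset_span ⟨a :: l, by simpa [ha] using hl, rfl⟩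
  exact this hW

theorem cons_XW {N L : Submodule k G} {a : G} (ha : a ∈ N) {W : WW k B} (hW : W ∈ YW β L) :
    cons β a W ∈ XW β N L := by
  have : YW β L ≤ (XW β N L).comap (cons β a) := by
    refine Submodule.span_le.2 ?_
    rintro _ ⟨l, hl, rfl⟩
    exact Submodule.subset_span ⟨a, ha, l, hl, rfl⟩
  exact this hW

theorem Pr_YW (hA : Adp β σ.toLinearMap) {L : Submodule k G} (hL : ∀ a ∈ L, σ a ∈ L)
    (l : List G) (hl : ∀ a ∈ l, a ∈ L) (s : ℤ) : Pr β σ s (ww β l) ∈ YW β L := by
  induction l generalizing s with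
  | nil =>
    rw [Pr_nil]
    split_ifs
    · exact Submodule.subset_span ⟨[], hl, rfl⟩
    · exact Submodule.zero_mem _
  | cons a l ih =>
    have ha := hl a (by simp)
    have hl' : ∀ c ∈ l, c ∈ L := fun c hc => hl c (by simp [hc])
    rw [ww_cons, Pr_cons hA]
    exact Submodule.add_mem _ (cons_YW (hL a ha) (ih hl' _))
      (cons_YW (L.sub_mem ha (hL a ha)) (ih hl' _))

theorem Pr_XW (hA : Adp β σ.toLinearMap) {N L : Submodule k G} (hP : Pair σ δ N L) (s : ℤ)
    {W : WW k B} (hW : W ∈ XW β N L) : Pr β σ s W ∈ XW β N L := by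
  have : XW β N L ≤ (XW β N L).comap (Pr β σ s) := by
    refine Submodule.span_le.2 ?_
    rintro _ ⟨n, hn, l, hl, rfl⟩
    change Pr β σ s (ww β (n :: l)) ∈ XW β N L
    rw [ww_cons, Pr_cons hA]
    exact Submodule.add_mem _ (cons_XW (hP.σN n hn) (Pr_YW hA hP.σL l hl _))
      (cons_XW (N.sub_mem hn (hP.σN n hn)) (Pr_YW hA hP.σL l hl _))
  exact this hW

theorem Pr_fix (hA : Adp β σ.toLinearMap) (l : List G) (hl : ∀ a ∈ l, σ a = a) (s : ℤ) :
    Pr β σ s (ww β l) = if (l.length : ℤ) = s then ww β l else 0 := by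
  induction l generalizing s with
  | nil => rw [Pr_nil]; simp [eq_comm]
  | cons a l ih =>
    rw [ww_cons, Pr_cons_L hA _ (hl a (by simp)), ih (fun c hc => hl c (by simp [hc]))]
    simp only [List.length_cons, Nat.cast_add, Nat.cast_one, eq_sub_iff_add_eq]
    split_ifs
    · rfl
    · simp

theorem Pr_eq_piL (hA : Adp β σ.toLinearMap) (m : ℕ) {W : WW k B}
    (hW : W ∈ XW β (fx σ.toLinearMap) (fx σ.toLinearMap)) : Pr β σ m W = piL k B m W := by
  have : XW β (fx σ.toLinearMap) (fx σ.toLinearMap) ≤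
      LinearMap.eqLocus (Pr β σ m) (piL k B m) := by
    refine Submodule.span_le.2 ?_
    rintro _ ⟨n, hn, l, hl, rfl⟩
    change Pr β σ m (ww β (n :: l)) = piL k B m (ww β (n :: l))
    rw [Pr_fix hA _ (by
      intro a ha
      rcases List.mem_cons.1 ha with rfl | ha
      · exact hn
      · exact hl a ha), piL_ww]
    simp only [Nat.cast_inj]
  exact this hW

end Totx

open Totx in
theorem sTot : STot := by
  intro k G B _ _ _ β σ δ N L hD hC hP hA n z w u hz hz' hw hu h
  refine ⟨Pr β σ ((n + 2 : ℕ) + 1) u, Pr_XW hA hP _ hu, ?_⟩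
  have h1 : Pr β σ (n + 2 : ℕ) z = z := by rw [Pr_eq_piL hA _ hz', piL_of_mem hz]
  have h2 : Pr β σ (n + 2 : ℕ) w = 0 :=
    eq_of_supported (Pr β σ (n + 2 : ℕ)) 0 _ (fun p hp => by
      have h3 : p.2.length = 1 := hp
      have h4 := cnt_le β σ p.2
      rw [Pr_ee, if_neg (by omega)]
      rfl) hw
  rw [← Pr_DD hA hD hC, ← h1, h, map_add, h2, zero_add]

end Pool.Agent.MP_92f1cb_al.H21T
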