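import Pool.Agent.MP_92f1cb_al.H21T.Spec

set_option autoImplicit false

namespace Pool.Agent.MP_92f1cb_al.H21T

open Pool.Agent.MP_92f1cb_al.H14 Pool.Agent.MP_92f1cb_al.H14C Module

namespace Tr2R

variable {k A B A₀ : Type} [Field k] [Ring A] [Algebra k A] [Ring A₀] [Algebra k A₀]
  (β : Basis B k A) (ι : A₀ →ₗ[k] A)

/-- Tensors over the small ring as words. -/
noncomputable def Φ (n : ℕ) : PiTensorProduct k (fun _ : Fin n => A₀) →ₗ[k] WW k B :=
  Phi β 1 n ∘ₗ PiTensorProduct.map fun _ => ι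

theorem Φ_tprod (n : ℕ) (a : Fin n → A₀) :
    Φ β ι n (PiTensorProduct.tprod k a) = ww β (List.ofFn fun i => ι (a i)) := by
  rw [Φ, LinearMap.comp_apply, PiTensorProduct.map_tprod, Phi_tprod]
  rfl

theorem nu_one (W : WW k B) : nu k 1 B W = W := by
  rw [nu_apply, Finset.sum_range_one, Nat.cast_zero, sh_zero]

theorem Φ_inj (hι : Function.Injective ι) (n : ℕ) : LinearMap.ker (Φ β ι n) = ⊥ := by
  obtain ⟨g, hg⟩ := ι.exists_leftInverse_of_injective (LinearMap.ker_eq_bot.2 hι)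
  refine LinearMap.ker_eq_bot'.2 fun z hz => ?_
  have h1 := nu_Phi_injective β (N := 1) n _ ((nu_one _).trans hz)
  have h2 := congrArg (PiTensorProduct.map fun _ : Fin n => g) h1
  rw [← LinearMap.comp_apply, ← PiTensorProduct.map_comp, map_zero] at h2
  simpa [hg] using h2

theorem bH_Φ (hm : ∀ a c, ι (a * c) = ι a * ι c) (n : ℕ) (a : Fin (n + 1 + 1) → A₀) :
    bH β (Φ β ι (n + 1 + 1) (pureTensor k a)) = Φ β ι (n + 1) (hBoundary k a) := by
  have h1 : ∀ i : Fin (n + 1), (fun j => ι (innerFace i a j)) =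
      Fin.contractNth i.castSucc (fun x y : A => x * y) fun j => ι (a j) := fun i => by
    funext j
    simp only [innerFace, Fin.contractNth]
    split_ifs <;> simp [hm]
  have h2 : (fun j => ι (lastFace a j)) = lastFace fun j => ι (a j) := by
    funext j
    induction j using Fin.cases <;> simp [lastFace, hm]
  have h3 := nu_last β (N := 1) (fun _ => 0) n fun j => ι (a j)
  rw [nu_one, nu_one] at h3
  have h4 : ww β (List.ofFn fun j => ι (a j)) ∈ LL k 1 B (n + 1 + 1) := by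
    simpa using ww_mem_LL β (List.ofFn fun j => ι (a j))
  rw [hBoundary, pureTensor, Φ_tprod, bH_apply, bp_eq_sum h4, Finset.sum_range, map_add, map_sum]
  simp only [pureTensor, map_smul, Φ_tprod, h1, h2]
  congr 1
  exact Finset.sum_congr rfl fun i _ => FF_wd β n _ i

theorem Φ_mem (n : ℕ) (z : PiTensorProduct k fun _ : Fin (n + 1) => A₀) :
    Φ β ι (n + 1) z ∈ XW β (LinearMap.range ι) (LinearMap.range ι) := by
  induction z using PiTensorProduct.induction_on with
  | smul_tprod r a =>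
    rw [map_smul, Φ_tprod, List.ofFn_succ]
    refine Submodule.smul_mem _ _ (Submodule.subset_span ⟨_, ⟨a 0, rfl⟩, _, fun x hx => ?_, rfl⟩)
    obtain ⟨i, rfl⟩ := List.mem_ofFn.1 hx
    exact ⟨_, rfl⟩
  | add x y hx hy => rw [map_add]; exact Submodule.add_mem _ hx hy

theorem lift_list (l : List A) (h : ∀ a ∈ l, a ∈ LinearMap.range ι) :
    ∃ l' : List A₀, l'.map ι = l := by
  induction l with
  | nil => exact ⟨[], rfl⟩
  | cons a l ih =>
    obtain ⟨l', rfl⟩ := ih fun x hx => h x (List.mem_cons_of_mem _ hx)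
    obtain ⟨y, rfl⟩ := h a List.mem_cons_self
    exact ⟨y :: l', rfl⟩

theorem piL_mem (n : ℕ) {W : WW k B} (hW : W ∈ XW β (LinearMap.range ι) (LinearMap.range ι)) :
    piL k B n W ∈ LinearMap.range (Φ β ι n) := by
  refine (Submodule.span_le.2 ?_ : _ ≤ (LinearMap.range (Φ β ι n)).comap (piL k B n)) hW
  rintro _ ⟨a, ha, l, hl, rfl⟩
  obtain ⟨l', e0⟩ := lift_list ι (a :: l) fun x hx =>
    (List.mem_cons.1 hx).elim (fun e => e ▸ ha) (hl x)
  show piL k B n (ww β (a :: l)) ∈ LinearMap.range (Φ β ι n)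
  rw [← e0, piL_ww]
  split_ifs with e
  · rw [List.length_map] at e
    subst e
    refine ⟨PiTensorProduct.tprod k l'.get, ?_⟩
    rw [Φ_tprod]
    congr 1
    conv_rhs => rw [← List.ofFn_get l', List.map_ofFn]
    rfl
  · exact Submodule.zero_mem _

end Tr2R

open Tr2R in
theorem sTr2 : STr2 := by
  intro k A B A₀ _ _ _ _ _ β ι V u h hE
  obtain rfl := h.range
  choose Ψ hΨ using fun n => (Φ β ι n).exists_leftInverse_of_injective (Φ_inj β ι h.inj n)
  have hΨ' : ∀ n z, Ψ n (Φ β ι n z) = z := fun n z => LinearMap.congr_fun (hΨ n) z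
  have hc : ∀ n z, Φ β ι (n + 1) (Ψ (n + 1) (bH β (Φ β ι (n + 1 + 1) z))) =
      bH β (Φ β ι (n + 1 + 1) z) := fun n z => by
    induction z using PiTensorProduct.induction_on with
    | smul_tprod r a =>
      have := bH_Φ β ι h.mul n a
      rw [pureTensor] at this
      simp only [map_smul, this, hΨ']
    | add x y hx hy => simp only [map_add, hx, hy]
  refine ⟨fun n => Ψ (n + 1) ∘ₗ bH β ∘ₗ Φ β ι (n + 1 + 1), fun n a => ?_, fun n _ x hx => ?_⟩
  · exact (congrArg (Ψ (n + 1)) (bH_Φ β ι h.mul n a)).trans (hΨ' _ _)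
  have hz : bH β (Φ β ι (n + 1 + 1) x) = 0 := by
    rw [← hc]
    exact (congrArg (Φ β ι (n + 1)) hx).trans (map_zero _)
  have e : Φ β ι (n + 1 + 1) x ∈ LL k 1 B (n + 1 + 1) := Phi_mem_LL β _ _
  obtain ⟨w, hw, e'⟩ := hE n _ (Φ_mem β ι _ x) e hz
  obtain ⟨y, hy⟩ := piL_mem β ι (n + 1 + 1 + 1) hw
  have hy' : bH β (Φ β ι (n + 1 + 1 + 1) y) = Φ β ι (n + 1 + 1) x := by
    rw [hy, ← piL_bH, e', piL_of_mem e]
  exact ⟨y, (congrArg (Ψ (n + 1 + 1)) hy').trans (hΨ' _ _)⟩

theorem sGr2 : SGr2 := by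
  intro k G R _ _ _ _ _ ι V y gr N h h1 h2 h3 h4 h5 h6 h7 h8
  obtain rfl := h.range
  have iv : ∀ r, ι r ∈ LinearMap.range ι := fun r => ⟨r, rfl⟩
  choose e he using fun i => (h5 i).1
  let 𝒜 : ℕ → Submodule k R := fun n => (fx (gr n)).comap ι
  have mem : ∀ n r, r ∈ 𝒜 n ↔ gr n (ι r) = ι r := fun n r => Iff.rfl
  have internal : DirectSum.IsInternal 𝒜 := by
    refine DirectSum.isInternal_submodule_of_iSupIndep_of_iSup_eq_top (fun d => ?_) ?_
    · refine Disjoint.mono_right (c := LinearMap.ker (gr d ∘ₗ ι))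
        (iSup₂_le fun d' hd a ha => ?_) (Submodule.disjoint_def.2 fun a a1 a2 => ?_)
      · show gr d (ι a) = 0
        rw [← (mem d' a).1 ha, h3, if_neg (Ne.symm hd)]
      · have a3 : gr d (ι a) = 0 := a2
        exact h.inj (((mem d a).1 a1).symm.trans (a3.trans (map_zero ι).symm))
    · refine eq_top_iff.2 fun a _ => ?_
      choose c hc using fun n => h1 n _ (iv a)
      have e1 : a = ∑ n ∈ Finset.range N, c n := h.inj (by
        rw [map_sum, ← h2 _ (iv a)]
        exact Finset.sum_congr rfl fun n _ => (hc n).symm)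
      rw [e1]
      refine sum_mem fun n _ => Submodule.mem_iSup_of_mem n ((mem n _).2 ?_)
      rw [hc, h3, if_pos rfl]
  have em : ∀ i, e i ∈ 𝒜 0 := fun i => (mem 0 _).2 (by rw [he]; exact (h5 i).2.2.2)
  have sum : ∑ i, e i = 1 := h.inj (by rw [Fin.sum_univ_two, map_add, he, he, h.one])
  refine ⟨𝒜, { internal.chooseDecomposition with
    one_mem := ?_
    mul_mem := fun n m a c ha hc => (mem _ _).2 ?_ }, e, ⟨⟨fun i => ?_, ?_⟩, sum⟩,
    fun i hi => (h5 i).2.1 ?_, le_antisymm (fun a ha => ?_) (Submodule.span_le.2 ?_)⟩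
  · rw [← sum]
    exact sum_mem fun i _ => em i
  · rw [h.mul]
    exact h4 n m _ (iv a) _ (iv c) ha hc
  · exact h.inj (by rw [h.mul, he, (h5 i).2.2.1])
  · intro i j hij
    refine h.inj ?_
    rw [h.mul, he, he, map_zero]
    fin_cases i <;> fin_cases j
    · exact absurd rfl hij
    · exact h6
    · exact h7
    · exact absurd rfl hij
  · rw [← he, hi, map_zero]
  · obtain ⟨c, c', hc⟩ := h8 _ (iv a)
    have e1 : a = c • e 0 + c' • e 1 := h.inj (by
      rw [map_add, map_smul, map_smul, he, he, ← hc, (mem 0 a).1 ha])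
    rw [e1]
    exact add_mem (Submodule.smul_mem _ _ (Submodule.subset_span ⟨0, rfl⟩))
      (Submodule.smul_mem _ _ (Submodule.subset_span ⟨1, rfl⟩))
  · rintro _ ⟨c, rfl⟩
    exact em c

end Pool.Agent.MP_92f1cb_al.H21T
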