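import Pool.Agent.MP_92f1cb_al.H21T.Spec

set_option autoImplicit false

namespace Pool.Agent.MP_92f1cb_al.H21T

open Pool.Agent.MP_92f1cb_al.H14 Pool.Agent.MP_92f1cb_al.H14C Module CategoryTheory

namespace TriR

theorem pd_res {R : Type} [Ring R] (D : ℕ) :
    ∀ (P : ℕ → Type) [∀ n, AddCommGroup (P n)] [∀ n, Module R (P n)]
      [∀ n, Module.Projective R (P n)] (d : ∀ n, P (n + 1) →ₗ[R] P n),
      (∀ n x, d n (d (n + 1) x) = 0) → (∀ n x, d n x = 0 → ∃ y, d (n + 1) y = x) →
      ∀ (X : Type) [AddCommGroup X] [Module R X] (ε : P 0 →ₗ[R] X), Function.Surjective ε →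
      (∀ x, ε (d 0 x) = 0) → (∀ x, ε x = 0 → ∃ y, d 0 y = x) → (∀ y : P (D + 1), y = 0) →
      PD R D X := by
  induction D with
  | zero =>
    intro P _ _ _ d _ _ X _ _ ε h1 _ h3 h4
    have hi : Function.Injective ε := (injective_iff_map_eq_zero ε).2 fun x hx => by
      obtain ⟨y, rfl⟩ := h3 x hx
      rw [h4 y, map_zero]
    exact Module.Projective.of_equiv (LinearEquiv.ofBijective ε ⟨hi, h1⟩)
  | succ D ih =>
    intro P _ _ _ d dd ex X _ _ ε h1 h2 h3 h4
    refine ⟨P 0, inferInstance, inferInstance, ε, inferInstance, h1, ?_⟩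
    refine ih (fun n => P (n + 1)) (fun n => d (n + 1)) (fun n => dd (n + 1))
      (fun n => ex (n + 1)) _ ((d 0).codRestrict (LinearMap.ker ε) h2) ?_
      (fun x => Subtype.ext (dd 0 x)) (fun x hx => ex 0 x (congrArg Subtype.val hx)) h4
    rintro ⟨x, hx⟩
    obtain ⟨y, hy⟩ := h3 x hx
    exact ⟨y, Subtype.ext hy⟩

variable {R R' : Type} [Ring R] [Ring R']

theorem proj_tr (κ : R' →+* R) (J : R →+ R') (h1 : ∀ a r, J (κ a * r) = a * J r)
    (h2 : ∀ r, κ (J r) = r) {Y Y' : Type} [AddCommGroup Y] [Module R Y] [AddCommGroup Y']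
    [Module R' Y'] (φ : Y ≃+ Y') (hφ : ∀ a y, φ (κ a • y) = a • φ y)
    (h : Module.Projective R Y) : Module.Projective R' Y' := by
  obtain ⟨s, hs⟩ := Module.projective_def.1 h
  have hφ' : ∀ (a : R') y, φ.symm (a • y) = κ a • φ.symm y := fun a y => by
    apply φ.injective
    rw [hφ, φ.apply_symm_apply, φ.apply_symm_apply]
  let i : Y' →ₗ[R'] (Y →₀ R') :=
    { toFun := fun y => Finsupp.mapRange.addMonoidHom J (s (φ.symm y))
      map_add' := fun a b => by rw [map_add, map_add, map_add]
      map_smul' := fun a y => by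
        ext z
        rw [hφ', map_smul]
        exact h1 a _ }
  have key : ∀ w : Y →₀ R, Finsupp.linearCombination R' φ (Finsupp.mapRange.addMonoidHom J w) =
      φ (Finsupp.linearCombination R id w) := fun w => by
    induction w using Finsupp.induction_linear with
    | zero => simp
    | add u w hu hw => simp only [map_add, hu, hw]
    | single z c =>
      have e1 : Finsupp.mapRange.addMonoidHom J (Finsupp.single z c) = Finsupp.single z (J c) :=
        Finsupp.mapRange_single (hf := map_zero J)
      rw [e1, Finsupp.linearCombination_single, Finsupp.linearCombination_single, ← hφ, h2]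
      rfl
  refine Module.Projective.of_split i (Finsupp.linearCombination R' φ) ?_
  ext y
  change Finsupp.linearCombination R' φ (Finsupp.mapRange.addMonoidHom J (s (φ.symm y))) = y
  rw [key, hs, φ.apply_symm_apply]

theorem pd_tr (κ : R' →+* R) (J : R →+ R') (h1 : ∀ a r, J (κ a * r) = a * J r)
    (h2 : ∀ r, κ (J r) = r) (n : ℕ) : ∀ (Y Y' : Type) [AddCommGroup Y] [Module R Y]
    [AddCommGroup Y'] [Module R' Y'] (φ : Y ≃+ Y'), (∀ a y, φ (κ a • y) = a • φ y) →
    PD R n Y → PD R' n Y' := by
  induction n with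
  | zero => exact fun Y Y' _ _ _ _ φ hφ h => proj_tr κ J h1 h2 φ hφ h
  | succ n ih =>
    rintro Y Y' _ _ _ _ φ hφ ⟨P, _, _, π, hP, hπ, hk⟩
    let _ : Module R' P := Module.compHom P κ
    let π' : P →ₗ[R'] Y' :=
      { toFun := fun x => φ (π x)
        map_add' := fun a b => by rw [map_add, map_add]
        map_smul' := fun a x => by
          change φ (π (κ a • x)) = a • φ (π x)
          rw [map_smul, hφ] }
    refine ⟨P, inferInstance, inferInstance, π',
      proj_tr κ J h1 h2 (AddEquiv.refl P) (fun _ _ => rfl) hP, φ.surjective.comp hπ, ?_⟩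
    refine ih (LinearMap.ker π) (LinearMap.ker π')
      { toFun := fun x => ⟨x.1, by
          change φ (π x.1) = 0
          rw [LinearMap.mem_ker.1 x.2, map_zero]⟩
        invFun := fun x => ⟨x.1, φ.injective (by rw [map_zero]; exact x.2)⟩
        left_inv := fun _ => rfl
        right_inv := fun _ => rfl
        map_add' := fun _ _ => rfl } (fun _ _ => rfl) hk

theorem cover {k : Type} [Field k] [Algebra k R'] (e f : R') (he : e * e = e) (hs : e + f = 1)
    (h0 : ∀ a, e * a * f = 0) (hc : ∀ a, ∃ c : k, e * a * e = c • e)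
    (X : Type) [AddCommGroup X] [Module R' X] :
    ∃ (P : Type) (_ : AddCommGroup P) (_ : Module R' P) (π : P →ₗ[R'] X),
      Module.Projective R' P ∧ Function.Surjective π ∧ ∀ x, π x = 0 → e • x = 0 := by
  classical
  have hf : f * f = f := by
    have h1 : f = 1 - e := by rw [← hs]; abel
    rw [h1, mul_sub, sub_mul, sub_mul, he]
    simp
  choose c hc using hc
  let _ : Module k X := Module.compHom X (algebraMap k R')
  have hk : ∀ (r : k) (y : X), r • y = algebraMap k R' r • y := fun _ _ => rfl
  obtain ⟨b, hb1, hb2, hb3⟩ := exists_linearIndependent k {x : X | e • x = x}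
  let T : ((b →₀ R') × (X →₀ R')) →ₗ[R'] ((b →₀ R') × (X →₀ R')) :=
    (Finsupp.mapRange.linearMap (LinearMap.toSpanSingleton R' R' e)).prodMap
      (Finsupp.mapRange.linearMap (LinearMap.toSpanSingleton R' R' f))
  have T1 : ∀ w i, (T w).1 i = w.1 i * e := fun _ _ => rfl
  have T2 : ∀ w i, (T w).2 i = w.2 i * f := fun _ _ => rfl
  let p : ((b →₀ R') × (X →₀ R')) →ₗ[R'] X :=
    (Finsupp.linearCombination R' (fun i : b => (i : X))).coprod (Finsupp.linearCombination R' id)
  have hp : ∀ w, p w = Finsupp.linearCombination R' (fun i : b => (i : X)) w.1 +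
      Finsupp.linearCombination R' id w.2 := fun _ => rfl
  refine ⟨LinearMap.range T, inferInstance, inferInstance, p ∘ₗ (LinearMap.range T).subtype,
    Module.Projective.of_split (LinearMap.range T).subtype T.rangeRestrict ?_, fun x => ?_, ?_⟩
  · refine LinearMap.ext ?_
    rintro ⟨_, w, rfl⟩
    refine Subtype.ext (Prod.ext (Finsupp.ext fun i => ?_) (Finsupp.ext fun i => ?_))
    · change (T (T w)).1 i = (T w).1 i
      rw [T1, T1, mul_assoc, he]
    · change (T (T w)).2 i = (T w).2 i
      rw [T2, T2, mul_assoc, hf]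
  · have a1 : ∀ y ∈ Submodule.span k b, y ∈ LinearMap.range (p ∘ₗ T) := fun y hy => by
      induction hy using Submodule.span_induction with
      | mem y hy =>
        refine ⟨(Finsupp.single ⟨y, hy⟩ 1, 0), ?_⟩
        have : e • y = y := hb1 hy
        simpa [p, T] using this
      | zero => exact zero_mem _
      | add y z _ _ h1 h2 => exact add_mem h1 h2
      | smul r y _ h1 => rw [hk]; exact Submodule.smul_mem _ _ h1
    have a2 : e • x ∈ LinearMap.range (p ∘ₗ T) := a1 _ (by
      rw [hb2]
      exact Submodule.subset_span (show e • e • x = e • x by rw [smul_smul, he]))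
    have a3 : f • x ∈ LinearMap.range (p ∘ₗ T) := ⟨(0, Finsupp.single x 1), by simp [p, T]⟩
    have a4 := add_mem a2 a3
    rw [← add_smul, hs, one_smul] at a4
    obtain ⟨w, hw⟩ := a4
    exact ⟨⟨T w, w, rfl⟩, hw⟩
  · rintro ⟨_, w, rfl⟩ hw
    have b2 : (e • T w).2 = 0 := Finsupp.ext fun i => by
      change e * (T w).2 i = 0
      rw [T2, ← mul_assoc, h0]
    have b1 : ∀ i, (e • T w).1 i = c (w.1 i) • e := fun i => by
      change e * (T w).1 i = _
      rw [T1, ← mul_assoc, hc]
    have b3 : p (e • T w) = 0 := by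
      rw [map_smul, show p (T w) = 0 from hw, smul_zero]
    rw [hp, b2, map_zero, add_zero, Finsupp.linearCombination_apply, Finsupp.sum] at b3
    have b4 := linearIndependent_iff'.1 hb3 (e • T w).1.support (fun i => c (w.1 i)) (by
      rw [← b3]
      refine Finset.sum_congr rfl fun i _ => ?_
      have : e • (i : X) = i := hb1 i.2
      rw [b1, Algebra.smul_def, mul_smul, this, hk])
    refine Subtype.ext (Prod.ext (Finsupp.ext fun i => ?_) b2)
    change (e • T w).1 i = 0
    by_contra hi
    exact hi (by rw [b1, b4 i (Finsupp.mem_support_iff.2 hi), zero_smul])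

end TriR

theorem sPd : SPd := by
  intro R _ D hD X _ _
  obtain ⟨Q, hQ⟩ := hD (ModuleCat.of R X)
  let ε : Q.complex.X 0 ⟶ ModuleCat.of R X := Q.π.f 0
  have hε : Epi ε := inferInstanceAs (Epi (Q.π.f 0))
  have := ModuleCat.subsingleton_of_isZero (hQ (D + 1) (Nat.lt_succ_self D))
  exact TriR.pd_res D (fun n => Q.complex.X n) (fun n => (Q.complex.d (n + 1) n).hom)
    (fun n x => LinearMap.congr_fun (congrArg ModuleCat.Hom.hom (Q.complex.d_comp_d _ _ _)) x)
    (fun n => (ShortComplex.moduleCat_exact_iff _).1 (Q.exact_succ n)) X ε.hom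
    ((ModuleCat.epi_iff_surjective ε).1 hε)
    (fun x => LinearMap.congr_fun (congrArg ModuleCat.Hom.hom Q.complex_d_comp_π_f_zero) x)
    ((ShortComplex.moduleCat_exact_iff _).1 Q.exact₀) (fun y => Subsingleton.elim y 0)

theorem sTri : STri := by
  intro k R R' _ _ _ _ _ j e f D he hs h0 hc hj hR X _ _
  have hf : f * f = f := by rw [← hj.one, ← hj.mul, mul_one]
  have hfa : ∀ a, f * (a * f) = a * f := fun a => by
    have h1 : (e + f) * (a * f) = a * f := by rw [hs, one_mul]
    rwa [add_mul, ← mul_assoc, h0, zero_add] at h1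
  have hr : ∀ a, ∃ r, j r = a * f := fun a => by
    have : a * f ∈ LinearMap.range j := by
      rw [hj.range, mem_cor]
      exact ⟨⟨trivial, hfa a⟩, by rw [mul_assoc, hf]⟩
    exact this
  choose g hg using hr
  have hl : ∀ r, f * j r = j r := fun r => by rw [← hj.one, ← hj.mul, one_mul]
  have hm : ∀ r, j r * f = j r := fun r => by rw [← hj.one, ← hj.mul, mul_one]
  let κ : R' →+* R :=
    { toFun := g
      map_one' := hj.inj (by rw [hg, one_mul, hj.one])
      map_mul' := fun a b => hj.inj (by rw [hj.mul, hg, hg, hg, mul_assoc, mul_assoc, hfa])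
      map_zero' := hj.inj (by rw [hg, zero_mul, map_zero])
      map_add' := fun a b => hj.inj (by rw [map_add, hg, hg, hg, add_mul]) }
  obtain ⟨P, _, _, π, hP, hπ, hk⟩ := TriR.cover (k := k) e f he hs h0 hc X
  refine ⟨P, inferInstance, inferInstance, π, hP, hπ, ?_⟩
  have hfx : ∀ x : LinearMap.ker π, f • x = x := fun x => by
    have h1 : (e + f) • x = x := by rw [hs, one_smul]
    have h2 : e • x = 0 := Subtype.ext (hk x.1 x.2)
    rwa [add_smul, h2, zero_add] at h1
  let _ : Module R (LinearMap.ker π) :=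
    { smul := fun r x => j r • x
      one_smul := fun x => by change j 1 • x = x; rw [hj.one, hfx]
      mul_smul := fun a b x => by change j (a * b) • x = j a • j b • x; rw [hj.mul, mul_smul]
      smul_zero := fun a => smul_zero (j a)
      smul_add := fun a x y => smul_add (j a) x y
      add_smul := fun a b x => by change j (a + b) • x = j a • x + j b • x; rw [map_add, add_smul]
      zero_smul := fun x => by change j 0 • x = 0; rw [map_zero, zero_smul] }
  refine TriR.pd_tr κ j.toAddMonoidHom (fun a r => ?_) (fun r => hj.inj ?_) D _ _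
    (AddEquiv.refl (LinearMap.ker π)) (fun a y => ?_) (hR _)
  · change j (g a * r) = a * j r
    rw [hj.mul, hg, mul_assoc, hl]
  · change j (g (j r)) = j r
    rw [hg, hm]
  · change j (g a) • y = a • y
    rw [hg, mul_smul, hfx]

end Pool.Agent.MP_92f1cb_al.H21T
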