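import Pool.Agent.MP_92f1cb_al.H21T.Spec

set_option autoImplicit false

namespace Pool.Agent.MP_92f1cb_al.H21T

open Pool.Agent.MP_92f1cb_al.H14 Pool.Agent.MP_92f1cb_al.H14C Module

namespace WmR

variable {k G B G' B' : Type} [Field k] [Ring G] [Algebra k G] [Ring G'] [Algebra k G']
  (β : Basis B k G) (β' : Basis B' k G') (φ : G →ₗ[k] G')

theorem wm_ee (c : ZMod 1) (w : List B) :
    wm β β' φ (ee (c, w)) = ww β' (w.map fun x => φ (β x)) := by
  simp [wm, ee]

theorem wm_nil : wm β β' φ (ww β []) = ww β' [] := wm_ee β β' φ 0 []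

theorem wm_cons (a : G) (W : WW k B) :
    wm β β' φ (cons β a W) = cons β' (φ a) (wm β β' φ W) := by
  induction a using basis_ind' β with
  | hb x =>
    induction W using ee_ind with
    | hb c w => rw [← ee_cons, wm_ee, wm_ee, List.map_cons, ww_cons]
    | h0 => simp
    | hadd x y hx hy => simp only [map_add, hx, hy]
    | hsmul c x hx => simp only [map_smul, hx]
  | h0 => simp
  | hadd x y hx hy => simp only [map_add, LinearMap.add_apply, hx, hy]
  | hsmul c x hx => simp only [map_smul, LinearMap.smul_apply, hx]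

theorem wm_ww (l : List G) : wm β β' φ (ww β l) = ww β' (l.map φ) := by
  induction l with
  | nil => exact wm_nil β β' φ
  | cons a l ih => rw [ww_cons, wm_cons, ih, List.map_cons, ww_cons]

theorem wm_snoc (a : G) (W : WW k B) :
    wm β β' φ (snoc β a W) = snoc β' (φ a) (wm β β' φ W) := by
  refine ww_ext β (f := wm β β' φ ∘ₗ snoc β a) (g := snoc β' (φ a) ∘ₗ wm β β' φ) (fun l => ?_) W
  simp only [LinearMap.comp_apply]
  rw [← ww_concat, wm_ww, wm_ww, List.map_append, List.map_singleton, ww_concat]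

theorem wm_om (W : WW k B) : wm β β' φ (om W) = om (wm β β' φ W) := by
  refine ww_ext β (f := wm β β' φ ∘ₗ om) (g := om ∘ₗ wm β β' φ) (fun l => ?_) W
  simp only [LinearMap.comp_apply]
  rw [om_ww, map_smul, wm_ww, om_ww, List.length_map]

theorem wm_TH (W : WW k B) : wm β β' φ (TH k B W) = TH k B' (wm β β' φ W) := by
  refine ww_ext β (f := wm β β' φ ∘ₗ TH k B) (g := TH k B' ∘ₗ wm β β' φ) (fun l => ?_) W
  simp only [LinearMap.comp_apply]
  induction l using List.reverseRecOn with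
  | nil => rw [TH_nil, map_neg, wm_nil, TH_nil]
  | append_singleton l a _ => rw [ww_concat, TH_snoc, wm_cons, wm_om, wm_snoc, TH_snoc]

theorem wm_d0 (V : Submodule k G) (hV : ∀ a ∈ V, ∀ c ∈ V, φ (a * c) = φ a * φ c) (l : List G)
    (hl : ∀ a ∈ l, a ∈ V) : wm β β' φ (d0 β (ww β l)) = d0 β' (wm β β' φ (ww β l)) := by
  match l, hl with
  | [], _ => rw [d0_ww_nil, wm_nil, d0_ww_nil, map_zero]
  | [a], _ => rw [ww_cons, d0_ww_one, wm_cons, wm_nil, d0_ww_one, map_zero]
  | a :: c :: l, hl =>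
    rw [ww_cons, ww_cons, d0_cons_cons, wm_cons, wm_cons, wm_cons, d0_cons_cons,
      hV a (hl a (by simp)) c (hl c (by simp))]

theorem wm_bp (V : Submodule k G) (hV : ∀ a ∈ V, ∀ c ∈ V, φ (a * c) = φ a * φ c) (l : List G)
    (hl : ∀ a ∈ l, a ∈ V) : wm β β' φ (bp β (ww β l)) = bp β' (wm β β' φ (ww β l)) := by
  induction l with
  | nil => rw [bp_ww_nil, wm_nil, bp_ww_nil, map_zero]
  | cons a l ih =>
    have h1 := wm_d0 β β' φ V hV (a :: l) hl
    rw [ww_cons] at h1
    rw [ww_cons, bp_cons, map_sub, h1, wm_cons, wm_cons, ih fun c hc => hl c (by simp [hc]),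
      bp_cons]

theorem wm_bH (V : Submodule k G) (hV : ∀ a ∈ V, ∀ c ∈ V, φ (a * c) = φ a * φ c) (l : List G)
    (hl : ∀ a ∈ l, a ∈ V) : wm β β' φ (bH β (ww β l)) = bH β' (wm β β' φ (ww β l)) := by
  rw [bH_apply, bH_apply, map_add, wm_bp β β' φ V hV l hl, ← wm_TH]
  congr 1
  induction l using List.reverseRecOn with
  | nil => rw [TH_nil, map_neg, map_neg, map_neg, map_neg, wm_d0 β β' φ V hV [] hl]
  | append_singleton l a _ =>
    rw [TH_concat, map_smul, map_smul, map_smul, map_smul,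
      wm_d0 β β' φ V hV (a :: l) fun c hc => hl c (by simpa [or_comm] using hc)]

theorem dW_nil (σ : G →ₐ[k] G) (δ : End k G) : dW β σ δ (ww β []) = 0 := by
  simp [dW, ww_nil, dl]

theorem dW_cons (σ : G →ₐ[k] G) (δ : End k G) (a : G) (W : WW k B) :
    dW β σ δ (cons β a W) = cons β (δ a) W + cons β (eps σ a) (dW β σ δ W) := by
  induction a using basis_ind' β with
  | hb x =>
    induction W using ee_ind with
    | hb c w =>
      rw [← ee_cons]
      simp only [dW, mk_ee, List.map_cons, dl]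
      rw [ee_eq_ww β]
    | h0 => simp
    | hadd x y hx hy => simp only [map_add, hx, hy]; abel
    | hsmul c x hx => simp only [map_smul, hx, smul_add]
  | h0 => simp
  | hadd x y hx hy => simp only [map_add, LinearMap.add_apply, hx, hy]; abel
  | hsmul c x hx => simp only [map_smul, LinearMap.smul_apply, hx, smul_add]

variable {φ} {σ : G →ₐ[k] G} {δ : End k G} {σ' : G' →ₐ[k] G'} {δ' : End k G'}

theorem map_eps (hσ : ∀ a, φ (σ a) = σ' (φ a)) (a : G) : φ (eps σ a) = eps σ' (φ a) := by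
  simp only [eps, LinearMap.sub_apply, End.one_apply, AlgHom.toLinearMap_apply, map_sub, hσ]

theorem wm_E (hσ : ∀ a, φ (σ a) = σ' (φ a)) (W : WW k B) :
    wm β β' φ (wm β β (eps σ) W) = wm β' β' (eps σ') (wm β β' φ W) := by
  refine ww_ext β (f := wm β β' φ ∘ₗ wm β β (eps σ)) (g := wm β' β' (eps σ') ∘ₗ wm β β' φ)
    (fun l => ?_) W
  simp only [LinearMap.comp_apply]
  induction l with
  | nil => simp only [wm_nil]
  | cons a l ih => simp only [ww_cons, wm_cons, ih, map_eps hσ]

theorem wm_Tt (hσ : ∀ a, φ (σ a) = σ' (φ a)) (W : WW k B) :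
    wm β β' φ (H1R.Tt β σ W) = H1R.Tt β' σ' (wm β β' φ W) := by
  refine ww_ext β (f := wm β β' φ ∘ₗ H1R.Tt β σ) (g := H1R.Tt β' σ' ∘ₗ wm β β' φ) (fun l => ?_) W
  simp only [LinearMap.comp_apply]
  induction l using List.reverseRecOn with
  | nil => rw [H1R.Tt_nil, wm_nil, H1R.Tt_nil, map_zero]
  | append_singleton l a _ =>
    rw [ww_concat, H1R.Tt_snoc, wm_cons, wm_om, wm_snoc, H1R.Tt_snoc, hσ]

theorem wm_dW (hσ : ∀ a, φ (σ a) = σ' (φ a)) (hδ : ∀ a, φ (δ a) = δ' (φ a)) (W : WW k B) :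
    wm β β' φ (dW β σ δ W) = dW β' σ' δ' (wm β β' φ W) := by
  refine ww_ext β (f := wm β β' φ ∘ₗ dW β σ δ) (g := dW β' σ' δ' ∘ₗ wm β β' φ) (fun l => ?_) W
  simp only [LinearMap.comp_apply]
  induction l with
  | nil => rw [dW_nil, wm_nil, dW_nil, map_zero]
  | cons a l ih => simp only [ww_cons, dW_cons, map_add, wm_cons, ih, map_eps hσ, hδ]

theorem wm_DD (hm : ∀ a c, φ (a * c) = φ a * φ c) (hσ : ∀ a, φ (σ a) = σ' (φ a))
    (hδ : ∀ a, φ (δ a) = δ' (φ a)) (W : WW k B) :
    wm β β' φ (DD β σ δ W) = DD β' σ' δ' (wm β β' φ W) := by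
  have h0 : ∀ W, wm β β' φ (d0 β W) = d0 β' (wm β β' φ W) :=
    ww_ext β (f := wm β β' φ ∘ₗ d0 β) (g := d0 β' ∘ₗ wm β β' φ) fun l =>
      wm_d0 β β' φ ⊤ (fun a _ c _ => hm a c) l fun _ _ => trivial
  have h1 : ∀ W, wm β β' φ (bp β W) = bp β' (wm β β' φ W) :=
    ww_ext β (f := wm β β' φ ∘ₗ bp β) (g := bp β' ∘ₗ wm β β' φ) fun l =>
      wm_bp β β' φ ⊤ (fun a _ c _ => hm a c) l fun _ _ => trivial
  simp only [DD, bT, TS, LinearMap.add_apply, LinearMap.sub_apply, End.mul_apply, map_add, map_sub,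
    h0, h1, wm_om, wm_TH, wm_Tt β β' hσ, wm_E β β' hσ, wm_dW β β' hσ hδ]

end WmR

open WmR in
theorem sWM : SWM := by
  intro k G B G' B' _ _ _ _ _ β β' φ
  refine ⟨wm_ww β β' φ, fun V hV z hz => ?_, fun σ δ σ' δ' hm hσ hδ => wm_DD β β' hm hσ hδ⟩
  have hV' : ∀ a ∈ V, ∀ c ∈ V, φ (a * c) = φ a * φ c := fun a ha c hc => (hV a ha c hc).2
  induction hz using Submodule.span_induction with
  | mem W hW =>
    obtain ⟨n, hn, l, hl, rfl⟩ := hW
    have h : ∀ a ∈ n :: l, a ∈ V := List.forall_mem_cons.2 ⟨hn, hl⟩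
    exact ⟨wm_bH β β' φ V hV' _ h, wm_bp β β' φ V hV' _ h⟩
  | zero => simp
  | add x y _ _ hx hy => simp only [map_add, hx.1, hx.2, hy.1, hy.2, and_self]
  | smul c x _ hx => simp only [map_smul, hx.1, hx.2, and_self]

theorem sAdp : SAdp := by
  intro k G I _ _ _ _ P hP hc
  classical
  have key : ∀ t : Finset I, ∀ a : G,
      a ∈ Submodule.span k {v : G | ∀ i ∈ t, P i v = v ∨ P i v = 0} := by
    intro t
    induction t using Finset.induction_on with
    | empty => exact fun a => Submodule.subset_span (by simp)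
    | insert j t _ ih =>
      intro a
      refine Submodule.span_le.2 (fun v hv => ?_) (ih a)
      have e : v = P j v + (v - P j v) := by abel
      rw [e]
      refine Submodule.add_mem _ (Submodule.subset_span fun i hi => ?_)
        (Submodule.subset_span fun i hi => ?_)
      · rcases Finset.mem_insert.1 hi with rfl | hi
        · exact Or.inl (hP _ v)
        · rcases hv i hi with h | h
          · exact Or.inl (by rw [hc, h])
          · exact Or.inr (by rw [hc, h, map_zero])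
      · rcases Finset.mem_insert.1 hi with rfl | hi
        · exact Or.inr (by rw [map_sub, hP, sub_self])
        · rcases hv i hi with h | h
          · exact Or.inl (by rw [map_sub, hc, h])
          · exact Or.inr (by rw [map_sub, hc, h, map_zero, sub_zero])
  obtain ⟨b, hb, hs, hi⟩ :=
    exists_linearIndependent k {v : G | ∀ i ∈ (Finset.univ : Finset I), P i v = v ∨ P i v = 0}
  refine ⟨b, Basis.mk hi (fun a _ => ?_), fun i x => ?_⟩
  · rw [Subtype.range_coe, hs]
    exact key _ a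
  · rw [Basis.mk_apply]
    exact hb x.2 i (Finset.mem_univ i)

end Pool.Agent.MP_92f1cb_al.H21T
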